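import Pool.Agent.Lib_helper78.CF.Defs

/-!
# Explicit forms and auxiliary definitions for the proof (MP_9e47d4_ag.InsideFd)
-/

open MvPolynomial IsLocalRing

namespace Pool.Agent.CF

/-! ### Explicit forms -/

section forms
variable (R : Type*) [CommRing R]

/-- `ω₀ = A0 dx + B0 dy` -/
noncomputable def A0 : Po R := X 1 + 3 * X 0 * X 1 + 8 * X 0 ^ 2 * X 1 - 2 * X 1 ^ 3
noncomputable def B0 : Po R :=
  X 0 - 2 * X 0 ^ 2 + X 1 ^ 2 - 8 * X 0 ^ 3 + 2 * X 0 * X 1 ^ 2

/-- `ω₀` near the point at infinity `z = 0, w = 2` (`x = 1/z, y = w/z`, `Z = z`, `W = w - 2`):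
`z^5 ω₀ = Z (c0T dZ + P0T dW)` -/
noncomputable def c0T : Po R := -((2 + X 1) + (2 + X 1) ^ 3 + 2 * X 0 * (2 + X 1))
noncomputable def P0T : Po R :=
  2 * (2 + X 1) ^ 2 - 8 - 2 * X 0 + (2 + X 1) ^ 2 * X 0 + X 0 ^ 2

end forms

/-! ### The family `E(3)` -/

section fam
variable {R : Type*} [CommRing R]

noncomputable def fF (L s a : Po R) : Po R := s ^ 2 + L * a
noncomputable def gF (L s a c : Po R) : Po R := 2 * s ^ 3 + 3 * L * s * a + 2 * L ^ 2 * c

/-- `L · Ph = 2 f dg - 3 g df` with `f = fF`, `g = gF` -/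
noncomputable def Ph (i : Fin 2) (L s a c : Po R) : Po R :=
  (8 * s ^ 2 * c - 3 * s * a ^ 2) * pderiv i L +
    L * (4 * s ^ 2 * pderiv i c + (6 * a ^ 2 - 12 * c * s) * pderiv i s
      - 3 * s * a * pderiv i a + 2 * a * c * pderiv i L) +
    L ^ 2 * (4 * a * pderiv i c - 6 * c * pderiv i a)

/-- the derivative of `Ph` at `(L, s, a, c)` in the direction `(l, t, b, d)` -/
noncomputable def DPh (i : Fin 2) (L s a c l t b d : Po R) : Po R :=
  (16 * s * c * t + 8 * s ^ 2 * d - 3 * a ^ 2 * t - 6 * s * a * b) * pderiv i L +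
    (8 * s ^ 2 * c - 3 * s * a ^ 2) * pderiv i l +
    l * (4 * s ^ 2 * pderiv i c + (6 * a ^ 2 - 12 * c * s) * pderiv i s
      - 3 * s * a * pderiv i a + 2 * a * c * pderiv i L) +
    L * (8 * s * t * pderiv i c + 4 * s ^ 2 * pderiv i d
      + (12 * a * b - 12 * d * s - 12 * c * t) * pderiv i s
      + (6 * a ^ 2 - 12 * c * s) * pderiv i t
      - 3 * (t * a + s * b) * pderiv i a - 3 * s * a * pderiv i b
      + 2 * (b * c + a * d) * pderiv i L + 2 * a * c * pderiv i l) +
    2 * L * l * (4 * a * pderiv i c - 6 * c * pderiv i a) +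
    L ^ 2 * (4 * b * pderiv i c + 4 * a * pderiv i d - 6 * d * pderiv i a - 6 * c * pderiv i b)

section base
variable (R) [Algebra ℚ R]
noncomputable def Lb : Po R := 4 + 8 * X 0
noncomputable def sb : Po R := -X 1
noncomputable def ab : Po R := C (algebraMap ℚ R (1 / 12)) * (4 * X 0 - 1)
noncomputable def cb : Po R := -(C (algebraMap ℚ R (1 / 32)) * X 1)
end base

end fam

/-! ### Block FAM: the family -/

theorem fam_id {R : Type*} [CommRing R] (i : Fin 2) (L s a c : Po R) :
    L * Ph i L s a c =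
      2 * fF L s a * pderiv i (gF L s a c) - 3 * gF L s a c * pderiv i (fF L s a) := by
  simp only [Ph, fF, gF, map_add, Derivation.leibniz, Derivation.leibniz_pow, smul_eq_mul,
    nsmul_eq_mul]
  have h2 : pderiv i (2 : Po R) = 0 := by
    rw [show (2 : Po R) = C 2 from (map_ofNat C 2).symm, pderiv_C]
  have h3 : pderiv i (3 : Po R) = 0 := by
    rw [show (3 : Po R) = C 3 from (map_ofNat C 3).symm, pderiv_C]
  rw [h2, h3]
  push_cast
  ring

/-! ### Block NF: normal form at a tangency point with the line at infinity -/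

/-- the `dZ` coefficient of `(1+μ)((z - α(w)) dz + e z w dw)`, `z = Z(1+s)`, `w = W + q` -/
noncomputable def nfA {V : Type*} [CommRing V] (e : V) (s q μ : Po V) (α : Polynomial V) : Po V :=
  (1 + μ) * ((X 0 * (1 + s) - Polynomial.aeval (X 1 + q) α) * pderiv 0 (X 0 * (1 + s))
    + C e * (X 0 * (1 + s)) * (X 1 + q) * pderiv 0 (X 1 + q))

/-- `1/Z` times the `dW` coefficient of the same form -/
noncomputable def nfB {V : Type*} [CommRing V] (e : V) (s q μ : Po V) (α : Polynomial V) : Po V :=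
  (1 + μ) * ((X 0 * (1 + s) - Polynomial.aeval (X 1 + q) α) * pderiv 1 s
    + C e * (1 + s) * (X 1 + q) * pderiv 1 (X 1 + q))

/-! ### Block TM: the odd coefficients of the normal form are tiny -/

/-- scaled coordinates centred at the center `(κ², 0)`: `Z = κ² (1 + x)`, `W = κ y` -/
noncomputable def cen {R : Type*} [CommRing R] (κ : R) (p : Po R) : Po R :=
  aeval ![C (κ ^ 2) * (1 + X 0), C κ * X 1] p

/-! ### Block RES: evenness is impossible at the base foliation -/

/-- restriction to `Z = 0` -/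
noncomputable def r0 {R : Type*} [CommRing R] (p : Po R) : Polynomial R :=
  aeval ![0, Polynomial.X] p

/-! ### Block CL: the Zariski closure in terms of coefficients -/

/-- the coefficients of `A = -Q` (first index 0) and `B = P` (first index 1), where
`P dy - Q dx = A dx + B dy` -/
noncomputable def cf {d : ℕ} (ω : Forms d) (i : Fin 2 × (Fin 2 →₀ ℕ)) : ℂ :=
  if i.1 = 0 then coeff i.2 (-(ω.2 : Po ℂ)) else coeff i.2 (ω.1 : Po ℂ)

/-! ### Block HF: a holomorphic center has formal first integrals -/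

/-- discriminant of the quadratic part -/
noncomputable def dsc {R : Type*} [CommRing R] (H : Po R) : R :=
  4 * coeff (Finsupp.single 0 2) H * coeff (Finsupp.single 1 2) H
    - coeff (Finsupp.single 0 1 + Finsupp.single 1 1) H ^ 2

/-- `A dx + B dy` has a nondegenerate holomorphic first integral `a² + b²` at `p` -/
def HC (A B : Po ℂ) (p : Fin 2 → ℂ) : Prop :=
  ∃ a b : (Fin 2 → ℂ) → ℂ, AnalyticAt ℂ a p ∧ AnalyticAt ℂ b p ∧ a p = 0 ∧ b p = 0 ∧
    Function.Bijective (fun u : Fin 2 → ℂ => (fderiv ℂ a p u, fderiv ℂ b p u)) ∧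
    ∀ᶠ q in nhds p,
      eval q A * fderiv ℂ (fun r => a r ^ 2 + b r ^ 2) q (Pi.single 1 1)
        - eval q B * fderiv ℂ (fun r => a r ^ 2 + b r ^ 2) q (Pi.single 0 1) = 0

/-! ### Block CH: the chart at infinity -/

/-- `z³ p(1/z, w/z)` for `deg p ≤ 3` -/
noncomputable def hat {R : Type*} [CommRing R] (p : Po R) : Po R :=
  ∑ m ∈ p.support, monomial (Finsupp.single 0 (3 - m 0 - m 1) + Finsupp.single 1 (m 1)) (coeff m p)

/-- `z^5 (A dx + B dy) = chA dz + chB dw`, `x = 1/z`, `y = w/z` -/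
noncomputable def chA {R : Type*} [CommRing R] (A B : Po R) : Po R := -(hat A + X 1 * hat B)
noncomputable def chB {R : Type*} [CommRing R] (B : Po R) : Po R := X 0 * hat B

/-! ### Block MAIN -/

end Pool.Agent.CF
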