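import Pool.Agent.Lib_helper78.CFF.Base

/-! author of this file: helper56 -/

open MvPolynomial IsLocalRing

namespace Pool.Agent.CF

theorem cen_fil {R : Type*} [CommRing R] (κ : R) (n : ℕ) (p : Po R) (h : Fil κ n p) :
    ∃ p' : Po R, cen κ p = C (κ ^ n) * p' := by
  suffices C (κ ^ n) ∣ cen κ p from this
  unfold cen
  rw [p.as_sum, map_sum]
  refine Finset.dvd_sum fun m _ => ?_
  rw [aeval_monomial]
  obtain ⟨d, hd⟩ := h m
  have h1 : (algebraMap R (Po R)) (coeff m p) = C (coeff m p) := rfl
  rw [h1, hd, Finsupp.prod_fintype _ _ (by intro i; simp), Fin.prod_univ_two]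
  simp only [Matrix.cons_val_zero, Matrix.cons_val_one, mul_pow]
  rw [← C_pow, ← C_pow]
  have h2 : (C (κ ^ (n - (2 * m 0 + m 1)) * d) : Po R) * (C ((κ ^ 2) ^ m 0) * (1 + X 0) ^ m 0 *
      (C (κ ^ m 1) * X 1 ^ m 1)) =
      C (κ ^ (n - (2 * m 0 + m 1)) * (κ ^ 2) ^ m 0 * κ ^ m 1) * (C d * (1 + X 0) ^ m 0 * X 1 ^ m 1)
      := by
    simp only [map_mul]; ring
  have h3 : (C (κ ^ n) : Po R) ∣ C (κ ^ (n - (2 * m 0 + m 1)) * (κ ^ 2) ^ m 0 * κ ^ m 1) := by
    apply map_dvd
    rw [← pow_mul, ← pow_add, ← pow_add]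
    exact pow_dvd_pow _ (by omega)
  rw [h2]
  exact h3.mul_right _

theorem cen_pderiv0 {R : Type*} [CommRing R] (κ : R) (p : Po R) :
    pderiv 0 (cen κ p) = C (κ ^ 2) * cen κ (pderiv 0 p) := by
  unfold cen
  induction p using MvPolynomial.induction_on with
  | C a => simp
  | add f g hf hg => rw [map_add, map_add, hf, hg, map_add, map_add, ← mul_add]
  | mul_X f i hf =>
    rw [map_mul, Derivation.leibniz, hf, aeval_X, Derivation.leibniz, map_add, smul_eq_mul,
      smul_eq_mul, smul_eq_mul, smul_eq_mul, map_mul, map_mul, aeval_X]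
    fin_cases i
    · simp [pderiv_X, Derivation.leibniz]
      ring
    · simp [pderiv_X, Derivation.leibniz]
      ring

theorem cen_pderiv1 {R : Type*} [CommRing R] (κ : R) (p : Po R) :
    pderiv 1 (cen κ p) = C κ * cen κ (pderiv 1 p) := by
  unfold cen
  induction p using MvPolynomial.induction_on with
  | C a => simp
  | add f g hf hg => rw [map_add, map_add, hf, hg, map_add, map_add, ← mul_add]
  | mul_X f i hf =>
    rw [map_mul, Derivation.leibniz, hf, aeval_X, Derivation.leibniz, map_add, smul_eq_mul,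
      smul_eq_mul, smul_eq_mul, smul_eq_mul, map_mul, map_mul, aeval_X]
    fin_cases i
    · simp [pderiv_X, Derivation.leibniz]
      ring
    · simp [pderiv_X, Derivation.leibniz]
      ring

/-- scaling substitution -/
noncomputable def cenT {R : Type*} [CommRing R] (k : R) (p : Po R) : Po R :=
  aeval ![C (k ^ 2) * X 0, C k * X 1] p

lemma cen_T_pderiv0 {R : Type*} [CommRing R] (κ : R) (p : Po R) :
    pderiv 0 (cenT κ p) = C (κ ^ 2) * cenT κ (pderiv 0 p) := by
  unfold cenT
  induction p using MvPolynomial.induction_on with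
  | C a => simp
  | add f g hf hg => rw [map_add, map_add, hf, hg, map_add, map_add, ← mul_add]
  | mul_X f i hf =>
    rw [map_mul, Derivation.leibniz, hf, aeval_X, Derivation.leibniz, map_add, smul_eq_mul,
      smul_eq_mul, smul_eq_mul, smul_eq_mul, map_mul, map_mul, aeval_X]
    fin_cases i
    · simp [pderiv_X, Derivation.leibniz]
      ring
    · simp [pderiv_X, Derivation.leibniz]
      ring

lemma cen_T_pderiv1 {R : Type*} [CommRing R] (κ : R) (p : Po R) :
    pderiv 1 (cenT κ p) = C κ * cenT κ (pderiv 1 p) := by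
  unfold cenT
  induction p using MvPolynomial.induction_on with
  | C a => simp
  | add f g hf hg => rw [map_add, map_add, hf, hg, map_add, map_add, ← mul_add]
  | mul_X f i hf =>
    rw [map_mul, Derivation.leibniz, hf, aeval_X, Derivation.leibniz, map_add, smul_eq_mul,
      smul_eq_mul, smul_eq_mul, smul_eq_mul, map_mul, map_mul, aeval_X]
    fin_cases i
    · simp [pderiv_X, Derivation.leibniz]
      ring
    · simp [pderiv_X, Derivation.leibniz]
      ring

lemma cen_T_sh {R : Type*} [CommRing R] (k : R) (p : Po R) :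
    cenT k (sh (k ^ 2) 0 p) = cen k p := by
  unfold cenT sh cen
  induction p using MvPolynomial.induction_on with
  | C a => simp
  | add f g hf hg => simp only [map_add, hf, hg]
  | mul_X f i hf =>
    rw [map_mul, map_mul, map_mul, hf]
    congr 1
    fin_cases i
    · simp; ring
    · simp

lemma cen_map {R S : Type*} [CommRing R] [CommRing S] (φ : R →+* S) (κ : R) (p : Po R) :
    map φ (cen κ p) = cen (φ κ) (map φ p) := by
  unfold cen
  induction p using MvPolynomial.induction_on with
  | C a => simp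
  | add f g hf hg => simp only [map_add, hf, hg]
  | mul_X f i hf =>
    rw [map_mul, map_mul, map_mul, map_mul, hf]
    congr 1
    fin_cases i <;> simp

lemma cen_T_coeff {R : Type*} [CommRing R] (k : R) (p : Po R) (m : Fin 2 →₀ ℕ) :
    coeff m (cenT k p) = k ^ (2 * m 0 + m 1) * coeff m p := by
  classical
  induction p using MvPolynomial.induction_on' with
  | monomial u a =>
    have h1 : cenT k (monomial u a) = monomial u (k ^ (2 * u 0 + u 1) * a) := by
      unfold cenT
      rw [aeval_monomial, Finsupp.prod_fintype _ _ (by intro i; simp), Fin.prod_univ_two]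
      simp only [Matrix.cons_val_zero, Matrix.cons_val_one, mul_pow]
      rw [monomial_eq, Finsupp.prod_fintype _ _ (by intro i; simp), Fin.prod_univ_two]
      have : (algebraMap R (Po R)) a = C a := rfl
      rw [this]
      simp only [map_mul, map_pow]
      ring
    rw [h1, coeff_monomial, coeff_monomial]
    split_ifs with h
    · rw [h]
    · rw [mul_zero]
  | add p q hp hq =>
    have : cenT k (p + q) = cenT k p + cenT k q := by unfold cenT; rw [map_add]
    rw [this, coeff_add, hp, hq, coeff_add, mul_add]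

theorem cen_FI {V : Type*} [CommRing V] {K : Type*} [Field K] (φ : V →+* K) (κ : V)
    (hκ : φ κ ≠ 0) (n : ℕ) (a c A' B' : Po V) (hA : cen κ a = C (κ ^ 2) * A')
    (hB : cen κ c = C (κ ^ 3) * B')
    (hK : ∃ H : Po K, FI n (sh (φ (κ ^ 2)) 0 (map φ a)) (sh (φ (κ ^ 2)) 0 (map φ c)) H) :
    ∃ H : Po K, FI n (map φ A') (map φ B') H := by
  obtain ⟨H, h2, ⟨m, hm, hm0⟩, hn⟩ := hK
  have hA' := congrArg (map φ) hA
  have hB' := congrArg (map φ) hB
  rw [cen_map, map_mul, map_C, map_pow, ← cen_T_sh] at hA' hB'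
  rw [map_pow] at hn
  set k := φ κ with hk
  refine ⟨cenT k H, ?_, ⟨m, hm, ?_⟩, ?_⟩
  · intro m' hm'
    rw [cen_T_coeff, h2 m' hm', mul_zero]
  · rw [cen_T_coeff]
    exact mul_ne_zero (pow_ne_zero _ hκ) hm0
  · have key : C k * XX (map φ A') (map φ B') (cenT k H) =
        cenT k (XX (sh (k ^ 2) 0 (map φ a)) (sh (k ^ 2) 0 (map φ c)) H) := by
      have e1 : ∀ p q r s : Po K, cenT k (p * q - r * s) = cenT k p * cenT k q -
          cenT k r * cenT k s := by
        intro p q r s; unfold cenT; rw [map_sub, map_mul, map_mul]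
      unfold XX
      rw [e1, hA', hB', cen_T_pderiv0, cen_T_pderiv1]
      simp only [map_pow]
      ring
    intro m' hm'
    have h3 := congrArg (coeff m') key
    rw [coeff_C_mul, cen_T_coeff, hn m' hm', mul_zero] at h3
    exact (mul_eq_zero.1 h3).resolve_left hκ

end Pool.Agent.CF
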