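import Pool.Agent.Lib_helper78.CFF.Base

/-! author of this file: helper16 -/

/-!
# CF block CH: the chart at infinity
-/

open MvPolynomial Topology

namespace Pool.Agent.CF

lemma ch_eval_hat (p : Po ℂ) (hp : p.totalDegree ≤ 3) (q : Fin 2 → ℂ) (hq : q 0 ≠ 0) :
    eval q (hat p) = q 0 ^ 3 * eval ![(q 0)⁻¹, q 1 * (q 0)⁻¹] p := by
  rw [hat, map_sum, eval_eq' (f := p), Finset.mul_sum]
  refine Finset.sum_congr rfl fun m hm => ?_
  have h3 : m 0 + m 1 ≤ 3 := by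
    have := le_totalDegree hm
    rw [Finsupp.sum_fintype _ _ (fun _ => rfl), Fin.sum_univ_two] at this
    omega
  rw [eval_monomial, Finsupp.prod_fintype _ _ (fun _ => pow_zero _)]
  simp only [Fin.prod_univ_two, Finsupp.coe_add, Pi.add_apply, Matrix.cons_val_zero,
    Matrix.cons_val_one]
  have e0 : (Finsupp.single (0 : Fin 2) (3 - m 0 - m 1) : Fin 2 →₀ ℕ) 0 = 3 - m 0 - m 1 := by
    simp
  have e1 : (Finsupp.single (1 : Fin 2) (m 1) : Fin 2 →₀ ℕ) 0 = 0 := by simp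
  have e2 : (Finsupp.single (0 : Fin 2) (3 - m 0 - m 1) : Fin 2 →₀ ℕ) 1 = 0 := by simp
  have e3 : (Finsupp.single (1 : Fin 2) (m 1) : Fin 2 →₀ ℕ) 1 = m 1 := by simp
  rw [e0, e1, e2, e3, add_zero, zero_add]
  have e4 : q 0 ^ 3 = q 0 ^ (3 - m 0 - m 1) * q 0 ^ (m 0) * q 0 ^ (m 1) := by
    rw [← pow_add, ← pow_add]
    congr 1
    omega
  rw [e4, mul_pow, inv_pow, inv_pow]
  field_simp

/-- the chart `(z, w) ↦ (1/z, w/z)` -/
noncomputable def chPhi (q : Fin 2 → ℂ) : Fin 2 → ℂ := ![(q 0)⁻¹, q 1 * (q 0)⁻¹]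

lemma ch_proj_hd (i : Fin 2) (q : Fin 2 → ℂ) : HasFDerivAt (fun q : Fin 2 → ℂ => q i)
    (ContinuousLinearMap.proj (R := ℂ) (φ := fun _ : Fin 2 => ℂ) i) q :=
  (ContinuousLinearMap.proj (R := ℂ) (φ := fun _ : Fin 2 => ℂ) i).hasFDerivAt

lemma chPhi_hd {q : Fin 2 → ℂ} (hq : q 0 ≠ 0) :
    ∃ D : (Fin 2 → ℂ) →L[ℂ] (Fin 2 → ℂ), HasFDerivAt chPhi D q ∧
      ∀ u, D u = ![-((q 0)⁻¹ ^ 2) * u 0, (q 0)⁻¹ * u 1 - q 1 * (q 0)⁻¹ ^ 2 * u 0] := by
  have h0 := ch_proj_hd 0 q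
  have h1 := ch_proj_hd 1 q
  obtain ⟨D0, hD0, hD0'⟩ : ∃ D0 : (Fin 2 → ℂ) →L[ℂ] ℂ,
      HasFDerivAt (fun x : Fin 2 → ℂ => (x 0)⁻¹) D0 q ∧ ∀ u, D0 u = -((q 0)⁻¹ ^ 2) * u 0 := by
    refine ⟨_, (hasDerivAt_inv hq).comp_hasFDerivAt q h0, fun u => ?_⟩
    simp
  obtain ⟨D1, hD1, hD1'⟩ : ∃ D1 : (Fin 2 → ℂ) →L[ℂ] ℂ,
      HasFDerivAt (fun x : Fin 2 → ℂ => x 1 * (x 0)⁻¹) D1 q ∧
      ∀ u, D1 u = (q 0)⁻¹ * u 1 - q 1 * (q 0)⁻¹ ^ 2 * u 0 := by
    refine ⟨_, h1.mul hD0, fun u => ?_⟩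
    simp [hD0']
    ring
  refine ⟨ContinuousLinearMap.pi ![D0, D1], ?_, fun u => ?_⟩
  · rw [hasFDerivAt_pi']
    intro i
    fin_cases i
    · exact hD0
    · exact hD1
  · funext i
    fin_cases i
    · simp [hD0']
    · simp [hD1']

lemma chPhi_an {q : Fin 2 → ℂ} (hq : q 0 ≠ 0) : AnalyticAt ℂ chPhi q := by
  have h0 : AnalyticAt ℂ (fun q : Fin 2 → ℂ => q 0) q :=
    (ContinuousLinearMap.proj (R := ℂ) (φ := fun _ : Fin 2 => ℂ) 0).analyticAt q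
  have h1 : AnalyticAt ℂ (fun q : Fin 2 → ℂ => q 1) q :=
    (ContinuousLinearMap.proj (R := ℂ) (φ := fun _ : Fin 2 => ℂ) 1).analyticAt q
  rw [analyticAt_pi_iff]
  intro i
  fin_cases i
  · exact h0.inv hq
  · exact h1.mul (h0.inv hq)

theorem ch (A B : Po ℂ) (hA : A.totalDegree ≤ 3) (hB : B.totalDegree ≤ 3) (p : Fin 2 → ℂ)
    (hp : p 0 ≠ 0) (h : HC A B p) :
    HC (chA A B) (chB B) ![(p 0)⁻¹, p 1 * (p 0)⁻¹] := by
  obtain ⟨a, b, ha, hb, ha0, hb0, hbij, hw⟩ := h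
  set P : Fin 2 → ℂ := ![(p 0)⁻¹, p 1 * (p 0)⁻¹] with hP
  have hP0 : P 0 = (p 0)⁻¹ := rfl
  have hP1 : P 1 = p 1 * (p 0)⁻¹ := rfl
  have hP0' : P 0 ≠ 0 := by rw [hP0]; exact inv_ne_zero hp
  have hphi : chPhi P = p := by
    funext i
    fin_cases i
    · simp [chPhi, hP0]
    · simp [chPhi, hP0, hP1]
      field_simp
  have hPan := chPhi_an hP0'
  obtain ⟨D, hD, hD'⟩ := chPhi_hd hP0'
  refine ⟨a ∘ chPhi, b ∘ chPhi, ha.comp_of_eq hPan hphi, hb.comp_of_eq hPan hphi, ?_, ?_, ?_, ?_⟩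
  · simp [hphi, ha0]
  · simp [hphi, hb0]
  · have e : (fun u : Fin 2 → ℂ => (fderiv ℂ (a ∘ chPhi) P u, fderiv ℂ (b ∘ chPhi) P u)) =
        (fun u : Fin 2 → ℂ => (fderiv ℂ a p u, fderiv ℂ b p u)) ∘ D := by
      funext u
      have h1 : HasFDerivAt a (fderiv ℂ a p) (chPhi P) := by
        rw [hphi]; exact ha.differentiableAt.hasFDerivAt
      have h2 : HasFDerivAt b (fderiv ℂ b p) (chPhi P) := by
        rw [hphi]; exact hb.differentiableAt.hasFDerivAt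
      rw [(h1.comp P hD).fderiv, (h2.comp P hD).fderiv]
      rfl
    rw [e]
    refine hbij.comp ⟨fun u v huv => ?_, fun v => ?_⟩
    · rw [hD', hD'] at huv
      have e0 := congrFun huv 0
      have e1 := congrFun huv 1
      simp only [Matrix.cons_val_zero, Matrix.cons_val_one] at e0 e1
      have hz := inv_ne_zero hP0'
      have f0 : u 0 = v 0 := by
        have h5 : (P 0)⁻¹ ^ 2 ≠ 0 := pow_ne_zero 2 hz
        have : (P 0)⁻¹ ^ 2 * u 0 = (P 0)⁻¹ ^ 2 * v 0 := by linear_combination -e0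
        exact mul_left_cancel₀ h5 this
      have f1 : u 1 = v 1 := by
        have : (P 0)⁻¹ * u 1 = (P 0)⁻¹ * v 1 := by
          rw [f0] at e1
          linear_combination e1
        exact mul_left_cancel₀ hz this
      funext i
      fin_cases i
      · exact f0
      · exact f1
    · refine ⟨![-(P 0 ^ 2 * v 0), P 0 * v 1 - P 1 * P 0 * v 0], ?_⟩
      rw [hD']
      funext i
      fin_cases i
      · simp
        field_simp
      · simp
        field_simp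
        ring
  · have hcont : Filter.Tendsto chPhi (𝓝 P) (𝓝 p) := by
      have := hPan.continuousAt.tendsto
      rwa [hphi] at this
    have hne : ∀ᶠ q : Fin 2 → ℂ in 𝓝 P, q 0 ≠ 0 :=
      (continuous_apply 0).continuousAt.eventually_ne hP0'
    filter_upwards [hcont.eventually hw, hcont.eventually ha.eventually_analyticAt,
      hcont.eventually hb.eventually_analyticAt, hne] with q hq haq hbq hq0
    obtain ⟨E, hE, hE'⟩ := chPhi_hd hq0
    set G : (Fin 2 → ℂ) → ℂ := fun r => a r ^ 2 + b r ^ 2 with hG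
    have hGd : HasFDerivAt G (fderiv ℂ G (chPhi q)) (chPhi q) :=
      ((haq.pow 2).add (hbq.pow 2)).differentiableAt.hasFDerivAt
    have hcomp : (fun r => (a ∘ chPhi) r ^ 2 + (b ∘ chPhi) r ^ 2) = G ∘ chPhi := rfl
    rw [hcomp, (hGd.comp q hE).fderiv]
    simp only [ContinuousLinearMap.comp_apply, hE']
    rw [clm_apply_fin2 (fderiv ℂ G (chPhi q)), clm_apply_fin2 (fderiv ℂ G (chPhi q))
      (![-((q 0)⁻¹ ^ 2) * (Pi.single 0 1 : Fin 2 → ℂ) 0, _])]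
    have s0 : (Pi.single 0 1 : Fin 2 → ℂ) = ![1, 0] := by
      ext i; fin_cases i <;> simp
    have s1 : (Pi.single 1 1 : Fin 2 → ℂ) = ![0, 1] := by
      ext i; fin_cases i <;> simp
    rw [s0, s1]
    rw [s0, s1] at hq
    rw [chA, chB, map_neg, map_add, map_mul, map_mul, eval_X, eval_X,
      ch_eval_hat A hA q hq0, ch_eval_hat B hB q hq0]
    change eval (chPhi q) A * _ - eval (chPhi q) B * _ = 0 at hq
    change -(q 0 ^ 3 * eval (chPhi q) A + q 1 * (q 0 ^ 3 * eval (chPhi q) B)) * _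
      - q 0 * (q 0 ^ 3 * eval (chPhi q) B) * _ = 0
    simp only [Matrix.cons_val_zero, Matrix.cons_val_one]
    have hinv : q 0 * (q 0)⁻¹ = 1 := mul_inv_cancel₀ hq0
    generalize fderiv ℂ G (chPhi q) ![1, 0] = X at *
    generalize fderiv ℂ G (chPhi q) ![0, 1] = Y at *
    generalize eval (chPhi q) A = α at *
    generalize eval (chPhi q) B = β at *
    field_simp
    linear_combination (-(q 0 ^ 2)) * hq
end Pool.Agent.CF
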