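import Pool.Agent.Lib_helper78.CFF.Base

/-! author of this file: helper16 -/

/-!
# CF block CL: the Zariski closure in terms of coefficients
-/

open MvPolynomial Topology

namespace Pool.Agent.CF

/-- the polynomial of a linear form on the space of forms -/
noncomputable def clP {d : ℕ} (l : Forms d →ₗ[ℂ] ℂ) :
    MvPolynomial (Fin (Module.finrank ℂ (Forms d))) ℂ :=
  ∑ k, C (l (Module.finBasis ℂ (Forms d) k)) * X k

lemma clP_hom {d : ℕ} (l : Forms d →ₗ[ℂ] ℂ) : (clP l).IsHomogeneous 1 := by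
  unfold clP
  refine IsHomogeneous.sum _ _ _ fun k _ => ?_
  have := (isHomogeneous_C (Fin (Module.finrank ℂ (Forms d)))
    (l (Module.finBasis ℂ (Forms d) k))).mul (isHomogeneous_X ℂ k)
  rwa [zero_add] at this

lemma clP_eval {d : ℕ} (l : Forms d →ₗ[ℂ] ℂ) (ω : Forms d) : evalAt (clP l) ω = l ω := by
  unfold evalAt clP
  rw [map_sum]
  conv_rhs => rw [← (Module.finBasis ℂ (Forms d)).sum_repr ω]
  rw [map_sum]
  refine Finset.sum_congr rfl fun k _ => ?_
  rw [map_mul, eval_C, eval_X, map_smul, smul_eq_mul, mul_comm]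

/-- the coefficients as linear forms -/
noncomputable def clL (d : ℕ) (i : Fin 2 × (Fin 2 →₀ ℕ)) : Forms d →ₗ[ℂ] ℂ where
  toFun ω := cf ω i
  map_add' ω η := by
    unfold cf
    split_ifs
    · simp; ring
    · simp
  map_smul' c ω := by
    unfold cf
    split_ifs
    · simp
    · simp

lemma clL_apply {d : ℕ} (i : Fin 2 × (Fin 2 →₀ ℕ)) (ω : Forms d) : clL d i ω = cf ω i := rfl

lemma cl_poly {d : ℕ} (f : MvPolynomial (Fin 2 × (Fin 2 →₀ ℕ)) ℂ) (ω : Forms d) :
    evalAt (aeval (fun i => clP (clL d i)) f) ω = eval (cf ω) f := by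
  have h : ∀ i, evalAt (clP (clL d i)) ω = cf ω i := fun i => by rw [clP_eval, clL_apply]
  unfold evalAt at h ⊢
  induction f using MvPolynomial.induction_on with
  | C a => simp
  | add p q hp hq => rw [map_add, map_add, hp, hq, map_add]
  | mul_X p i hp => rw [map_mul, map_mul, hp, aeval_X, h i, map_mul, eval_X]

theorem cl {d : ℕ} (S : Set (FolBar d)) (ω0 : Forms d) (h0 : ω0 ≠ 0)
    (hmem : cls ω0 h0 ∈ closure S) (f : MvPolynomial (Fin 2 × (Fin 2 →₀ ℕ)) ℂ)
    (hf : ∀ (ω : Forms d) (h : ω ≠ 0), cls ω h ∈ S → eval (cf ω) f = 0) :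
    eval (cf ω0) f = 0 := by
  set F := aeval (fun i => clP (clL d i)) f with hF
  set T : Set (MvPolynomial (Fin (Module.finrank ℂ (Forms d))) ℂ) :=
    {G | ∃ k, G = homogeneousComponent k F} with hT
  have hTh : ∀ G ∈ T, ∃ k, G.IsHomogeneous k := by
    rintro _ ⟨k, rfl⟩
    exact ⟨k, homogeneousComponent_isHomogeneous k F⟩
  set Z : Set (FolBar d) := {x | ∀ (ω : Forms d) (h : ω ≠ 0), cls ω h = x →
    ∀ G ∈ T, evalAt G ω = 0} with hZ
  have hZc : IsClosed Z := (isClosed_iff Z).2 ⟨T, hTh, rfl⟩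
  have hsum : ∀ ω : Forms d, evalAt F ω =
      ∑ k ∈ Finset.range (F.totalDegree + 1), evalAt (homogeneousComponent k F) ω := by
    intro ω
    conv_lhs => rw [← sum_homogeneousComponent F]
    unfold evalAt
    rw [map_sum]
  have hSZ : S ⊆ Z := by
    intro x hx
    obtain ⟨ω, h, rfl⟩ := exists_cls x
    rw [hZ, mem_locus_iff hTh]
    rintro _ ⟨k, rfl⟩
    set P : Polynomial ℂ := ∑ k ∈ Finset.range (F.totalDegree + 1),
      Polynomial.C (evalAt (homogeneousComponent k F) ω) * Polynomial.X ^ k with hP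
    have hroot : ∀ c : ℂ, c ≠ 0 → P.IsRoot c := by
      intro c hc
      have hcω : c • ω ≠ 0 := smul_ne_zero hc h
      have hcl : cls (c • ω) hcω = cls ω h := (cls_eq_iff hcω h).2 ⟨c, hc, rfl⟩
      have h1 := hf (c • ω) hcω (by rw [hcl]; exact hx)
      rw [← cl_poly, ← hF, hsum] at h1
      rw [Polynomial.IsRoot.def, hP, Polynomial.eval_finsetSum, ← h1]
      refine Finset.sum_congr rfl fun j _ => ?_
      rw [evalAt_smul (homogeneousComponent_isHomogeneous j F)]
      simp
      ring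
    have hP0 : P = 0 := by
      refine Polynomial.eq_zero_of_infinite_isRoot P ?_
      refine Set.Infinite.mono (s := {c : ℂ | c ≠ 0}) (fun c hc => hroot c hc) ?_
      have : ({c : ℂ | c ≠ 0} : Set ℂ) = ({0} : Set ℂ)ᶜ := by ext; simp
      rw [this]
      exact (Set.finite_singleton 0).infinite_compl
    by_cases hk : k < F.totalDegree + 1
    · have h2 : P.coeff k = evalAt (homogeneousComponent k F) ω := by
        rw [hP, Polynomial.finsetSum_coeff]
        simp only [Polynomial.coeff_C_mul, Polynomial.coeff_X_pow]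
        rw [Finset.sum_eq_single k]
        · simp
        · intro j _ hj
          rw [if_neg (Ne.symm hj), mul_zero]
        · intro hk'
          exact absurd (Finset.mem_range.2 hk) hk'
      rw [← h2, hP0, Polynomial.coeff_zero]
    · rw [homogeneousComponent_eq_zero _ _ (by omega)]
      unfold evalAt
      rw [map_zero]
  have h1 : cls ω0 h0 ∈ Z := closure_minimal hSZ hZc hmem
  rw [hZ, mem_locus_iff hTh] at h1
  rw [← cl_poly, ← hF, hsum]
  exact Finset.sum_eq_zero fun k _ => h1 _ ⟨k, rfl⟩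

/-- the linear form `ω ↦ coeff m (x A + y B)` -/
noncomputable def clM (d : ℕ) (m : Fin 2 →₀ ℕ) : Forms d →ₗ[ℂ] ℂ where
  toFun ω := coeff m (X 0 * (-(ω.2 : Po ℂ)) + X 1 * (ω.1 : Po ℂ))
  map_add' ω η := by
    rw [← coeff_add]
    congr 1
    simp only [Prod.snd_add, Prod.fst_add, Submodule.coe_add]
    ring
  map_smul' c ω := by
    rw [RingHom.id_apply, ← coeff_smul]
    congr 1
    simp only [Prod.smul_snd, Prod.smul_fst, Submodule.coe_smul]
    rw [smul_add, mul_smul_comm, ← smul_neg, mul_smul_comm]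

/-- the locus `{F_m ≠ 0}` is open, `F = x A + y B` in degree `d + 1` -/
theorem cl_open {d : ℕ} (m : Fin 2 →₀ ℕ) (hm : m 0 + m 1 = d + 1) :
    IsOpen {x : FolBar d | ∃ (ω : Forms d) (h : ω ≠ 0), cls ω h = x ∧
      coeff m (X 0 * (-(ω.2 : Po ℂ)) + X 1 * (ω.1 : Po ℂ)) ≠ 0} := by
  have hT : ∀ G ∈ ({clP (clM d m)} : Set (MvPolynomial (Fin (Module.finrank ℂ (Forms d))) ℂ)),
      ∃ k, G.IsHomogeneous k := by
    intro G hG
    rw [Set.mem_singleton_iff] at hG
    exact ⟨1, hG ▸ clP_hom _⟩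
  rw [← isClosed_compl_iff, isClosed_iff]
  refine ⟨{clP (clM d m)}, hT, ?_⟩
  ext x
  simp only [Set.mem_compl_iff, Set.mem_ofPred_eq, not_exists, not_and, not_not,
    Set.mem_singleton_iff, forall_eq, clP_eval]
  rfl

end Pool.Agent.CF
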