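import Pool.Agent.Lib_helper78.CFF.CertTab

/-! author of this file: helper78 -/

open MvPolynomial

namespace Pool.Agent.CF

/-! ### Decided facts about the tables -/

def certl (j i k : ℕ) : ℤ := ((certL.getD j []).getD i []).getD k 0

def certRel (lam : ℕ → ℕ → ℤ) (i k : ℕ) : ℤ :=
  ((k : ℤ) - i) * lam i k + (3 * k + 2 * i) * lam (i + 1) k + (8 * k + 8 * i) * lam (i + 2) k
    - (2 * k + 2 * i) * lam i (k + 2) - i * lam (i - 1) (k + 2)

theorem cert_len1 : ∀ j < 10, (certL.getD j []).length ≤ 21 := by decide +kernel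

theorem cert_len2 : ∀ j < 10, ∀ i < 21, ((certL.getD j []).getD i []).length + i ≤ 21 := by
  decide +kernel

theorem cert_rel1 : ∀ j < 10, ∀ i < 21, ∀ k < 21, certRel (certl j) i k = 0 := by
  decide +kernel

def certDel (a b i k : ℕ) : ℤ := if i = a ∧ k = b then 1 else 0

def cU (c : ℕ) : ℕ := [0, 1, 0, 2, 1, 0, 3, 2, 1, 0].getD (c % 10) 0
def cV (c : ℕ) : ℕ := [0, 0, 1, 0, 1, 2, 0, 1, 2, 3].getD (c % 10) 0

def certSumL (j c : ℕ) : ℤ :=
  (certH.map fun t => if c < 10 then t.2.2 * t.2.1 * certl j (t.1 + cU c) (t.2.1 - 1 + cV c)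
    else -(t.2.2 * t.1 * certl j (t.1 - 1 + cU c) (t.2.1 + cV c))).sum

theorem cert_E1 : ∀ r < 10, ∀ c < 20,
    (certR.getD r []).getD c 0 * certD.getD r 0 * 196608 = certRD.getD r 0 *
      ((List.range 10).map fun j => (certE.getD r []).getD j 0 * (certLam.getD j []).getD c 0).sum := by
  decide +kernel

theorem cert_D1 : ∀ r < 10, certD.getD r 0 ≠ 0 ∧ certRD.getD r 0 ≠ 0 := by
  decide +kernel

end Pool.Agent.CF
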