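import Pool.Agent.Lib_helper78.CFF.Cert1

/-! author of this file: helper78 -/

namespace Pool.Agent.CF

def certSumH (a b : ℕ) : ℤ :=
  (certH.map fun t => t.2.2 * certRel (certDel a b) t.1 t.2.1).sum

def certSumH' (a b : ℕ) : ℤ :=
  (certH.map fun t => bif Nat.ble (t.1 + t.2.1) (a + b) && Nat.ble (a + b) (t.1 + t.2.1 + 2) then
    t.2.2 * certRel (certDel a b) t.1 t.2.1 else 0).sum

theorem cert_H1' : ∀ a < 22, ∀ b < 22, a + b < 22 → certSumH' a b = 0 := by
  decide +kernel

theorem cert_H1 (a : ℕ) (ha : a < 22) (b : ℕ) (hb : b < 22) (hab : a + b < 22) :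
    certSumH a b = 0 := by
  rw [← cert_H1' a ha b hb hab, certSumH, certSumH']
  congr 1
  refine List.map_congr_left fun t _ => ?_
  by_cases h : t.1 + t.2.1 ≤ a + b ∧ a + b ≤ t.1 + t.2.1 + 2
  · have h1 : (Nat.ble (t.1 + t.2.1) (a + b) && Nat.ble (a + b) (t.1 + t.2.1 + 2)) = true := by
      rw [Bool.and_eq_true, Nat.ble_eq, Nat.ble_eq]
      exact h
    rw [h1, cond_true]
  · have h1 : (Nat.ble (t.1 + t.2.1) (a + b) && Nat.ble (a + b) (t.1 + t.2.1 + 2)) = false := by
      rw [Bool.eq_false_iff]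
      intro h2
      rw [Bool.and_eq_true, Nat.ble_eq, Nat.ble_eq] at h2
      exact h h2
    rw [h1, cond_false]
    have e1 : certDel a b t.1 t.2.1 = 0 := if_neg (by omega)
    have e2 : certDel a b (t.1 + 1) t.2.1 = 0 := if_neg (by omega)
    have e3 : certDel a b (t.1 + 2) t.2.1 = 0 := if_neg (by omega)
    have e4 : certDel a b t.1 (t.2.1 + 2) = 0 := if_neg (by omega)
    have e5 : (t.1 : ℤ) * certDel a b (t.1 - 1) (t.2.1 + 2) = 0 := by
      rcases Nat.eq_zero_or_pos t.1 with h0 | h0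
      · rw [h0]; simp
      · rw [certDel, if_neg (by omega), mul_zero]
    rw [certRel, e1, e2, e3, e4, e5]
    ring

end Pool.Agent.CF
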