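import Pool.Agent.Lib_helper78.CFF.Cert1

/-! author of this file: helper78 -/

namespace Pool.Agent.CF

theorem cert_L1 : ∀ j < 10, ∀ c < 20, certSumL j c = (certLam.getD j []).getD c 0 := by
  decide +kernel

end Pool.Agent.CF
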