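import Pool.Agent.Lib_helper78.CFF.Cert1

/-! author of this file: helper78 -/

open MvPolynomial

namespace Pool.Agent.CF

noncomputable def cmk (i k : ℕ) : Fin 2 →₀ ℕ := Finsupp.single 0 i + Finsupp.single 1 k

lemma cmk_zero (i k : ℕ) : cmk i k 0 = i := by simp [cmk]
lemma cmk_one (i k : ℕ) : cmk i k 1 = k := by simp [cmk]
lemma cmk_eta (m : Fin 2 →₀ ℕ) : cmk (m 0) (m 1) = m := by
  ext i; fin_cases i <;> simp [cmk]
lemma cmk_inj {i k i' k' : ℕ} : cmk i k = cmk i' k' ↔ i = i' ∧ k = k' := by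
  constructor
  · intro h
    have h0 := DFunLike.congr_fun h 0
    have h1 := DFunLike.congr_fun h 1
    rw [cmk_zero, cmk_zero] at h0
    rw [cmk_one, cmk_one] at h1
    exact ⟨h0, h1⟩
  · rintro ⟨rfl, rfl⟩; rfl

noncomputable def mA (c : ℕ) : Po ℚ := if c < 10 then X 0 ^ cU c * X 1 ^ cV c else 0
noncomputable def mB (c : ℕ) : Po ℚ := if c < 10 then 0 else X 0 ^ cU c * X 1 ^ cV c

section
variable {R : Type*} [CommRing R]

lemma cmo (i k : ℕ) (r : R) : C r * X 0 ^ i * X 1 ^ k = (monomial (cmk i k) r : Po R) := by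
  rw [X_pow_eq_monomial, X_pow_eq_monomial, C_mul_monomial, monomial_mul, cmk]
  simp

lemma ccoeff (i k i' k' : ℕ) (r : R) :
    coeff (cmk i k) (C r * X 0 ^ i' * X 1 ^ k' : Po R) = if i' = i ∧ k' = k then r else 0 := by
  rw [cmo, coeff_monomial]
  simp only [cmk_inj]

noncomputable def Lf (N : ℕ) (lam : ℕ → ℕ → ℤ) (p : Po R) : R :=
  ∑ i ∈ Finset.range N, ∑ k ∈ Finset.range N, (lam i k : R) * coeff (cmk i k) p

variable (N : ℕ) (lam : ℕ → ℕ → ℤ)

lemma Lf_add (p q : Po R) : Lf N lam (p + q) = Lf N lam p + Lf N lam q := by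
  simp only [Lf, coeff_add, mul_add, Finset.sum_add_distrib]

lemma Lf_sub (p q : Po R) : Lf N lam (p - q) = Lf N lam p - Lf N lam q := by
  simp only [Lf, coeff_sub, mul_sub, Finset.sum_sub_distrib]

lemma Lf_neg (p : Po R) : Lf N lam (-p) = -Lf N lam p := by
  simp only [Lf, coeff_neg, mul_neg, Finset.sum_neg_distrib]

lemma Lf_zero : Lf N lam (0 : Po R) = 0 := by
  simp [Lf]

lemma Lf_C_mul (r : R) (p : Po R) : Lf N lam (C r * p) = r * Lf N lam p := by
  simp only [Lf, coeff_C_mul, Finset.mul_sum]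
  refine Finset.sum_congr rfl fun i _ => Finset.sum_congr rfl fun k _ => ?_
  ring

lemma Lf_sum {ι : Type*} (s : Finset ι) (f : ι → Po R) :
    Lf N lam (∑ i ∈ s, f i) = ∑ i ∈ s, Lf N lam (f i) := by
  classical
  induction s using Finset.induction_on with
  | empty => simp [Lf_zero]
  | insert a s ha ih => rw [Finset.sum_insert ha, Finset.sum_insert ha, Lf_add, ih]

lemma Lf_listsum {ι : Type*} (l : List ι) (f : ι → Po R) :
    Lf N lam (l.map f).sum = (l.map fun t => Lf N lam (f t)).sum := by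
  induction l with
  | nil => simp [Lf_zero]
  | cons a l ih => simp [Lf_add, ih]

lemma Lf_map {S : Type*} [CommRing S] (φ : R →+* S) (p : Po R) :
    Lf N lam (MvPolynomial.map φ p) = φ (Lf N lam p) := by
  simp only [Lf, coeff_map, map_sum, map_mul, map_intCast]

lemma Lf_mo (hlam : ∀ i k, N ≤ i ∨ N ≤ k → lam i k = 0) (i k : ℕ) (r : R) :
    Lf N lam (C r * X 0 ^ i * X 1 ^ k) = r * (lam i k : R) := by
  simp only [Lf, ccoeff]
  by_cases hi : i < N
  · by_cases hk : k < N
    · rw [Finset.sum_eq_single i, Finset.sum_eq_single k]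
      · simp [mul_comm]
      · intro b _ hb
        rw [if_neg (fun h => hb h.2.symm), mul_zero]
      · intro h
        exact absurd (Finset.mem_range.2 hk) h
      · intro b _ hb
        refine Finset.sum_eq_zero fun c _ => ?_
        rw [if_neg (fun h => hb h.1.symm), mul_zero]
      · intro h
        exact absurd (Finset.mem_range.2 hi) h
    · rw [hlam i k (Or.inr (not_lt.1 hk))]
      simp only [Int.cast_zero, mul_zero]
      refine Finset.sum_eq_zero fun a _ => Finset.sum_eq_zero fun b hb => ?_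
      rw [if_neg, mul_zero]
      rintro ⟨_, rfl⟩
      exact hk (Finset.mem_range.1 hb)
  · rw [hlam i k (Or.inl (not_lt.1 hi))]
    simp only [Int.cast_zero, mul_zero]
    refine Finset.sum_eq_zero fun a ha => Finset.sum_eq_zero fun b _ => ?_
    rw [if_neg, mul_zero]
    rintro ⟨rfl, _⟩
    exact hi (Finset.mem_range.1 ha)

lemma cpd0 (i k : ℕ) (r : R) : pderiv 0 (C r * X 0 ^ (i + 1) * X 1 ^ k : Po R) =
    C (r * (i + 1)) * X 0 ^ i * X 1 ^ k := by
  simp only [Derivation.leibniz, Derivation.leibniz_pow, smul_eq_mul, nsmul_eq_mul, pderiv_C,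
    pderiv_X_self, pderiv_X_of_ne (show (1 : Fin 2) ≠ 0 by decide), map_mul, map_add, map_one,
    map_natCast, Nat.add_sub_cancel]
  push_cast
  ring

lemma cpd00 (k : ℕ) (r : R) : pderiv 0 (C r * X 0 ^ 0 * X 1 ^ k : Po R) = 0 := by
  simp only [Derivation.leibniz, Derivation.leibniz_pow, smul_eq_mul, nsmul_eq_mul, pderiv_C,
    pderiv_X_of_ne (show (1 : Fin 2) ≠ 0 by decide), pow_zero]
  simp

lemma cpd1 (i k : ℕ) (r : R) : pderiv 1 (C r * X 0 ^ i * X 1 ^ (k + 1) : Po R) =
    C (r * (k + 1)) * X 0 ^ i * X 1 ^ k := by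
  simp only [Derivation.leibniz, Derivation.leibniz_pow, smul_eq_mul, nsmul_eq_mul, pderiv_C,
    pderiv_X_self, pderiv_X_of_ne (show (0 : Fin 2) ≠ 1 by decide), map_mul, map_add, map_one,
    map_natCast, Nat.add_sub_cancel]
  push_cast
  ring

lemma cpd10 (i : ℕ) (r : R) : pderiv 1 (C r * X 0 ^ i * X 1 ^ 0 : Po R) = 0 := by
  simp only [Derivation.leibniz, Derivation.leibniz_pow, smul_eq_mul, nsmul_eq_mul, pderiv_C,
    pderiv_X_of_ne (show (0 : Fin 2) ≠ 1 by decide), pow_zero]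
  simp

lemma Lf_XX (hlam : ∀ i k, N ≤ i ∨ N ≤ k → lam i k = 0) (i k : ℕ) (r : R) :
    Lf N lam (XX (A0 R) (B0 R) (C r * X 0 ^ i * X 1 ^ k)) = r * (certRel lam i k : R) := by
  have key : XX (A0 R) (B0 R) (C r * X 0 ^ i * X 1 ^ k) =
      C (r * (k - i)) * X 0 ^ i * X 1 ^ k + C (r * (3 * k + 2 * i)) * X 0 ^ (i + 1) * X 1 ^ k
      + C (r * (8 * k + 8 * i)) * X 0 ^ (i + 2) * X 1 ^ k
      - C (r * (2 * k + 2 * i)) * X 0 ^ i * X 1 ^ (k + 2)
      - C (r * i) * X 0 ^ (i - 1) * X 1 ^ (k + 2) := by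
    rcases i with _ | i <;> rcases k with _ | k
    · rw [XX, cpd00, cpd10]; simp
    · rw [XX, cpd00, cpd1, A0]
      simp only [map_mul, map_add, map_sub, map_natCast, map_one, map_ofNat, Nat.cast_zero,
        map_zero, Nat.cast_add, Nat.cast_one]
      ring
    · rw [XX, cpd10, cpd0, B0]
      simp only [map_mul, map_add, map_sub, map_natCast, map_one, map_ofNat, Nat.cast_zero,
        map_zero, Nat.cast_add, Nat.cast_one, Nat.add_sub_cancel]
      ring
    · rw [XX, cpd0, cpd1, A0, B0]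
      simp only [map_mul, map_add, map_sub, map_natCast, map_one, map_ofNat, Nat.cast_zero,
        map_zero, Nat.cast_add, Nat.cast_one, Nat.add_sub_cancel]
      ring
  rw [key]
  simp only [Lf_add, Lf_sub, Lf_mo N lam hlam, certRel]
  push_cast
  ring

end

end Pool.Agent.CF
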