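import Pool.Agent.Lib_helper78.CFF.Cert2
import Pool.Agent.Lib_helper78.CFF.Cert1H
import Pool.Agent.Lib_helper78.CFF.Cert1L

/-! author of this file: helper78 -/

open MvPolynomial

namespace Pool.Agent.CF

noncomputable def cH0 : Po ℚ :=
  (certH.map fun t => C ((t.2.2 : ℚ) / 196608) * X 0 ^ t.1 * X 1 ^ t.2.1).sum

lemma XX_listsum {R : Type*} [CommRing R] (A B : Po R) {ι : Type*} (l : List ι) (f : ι → Po R) :
    XX A B (l.map f).sum = (l.map fun t => XX A B (f t)).sum := by
  induction l with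
  | nil => simp [XX_zero]
  | cons a l ih => simp [XX_add, ih]

lemma listsum_div {ι : Type*} (l : List ι) (f : ι → ℤ) :
    (l.map fun t => ((f t : ℤ) : ℚ) / 196608).sum = (((l.map f).sum : ℤ) : ℚ) / 196608 := by
  induction l with
  | nil => simp
  | cons a l ih => simp [ih, add_div]

lemma certl_zero (j : ℕ) (hj : j < 10) (i k : ℕ) (h : 20 < i + k) : certl j i k = 0 := by
  rw [certl]
  by_cases hi : i < 21
  · have := cert_len2 j hj i hi
    rw [List.getD_eq_default]
    omega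
  · have h1 := cert_len1 j hj
    have h2 : (certL.getD j []).getD i [] = [] := List.getD_eq_default _ _ (by omega)
    rw [h2]
    rfl

lemma certl_out (j : ℕ) (hj : j < 10) (i k : ℕ) (h : 22 ≤ i ∨ 22 ≤ k) : certl j i k = 0 :=
  certl_zero j hj i k (by omega)

lemma certl_rel (j : ℕ) (hj : j < 10) (i k : ℕ) : certRel (certl j) i k = 0 := by
  by_cases h : i + k ≤ 20
  · exact cert_rel1 j hj i (by omega) k (by omega)
  · rw [certRel, certl_zero j hj i k (by omega), certl_zero j hj (i + 1) k (by omega),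
      certl_zero j hj (i + 2) k (by omega), certl_zero j hj i (k + 2) (by omega),
      certl_zero j hj (i - 1) (k + 2) (by omega)]
    ring

lemma cH0_coeff0 : coeff 0 cH0 = 0 := by
  have h1 : coeff 0 cH0 = eval 0 cH0 := by rw [eval_zero]; rfl
  rw [h1, cH0]
  have : ∀ t ∈ certH, t.1 ≠ 0 ∨ t.2.1 ≠ 0 := by decide +kernel
  generalize certH = l at this
  induction l with
  | nil => simp
  | cons a l ih =>
    rw [List.map_cons, List.sum_cons, map_add, ih (fun t ht => this t (List.mem_cons_of_mem _ ht)),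
      add_zero]
    rcases this a (List.mem_cons_self) with h | h
    · simp [h]
    · simp [h]

lemma certDel_out (a b : ℕ) (ha : a < 22) (hb : b < 22) (i k : ℕ) (h : 22 ≤ i ∨ 22 ≤ k) :
    certDel a b i k = 0 := by
  rw [certDel, if_neg]
  omega

lemma Lf_del {R : Type*} [CommRing R] (a b : ℕ) (ha : a < 22) (hb : b < 22) (p : Po R) :
    Lf 22 (certDel a b) p = coeff (cmk a b) p := by
  rw [Lf, Finset.sum_eq_single a, Finset.sum_eq_single b]
  · simp [certDel]
  · intro k _ hk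
    rw [certDel, if_neg (fun h => hk h.2)]; simp
  · intro h
    exact absurd (Finset.mem_range.2 hb) h
  · intro i _ hi
    refine Finset.sum_eq_zero fun k _ => ?_
    rw [certDel, if_neg (fun h => hi h.1)]; simp
  · intro h
    exact absurd (Finset.mem_range.2 ha) h

lemma cH0_ord : Ord 22 (XX (A0 ℚ) (B0 ℚ) cH0) := by
  intro m hm
  rw [← cmk_eta m, ← Lf_del (m 0) (m 1) (by omega) (by omega), cH0, XX_listsum, Lf_listsum]
  simp only [Lf_XX 22 (certDel (m 0) (m 1)) (certDel_out (m 0) (m 1) (by omega) (by omega))]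
  have h1 : (certH.map fun t => (t.2.2 : ℚ) / 196608 *
      (certRel (certDel (m 0) (m 1)) t.1 t.2.1 : ℚ)).sum =
      (certH.map fun t => (((t.2.2 * certRel (certDel (m 0) (m 1)) t.1 t.2.1 : ℤ)) : ℚ) / 196608).sum := by
    congr 1
    refine List.map_congr_left fun t _ => ?_
    push_cast
    ring
  rw [h1, listsum_div]
  have h2 := cert_H1 (m 0) (by omega) (m 1) (by omega) hm
  rw [certSumH] at h2
  rw [h2]
  simp

lemma Lf_Lam (j : ℕ) (hj : j < 10) (c : ℕ) (hc : c < 20) :
    Lf 22 (certl j) (XX (mA c) (mB c) cH0) =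
      (((certLam.getD j []).getD c 0 : ℤ) : ℚ) / 196608 := by
  rw [← cert_L1 j hj c hc, certSumL, ← listsum_div, cH0, XX_listsum, Lf_listsum]
  congr 1
  refine List.map_congr_left fun t _ => ?_
  by_cases h10 : c < 10
  · simp only [mA, mB, if_pos h10]
    rcases ht : t.2.1 with _ | k
    · rw [XX, cpd10]
      simp [Lf_zero]
    · rw [XX, cpd1]
      have : (X 0 ^ cU c * X 1 ^ cV c * (C ((t.2.2 : ℚ) / 196608 * (k + 1)) * X 0 ^ t.1 * X 1 ^ k) -
          0 * pderiv 0 (C ((t.2.2 : ℚ) / 196608) * X 0 ^ t.1 * X 1 ^ (k + 1)) : Po ℚ) =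
          C ((t.2.2 : ℚ) / 196608 * (k + 1)) * X 0 ^ (t.1 + cU c) * X 1 ^ (k + cV c) := by
        ring
      rw [this, Lf_mo 22 (certl j) (certl_out j hj), Nat.add_sub_cancel]
      push_cast
      ring
  · simp only [mA, mB, if_neg h10]
    rcases ht : t.1 with _ | i
    · rw [XX, cpd00]
      simp [Lf_zero]
    · rw [XX, cpd0]
      have : (0 * pderiv 1 (C ((t.2.2 : ℚ) / 196608) * X 0 ^ (i + 1) * X 1 ^ t.2.1) -
          X 0 ^ cU c * X 1 ^ cV c * (C ((t.2.2 : ℚ) / 196608 * (i + 1)) * X 0 ^ i * X 1 ^ t.2.1) :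
            Po ℚ) =
          C (-((t.2.2 : ℚ) / 196608 * (i + 1))) * X 0 ^ (i + cU c) * X 1 ^ (t.2.1 + cV c) := by
        rw [map_neg]
        ring
      rw [this, Lf_mo 22 (certl j) (certl_out j hj), Nat.add_sub_cancel]
      push_cast
      ring

/-- the functionals kill `XX A0 B0 h` -/
lemma Lf_kill {R : Type*} [CommRing R] (j : ℕ) (hj : j < 10) (h : Po R) :
    Lf 22 (certl j) (XX (A0 R) (B0 R) h) = 0 := by
  rw [h.as_sum, XX_sum, Lf_sum]
  refine Finset.sum_eq_zero fun m _ => ?_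
  have : (monomial m (coeff m h) : Po R) = C (coeff m h) * X 0 ^ m 0 * X 1 ^ m 1 := by
    rw [cmo, cmk_eta]
  rw [this, Lf_XX 22 (certl j) (certl_out j hj), certl_rel j hj]
  simp

lemma Lf_mem {R : Type*} [CommRing R] (J' : Ideal R) (j : ℕ) (hj : j < 10) (W : Po R)
    (hW : ∀ m : Fin 2 →₀ ℕ, m 0 + m 1 ≤ 20 → coeff m W ∈ J') : Lf 22 (certl j) W ∈ J' := by
  rw [Lf]
  refine Ideal.sum_mem _ fun i _ => Ideal.sum_mem _ fun k _ => ?_
  by_cases h : i + k ≤ 20
  · exact J'.mul_mem_left _ (hW _ (by rw [cmk_zero, cmk_one]; exact h))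
  · rw [certl_zero j hj i k (by omega)]
    simp

end Pool.Agent.CF
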