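import Pool.Agent.Lib_helper78.CFF.CertTab

/-! author of this file: helper78 -/

/-! Integer tables for the certificate at the center, second part -/

namespace Pool.Agent.CF

/-- `24` times the matrix of `DPh 0` at the base point -/
def certDA : List (List ℤ) := [
  [0, 0, 0, 4, 4, 0, 0, 0, 0, -896, -128, 0],
  [0, 0, 0, 16, -20, 0, 0, 0, 0, -2816, -896, 0],
  [11, 1, 0, 0, 0, 4, -48, 48, 0, 0, 0, -896],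
  [0, 0, 0, -128, 16, 0, 0, 0, 0, -2048, -1280, 0],
  [28, 6, 0, 0, 0, 16, 480, 288, 0, 0, 0, -2816],
  [0, 0, 11, 96, -36, 0, 0, 0, -48, 1536, 384, 0],
  [0, 0, 0, 0, 0, 0, 0, 0, 0, 0, 0, 0],
  [0, 32, 0, 0, 0, -128, 0, 960, 0, 0, 0, -2048],
  [0, 0, 28, 0, 24, 0, 0, 0, 480, 0, 2304, 0],
  [0, -6, 0, 0, 0, 96, 0, 0, 0, 0, 0, 1536]]

/-- `24` times the matrix of `DPh 1` at the base point -/
def certDB : List (List ℤ) := [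
  [1, 0, 0, 0, 0, 4, 48, 0, 0, 0, 0, -128],
  [4, 1, 0, 0, 0, -24, -384, 48, 0, 0, 0, 0],
  [0, 0, 2, -12, 0, 0, 0, 0, 96, -1152, 0, 0],
  [-32, 4, 0, 0, 0, 0, -960, -384, 0, 0, 0, 1536],
  [0, 0, -1, -24, -12, 0, 0, 0, -48, -2304, -1152, 0],
  [6, 0, 0, 0, 0, -48, 0, 0, 0, 0, 0, -768],
  [0, -32, 0, 0, 0, 128, 0, -960, 0, 0, 0, 2048],
  [0, 0, -28, 0, -24, 0, 0, 0, -480, 0, -2304, 0],
  [0, 6, 0, 0, 0, -96, 0, 0, 0, 0, 0, -1536],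
  [0, 0, 0, 0, 0, 0, 0, 0, 0, 0, 0, 0]]

/-- solution map with the common denominator `556416` -/
def certGi : List (List ℤ) := [
  [0, 0, 953856, 0, 105984, 0, 0, -79488, 0, -158976, -105984, 0, 0, 0, 0, 0, 0, 0, 0, 0],
  [0, 0, 6359040, 0, -4239360, 0, 0, 953856, 0, -317952, 48752640, 0, 0, 0, 0, 0, 0, 0, 0, 0],
  [2064384, -645120, 0, 709632, 0, 967680, 0, 0, 96768, 0, 0, 0, 0, 0, 0, 0, 0, 0, 0, 0],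
  [288512, -20608, 0, -97888, 0, 0, 0, 0, 0, 0, 0, 0, 0, 0, 0, 0, 0, 0, 0, 0],
  [1318912, -412160, 0, -10304, 0, 0, 0, 0, 0, 0, 0, 0, 0, 0, 0, 0, 0, 0, 0, 0],
  [0, 0, 397440, 0, -264960, 0, 0, 59616, 0, 119232, 3047040, 0, 0, 0, 0, 0, 0, 0, 0, 0],
  [0, 0, -52992, 0, 19872, 0, 0, -3312, 0, -6624, 26496, 0, 0, 0, 0, 0, 0, 0, 0, 0],
  [0, 0, -158976, 0, 105984, 0, 0, -9936, 0, 26496, -1218816, 0, 0, 0, 0, 0, 0, 0, 0, 0],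
  [-186368, 58240, 0, -40880, 0, -56448, 0, 0, 22176, 0, 0, 0, 0, 0, 0, 0, 0, 0, 0, 0],
  [-7728, -1932, 0, -483, 0, 0, 0, 0, 0, 0, 0, 0, 0, 0, 0, 0, 0, 0, 0, 0],
  [0, 0, 0, 0, 0, 0, 0, 0, 0, 0, 0, 0, 0, 0, 0, 0, 0, 0, 0, 0],
  [0, 0, 0, 0, 0, 0, 0, 0, 0, 0, 0, 0, 0, 0, 0, 0, 0, 0, 0, 0]]

end Pool.Agent.CF
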