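import Pool.Agent.Lib_helper78.CFF.Cert1
import Pool.Agent.Lib_helper78.CFF.CertTab2

/-! author of this file: helper78 -/

namespace Pool.Agent.CF

theorem cert_DA : ∀ c < 20, ∀ k < 10,
    certRD.getD 0 0 * ((if c = k then 24 * 556416 else 0) -
      ((List.range 12).map fun p => (certDA.getD k []).getD p 0 * (certGi.getD p []).getD c 0).sum) =
    if k = 6 then 24 * 556416 * (certR.getD 0 []).getD c 0 else 0 := by
  decide +kernel

theorem cert_DB : ∀ c < 20, ∀ k < 10,
    certRD.getD k 0 * ((if c = 10 + k then 24 * 556416 else 0) -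
      ((List.range 12).map fun p => (certDB.getD k []).getD p 0 * (certGi.getD p []).getD c 0).sum) =
    if k = 0 then 0 else 24 * 556416 * (certR.getD k []).getD c 0 := by
  decide +kernel

end Pool.Agent.CF
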