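import Pool.Agent.Lib_helper78.CFF.Cert2
import Pool.Agent.Lib_helper78.CFF.Cert4A

/-! author of this file: helper78 -/

open MvPolynomial

namespace Pool.Agent.CF

noncomputable def cPv (v : ℕ → ℚ) (p : ℕ) : Po ℚ :=
  C (v p) + C (v (p + 1)) * X 0 + C (v (p + 2)) * X 1

lemma cert_eval0 (x : Fin 2 → ℚ) (v : ℕ → ℚ) :
    eval x (DPh 0 (Lb ℚ) (sb ℚ) (ab ℚ) (cb ℚ) (cPv v 0) (cPv v 3) (cPv v 6) (cPv v 9)) =
      ∑ k ∈ Finset.range 10, (∑ p ∈ Finset.range 12,
        (((certDA.getD k []).getD p 0 : ℤ) : ℚ) / 24 * v p) * (x 0 ^ cU k * x 1 ^ cV k) := by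
  have h4 : pderiv (0 : Fin 2) (4 : Po ℚ) = 0 := by
    rw [show (4 : Po ℚ) = C 4 from (map_ofNat C 4).symm, pderiv_C]
  have h8 : pderiv (0 : Fin 2) (8 : Po ℚ) = 0 := by
    rw [show (8 : Po ℚ) = C 8 from (map_ofNat C 8).symm, pderiv_C]
  simp only [DPh, Lb, sb, ab, cb, cPv, Derivation.leibniz, map_add, map_sub, map_neg, smul_eq_mul,
    pderiv_C, pderiv_X_self, pderiv_X_of_ne (show (1 : Fin 2) ≠ 0 by decide), h4, h8,
    eval_C, eval_X, map_mul, map_pow, map_ofNat, map_one, map_zero, eq_ratCast]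
  simp only [pderiv_one, map_zero, Finset.sum_range_succ, Finset.sum_range_zero]
  simp [certDA, cU, cV]
  ring

lemma cert_eval1 (x : Fin 2 → ℚ) (v : ℕ → ℚ) :
    eval x (DPh 1 (Lb ℚ) (sb ℚ) (ab ℚ) (cb ℚ) (cPv v 0) (cPv v 3) (cPv v 6) (cPv v 9)) =
      ∑ k ∈ Finset.range 10, (∑ p ∈ Finset.range 12,
        (((certDB.getD k []).getD p 0 : ℤ) : ℚ) / 24 * v p) * (x 0 ^ cU k * x 1 ^ cV k) := by
  have h4 : pderiv (1 : Fin 2) (4 : Po ℚ) = 0 := by
    rw [show (4 : Po ℚ) = C 4 from (map_ofNat C 4).symm, pderiv_C]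
  have h8 : pderiv (1 : Fin 2) (8 : Po ℚ) = 0 := by
    rw [show (8 : Po ℚ) = C 8 from (map_ofNat C 8).symm, pderiv_C]
  simp only [DPh, Lb, sb, ab, cb, cPv, Derivation.leibniz, map_add, map_sub, map_neg, smul_eq_mul,
    pderiv_C, pderiv_X_self, pderiv_X_of_ne (show (0 : Fin 2) ≠ 1 by decide), h4, h8,
    eval_C, eval_X, map_mul, map_pow, map_ofNat, map_one, map_zero, eq_ratCast]
  simp only [pderiv_one, map_zero, Finset.sum_range_succ, Finset.sum_range_zero]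
  simp [certDB, cU, cV]
  ring

noncomputable def cG (c p : ℕ) : ℚ := (((certGi.getD p []).getD c 0 : ℤ) : ℚ) / 556416
noncomputable def cPl (p c : ℕ) : Po ℚ := cPv (cG c) p
noncomputable def cR (r c : ℕ) : ℚ := ((certR.getD r []).getD c 0 : ℚ) / (certRD.getD r 0 : ℚ)

lemma cert_listsum (f : ℕ → ℤ) (n : ℕ) : ((List.range n).map f).sum = ∑ p ∈ Finset.range n, f p := by
  rw [← List.sum_toFinset _ List.nodup_range, List.toFinset_range]

lemma cert_DA' (c : ℕ) (hc : c < 20) (k : ℕ) (hk : k < 10) :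
    (if c = k then (1 : ℚ) else 0) - ∑ p ∈ Finset.range 12,
      (((certDA.getD k []).getD p 0 : ℤ) : ℚ) / 24 * cG c p = if k = 6 then cR 0 c else 0 := by
  have h1 := cert_DA c hc k hk
  have hR := (cert_D1 0 (by norm_num)).2
  rw [cert_listsum] at h1
  have h2 := congrArg (fun z : ℤ => (z : ℚ)) h1
  push_cast at h2
  have hR' : ((certRD.getD 0 0 : ℤ) : ℚ) ≠ 0 := by exact_mod_cast hR
  have h3 : ∑ p ∈ Finset.range 12, (((certDA.getD k []).getD p 0 : ℤ) : ℚ) / 24 * cG c p =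
      (∑ p ∈ Finset.range 12, (((certDA.getD k []).getD p 0 : ℤ) : ℚ) *
        (((certGi.getD p []).getD c 0 : ℤ) : ℚ)) / (24 * 556416) := by
    rw [Finset.sum_div]
    refine Finset.sum_congr rfl fun p _ => ?_
    rw [cG]; ring
  rw [h3]
  set S := ∑ p ∈ Finset.range 12, (((certDA.getD k []).getD p 0 : ℤ) : ℚ) *
        (((certGi.getD p []).getD c 0 : ℤ) : ℚ)
  have h4 : ((certRD.getD 0 0 : ℤ) : ℚ) * ((if c = k then (24 * 556416 : ℚ) else 0) - S) =
      if k = 6 then 24 * 556416 * (((certR.getD 0 []).getD c 0 : ℤ) : ℚ) else 0 := by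
    rw [show (24 * 556416 : ℚ) = 13353984 by norm_num]
    exact h2
  have h5 : ((if c = k then (1 : ℚ) else 0) - S / (24 * 556416)) =
      ((if c = k then (24 * 556416 : ℚ) else 0) - S) / (24 * 556416) := by
    split_ifs <;> ring
  have h6 : ((if c = k then (24 * 556416 : ℚ) else 0) - S) =
      (if k = 6 then 24 * 556416 * (((certR.getD 0 []).getD c 0 : ℤ) : ℚ) else 0) /
        ((certRD.getD 0 0 : ℤ) : ℚ) := by
    rw [eq_div_iff hR', mul_comm]
    exact h4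
  rw [h5, h6, cR]
  by_cases hk6 : k = 6
  · rw [if_pos hk6, if_pos hk6]
    field_simp
  · rw [if_neg hk6, if_neg hk6]
    simp

lemma cert_DB' (c : ℕ) (hc : c < 20) (k : ℕ) (hk : k < 10) :
    (if c = 10 + k then (1 : ℚ) else 0) - ∑ p ∈ Finset.range 12,
      (((certDB.getD k []).getD p 0 : ℤ) : ℚ) / 24 * cG c p = if k = 0 then 0 else cR k c := by
  have h1 := cert_DB c hc k hk
  have hR := (cert_D1 k hk).2
  rw [cert_listsum] at h1
  have h2 := congrArg (fun z : ℤ => (z : ℚ)) h1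
  push_cast at h2
  have hR' : ((certRD.getD k 0 : ℤ) : ℚ) ≠ 0 := by exact_mod_cast hR
  have h3 : ∑ p ∈ Finset.range 12, (((certDB.getD k []).getD p 0 : ℤ) : ℚ) / 24 * cG c p =
      (∑ p ∈ Finset.range 12, (((certDB.getD k []).getD p 0 : ℤ) : ℚ) *
        (((certGi.getD p []).getD c 0 : ℤ) : ℚ)) / (24 * 556416) := by
    rw [Finset.sum_div]
    refine Finset.sum_congr rfl fun p _ => ?_
    rw [cG]; ring
  rw [h3]
  set S := ∑ p ∈ Finset.range 12, (((certDB.getD k []).getD p 0 : ℤ) : ℚ) *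
        (((certGi.getD p []).getD c 0 : ℤ) : ℚ)
  have h4 : ((certRD.getD k 0 : ℤ) : ℚ) * ((if c = 10 + k then (24 * 556416 : ℚ) else 0) - S) =
      if k = 0 then 0 else 24 * 556416 * (((certR.getD k []).getD c 0 : ℤ) : ℚ) := by
    rw [show (24 * 556416 : ℚ) = 13353984 by norm_num]
    exact h2
  have h5 : ((if c = 10 + k then (1 : ℚ) else 0) - S / (24 * 556416)) =
      ((if c = 10 + k then (24 * 556416 : ℚ) else 0) - S) / (24 * 556416) := by
    split_ifs <;> ring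
  have h6 : ((if c = 10 + k then (24 * 556416 : ℚ) else 0) - S) =
      (if k = 0 then 0 else 24 * 556416 * (((certR.getD k []).getD c 0 : ℤ) : ℚ)) /
        ((certRD.getD k 0 : ℤ) : ℚ) := by
    rw [eq_div_iff hR', mul_comm]
    exact h4
  rw [h5, h6, cR]
  by_cases hk6 : k = 0
  · rw [if_pos hk6, if_pos hk6]
    simp
  · rw [if_neg hk6, if_neg hk6]
    field_simp

lemma cert_evA (x : Fin 2 → ℚ) (c : ℕ) (hc : c < 20) : eval x (mA c) =
    ∑ k ∈ Finset.range 10, (if c = k then (1 : ℚ) else 0) * (x 0 ^ cU k * x 1 ^ cV k) := by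
  rw [mA]
  split_ifs with h
  · rw [Finset.sum_eq_single c]
    · simp
    · intro k _ hk
      rw [if_neg (fun h => hk h.symm), zero_mul]
    · intro h'
      exact absurd (Finset.mem_range.2 h) h'
  · rw [map_zero, Finset.sum_eq_zero]
    intro k hk
    have := Finset.mem_range.1 hk
    rw [if_neg (by omega), zero_mul]

lemma cU_add (c : ℕ) : cU (10 + c) = cU c := by simp [cU]
lemma cV_add (c : ℕ) : cV (10 + c) = cV c := by simp [cV]

lemma cert_evB (x : Fin 2 → ℚ) (c : ℕ) (hc : c < 20) : eval x (mB c) =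
    ∑ k ∈ Finset.range 10, (if c = 10 + k then (1 : ℚ) else 0) * (x 0 ^ cU k * x 1 ^ cV k) := by
  rw [mB]
  split_ifs with h
  · rw [map_zero, Finset.sum_eq_zero]
    intro k hk
    rw [if_neg (by omega), zero_mul]
  · obtain ⟨j, rfl⟩ : ∃ j, c = 10 + j := ⟨c - 10, by omega⟩
    rw [Finset.sum_eq_single j]
    · rw [cU_add, cV_add]
      simp
    · intro k _ hk
      rw [if_neg (fun h => hk (by omega)), zero_mul]
    · intro h'
      exact absurd (Finset.mem_range.2 (by omega)) h'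

theorem cert_A (c : ℕ) (hc : c < 20) : mA c - DPh 0 (Lb ℚ) (sb ℚ) (ab ℚ) (cb ℚ)
    (cPl 0 c) (cPl 3 c) (cPl 6 c) (cPl 9 c) = C (cR 0 c) * X 0 ^ 3 := by
  apply MvPolynomial.funext
  intro x
  rw [map_sub, cPl, cPl, cPl, cPl, cert_eval0, cert_evA x c hc, ← Finset.sum_sub_distrib]
  have : ∀ k ∈ Finset.range 10, (if c = k then (1 : ℚ) else 0) * (x 0 ^ cU k * x 1 ^ cV k) -
      (∑ p ∈ Finset.range 12, (((certDA.getD k []).getD p 0 : ℤ) : ℚ) / 24 * cG c p) *
        (x 0 ^ cU k * x 1 ^ cV k) = (if k = 6 then cR 0 c else 0) * (x 0 ^ cU k * x 1 ^ cV k) := by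
    intro k hk
    rw [← sub_mul, cert_DA' c hc k (Finset.mem_range.1 hk)]
  rw [Finset.sum_congr rfl this, Finset.sum_eq_single 6]
  · simp [cU, cV]
  · intro k _ hk
    rw [if_neg hk, zero_mul]
  · intro h
    exact absurd (Finset.mem_range.2 (by norm_num)) h

theorem cert_B (c : ℕ) (hc : c < 20) : mB c - DPh 1 (Lb ℚ) (sb ℚ) (ab ℚ) (cb ℚ)
    (cPl 0 c) (cPl 3 c) (cPl 6 c) (cPl 9 c) =
    ∑ r ∈ Finset.Icc 1 9, C (cR r c) * (X 0 ^ cU r * X 1 ^ cV r) := by
  apply MvPolynomial.funext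
  intro x
  rw [map_sub, cPl, cPl, cPl, cPl, cert_eval1, cert_evB x c hc, ← Finset.sum_sub_distrib, map_sum]
  have : ∀ k ∈ Finset.range 10, (if c = 10 + k then (1 : ℚ) else 0) * (x 0 ^ cU k * x 1 ^ cV k) -
      (∑ p ∈ Finset.range 12, (((certDB.getD k []).getD p 0 : ℤ) : ℚ) / 24 * cG c p) *
        (x 0 ^ cU k * x 1 ^ cV k) = (if k = 0 then 0 else cR k c) * (x 0 ^ cU k * x 1 ^ cV k) := by
    intro k hk
    rw [← sub_mul, cert_DB' c hc k (Finset.mem_range.1 hk)]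
  rw [Finset.sum_congr rfl this]
  symm
  have hsub : Finset.Icc 1 9 ⊆ Finset.range 10 := by decide
  have h2 : ∀ r ∈ Finset.Icc 1 9, eval x (C (cR r c) * (X 0 ^ cU r * X 1 ^ cV r)) =
      (if r = 0 then 0 else cR r c) * (x 0 ^ cU r * x 1 ^ cV r) := by
    intro r hr
    have := Finset.mem_Icc.1 hr
    rw [if_neg (by omega), map_mul, map_mul, map_pow, map_pow, eval_C, eval_X, eval_X]
  rw [Finset.sum_congr rfl h2]
  refine Finset.sum_subset hsub fun k hk hk' => ?_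
  have h0 : k = 0 := by
    by_contra h0
    apply hk'
    rw [Finset.mem_Icc]
    have := Finset.mem_range.1 hk
    omega
  rw [if_pos h0, zero_mul]

end Pool.Agent.CF
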