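import Pool.Agent.Lib_helper78.CFF.Cert3
import Pool.Agent.Lib_helper78.CFF.Cert4

/-! author of this file: helper78 -/

open MvPolynomial

namespace Pool.Agent.CF

section lin
variable {R : Type*} [CommRing R] (i : Fin 2) (L s a c : Po R)

lemma DPh_add (l t b d l' t' b' d' : Po R) :
    DPh i L s a c (l + l') (t + t') (b + b') (d + d') =
      DPh i L s a c l t b d + DPh i L s a c l' t' b' d' := by
  simp only [DPh, map_add]
  ring

lemma DPh_C_mul (r : R) (l t b d : Po R) :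
    DPh i L s a c (C r * l) (C r * t) (C r * b) (C r * d) = C r * DPh i L s a c l t b d := by
  simp only [DPh, Derivation.leibniz, pderiv_C, smul_eq_mul, mul_zero, add_zero]
  ring

lemma DPh_zero : DPh i L s a c 0 0 0 0 = 0 := by
  simp only [DPh, map_zero]
  ring

lemma DPh_sum {ι : Type*} (S : Finset ι) (r : ι → R) (l t b d : ι → Po R) :
    DPh i L s a c (∑ x ∈ S, C (r x) * l x) (∑ x ∈ S, C (r x) * t x) (∑ x ∈ S, C (r x) * b x)
      (∑ x ∈ S, C (r x) * d x) = ∑ x ∈ S, C (r x) * DPh i L s a c (l x) (t x) (b x) (d x) := by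
  classical
  induction S using Finset.induction_on with
  | empty => simp [DPh_zero]
  | insert x S hx ih =>
    simp only [Finset.sum_insert hx]
    rw [DPh_add, DPh_C_mul, ih]

lemma map_DPh {T : Type*} [CommRing T] (φ : R →+* T) (l t b d : Po R) :
    MvPolynomial.map φ (DPh i L s a c l t b d) =
      DPh i (MvPolynomial.map φ L) (MvPolynomial.map φ s) (MvPolynomial.map φ a)
        (MvPolynomial.map φ c) (MvPolynomial.map φ l) (MvPolynomial.map φ t)
        (MvPolynomial.map φ b) (MvPolynomial.map φ d) := by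
  simp only [DPh, map_add, map_sub, map_mul, map_pow, pderiv_map, map_ofNat]

end lin

section base
variable {R : Type*} [CommRing R] [Algebra ℚ R]
lemma map_Lb : MvPolynomial.map (algebraMap ℚ R) (Lb ℚ) = Lb R := by
  simp [Lb]
lemma map_sb : MvPolynomial.map (algebraMap ℚ R) (sb ℚ) = sb R := by
  simp [sb]
lemma map_ab : MvPolynomial.map (algebraMap ℚ R) (ab ℚ) = ab R := by
  rw [ab, ab, map_mul, map_C, map_sub, map_mul, map_X, map_one, map_ofNat]
  rfl
lemma map_cb : MvPolynomial.map (algebraMap ℚ R) (cb ℚ) = cb R := by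
  rw [cb, cb, map_neg, map_mul, map_C, map_X]
  rfl
end base

lemma c10_cover (i k : ℕ) (h : i + k ≤ 3) : ∃ c < 10, cU c = i ∧ cV c = k := by
  have : ∀ i < 4, ∀ k < 4, i + k ≤ 3 → ∃ c < 10, cU c = i ∧ cV c = k := by decide
  exact this i (by omega) k (by omega) h

lemma c10_inj : ∀ c < 10, ∀ c' < 10, cU c = cU c' → cV c = cV c' → c = c' := by decide

lemma c10_deg : ∀ c < 10, cU c + cV c ≤ 3 := by decide

lemma dec10 {R : Type*} [CommRing R] (a : Po R) (ha : a.totalDegree ≤ 3) :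
    a = ∑ c ∈ Finset.range 10, C (coeff (cmk (cU c) (cV c)) a) * X 0 ^ cU c * X 1 ^ cV c := by
  ext m
  rw [← cmk_eta m, coeff_sum]
  simp only [ccoeff]
  by_cases h : m 0 + m 1 ≤ 3
  · obtain ⟨c, hc, h0, h1⟩ := c10_cover _ _ h
    rw [Finset.sum_eq_single c]
    · rw [if_pos ⟨h0, h1⟩, h0, h1]
    · intro c' hc' hne
      rw [if_neg]
      rintro ⟨e0, e1⟩
      exact hne (c10_inj c' (Finset.mem_range.1 hc') c hc (by rw [e0, h0]) (by rw [e1, h1]))
    · intro h
      exact absurd (Finset.mem_range.2 hc) h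
  · rw [Finset.sum_eq_zero]
    · apply coeff_eq_zero_of_totalDegree_lt
      have : ∑ i ∈ (cmk (m 0) (m 1)).support, (cmk (m 0) (m 1)) i = m 0 + m 1 := by
        rw [cmk_eta]
        change m.degree = _
        exact deg2 m
      rw [this]
      omega
    · intro c hc
      rw [if_neg]
      rintro ⟨e0, e1⟩
      have := c10_deg c (Finset.mem_range.1 hc)
      omega

noncomputable def ceta {R : Type*} [CommRing R] (a b : Po R) (c : ℕ) : R :=
  if c < 10 then coeff (cmk (cU c) (cV c)) a else coeff (cmk (cU c) (cV c)) b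

lemma dec20A {R : Type*} [CommRing R] [Algebra ℚ R] (a b : Po R) (ha : a.totalDegree ≤ 3) :
    a = ∑ c ∈ Finset.range 20, C (ceta a b c) * MvPolynomial.map (algebraMap ℚ R) (mA c) := by
  rw [Finset.sum_range_add (fun c => C (ceta a b c) * MvPolynomial.map (algebraMap ℚ R) (mA c)) 10 10]
  have h2 : ∑ x ∈ Finset.range 10,
      C (ceta a b (10 + x)) * MvPolynomial.map (algebraMap ℚ R) (mA (10 + x)) = 0 := by
    refine Finset.sum_eq_zero fun c _ => ?_
    rw [mA, if_neg (by omega)]; simp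
  rw [h2, add_zero]
  conv_lhs => rw [dec10 a ha]
  refine Finset.sum_congr rfl fun c hc => ?_
  have hc' := Finset.mem_range.1 hc
  rw [mA, ceta, if_pos hc', if_pos hc']
  simp [mul_assoc]

lemma dec20B {R : Type*} [CommRing R] [Algebra ℚ R] (a b : Po R) (hb : b.totalDegree ≤ 3) :
    b = ∑ c ∈ Finset.range 20, C (ceta a b c) * MvPolynomial.map (algebraMap ℚ R) (mB c) := by
  rw [Finset.sum_range_add (fun c => C (ceta a b c) * MvPolynomial.map (algebraMap ℚ R) (mB c)) 10 10]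
  have h2 : ∑ x ∈ Finset.range 10,
      C (ceta a b x) * MvPolynomial.map (algebraMap ℚ R) (mB x) = 0 := by
    refine Finset.sum_eq_zero fun c hc => ?_
    have hc' := Finset.mem_range.1 hc
    rw [mB, if_pos hc']; simp
  rw [h2, zero_add]
  conv_lhs => rw [dec10 b hb]
  refine Finset.sum_congr rfl fun c hc => ?_
  have hc' := Finset.mem_range.1 hc
  rw [mB, ceta, if_neg (by omega), if_neg (by omega), cU_add, cV_add]
  simp [mul_assoc]

lemma XX_sum_left {R : Type*} [CommRing R] {ι : Type*} (s : Finset ι) (r : ι → R) (A B : ι → Po R)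
    (H : Po R) : XX (∑ x ∈ s, C (r x) * A x) (∑ x ∈ s, C (r x) * B x) H =
      ∑ x ∈ s, C (r x) * XX (A x) (B x) H := by
  simp only [XX, Finset.sum_mul, ← Finset.sum_sub_distrib]
  refine Finset.sum_congr rfl fun x _ => ?_
  ring

lemma cPl_deg (p c : ℕ) : (cPl p c).totalDegree ≤ 1 := by
  rw [cPl, cPv]
  refine (totalDegree_add _ _).trans (max_le ((totalDegree_add _ _).trans (max_le ?_ ?_)) ?_)
  · rw [totalDegree_C]; exact Nat.zero_le _
  · refine (totalDegree_mul _ _).trans ?_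
    rw [totalDegree_C, totalDegree_X]
  · refine (totalDegree_mul _ _).trans ?_
    rw [totalDegree_C, totalDegree_X]

/-- residual coefficients as combinations of the functionals -/
lemma cR_E (r : ℕ) (hr : r < 10) (c : ℕ) (hc : c < 20) :
    cR r c = ∑ j ∈ Finset.range 10,
      (((certE.getD r []).getD j 0 : ℤ) : ℚ) / ((certD.getD r 0 : ℤ) : ℚ) *
        ((((certLam.getD j []).getD c 0 : ℤ) : ℚ) / 196608) := by
  have h1 := cert_E1 r hr c hc
  obtain ⟨hD, hRD⟩ := cert_D1 r hr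
  have h2 : ((List.range 10).map fun j => (certE.getD r []).getD j 0 *
      (certLam.getD j []).getD c 0).sum = ∑ j ∈ Finset.range 10, (certE.getD r []).getD j 0 *
      (certLam.getD j []).getD c 0 := by
    rw [← List.sum_toFinset _ List.nodup_range, List.toFinset_range]
  rw [h2] at h1
  have h3 : (((certR.getD r []).getD c 0 : ℤ) : ℚ) * ((certD.getD r 0 : ℤ) : ℚ) * 196608 =
      ((certRD.getD r 0 : ℤ) : ℚ) * ∑ j ∈ Finset.range 10, (((certE.getD r []).getD j 0 : ℤ) : ℚ) *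
        (((certLam.getD j []).getD c 0 : ℤ) : ℚ) := by
    have := congrArg (fun z : ℤ => (z : ℚ)) h1
    push_cast at this
    exact this
  have hD' : ((certD.getD r 0 : ℤ) : ℚ) ≠ 0 := by exact_mod_cast hD
  have hRD' : ((certRD.getD r 0 : ℤ) : ℚ) ≠ 0 := by exact_mod_cast hRD
  have h4 : ∑ j ∈ Finset.range 10,
      (((certE.getD r []).getD j 0 : ℤ) : ℚ) / ((certD.getD r 0 : ℤ) : ℚ) *
        ((((certLam.getD j []).getD c 0 : ℤ) : ℚ) / 196608) =
      (∑ j ∈ Finset.range 10, (((certE.getD r []).getD j 0 : ℤ) : ℚ) *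
        (((certLam.getD j []).getD c 0 : ℤ) : ℚ)) / (((certD.getD r 0 : ℤ) : ℚ) * 196608) := by
    rw [Finset.sum_div]
    refine Finset.sum_congr rfl fun j _ => ?_
    field_simp
  rw [h4, cR, div_eq_div_iff hRD' (by positivity)]
  linear_combination h3

theorem cert_H0 : ∃ H0 : Po ℚ, coeff 0 H0 = 0 ∧ Ord 22 (XX (A0 ℚ) (B0 ℚ) H0) ∧
    ∀ (R : Type) [CommRing R] [Algebra ℚ R] (J J' : Ideal R) (a b h : Po R),
      a.totalDegree ≤ 3 → b.totalDegree ≤ 3 → CI J a → CI J b →
      (∀ m : Fin 2 →₀ ℕ, m 0 + m 1 ≤ 20 →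
        coeff m (XX a b (map (algebraMap ℚ R) H0) + XX (A0 R) (B0 R) h) ∈ J') →
      ∃ l t b' d : Po R, l.totalDegree ≤ 1 ∧ t.totalDegree ≤ 1 ∧ b'.totalDegree ≤ 1 ∧
        d.totalDegree ≤ 1 ∧ CI J l ∧ CI J t ∧ CI J b' ∧ CI J d ∧
        CI J' (a - DPh 0 (Lb R) (sb R) (ab R) (cb R) l t b' d) ∧
        CI J' (b - DPh 1 (Lb R) (sb R) (ab R) (cb R) l t b' d) := by
  refine ⟨cH0, cH0_coeff0, cH0_ord, ?_⟩
  intro R _ _ J J' a b h ha hb hJa hJb hc
  set η : ℕ → R := ceta a b with hη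
  have hA := dec20A a b ha
  have hB := dec20B a b hb
  have hηJ : ∀ c, η c ∈ J := by
    intro c
    simp only [hη, ceta]
    split_ifs
    · exact hJa _
    · exact hJb _
  set ψ := MvPolynomial.map (σ := Fin 2) (algebraMap ℚ R) with hψ
  -- the functionals
  have hr : ∀ j < 10, ∑ c ∈ Finset.range 20, η c *
      algebraMap ℚ R ((((certLam.getD j []).getD c 0 : ℤ) : ℚ) / 196608) ∈ J' := by
    intro j hj
    have h1 := Lf_mem J' j hj _ hc
    rw [Lf_add, Lf_kill j hj, add_zero] at h1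
    have h2 : XX a b (ψ cH0) = ∑ c ∈ Finset.range 20, C (η c) * ψ (XX (mA c) (mB c) cH0) := by
      have e1 : XX a b (ψ cH0) = XX (∑ c ∈ Finset.range 20, C (η c) * ψ (mA c))
          (∑ c ∈ Finset.range 20, C (η c) * ψ (mB c)) (ψ cH0) := by
        rw [hη, ← hA, ← hB]
      rw [e1, XX_sum_left]
      refine Finset.sum_congr rfl fun c _ => ?_
      rw [hψ, map_XX]
    rw [h2, Lf_sum] at h1
    convert h1 using 1
    refine Finset.sum_congr rfl fun c hc => ?_
    rw [Lf_C_mul, hψ, Lf_map, Lf_Lam j hj c (Finset.mem_range.1 hc)]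
  have hρ : ∀ r < 10, ∑ c ∈ Finset.range 20, η c * algebraMap ℚ R (cR r c) ∈ J' := by
    intro r hr'
    have h1 : ∑ c ∈ Finset.range 20, η c * algebraMap ℚ R (cR r c) =
        ∑ j ∈ Finset.range 10, algebraMap ℚ R
          ((((certE.getD r []).getD j 0 : ℤ) : ℚ) / ((certD.getD r 0 : ℤ) : ℚ)) *
          ∑ c ∈ Finset.range 20, η c *
            algebraMap ℚ R ((((certLam.getD j []).getD c 0 : ℤ) : ℚ) / 196608) := by
      simp only [Finset.mul_sum]
      rw [Finset.sum_comm]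
      refine Finset.sum_congr rfl fun c hc => ?_
      rw [cR_E r hr' c (Finset.mem_range.1 hc), map_sum, Finset.mul_sum]
      refine Finset.sum_congr rfl fun j _ => ?_
      rw [map_mul]
      ring
    rw [h1]
    exact Ideal.sum_mem _ fun j hj => J'.mul_mem_left _ (hr j (Finset.mem_range.1 hj))
  have hdeg : ∀ p, (∑ c ∈ Finset.range 20, C (η c) * ψ (cPl p c)).totalDegree ≤ 1 := by
    intro p
    refine (totalDegree_finsetSum _ _).trans (Finset.sup_le fun c _ => ?_)
    refine (totalDegree_mul _ _).trans ?_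
    rw [totalDegree_C, zero_add]
    exact (Finset.sup_mono (support_map_subset _ _)).trans (cPl_deg p c)
  have hCI : ∀ p, CI J (∑ c ∈ Finset.range 20, C (η c) * ψ (cPl p c)) := fun p =>
    CI.sum _ _ fun c _ => (ci_C (hηJ c)).mul_right _
  refine ⟨∑ c ∈ Finset.range 20, C (η c) * ψ (cPl 0 c), ∑ c ∈ Finset.range 20, C (η c) * ψ (cPl 3 c),
    ∑ c ∈ Finset.range 20, C (η c) * ψ (cPl 6 c), ∑ c ∈ Finset.range 20, C (η c) * ψ (cPl 9 c),
    hdeg 0, hdeg 3, hdeg 6, hdeg 9, hCI 0, hCI 3, hCI 6, hCI 9, ?_, ?_⟩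
  · have h1 : a - DPh 0 (Lb R) (sb R) (ab R) (cb R)
        (∑ c ∈ Finset.range 20, C (η c) * ψ (cPl 0 c)) (∑ c ∈ Finset.range 20, C (η c) * ψ (cPl 3 c))
        (∑ c ∈ Finset.range 20, C (η c) * ψ (cPl 6 c)) (∑ c ∈ Finset.range 20, C (η c) * ψ (cPl 9 c)) =
        C (∑ c ∈ Finset.range 20, η c * algebraMap ℚ R (cR 0 c)) * X 0 ^ 3 := by
      conv_lhs => arg 1; rw [hA]
      rw [DPh_sum, ← Finset.sum_sub_distrib, map_sum, Finset.sum_mul]
      refine Finset.sum_congr rfl fun c hc => ?_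
      rw [← map_Lb, ← map_sb, ← map_ab, ← map_cb, ← map_DPh, ← mul_sub, ← map_sub,
        cert_A c (Finset.mem_range.1 hc), map_mul, map_C, map_pow, map_X, map_mul]
      ring
    rw [h1]
    exact (ci_C (hρ 0 (by norm_num))).mul_right _
  · have h1 : b - DPh 1 (Lb R) (sb R) (ab R) (cb R)
        (∑ c ∈ Finset.range 20, C (η c) * ψ (cPl 0 c)) (∑ c ∈ Finset.range 20, C (η c) * ψ (cPl 3 c))
        (∑ c ∈ Finset.range 20, C (η c) * ψ (cPl 6 c)) (∑ c ∈ Finset.range 20, C (η c) * ψ (cPl 9 c)) =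
        ∑ r ∈ Finset.Icc 1 9, C (∑ c ∈ Finset.range 20, η c * algebraMap ℚ R (cR r c)) *
          (X 0 ^ cU r * X 1 ^ cV r) := by
      conv_lhs => arg 1; rw [hB]
      rw [DPh_sum, ← Finset.sum_sub_distrib]
      simp only [map_sum, Finset.sum_mul]
      rw [Finset.sum_comm]
      refine Finset.sum_congr rfl fun c hc => ?_
      rw [← map_Lb, ← map_sb, ← map_ab, ← map_cb, ← map_DPh, ← mul_sub, ← map_sub,
        cert_B c (Finset.mem_range.1 hc), map_sum, Finset.mul_sum]
      refine Finset.sum_congr rfl fun r _ => ?_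
      rw [map_mul, map_C, map_mul, map_pow, map_pow, map_X, map_X, map_mul]
      ring
    rw [h1]
    refine CI.sum _ _ fun r hr' => (ci_C (hρ r ?_)).mul_right _
    have := Finset.mem_Icc.1 hr'
    omega

end Pool.Agent.CF
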