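import Pool.Agent.Lib_helper78.CFF.Base

/-! author of this file: helper37 -/

/-!
# FAM1: the base point of the family and the first integrals of its members
-/

open MvPolynomial IsLocalRing

namespace Pool.Agent.CF

section base0
variable {R : Type*} [CommRing R]

lemma fam1_4 (i : Fin 2) : pderiv i (4 : Po R) = 0 := by
  rw [show (4 : Po R) = C 4 from (map_ofNat C 4).symm, pderiv_C]

lemma fam1_8 (i : Fin 2) : pderiv i (8 : Po R) = 0 := by
  rw [show (8 : Po R) = C 8 from (map_ofNat C 8).symm, pderiv_C]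

lemma fam1_zero {u v E : Po R} (hu : 12 * u = 1) (hv : 32 * v = 1) (h : 24 * E = 0) : E = 0 := by
  linear_combination (16 * u * v) * h - E * hv - (E * 32 * v) * hu

lemma fam1_d0s : pderiv 0 (sb R) = 0 := by
  simp only [sb, map_neg, pderiv_X_of_ne (show (1 : Fin 2) ≠ 0 by decide), neg_zero]

lemma fam1_d1s : pderiv 1 (sb R) = -1 := by
  simp only [sb, map_neg, pderiv_X_self]

lemma fam1_d0L : pderiv 0 (Lb R) = 8 := by
  simp only [Lb, map_add, Derivation.leibniz, fam1_4, fam1_8, pderiv_X_self, smul_eq_mul]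
  ring

lemma fam1_d1L : pderiv 1 (Lb R) = 0 := by
  simp only [Lb, map_add, Derivation.leibniz, fam1_4, fam1_8,
    pderiv_X_of_ne (show (0 : Fin 2) ≠ 1 by decide), smul_eq_mul]
  ring

end base0

section base
variable {R : Type*} [CommRing R] [Algebra ℚ R]

lemma fam1_u : (12 : Po R) * C (algebraMap ℚ R (1 / 12)) = 1 := by
  have h1 : (12 : Po R) = C (algebraMap ℚ R 12) := by rw [map_ofNat, map_ofNat]
  rw [h1, ← C_mul, ← map_mul]
  norm_num

lemma fam1_v : (32 : Po R) * C (algebraMap ℚ R (1 / 32)) = 1 := by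
  have h1 : (32 : Po R) = C (algebraMap ℚ R 32) := by rw [map_ofNat, map_ofNat]
  rw [h1, ← C_mul, ← map_mul]
  norm_num

lemma fam1_d0a : pderiv 0 (ab R) = 4 * C (algebraMap ℚ R (1 / 12)) := by
  simp only [ab, map_sub, Derivation.leibniz, fam1_4, pderiv_C, pderiv_X_self, smul_eq_mul,
    Derivation.map_one_eq_zero]
  ring

lemma fam1_d1a : pderiv 1 (ab R) = 0 := by
  simp only [ab, map_sub, Derivation.leibniz, fam1_4, pderiv_C,
    pderiv_X_of_ne (show (0 : Fin 2) ≠ 1 by decide), smul_eq_mul,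
    Derivation.map_one_eq_zero]
  ring

lemma fam1_d0c : pderiv 0 (cb R) = 0 := by
  simp only [cb, map_neg, Derivation.leibniz, pderiv_C,
    pderiv_X_of_ne (show (1 : Fin 2) ≠ 0 by decide), smul_eq_mul]
  ring

lemma fam1_d1c : pderiv 1 (cb R) = -C (algebraMap ℚ R (1 / 32)) := by
  simp only [cb, map_neg, Derivation.leibniz, pderiv_C, pderiv_X_self, smul_eq_mul]
  ring

theorem base_A : Ph 0 (Lb R) (sb R) (ab R) (cb R) = A0 R := by
  have hu := fam1_u (R := R)
  have hv := fam1_v (R := R)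
  rw [← sub_eq_zero]
  apply fam1_zero hu hv
  simp only [Ph, fam1_d0L, fam1_d0s, fam1_d0a, fam1_d0c]
  simp only [Lb, sb, ab, cb, A0]
  set u : Po R := C (algebraMap ℚ R (1 / 12)) with hu'
  set v : Po R := C (algebraMap ℚ R (1 / 32)) with hv'
  clear_value u v
  linear_combination
    (4 * X 1 * (4 * X 0 - 1) ^ 2 * (12 * u + 1) +
      2 * (12 * u + 1) * (4 + 8 * X 0) * X 1 * (4 * X 0 - 1) -
      (4 + 8 * X 0) * X 1 * (4 * X 0 - 1) + 24 * X 1 * (1 + 2 * X 0) ^ 2) * hu +
    (-48 * X 1 ^ 3 - (12 * u) * (4 + 8 * X 0) * X 1 * (4 * X 0 - 1) +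
      24 * (12 * u) * X 1 * (1 + 2 * X 0) ^ 2) * hv

theorem base_B : Ph 1 (Lb R) (sb R) (ab R) (cb R) = B0 R := by
  have hu := fam1_u (R := R)
  have hv := fam1_v (R := R)
  rw [← sub_eq_zero]
  apply fam1_zero hu hv
  simp only [Ph, fam1_d1L, fam1_d1s, fam1_d1a, fam1_d1c]
  simp only [Lb, sb, ab, cb, B0]
  set u : Po R := C (algebraMap ℚ R (1 / 12)) with hu'
  set v : Po R := C (algebraMap ℚ R (1 / 32)) with hv'
  clear_value u v
  linear_combination
    (-(12 * u + 1) * (4 * X 0 - 1) ^ 2 * (4 + 8 * X 0) - 4 * (4 * X 0 - 1) * (1 + 2 * X 0) ^ 2) * hu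
    + (6 * (4 + 8 * X 0) * X 1 ^ 2 - 4 * (12 * u) * (4 * X 0 - 1) * (1 + 2 * X 0) ^ 2) * hv

end base

section fi
variable {R : Type*} [CommRing R]

lemma fam1_cancel {n : ℕ} {L p : Po R} (hL : IsUnit (coeff 0 L)) (h : Ord n (L * p)) :
    Ord n p := by
  obtain ⟨u, hu⟩ := hL
  set t : Po R := 1 - C (↑u⁻¹ : R) * L with ht
  have ht1 : Ord 1 t := by
    rw [ord_one_iff, ht, coeff_sub, coeff_C_mul, ← hu]
    simp
  have h1 : p = (∑ i ∈ Finset.range n, t ^ i) * (C (↑u⁻¹ : R) * (L * p)) + t ^ n * p := by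
    have h2 := geom_sum_mul_neg t n
    have h3 : 1 - t = C (↑u⁻¹ : R) * L := by rw [ht]; ring
    rw [h3] at h2
    linear_combination (-p) * h2
  have h4 : Ord n (t ^ n) := by
    have := ht1.pow n
    rwa [one_mul] at this
  rw [h1]
  exact ((h.mul_left _).mul_left _).add (h4.mul_right _)

/-- coefficients of `(1+w)^(-3/2)` -/
noncomputable def fam1b : ℕ → ℚ
  | 0 => 1
  | k + 1 => -(2 * k + 3) / (2 * (k + 1)) * fam1b k

lemma fam1b_succ (k : ℕ) : 2 * ((k : ℚ) + 1) * fam1b (k + 1) = -((2 * k + 3) * fam1b k) := by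
  simp only [fam1b]
  have : ((k : ℚ) + 1) ≠ 0 := by positivity
  field_simp

variable [Algebra ℚ R]

noncomputable def fam1U (w : Po R) : ℕ → Po R
  | 0 => 1
  | k + 1 => fam1U w k + C (algebraMap ℚ R (fam1b (k + 1))) * w ^ (k + 1)

noncomputable def fam1V (w : Po R) : ℕ → Po R
  | 0 => 0
  | k + 1 => fam1V w k + C (algebraMap ℚ R (fam1b (k + 1))) * (((k : Po R) + 1) * w ^ k)

lemma fam1_pderiv (w : Po R) (i : Fin 2) (K : ℕ) :
    pderiv i (fam1U w K) = fam1V w K * pderiv i w := by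
  induction K with
  | zero => simp [fam1U, fam1V]
  | succ K ih =>
    simp only [fam1U, fam1V, map_add, ih, Derivation.leibniz, Derivation.leibniz_pow, pderiv_C,
      smul_eq_mul, nsmul_eq_mul, Nat.add_sub_cancel]
    push_cast
    ring

lemma fam1_ode (w : Po R) (K : ℕ) : 2 * (1 + w) * fam1V w K + 3 * fam1U w K =
    C (algebraMap ℚ R ((2 * K + 3) * fam1b K)) * w ^ K := by
  induction K with
  | zero =>
    have : (C (algebraMap ℚ R (3 : ℚ)) : Po R) = 3 := by rw [map_ofNat, map_ofNat]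
    simp [fam1U, fam1V, fam1b, this]
  | succ K ih =>
    have h1 : (C (algebraMap ℚ R ((2 * K + 3) * fam1b K)) : Po R) =
        -(2 * ((K : Po R) + 1) * C (algebraMap ℚ R (fam1b (K + 1)))) := by
      have h2 := congrArg (fun q : ℚ => (C (algebraMap ℚ R q) : Po R)) (fam1b_succ K)
      simp only [map_neg, map_mul, map_add, map_natCast, map_ofNat, map_one] at h2 ⊢
      linear_combination h2
    have h3 : (C (algebraMap ℚ R ((2 * ((K + 1 : ℕ) : ℚ) + 3) * fam1b (K + 1))) : Po R) =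
        (2 * ((K : Po R) + 1) + 3) * C (algebraMap ℚ R (fam1b (K + 1))) := by
      simp only [map_mul, map_add, map_natCast, map_ofNat]
      push_cast
      ring
    rw [h3]
    rw [h1] at ih
    simp only [fam1U, fam1V]
    linear_combination ih

lemma fam1_coeff (w : Po R) (hw : coeff 0 w = 0) (K : ℕ) : coeff 0 (fam1U w K) = 1 := by
  induction K with
  | zero => simp [fam1U]
  | succ K ih =>
    simp only [fam1U, coeff_add, ih, coeff_C_mul]
    have h1 : coeff 0 (w ^ (K + 1)) = 0 := by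
      have := (ord_one_iff.2 hw).pow (K + 1)
      rw [one_mul] at this
      exact this 0 (by simp)
    rw [h1]; simp

theorem fam_fi (n : ℕ) (L s a c : Po R)
    (hL : IsUnit (coeff 0 L)) (hf : IsUnit (coeff 0 (fF L s a))) :
    ∃ S U : Po R, coeff 0 S = 0 ∧ coeff 0 U = 1 ∧
      S = gF L s a c * U - C (coeff 0 (gF L s a c)) ∧
      Ord n (XX (Ph 0 L s a c) (Ph 1 L s a c) S) := by
  obtain ⟨φ, hφ⟩ := hf
  have id0 := fam_id 0 L s a c
  have id1 := fam_id 1 L s a c
  set f := fF L s a with hf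
  set g := gF L s a c with hg
  set w : Po R := C (↑φ⁻¹ : R) * f - 1 with hw
  have hw0 : coeff 0 w = 0 := by
    rw [hw, coeff_sub, coeff_C_mul, ← hφ]
    simp
  have hU0 := fam1_coeff w hw0 n
  refine ⟨g * fam1U w n - C (coeff 0 g), fam1U w n, ?_, hU0, rfl, ?_⟩
  · have h1 : coeff 0 (g * fam1U w n) = coeff 0 g * coeff 0 (fam1U w n) := by
      rw [← constantCoeff_eq, map_mul]
    rw [coeff_sub, h1, hU0, mul_one, coeff_zero_C, sub_self]
  · apply fam1_cancel hL
    have hdw : ∀ i, pderiv i w = C (↑φ⁻¹ : R) * pderiv i f := by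
      intro i
      rw [hw]
      simp only [map_sub, Derivation.leibniz, pderiv_C, smul_eq_mul, Derivation.map_one_eq_zero]
      ring
    have hode := fam1_ode w n
    have h1 : L * XX (Ph 0 L s a c) (Ph 1 L s a c) (g * fam1U w n - C (coeff 0 g)) =
        g * (pderiv 0 g * pderiv 1 f - pderiv 1 g * pderiv 0 f) *
          (C (algebraMap ℚ R ((2 * n + 3) * fam1b n)) * w ^ n) := by
      rw [← hode]
      simp only [XX, map_sub, pderiv_C, Derivation.leibniz, smul_eq_mul, fam1_pderiv, hdw, sub_zero]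
      have hfw : C (↑φ⁻¹ : R) * f = 1 + w := by rw [hw]; ring
      linear_combination (g * (fam1V w n * (C (↑φ⁻¹ : R) * pderiv 1 f)) +
        fam1U w n * pderiv 1 g) * id0 - (g * (fam1V w n * (C (↑φ⁻¹ : R) * pderiv 0 f)) +
        fam1U w n * pderiv 0 g) * id1 +
        (2 * g * fam1V w n * (pderiv 0 g * pderiv 1 f - pderiv 1 g * pderiv 0 f)) * hfw
    rw [h1]
    have h4 : Ord n (w ^ n) := by
      have := (ord_one_iff.2 hw0).pow n
      rwa [one_mul] at this
    exact (h4.mul_left _).mul_left _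

end fi

end Pool.Agent.CF
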