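import Pool.Agent.Lib_helper78.CFF.Base

/-! author of this file: helper82 -/

open MvPolynomial IsLocalRing

set_option linter.unusedVariables false

namespace Pool.Agent.CF

/-! ### degree -/

/-- total degree at most `n` -/
def fam2_D {R : Type*} [CommRing R] (n : ℕ) (p : Po R) : Prop := p.totalDegree ≤ n

section D
variable {R : Type*} [CommRing R] {n k : ℕ} {p q : Po R}

lemma fam2_D.mono (h : fam2_D n p) (hk : n ≤ k) : fam2_D k p := le_trans h hk
lemma fam2_D.mul (hp : fam2_D n p) (hq : fam2_D k q) : fam2_D (n + k) (p * q) :=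
  (totalDegree_mul p q).trans (add_le_add hp hq)
lemma fam2_D.add (hp : fam2_D n p) (hq : fam2_D n q) : fam2_D n (p + q) :=
  (totalDegree_add p q).trans (max_le hp hq)
lemma fam2_D.sub (hp : fam2_D n p) (hq : fam2_D n q) : fam2_D n (p - q) :=
  (totalDegree_sub p q).trans (max_le hp hq)
lemma fam2_D.neg (hp : fam2_D n p) : fam2_D n (-p) := by
  unfold fam2_D; rw [totalDegree_neg]; exact hp
lemma fam2_D_C (c : R) : fam2_D 0 (C c : Po R) := by
  unfold fam2_D; rw [totalDegree_C]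
lemma fam2_D_nat (c : ℕ) : fam2_D 0 (c : Po R) := by
  have := fam2_D_C (c : R)
  rwa [map_natCast] at this
lemma fam2_D.pow (hp : fam2_D n p) (k : ℕ) : fam2_D (k * n) (p ^ k) :=
  (totalDegree_pow p k).trans (Nat.mul_le_mul_left k hp)
lemma fam2_D.nmul (c : ℕ) (hp : fam2_D n p) : fam2_D n ((c : Po R) * p) := by
  have := (fam2_D_nat (R := R) c).mul hp
  rwa [zero_add] at this
lemma fam2_D.mulC (c : R) (hp : fam2_D n p) : fam2_D n (p * C c) := hp.mul (fam2_D_C c)

end D

/-- Euler's identity for polynomials of degree at most 1 -/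
lemma fam2_E {R : Type*} [CommRing R] (p : Po R) (hp : p.totalDegree ≤ 1) :
    X 0 * pderiv 0 p + X 1 * pderiv 1 p = p - C (coeff 0 p) := by
  classical
  -- `p = a + b x + c y`
  have n0 : (Finsupp.single 0 1 : Fin 2 →₀ ℕ) ≠ 0 := by
    intro h
    have := congrArg (fun f : Fin 2 →₀ ℕ => f 0) h
    simp at this
  have n1 : (Finsupp.single 1 1 : Fin 2 →₀ ℕ) ≠ 0 := by
    intro h
    have := congrArg (fun f : Fin 2 →₀ ℕ => f 1) h
    simp at this
  have n2 : (Finsupp.single 0 1 : Fin 2 →₀ ℕ) ≠ Finsupp.single 1 1 := by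
    intro h
    have := congrArg (fun f : Fin 2 →₀ ℕ => f 1) h
    simp at this
  have key : p = C (coeff 0 p) + C (coeff (Finsupp.single 0 1) p) * X 0
      + C (coeff (Finsupp.single 1 1) p) * X 1 := by
    ext m
    rw [coeff_add, coeff_add, coeff_C, coeff_C_mul, coeff_C_mul, coeff_X, coeff_X]
    by_cases h0 : m = 0
    · subst h0
      rw [if_pos rfl, if_neg n0, if_neg n1]
      ring
    by_cases h1 : m = Finsupp.single 0 1
    · subst h1
      rw [if_neg n0.symm, if_pos rfl, if_neg n2.symm]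
      ring
    by_cases h2 : m = Finsupp.single 1 1
    · subst h2
      rw [if_neg n1.symm, if_neg n2, if_pos rfl]
      ring
    rw [if_neg (Ne.symm h0), if_neg (Ne.symm h1), if_neg (Ne.symm h2)]
    have : coeff m p = 0 := by
      apply coeff_eq_zero_of_totalDegree_lt
      refine lt_of_le_of_lt hp ?_
      have e : ∑ i ∈ m.support, m i = m.degree := rfl
      rw [e, deg2]
      by_contra hlt
      have h3 : (m 0 = 0 ∧ m 1 = 0) ∨ (m 0 = 1 ∧ m 1 = 0) ∨ (m 0 = 0 ∧ m 1 = 1) := by omega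
      rcases h3 with ⟨a, b⟩ | ⟨a, b⟩ | ⟨a, b⟩
      · exact h0 (by ext i; fin_cases i <;> simp [a, b])
      · exact h1 (by ext i; fin_cases i <;> simp [a, b])
      · exact h2 (by ext i; fin_cases i <;> simp [a, b])
    rw [this]; ring
  have h01 : (pderiv 0 (X 1 : Po R)) = 0 := pderiv_X_of_ne (by decide)
  have h10 : (pderiv 1 (X 0 : Po R)) = 0 := pderiv_X_of_ne (by decide)
  have h0 : pderiv 0 p = C (coeff (Finsupp.single 0 1) p) := by
    conv_lhs => rw [key]
    simp only [map_add, Derivation.leibniz, h01, pderiv_X_self, pderiv_C, smul_eq_mul, mul_zero,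
      mul_one, add_zero, zero_add]
  have h1 : pderiv 1 p = C (coeff (Finsupp.single 1 1) p) := by
    conv_lhs => rw [key]
    simp only [map_add, Derivation.leibniz, h10, pderiv_X_self, pderiv_C, smul_eq_mul, mul_zero,
      mul_one, add_zero, zero_add]
  rw [h0, h1]
  linear_combination -key

theorem fam_deg {R : Type*} [CommRing R] (L s a c : Po R) (hL : L.totalDegree ≤ 1)
    (hs : s.totalDegree ≤ 1) (ha : a.totalDegree ≤ 1) (hc : c.totalDegree ≤ 1) :
    (X 0 * Ph 0 L s a c + X 1 * Ph 1 L s a c).totalDegree ≤ 3 := by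
  have eL := fam2_E L hL
  have es := fam2_E s hs
  have ea := fam2_E a ha
  have ec := fam2_E c hc
  have key : X 0 * Ph 0 L s a c + X 1 * Ph 1 L s a c =
      -((((8 : ℕ) : Po R) * (s * s * c) - ((3 : ℕ) : Po R) * (s * a * a)) * C (coeff 0 L)
        + L * (((4 : ℕ) : Po R) * (s * s * C (coeff 0 c)) + (((6 : ℕ) : Po R) * (a * a) - ((12 : ℕ) : Po R) * (c * s)) *
            C (coeff 0 s) - ((3 : ℕ) : Po R) * (s * a * C (coeff 0 a))
          + ((2 : ℕ) : Po R) * (a * c * C (coeff 0 L)))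
        + L * L * (((4 : ℕ) : Po R) * (a * C (coeff 0 c)) - ((6 : ℕ) : Po R) * (c * C (coeff 0 a)))) := by
    unfold Ph
    push_cast
    linear_combination (8 * s ^ 2 * c - 3 * s * a ^ 2 + 2 * L * a * c) * eL
      + L * (6 * a ^ 2 - 12 * c * s) * es + (-3 * L * s * a - 6 * L ^ 2 * c) * ea
      + (4 * L * s ^ 2 + 4 * L ^ 2 * a) * ec
  rw [key]
  have hL : fam2_D 1 L := hL
  have hs : fam2_D 1 s := hs
  have ha : fam2_D 1 a := ha
  have hc : fam2_D 1 c := hc
  refine fam2_D.neg (((?_ : fam2_D 3 _).add ?_).add ?_)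
  · exact ((((hs.mul hs).mul hc).nmul 8).sub (((hs.mul ha).mul ha).nmul 3)).mulC _
  · exact hL.mul ((((((hs.mul hs).mulC _).nmul 4).add ((((ha.mul ha).nmul 6).sub
      ((hc.mul hs).nmul 12)).mulC _)).sub (((hs.mul ha).mulC _).nmul 3)).add
      (((ha.mul hc).mulC _).nmul 2))
  · exact (hL.mul hL).mul (((ha.mulC _).nmul 4).sub ((hc.mulC _).nmul 6))

/-! ### first order expansion -/

/-- first order expansion: `P1 = P0 + D` modulo `K`, `D ∈ J`, `P0 = P'` modulo `I` -/
def fam2_FE {S : Type*} [CommRing S] (K J I : Ideal S) (P1 P0 P' D : S) : Prop :=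
  P1 - P0 - D ∈ K ∧ D ∈ J ∧ P0 - P' ∈ I

section FE
variable {S : Type*} [CommRing S] {K J I : Ideal S}

lemma fam2_FE.add {P1 P0 P' D Q1 Q0 Q' E : S} (h : fam2_FE K J I P1 P0 P' D)
    (g : fam2_FE K J I Q1 Q0 Q' E) : fam2_FE K J I (P1 + Q1) (P0 + Q0) (P' + Q') (D + E) := by
  refine ⟨?_, J.add_mem h.2.1 g.2.1, ?_⟩
  · convert K.add_mem h.1 g.1 using 1; ring
  · convert I.add_mem h.2.2 g.2.2 using 1; ring

lemma fam2_FE.sub {P1 P0 P' D Q1 Q0 Q' E : S} (h : fam2_FE K J I P1 P0 P' D)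
    (g : fam2_FE K J I Q1 Q0 Q' E) : fam2_FE K J I (P1 - Q1) (P0 - Q0) (P' - Q') (D - E) := by
  refine ⟨?_, J.sub_mem h.2.1 g.2.1, ?_⟩
  · convert K.sub_mem h.1 g.1 using 1; ring
  · convert I.sub_mem h.2.2 g.2.2 using 1; ring

lemma fam2_FE.mul (hIJ : I * J ≤ K) (hJI : J ≤ I) {P1 P0 P' D Q1 Q0 Q' E : S}
    (h : fam2_FE K J I P1 P0 P' D)
    (g : fam2_FE K J I Q1 Q0 Q' E) :
    fam2_FE K J I (P1 * Q1) (P0 * Q0) (P' * Q') (D * Q' + P' * E) := by
  obtain ⟨h1, h2, h3⟩ := h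
  obtain ⟨g1, g2, g3⟩ := g
  refine ⟨?_, J.add_mem (J.mul_mem_right _ h2) (J.mul_mem_left _ g2), ?_⟩
  · have a1 : (P1 - P0 - D) * Q1 ∈ K := K.mul_mem_right _ h1
    have a2 : P0 * (Q1 - Q0 - E) ∈ K := K.mul_mem_left _ g1
    have a3 : D * (Q1 - Q0 - E) ∈ K := K.mul_mem_left _ g1
    have a4 : E * D ∈ K := hIJ (Ideal.mul_mem_mul (hJI g2) h2)
    have a5 : (Q0 - Q') * D ∈ K := hIJ (Ideal.mul_mem_mul g3 h2)
    have a6 : (P0 - P') * E ∈ K := hIJ (Ideal.mul_mem_mul h3 g2)
    have := K.add_mem (K.add_mem (K.add_mem a1 a2) a3) (K.add_mem (K.add_mem a4 a5) a6)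
    convert this using 1
    ring
  · have a1 : (P0 - P') * Q0 ∈ I := I.mul_mem_right _ h3
    have a2 : P' * (Q0 - Q') ∈ I := I.mul_mem_left _ g3
    convert I.add_mem a1 a2 using 1
    ring

lemma fam2_FE_const (x : S) : fam2_FE K J I x x x 0 :=
  ⟨by simp, J.zero_mem, by simp⟩

lemma fam2_FE.congr {P1 P0 P' D R1 R0 R' F : S} (h : fam2_FE K J I P1 P0 P' D)
    (h1 : R1 = P1) (h2 : R0 = P0) (h3 : R' = P') (h4 : F = D) : fam2_FE K J I R1 R0 R' F := by
  subst h1 h2 h3 h4; exact h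

end FE

theorem fam_exp {R : Type*} [CommRing R] (J I : Ideal R) (hJ : J ≤ I) (i : Fin 2)
    (L s a c L' s' a' c' l t b d : Po R)
    (hL : CI I (L - L')) (hs : CI I (s - s')) (ha : CI I (a - a')) (hc : CI I (c - c'))
    (hl : CI J l) (ht : CI J t) (hb : CI J b) (hd : CI J d) :
    CI (I * J) (Ph i (L + l) (s + t) (a + b) (c + d) - Ph i L s a c
      - DPh i L' s' a' c' l t b d) := by
  set KK : Ideal (Po R) := (I * J).map (C : R →+* Po R) with hKK
  set JJ : Ideal (Po R) := J.map (C : R →+* Po R) with hJJ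
  set II : Ideal (Po R) := I.map (C : R →+* Po R) with hII
  have hIJ : II * JJ ≤ KK := by rw [hKK, Ideal.map_mul]
  have hJI : JJ ≤ II := Ideal.map_mono hJ
  have base : ∀ p p' x : Po R, CI I (p - p') → CI J x → fam2_FE KK JJ II (p + x) p p' x := by
    intro p p' x h1 h2
    refine ⟨?_, ci_iff.1 h2, ci_iff.1 h1⟩
    have : p + x - p - x = 0 := by ring
    rw [this]; exact KK.zero_mem
  have based : ∀ p p' x : Po R, CI I (p - p') → CI J x →
      fam2_FE KK JJ II (pderiv i (p + x)) (pderiv i p) (pderiv i p') (pderiv i x) := by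
    intro p p' x h1 h2
    have := base (pderiv i p) (pderiv i p') (pderiv i x) (by
      rw [← map_sub]; exact h1.pderiv i) (h2.pderiv i)
    rwa [← map_add] at this
  have fL := base L L' l hL hl
  have fs := base s s' t hs ht
  have fa := base a a' b ha hb
  have fc := base c c' d hc hd
  have gL := based L L' l hL hl
  have gs := based s s' t hs ht
  have ga := based a a' b ha hb
  have gc := based c c' d hc hd
  have n : ∀ x : Po R, fam2_FE KK JJ II x x x 0 := fam2_FE_const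
  have m : ∀ {P1 P0 P' D Q1 Q0 Q' E : Po R}, fam2_FE KK JJ II P1 P0 P' D →
      fam2_FE KK JJ II Q1 Q0 Q' E →
      fam2_FE KK JJ II (P1 * Q1) (P0 * Q0) (P' * Q') (D * Q' + P' * E) :=
    fun h g => fam2_FE.mul hIJ hJI h g
  -- the three parts of `Ph`
  have t1 := m ((m (m (n 8) (m fs fs)) fc).sub (m (m (n 3) fs) (m fa fa))) gL
  have t2 := m fL (((((m (m (n 4) (m fs fs)) gc).add
    (m ((m (n 6) (m fa fa)).sub (m (m (n 12) fc) fs)) gs)).sub (m (m (m (n 3) fs) fa) ga)).add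
    (m (m (m (n 2) fa) fc) gL)))
  have t3 := m (m fL fL) ((m (m (n 4) fa) gc).sub (m (m (n 6) fc) ga))
  have t := (t1.add t2).add t3
  have := t.1
  rw [ci_iff]
  convert this using 1
  unfold Ph DPh
  ring

end Pool.Agent.CF
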