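import Pool.Agent.Lib_helper78.CFF.Base

/-! author of this file: helper82 -/

open MvPolynomial IsLocalRing

namespace Pool.Agent.CF

/-- Euler operator on coefficients -/
lemma lf_euler (f : Po ℂ) (m : Fin 2 →₀ ℕ) :
    coeff m (X 0 * pderiv 0 f + X 1 * pderiv 1 f) = ((m 0 + m 1 : ℕ) : ℂ) * coeff m f := by
  have key : ∀ i : Fin 2, coeff m (X i * pderiv i f) = (m i : ℂ) * coeff m f := by
    intro i
    rw [coeff_X_mul']
    split_ifs with h
    · rw [coeff_pderiv]
      have h1 : 1 ≤ m i := Nat.one_le_iff_ne_zero.2 (Finsupp.mem_support_iff.1 h)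
      have h2 : m - Finsupp.single i 1 + Finsupp.single i 1 = m :=
        tsub_add_cancel_of_le (by
          rw [Finsupp.single_le_iff]; exact h1)
      rw [h2]
      have h3 : (((m - Finsupp.single i 1 : Fin 2 →₀ ℕ) i : ℕ) : ℂ) + 1 = m i := by
        rw [Finsupp.tsub_apply, Finsupp.single_eq_same]
        rw [Nat.cast_sub h1]
        push_cast
        ring
      rw [h3]
      ring
    · have : m i = 0 := by simpa using h
      rw [this]; simp
  rw [coeff_add, key, key]
  push_cast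
  ring

theorem lf (x : FolBar 3) (hx : x ∈ Fol 3) (hL : x ∈ L 3) (ω : Forms 3) (h : ω ≠ 0)
    (hω : cls ω h = x) :
    ∃ m : Fin 2 →₀ ℕ, m 0 + m 1 = 4 ∧
      coeff m (X 0 * (-(ω.2 : Po ℂ)) + X 1 * (ω.1 : Po ℂ)) ≠ 0 := by
  obtain ⟨f, hf, ω', h', hω', e1, e2⟩ := hL
  obtain ⟨ω'', h'', hω'', _, hmax⟩ := hx
  obtain ⟨c, hc, rfl⟩ := (cls_eq_iff h h').1 (hω.trans hω'.symm)
  obtain ⟨c', hc', rfl⟩ := (cls_eq_iff h'' h').1 (hω''.trans hω'.symm)
  by_contra hcon
  push Not at hcon
  have hz : ∀ m : Fin 2 →₀ ℕ, m 0 + m 1 = 4 → coeff m f = 0 := by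
    intro m hm
    have h1 := hcon m hm
    have h2 : (X 0 * (-((c • ω').2 : Po ℂ)) + X 1 * ((c • ω').1 : Po ℂ) : Po ℂ) =
        C c * (X 0 * pderiv 0 f + X 1 * pderiv 1 f) := by
      have a1 : ((c • ω').1 : Po ℂ) = C c * pderiv 1 f := by
        rw [Prod.smul_fst, Submodule.coe_smul, e1, smul_eq_C_mul]
      have a2 : ((c • ω').2 : Po ℂ) = -(C c * pderiv 0 f) := by
        rw [Prod.smul_snd, Submodule.coe_smul, e2, smul_eq_C_mul]; ring
      rw [a1, a2]; ring
    rw [h2, coeff_C_mul, lf_euler, hm] at h1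
    have h3 : (c * ((4 : ℕ) : ℂ)) * coeff m f = 0 := by rw [← h1]; ring
    exact (mul_eq_zero.1 h3).resolve_left (mul_ne_zero hc (by norm_num))
  -- so `f` has degree at most 3
  have hf3 : ∀ m : Fin 2 →₀ ℕ, 4 ≤ m 0 + m 1 → coeff m f = 0 := by
    intro m hm
    rcases hm.eq_or_lt with h1 | h1
    · exact hz m h1.symm
    · apply coeff_eq_zero_of_totalDegree_lt
      refine lt_of_le_of_lt hf ?_
      have : ∑ i ∈ m.support, m i = m.degree := rfl
      rw [this, deg2]
      exact h1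
  have hd : ∀ i, (pderiv i f).totalDegree ≤ 2 := by
    intro i
    rw [totalDegree]
    apply Finset.sup_le
    intro m hm
    by_contra hlt
    push Not at hlt
    rw [mem_support_iff] at hm
    apply hm
    rw [coeff_pderiv]
    have h1 : (m.sum fun _ e => e) = m 0 + m 1 := by
      rw [← deg2]; rfl
    rw [h1] at hlt
    rw [hf3, zero_mul]
    fin_cases i <;> simp [Finsupp.single_apply] <;> omega
  have h1 : ((c' • ω').1 : Po ℂ).totalDegree ≤ 2 := by
    rw [Prod.smul_fst, Submodule.coe_smul, e1]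
    exact (totalDegree_smul_le _ _).trans (hd 1)
  have h2 : ((c' • ω').2 : Po ℂ).totalDegree ≤ 2 := by
    rw [Prod.smul_snd, Submodule.coe_smul, e2]
    refine (totalDegree_smul_le _ _).trans ?_
    rw [totalDegree_neg]
    exact hd 0
  have h3 := max_le h1 h2
  rw [hmax] at h3
  omega

end Pool.Agent.CF
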