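import Pool.Agent.Lib_helper78.CFF.W0F

/-! author of this file: helper16 -/

/-!
# CF block W0C: the base foliation has a holomorphic center at the origin
-/

open MvPolynomial Topology

namespace Pool.Agent.CF

/-- `-3 f` -/
noncomputable def w0cF (q : Fin 2 → ℂ) : ℂ := 1 - 2 * q 0 - 8 * q 0 ^ 2 - 3 * q 1 ^ 2

/-- `(-3 f) ^ (-3/2)` -/
noncomputable def w0cU (q : Fin 2 → ℂ) : ℂ := Complex.exp (-(3 / 2) * Complex.log (w0cF q))

/-- `g / y` times `U` -/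
noncomputable def w0cK (q : Fin 2 → ℂ) : ℂ :=
  (q 0 + 2 * q 0 ^ 2 + (1 / 3) * q 1 ^ 2) * w0cU q

noncomputable def w0ca (q : Fin 2 → ℂ) : ℂ := (1 / 2) * (q 1 + w0cK q)
noncomputable def w0cb (q : Fin 2 → ℂ) : ℂ := (Complex.I / 2) * (q 1 - w0cK q)

lemma w0c_sq (q : Fin 2 → ℂ) : w0ca q ^ 2 + w0cb q ^ 2 = q 1 * w0cK q := by
  unfold w0ca w0cb
  have := Complex.I_sq
  linear_combination ((q 1 - w0cK q) ^ 2 / 4) * this

lemma w0c_an (i : Fin 2) (q : Fin 2 → ℂ) : AnalyticAt ℂ (fun q : Fin 2 → ℂ => q i) q :=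
  (ContinuousLinearMap.proj (R := ℂ) (φ := fun _ : Fin 2 => ℂ) i).analyticAt q

lemma w0cF_an (q : Fin 2 → ℂ) : AnalyticAt ℂ w0cF q := by
  unfold w0cF
  have h0 := w0c_an 0 q
  have h1 := w0c_an 1 q
  exact ((analyticAt_const.sub (analyticAt_const.mul h0)).sub
    (analyticAt_const.mul (h0.pow 2))).sub (analyticAt_const.mul (h1.pow 2))

lemma w0cF_zero : w0cF 0 = 1 := by simp [w0cF]

lemma w0cU_an {q : Fin 2 → ℂ} (hq : w0cF q ∈ Complex.slitPlane) : AnalyticAt ℂ w0cU q := by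
  unfold w0cU
  exact (analyticAt_const.mul ((w0cF_an q).clog hq)).cexp'

lemma w0cK_an {q : Fin 2 → ℂ} (hq : w0cF q ∈ Complex.slitPlane) : AnalyticAt ℂ w0cK q := by
  unfold w0cK
  have h0 := w0c_an 0 q
  have h1 := w0c_an 1 q
  exact ((h0.add (analyticAt_const.mul (h0.pow 2))).add
    (analyticAt_const.mul (h1.pow 2))).mul (w0cU_an hq)

lemma w0c_hd (i : Fin 2) (q : Fin 2 → ℂ) : HasFDerivAt (fun q : Fin 2 → ℂ => q i)
    (ContinuousLinearMap.proj (R := ℂ) (φ := fun _ : Fin 2 => ℂ) i) q :=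
  (ContinuousLinearMap.proj (R := ℂ) (φ := fun _ : Fin 2 => ℂ) i).hasFDerivAt

lemma w0cF_hd (q : Fin 2 → ℂ) : ∃ D : (Fin 2 → ℂ) →L[ℂ] ℂ, HasFDerivAt w0cF D q ∧
    ∀ u, D u = (-2 - 16 * q 0) * u 0 - 6 * q 1 * u 1 := by
  have h0 := w0c_hd 0 q
  have h1 := w0c_hd 1 q
  refine ⟨_, (((h0.const_mul 2).const_sub 1).sub ((h0.pow 2).const_mul 8)).sub
    ((h1.pow 2).const_mul 3), fun u => ?_⟩
  simp
  ring

lemma w0cU_hd {q : Fin 2 → ℂ} (hq : w0cF q ∈ Complex.slitPlane) :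
    ∃ D : (Fin 2 → ℂ) →L[ℂ] ℂ, HasFDerivAt w0cU D q ∧
    ∀ u, D u = w0cU q * (-(3 / 2)) * ((w0cF q)⁻¹ *
      ((-2 - 16 * q 0) * u 0 - 6 * q 1 * u 1)) := by
  obtain ⟨D, hD, hD'⟩ := w0cF_hd q
  refine ⟨_, ((hD.clog hq).const_mul (-(3 / 2))).cexp, fun u => ?_⟩
  simp [hD', w0cU]
  ring

lemma w0cK_hd {q : Fin 2 → ℂ} (hq : w0cF q ∈ Complex.slitPlane) :
    ∃ D : (Fin 2 → ℂ) →L[ℂ] ℂ, HasFDerivAt w0cK D q ∧
    ∀ u, D u = w0cU q * ((1 + 4 * q 0) * u 0 + 2 / 3 * q 1 * u 1 +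
      (q 0 + 2 * q 0 ^ 2 + (1 / 3) * q 1 ^ 2) * ((-(3 / 2)) * ((w0cF q)⁻¹ *
      ((-2 - 16 * q 0) * u 0 - 6 * q 1 * u 1)))) := by
  obtain ⟨D, hD, hD'⟩ := w0cU_hd hq
  have h0 := w0c_hd 0 q
  have h1 := w0c_hd 1 q
  have h2 := (h0.add ((h0.pow 2).const_mul 2)).add ((h1.pow 2).const_mul (1 / 3))
  refine ⟨_, h2.mul hD, fun u => ?_⟩
  simp [hD']
  ring

theorem w0_center : HasCenter (cls om0 om0_ne) := by
  refine ⟨om0, om0_ne, rfl, 0, ?_⟩
  have hP : ((om0 : Forms 3).1 : MvPolynomial (Fin 2) ℂ) = B0 ℂ := rfl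
  have hQ : ((om0 : Forms 3).2 : MvPolynomial (Fin 2) ℂ) = -A0 ℂ := rfl
  have hn : ∀ (n : ℕ) [n.AtLeastTwo] (i : Fin 2),
      pderiv i (OfNat.ofNat n : MvPolynomial (Fin 2) ℂ) = 0 := by
    intro n _ i
    rw [show (OfNat.ofNat n : MvPolynomial (Fin 2) ℂ) = C (OfNat.ofNat n) from
      (map_ofNat C n).symm, pderiv_C]
  rw [hP, hQ]
  have hslit : w0cF 0 ∈ Complex.slitPlane := by rw [w0cF_zero]; exact Complex.one_mem_slitPlane
  have haan : AnalyticAt ℂ w0ca 0 := by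
    unfold w0ca
    exact analyticAt_const.mul ((w0c_an 1 0).add (w0cK_an hslit))
  have hban : AnalyticAt ℂ w0cb 0 := by
    unfold w0cb
    exact analyticAt_const.mul ((w0c_an 1 0).sub (w0cK_an hslit))
  have hU0 : w0cU 0 = 1 := by simp [w0cU, w0cF_zero]
  refine ⟨?_, ?_, ?_, w0ca, w0cb, haan, hban, ?_, ?_, ?_, ?_⟩
  · simp [B0]
  · simp [A0]
  · simp [A0, B0, Derivation.leibniz, Derivation.leibniz_pow, hn]
  · simp [w0ca, w0cK]
  · simp [w0cb, w0cK]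
  · obtain ⟨D, hD, hD'⟩ := w0cK_hd hslit
    have h1 := w0c_hd 1 (0 : Fin 2 → ℂ)
    have ha : HasFDerivAt w0ca _ 0 := (h1.add hD).const_mul (1 / 2)
    have hb : HasFDerivAt w0cb _ 0 := (h1.sub hD).const_mul (Complex.I / 2)
    have e : (fun u : Fin 2 → ℂ => (fderiv ℂ w0ca 0 u, fderiv ℂ w0cb 0 u)) =
        fun u => ((u 1 + u 0) / 2, Complex.I * (u 1 - u 0) / 2) := by
      funext u
      rw [ha.fderiv, hb.fderiv]
      simp [hD', hU0]
      constructor <;> ring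
    rw [e]
    refine ⟨fun u v huv => ?_, fun z => ?_⟩
    · simp only [Prod.mk.injEq] at huv
      obtain ⟨h1, h2⟩ := huv
      have hI := Complex.I_ne_zero
      have h3 : u 1 - u 0 = v 1 - v 0 := by
        have : Complex.I * (u 1 - u 0) = Complex.I * (v 1 - v 0) := by
          linear_combination 2 * h2
        exact mul_left_cancel₀ hI this
      ext i
      fin_cases i
      · simp only [Fin.zero_eta, Fin.isValue]
        linear_combination h1 - h3 / 2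
      · simp only [Fin.mk_one, Fin.isValue]
        linear_combination h1 + h3 / 2
    · refine ⟨![z.1 + Complex.I * z.2, z.1 - Complex.I * z.2], ?_⟩
      have := Complex.I_sq
      ext
      · simp
      · simp only [Matrix.cons_val_one, Matrix.cons_val_zero]
        linear_combination (-z.2) * this
  · have hev : ∀ᶠ q in 𝓝 (0 : Fin 2 → ℂ), w0cF q ∈ Complex.slitPlane :=
      (w0cF_an 0).continuousAt.eventually_mem (Complex.isOpen_slitPlane.mem_nhds hslit)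
    filter_upwards [hev] with q hq u w
    obtain ⟨D, hD, hD'⟩ := w0cK_hd hq
    have h1 := w0c_hd 1 q
    have hfun : (fun r => w0ca r ^ 2 + w0cb r ^ 2) = (fun r => r 1) * w0cK := funext w0c_sq
    rw [hfun, (h1.mul hD).fderiv]
    have hF : w0cF q ≠ 0 := Complex.slitPlane_ne_zero hq
    simp only [formAt, A0, B0, map_add, map_sub, map_neg, map_mul, map_pow, eval_X, map_ofNat,
      add_apply, smul_apply, smul_eq_mul,
      ContinuousLinearMap.proj_apply, hD', w0cK]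
    have hFi : w0cF q * (w0cF q)⁻¹ = 1 := mul_inv_cancel₀ hF
    have key : ∀ u : Fin 2 → ℂ, q 1 * (w0cU q * ((1 + 4 * q 0) * u 0 + 2 / 3 * q 1 * u 1 +
      (q 0 + 2 * q 0 ^ 2 + (1 / 3) * q 1 ^ 2) * ((-(3 / 2)) * ((w0cF q)⁻¹ *
      ((-2 - 16 * q 0) * u 0 - 6 * q 1 * u 1))))) +
        (q 0 + 2 * q 0 ^ 2 + (1 / 3) * q 1 ^ 2) * w0cU q * u 1 =
        w0cU q * (w0cF q)⁻¹ * (1 + 2 * q 0) *
        ((q 1 + 3 * q 0 * q 1 + 8 * q 0 ^ 2 * q 1 - 2 * q 1 ^ 3) * u 0 +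
          (q 0 - 2 * q 0 ^ 2 + q 1 ^ 2 - 8 * q 0 ^ 3 + 2 * q 0 * q 1 ^ 2) * u 1) := by
      intro u
      have hFF : w0cF q = 1 - 2 * q 0 - 8 * q 0 ^ 2 - 3 * q 1 ^ 2 := rfl
      field_simp
      rw [hFF]
      ring
    rw [key u, key w]
    ring

end Pool.Agent.CF
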