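import Pool.Agent.Lib_helper78.CFF.Main3
import Pool.Agent.Lib_helper78.CFF.W0C
import Pool.Agent.Lib_helper78.CFF.LF

/-! author of this file: helper78 -/

open MvPolynomial Topology

namespace Pool.Agent.CF

theorem final : ∃ X ∈ irreducibleComponents (M 3),
    (∃ x ∈ (Subtype.val '' X : Set (FolBar 3)), x ∈ Fol 3 ∧ HasCenter x) ∧
    ∀ x ∈ (Subtype.val '' X : Set (FolBar 3)),
      (∀ (ω : Forms 3) (h : ω ≠ 0), cls ω h = x →
        (MvPolynomial.X 0 * (-(ω.2 : Po ℂ)) + MvPolynomial.X 1 * (ω.1 : Po ℂ)).totalDegree ≤ 3) ∧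
      (x ∈ Fol 3 → x ∉ L 3) := by
  have h0 : cls om0 om0_ne ∈ M 3 := subset_closure ⟨w0_fol, w0_center⟩
  refine ⟨irreducibleComponent (⟨cls om0 om0_ne, h0⟩ : M 3),
    irreducibleComponent_mem_irreducibleComponents _,
    ⟨_, ⟨_, mem_irreducibleComponent, rfl⟩, w0_fol, w0_center⟩, ?_⟩
  have key : ∀ m : Fin 2 →₀ ℕ, m 0 + m 1 = 4 →
      ∀ x ∈ (Subtype.val '' (irreducibleComponent (⟨cls om0 om0_ne, h0⟩ : M 3)) :
        Set (FolBar 3)), ∀ (ω : Forms 3) (h : ω ≠ 0), cls ω h = x →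
        coeff m (MvPolynomial.X 0 * (-(ω.2 : Po ℂ)) + MvPolynomial.X 1 * (ω.1 : Po ℂ)) = 0 := by
    rintro m hm _ ⟨x, hx, rfl⟩ ω h hω
    by_contra hne
    refine main m hm ?_
    set U : Set (FolBar 3) := {x | ∃ (ω : Forms 3) (h : ω ≠ 0), cls ω h = x ∧
      coeff m (MvPolynomial.X 0 * (-(ω.2 : Po ℂ)) + MvPolynomial.X 1 * (ω.1 : Po ℂ)) ≠ 0} with hU
    have hUo : IsOpen U := cl_open m hm
    have hxU : (x : FolBar 3) ∈ U := ⟨ω, h, hω, hne⟩
    have h1 := subset_closure_inter_of_isPreirreducible_of_isOpen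
      (S := irreducibleComponent (⟨cls om0 om0_ne, h0⟩ : M 3))
      (isIrreducible_irreducibleComponent).isPreirreducible
      (hUo.preimage continuous_subtype_val) ⟨x, hx, hxU⟩
    have h2 := h1 (mem_irreducibleComponent (x := (⟨cls om0 om0_ne, h0⟩ : M 3)))
    have h3 : cls om0 om0_ne ∈ closure (M 3 ∩ U) := by
      rw [closure_subtype] at h2
      refine closure_mono ?_ h2
      rintro _ ⟨y, ⟨_, hy⟩, rfl⟩
      exact ⟨y.2, hy⟩
    have h4 : M 3 ∩ U ⊆ closure ({x | x ∈ Fol 3 ∧ HasCenter x} ∩ U) := by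
      unfold M
      exact hUo.closure_inter
    have h5 := closure_minimal h4 isClosed_closure h3
    refine closure_mono ?_ h5
    rintro y ⟨⟨_, hc⟩, hyU⟩
    exact ⟨hc, hyU⟩
  intro x hx
  refine ⟨fun ω h hω => ?_, fun hF hL => ?_⟩
  · rw [totalDegree, Finset.sup_le_iff]
    intro m hm
    have hm4 : (MvPolynomial.X 0 * (-(ω.2 : Po ℂ)) + MvPolynomial.X 1 * (ω.1 : Po ℂ)).totalDegree
        ≤ 4 := by
      have hP := (mem_restrictTotalDegree _ _ _).1 ω.1.2
      have hQ := (mem_restrictTotalDegree _ _ _).1 ω.2.2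
      refine (totalDegree_add _ _).trans (max_le ?_ ?_)
      · refine (totalDegree_mul _ _).trans ?_
        rw [totalDegree_X, totalDegree_neg]
        omega
      · refine (totalDegree_mul _ _).trans ?_
        rw [totalDegree_X]
        omega
    have h1 : m.sum (fun _ e => e) ≤ 4 := (le_totalDegree hm).trans hm4
    have h2 : m.sum (fun _ e => e) = m 0 + m 1 := deg2 m
    rw [h2] at h1 ⊢
    by_contra hcon
    have h4 : m 0 + m 1 = 4 := by omega
    exact (mem_support_iff.1 hm) (key m h4 x hx ω h hω)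
  · obtain ⟨ω, h, hω⟩ := exists_cls x
    obtain ⟨m, hm, hne⟩ := lf x hF hL ω h hω
    exact hne (key m hm x hx ω h hω)

end Pool.Agent.CF
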