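import Pool.Agent.Lib_helper78.CFF.Base

/-! author of this file: helper47 -/

/-!
# Block GP of the E(3) project: generic point and valuation ring
-/

open MvPolynomial IsLocalRing

namespace Pool.Agent.CF

theorem gp {D : Type} {σ : Type} (ω : σ → D → ℂ) (G : D → ℂ) (hG : ∀ s, G s ≠ 0)
    (ω0 : σ → ℚ)
    (hcl : ∀ f : MvPolynomial σ ℚ, (∀ s : D, aeval (fun i => ω i s) f = 0) → eval ω0 f = 0) :
    ∃ (K : Type) (_ : Field K) (_ : IsAlgClosed K) (_ : Algebra ℚ K) (φ : (D → ℂ) →+* K)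
      (V : ValuationSubring K), φ G ≠ 0 ∧ (∀ r : ℚ, algebraMap ℚ K r ∈ V) ∧
      ∀ i, φ (ω i) - algebraMap ℚ K (ω0 i) ∈ V.nonunits := by
  classical
  let 𝓕 := D → ℂ
  have hae : ∀ (f : MvPolynomial σ ℚ) (s : D),
      (aeval ω f : D → ℂ) s = aeval (fun i => ω i s) f := by
    intro f s
    have := (MvPolynomial.comp_aeval_apply (Pi.evalAlgHom ℚ (fun _ : D => ℂ) s) (f := ω) f)
    simpa using this
  -- the multiplicative set
  let Sg : Submonoid 𝓕 :=
    { carrier := {h | ∃ (f : MvPolynomial σ ℚ) (k : ℕ), eval ω0 f ≠ 0 ∧ h = aeval ω f * G ^ k}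
      one_mem' := ⟨1, 0, by simp, by simp⟩
      mul_mem' := by
        rintro _ _ ⟨f, k, hf, rfl⟩ ⟨g, l, hg, rfl⟩
        refine ⟨f * g, k + l, ?_, ?_⟩
        · rw [map_mul]; exact mul_ne_zero hf hg
        · rw [map_mul, pow_add]; ring }
  have h0 : (0 : 𝓕) ∉ Sg := by
    rintro ⟨f, k, hf, h⟩
    apply hf
    apply hcl
    intro s
    have h1 := congrFun h s
    rw [← hae]
    have h2 : (0 : ℂ) = aeval ω f s * G s ^ k := h1
    rcases mul_eq_zero.1 h2.symm with h3 | h3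
    · exact h3
    · exact absurd h3 (pow_ne_zero _ (hG s))
  obtain ⟨P, hP, -, hPd⟩ := Ideal.exists_le_prime_disjoint (⊥ : Ideal 𝓕) Sg (by
    rw [Set.disjoint_left]
    rintro x hx hxS
    have hx' : x = 0 := by simpa using hx
    subst hx'
    exact h0 hxS)
  have hSP : ∀ x ∈ Sg, x ∉ P := fun x hx hxP => Set.disjoint_left.1 hPd hxP hx
  let K := AlgebraicClosure (FractionRing (𝓕 ⧸ P))
  let φ : 𝓕 →+* K := (algebraMap (𝓕 ⧸ P) K).comp (Ideal.Quotient.mk P)
  have hφ : ∀ x, φ x = 0 ↔ x ∈ P := by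
    intro x
    have hinj : Function.Injective (algebraMap (𝓕 ⧸ P) K) := by
      rw [IsScalarTower.algebraMap_eq (𝓕 ⧸ P) (FractionRing (𝓕 ⧸ P)) K]
      exact (FaithfulSMul.algebraMap_injective (FractionRing (𝓕 ⧸ P)) K).comp
        (IsFractionRing.injective (𝓕 ⧸ P) (FractionRing (𝓕 ⧸ P)))
    change algebraMap (𝓕 ⧸ P) K (Ideal.Quotient.mk P x) = 0 ↔ _
    rw [map_eq_zero_iff _ hinj, Ideal.Quotient.eq_zero_iff_mem]
  let ψ : ℚ →+* K := φ.comp (algebraMap ℚ 𝓕)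
  let algK : Algebra ℚ K := ψ.toAlgebra
  have hψ : ∀ r : ℚ, algebraMap ℚ K r = φ (algebraMap ℚ 𝓕 r) := fun r => rfl
  -- `ℚ[ω] → K`
  let θ : MvPolynomial σ ℚ →+* K := φ.comp (aeval ω : MvPolynomial σ ℚ →ₐ[ℚ] 𝓕).toRingHom
  let A : Subring K := θ.range
  let I : Ideal A := Ideal.span (Set.range fun i : σ =>
    (⟨θ (X i - C (ω0 i)), ⟨_, rfl⟩⟩ : A))
  have hI : I ≠ ⊤ := by
    intro hI
    -- every element of `I` is `θ f` with `f(ω0) = 0`
    have key : ∀ a ∈ I, ∃ f : MvPolynomial σ ℚ, eval ω0 f = 0 ∧ θ f = a := by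
      intro a ha
      refine Submodule.span_induction (R := A) (M := A)
        (p := fun (a : A) _ => ∃ f : MvPolynomial σ ℚ, eval ω0 f = 0 ∧ θ f = (a : K))
        ?_ ?_ ?_ ?_ ha
      · rintro _ ⟨i, rfl⟩
        exact ⟨X i - C (ω0 i), by simp, rfl⟩
      · exact ⟨0, by simp, by simp⟩
      · rintro x y _ _ ⟨f, hf, hfx⟩ ⟨g, hg, hgy⟩
        exact ⟨f + g, by rw [map_add, hf, hg, add_zero], by rw [map_add, hfx, hgy]; rfl⟩
      · rintro ⟨_, b, rfl⟩ x _ ⟨f, hf, hfx⟩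
        exact ⟨b * f, by rw [map_mul, hf, mul_zero], by rw [map_mul, hfx]; rfl⟩
    obtain ⟨f, hf, hf1⟩ := key 1 (by rw [hI]; trivial)
    have h1 : θ (1 - f) = 0 := by
      rw [map_sub, hf1, map_one]
      simp
    have h2 : aeval ω (1 - f) ∈ P := (hφ _).1 h1
    exact hSP _ ⟨1 - f, 0, by rw [map_sub, hf]; simp, by simp⟩ h2
  obtain ⟨V, hAV, hV⟩ := Ideal.image_subset_nonunits_valuationSubring I hI
  refine ⟨K, inferInstance, inferInstance, algK, φ, V, ?_, ?_, ?_⟩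
  · intro h
    exact hSP G ⟨1, 1, by simp, by simp⟩ ((hφ G).1 h)
  · intro r
    apply hAV
    refine ⟨C r, ?_⟩
    change φ (aeval ω (C r)) = φ (algebraMap ℚ 𝓕 r)
    rw [aeval_C]
  · intro i
    apply hV
    refine ⟨⟨θ (X i - C (ω0 i)), ⟨_, rfl⟩⟩, Ideal.subset_span ⟨i, rfl⟩, ?_⟩
    change φ (aeval ω (X i - C (ω0 i))) = φ (ω i) - φ (algebraMap ℚ 𝓕 (ω0 i))
    rw [map_sub, aeval_X, aeval_C, map_sub]

/-- a family of polynomials of bounded degree is a polynomial over the ring of functions -/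
theorem pf {D : Type} (N : ℕ) (f : D → Po ℂ) (hf : ∀ s, (f s).totalDegree ≤ N) :
    ∃ F : Po (D → ℂ), F.totalDegree ≤ N ∧
      ∀ s, map (Pi.evalRingHom (fun _ : D => ℂ) s) F = f s := by
  classical
  let T : Finset (Fin 2 →₀ ℕ) := (Finset.range (N + 1)).biUnion fun n =>
    Finset.finsuppAntidiag Finset.univ n
  have hT : ∀ m : Fin 2 →₀ ℕ, m ∈ T ↔ m 0 + m 1 ≤ N := by
    intro m
    simp only [T, Finset.mem_biUnion, Finset.mem_range, Finset.mem_finsuppAntidiag,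
      Fin.sum_univ_two]
    constructor
    · rintro ⟨n, hn, h1, -⟩
      omega
    · intro h
      exact ⟨m 0 + m 1, by omega, rfl, by simp⟩
  let F : Po (D → ℂ) := ∑ m ∈ T, monomial m (fun s => coeff m (f s))
  have hF : ∀ m, coeff m F = if m ∈ T then (fun s => coeff m (f s)) else 0 := by
    intro m
    simp only [F, coeff_sum, coeff_monomial]
    rw [Finset.sum_ite_eq' T m]
  refine ⟨F, ?_, ?_⟩
  · refine Finset.sup_le fun m hm => ?_
    have h1 : m ∈ T := by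
      by_contra h
      rw [mem_support_iff, hF, if_neg h] at hm
      exact hm rfl
    have h2 : (m.sum fun _ e => e) = m 0 + m 1 := deg2 m
    rw [h2]
    exact (hT m).1 h1
  · intro s
    ext m
    rw [coeff_map, hF]
    by_cases h : m ∈ T
    · rw [if_pos h]; rfl
    · rw [if_neg h, map_zero]
      symm
      apply coeff_eq_zero_of_totalDegree_lt
      have h1 : ¬ (m 0 + m 1 ≤ N) := fun h2 => h ((hT m).2 h2)
      have h2 := hf s
      have h3 : ∑ i ∈ m.support, m i = m 0 + m 1 := deg2 m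
      rw [h3]
      omega

end Pool.Agent.CF
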