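import Pool.Agent.Lib_helper78.CFF.Base

/-! author of this file: helper16 -/

/-!
# CF block HF: a holomorphic center has formal first integrals
-/

open MvPolynomial Topology Asymptotics

namespace Pool.Agent.CF

/-! ### polynomials of one variable which are `O(t^n)` -/

lemma hf_poly (n : ℕ) (P : Polynomial ℂ)
    (h : (fun t : ℂ => P.eval t) =O[𝓝 0] fun t : ℂ => ‖t‖ ^ n) : Polynomial.X ^ n ∣ P := by
  induction n with
  | zero => simp
  | succ n ih =>
    have h1 : (fun t : ℂ => ‖t‖ ^ (n + 1)) =O[𝓝 0] fun t : ℂ => ‖t‖ ^ n := by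
      refine IsBigO.of_bound 1 ?_
      have h2 : ∀ᶠ t : ℂ in 𝓝 0, ‖t‖ < 1 := by
        have := Metric.ball_mem_nhds (0 : ℂ) one_pos
        filter_upwards [this] with t ht
        simpa using ht
      filter_upwards [h2] with t ht
      rw [pow_succ, one_mul, norm_mul]
      exact mul_le_of_le_one_right (norm_nonneg _) (by rw [norm_norm]; exact ht.le)
    obtain ⟨q, hq⟩ := ih (h.trans h1)
    have hq0 : q.eval 0 = 0 := by
      obtain ⟨c, hc⟩ := h.bound
      have h3 : ∀ᶠ t : ℂ in 𝓝[≠] 0, ‖q.eval t‖ ≤ c * ‖t‖ := by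
        filter_upwards [hc.filter_mono nhdsWithin_le_nhds, self_mem_nhdsWithin] with t ht ht0
        have ht0' : (0 : ℝ) < ‖t‖ ^ n := pow_pos (norm_pos_iff.2 ht0) n
        rw [hq, Polynomial.eval_mul, Polynomial.eval_pow, Polynomial.eval_X, norm_mul, norm_pow,
          Real.norm_of_nonneg (by positivity)] at ht
        have : ‖t‖ ^ n * ‖q.eval t‖ ≤ ‖t‖ ^ n * (c * ‖t‖) := by
          calc _ ≤ c * ‖t‖ ^ (n + 1) := ht
            _ = _ := by ring
        exact le_of_mul_le_mul_left this ht0'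
      have h4 : Filter.Tendsto (fun t : ℂ => q.eval t) (𝓝[≠] 0) (𝓝 (q.eval 0)) :=
        q.continuous.continuousAt.tendsto.mono_left nhdsWithin_le_nhds
      have h5 : Filter.Tendsto (fun t : ℂ => c * ‖t‖) (𝓝[≠] 0) (𝓝 (c * ‖(0 : ℂ)‖)) := by
        have : Continuous fun t : ℂ => c * ‖t‖ := by fun_prop
        exact this.continuousAt.tendsto.mono_left nhdsWithin_le_nhds
      have h6 := le_of_tendsto_of_tendsto h4.norm h5 h3
      rw [norm_zero, mul_zero] at h6
      exact norm_le_zero_iff.1 h6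
    have hX : Polynomial.X ∣ q := by
      rw [Polynomial.X_dvd_iff, Polynomial.coeff_zero_eq_eval_zero]
      exact hq0
    rw [hq, pow_succ]
    exact mul_dvd_mul_left _ hX

/-! ### polynomials of two variables which are `O(|y|^n)` -/

lemma hf_hom_smul {F : Po ℂ} {k : ℕ} (hF : F.IsHomogeneous k) (t : ℂ) (u : Fin 2 → ℂ) :
    eval (t • u) F = t ^ k * eval u F := by
  rw [eval_eq, eval_eq, Finset.mul_sum]
  refine Finset.sum_congr rfl fun m hm => ?_
  have h1 : ∑ i ∈ m.support, m i = k := by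
    have := hF (mem_support_iff.1 hm)
    rw [Finsupp.weight_apply, Finsupp.sum] at this
    simpa using this
  simp only [Pi.smul_apply, smul_eq_mul]
  rw [Finset.prod_congr rfl fun i _ => mul_pow t _ (m i), Finset.prod_mul_distrib,
    Finset.prod_pow_eq_pow_sum, h1]
  ring

lemma hf_ord {P : Po ℂ} {n : ℕ}
    (h : (fun y : Fin 2 → ℂ => eval y P) =O[𝓝 0] fun y => ‖y‖ ^ n) : Ord n P := by
  have key : ∀ k < n, homogeneousComponent k P = 0 := by
    intro k hk
    refine MvPolynomial.funext fun u => ?_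
    rw [map_zero]
    set Q : Polynomial ℂ := ∑ k ∈ Finset.range (P.totalDegree + 1),
      Polynomial.C (eval u (homogeneousComponent k P)) * Polynomial.X ^ k with hQ
    have hQe : ∀ t : ℂ, Q.eval t = eval (t • u) P := by
      intro t
      conv_rhs => rw [← sum_homogeneousComponent P]
      rw [map_sum, hQ, Polynomial.eval_finsetSum]
      refine Finset.sum_congr rfl fun j _ => ?_
      rw [hf_hom_smul (homogeneousComponent_isHomogeneous j P)]
      simp
      ring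
    have hlin : Filter.Tendsto (fun t : ℂ => t • u) (𝓝 0) (𝓝 0) := by
      have : Filter.Tendsto (fun t : ℂ => t • u) (𝓝 0) (𝓝 ((0 : ℂ) • u)) := by
        apply Continuous.tendsto; fun_prop
      rwa [zero_smul] at this
    have h1 : (fun t : ℂ => Q.eval t) =O[𝓝 0] fun t : ℂ => ‖t‖ ^ n := by
      simp only [hQe]
      refine (h.comp_tendsto hlin).trans ?_
      refine IsBigO.of_bound (‖u‖ ^ n) (Filter.Eventually.of_forall fun t => ?_)
      simp only [Function.comp_apply]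
      rw [norm_pow, norm_pow, norm_norm, norm_norm, norm_smul, mul_pow, mul_comm]
    have h2 := hf_poly n Q h1
    rw [Polynomial.X_pow_dvd_iff] at h2
    by_cases hkd : k < P.totalDegree + 1
    · have h3 := h2 k hk
      rw [hQ, Polynomial.finsetSum_coeff] at h3
      simp only [Polynomial.coeff_C_mul, Polynomial.coeff_X_pow] at h3
      rw [Finset.sum_eq_single k] at h3
      · simpa using h3
      · intro j _ hj
        rw [if_neg (Ne.symm hj), mul_zero]
      · intro hk'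
        exact absurd (Finset.mem_range.2 hkd) hk'
    · rw [homogeneousComponent_eq_zero _ _ (by omega), map_zero]
  intro m hm
  have h1 := congrArg (coeff m) (key (m 0 + m 1) hm)
  rw [coeff_homogeneousComponent, if_pos (deg2 m), coeff_zero] at h1
  exact h1

/-! ### derivatives -/

lemma hf_pd (P : Po ℂ) (y : Fin 2 → ℂ) : ∃ D : (Fin 2 → ℂ) →L[ℂ] ℂ,
    HasFDerivAt (fun y : Fin 2 → ℂ => eval y P) D y ∧
    ∀ u, D u = eval y (pderiv 0 P) * u 0 + eval y (pderiv 1 P) * u 1 := by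
  induction P using MvPolynomial.induction_on with
  | C a =>
    refine ⟨0, ?_, fun u => by simp⟩
    have : (fun y : Fin 2 → ℂ => eval y (C a : Po ℂ)) = fun _ => a := by funext y; simp
    rw [this]
    exact hasFDerivAt_const a y
  | add P Q hP hQ =>
    obtain ⟨D, hD, hD'⟩ := hP
    obtain ⟨E, hE, hE'⟩ := hQ
    refine ⟨D + E, ?_, fun u => ?_⟩
    · have : (fun y : Fin 2 → ℂ => eval y (P + Q)) =
          (fun y : Fin 2 → ℂ => eval y P) + fun y : Fin 2 → ℂ => eval y Q := by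
        funext y; simp
      rw [this]
      exact hD.add hE
    · simp only [add_apply, hD', hE', map_add]
      ring
  | mul_X P i hP =>
    obtain ⟨D, hD, hD'⟩ := hP
    have hi : HasFDerivAt (fun q : Fin 2 → ℂ => q i)
        (ContinuousLinearMap.proj (R := ℂ) (φ := fun _ : Fin 2 => ℂ) i) y :=
      (ContinuousLinearMap.proj (R := ℂ) (φ := fun _ : Fin 2 => ℂ) i).hasFDerivAt
    have hfun : (fun y : Fin 2 → ℂ => eval y (P * X i)) =
          (fun y : Fin 2 → ℂ => eval y P) * fun y : Fin 2 → ℂ => y i := by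
      funext y; simp
    rw [hfun]
    refine ⟨_, hD.mul hi, fun u => ?_⟩
    fin_cases i
    · simp [hD', Derivation.leibniz]
      ring
    · simp [hD', Derivation.leibniz]
      ring

lemma hf_cauchy {R : (Fin 2 → ℂ) → ℂ} {n : ℕ} (hn : 1 ≤ n)
    (hd : ∀ᶠ y in 𝓝 0, DifferentiableAt ℂ R y)
    (hO : R =O[𝓝 0] fun y => ‖y‖ ^ (n + 1)) {v : Fin 2 → ℂ} (hv : ‖v‖ ≤ 1) :
    (fun y => fderiv ℂ R y v) =O[𝓝 0] fun y => ‖y‖ ^ n := by
  obtain ⟨c, hc0, hc⟩ := hO.exists_nonneg
  have hc' := hc.bound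
  obtain ⟨ρ, hρ, hball⟩ := Metric.eventually_nhds_iff_ball.1 (hd.and hc')
  refine IsBigO.of_bound (c * 2 ^ (n + 1)) ?_
  filter_upwards [Metric.ball_mem_nhds (0 : Fin 2 → ℂ) (half_pos hρ)] with y hy
  rw [mem_ball_zero_iff] at hy
  rcases eq_or_ne y 0 with rfl | hy0
  · have h1 : R =O[𝓝 0] fun y => ‖y - 0‖ ^ (n + 1) := by simpa using hO
    have h2 := h1.hasFDerivAt (𝕜 := ℂ) (by omega)
    rw [h2.fderiv]
    simp only [zero_apply, norm_zero]
    positivity
  · have hyn : 0 < ‖y‖ := norm_pos_iff.2 hy0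
    set f : ℂ → ℂ := fun t => R (y + t • v) with hf
    have hmem : ∀ t : ℂ, t ∈ Metric.closedBall (0 : ℂ) ‖y‖ → ‖y + t • v‖ ≤ 2 * ‖y‖ := by
      intro t ht
      rw [mem_closedBall_zero_iff] at ht
      calc ‖y + t • v‖ ≤ ‖y‖ + ‖t • v‖ := norm_add_le _ _
        _ ≤ ‖y‖ + ‖t‖ * ‖v‖ := by rw [norm_smul]
        _ ≤ ‖y‖ + ‖y‖ * 1 := by gcongr
        _ = 2 * ‖y‖ := by ring
    have hmem' : ∀ t : ℂ, t ∈ Metric.closedBall (0 : ℂ) ‖y‖ → y + t • v ∈ Metric.ball
        (0 : Fin 2 → ℂ) ρ := by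
      intro t ht
      rw [mem_ball_zero_iff]
      linarith [hmem t ht]
    have hdt : ∀ t : ℂ, t ∈ Metric.closedBall (0 : ℂ) ‖y‖ →
        HasDerivAt f (fderiv ℂ R (y + t • v) v) t := by
      intro t ht
      have h1 := (hball _ (hmem' t ht)).1.hasFDerivAt
      have h2 : HasDerivAt (fun t : ℂ => y + t • v) v t := by
        have := ((hasDerivAt_id t).smul_const v).const_add y
        simpa using this
      exact h1.comp_hasDerivAt t h2
    have h3 : DiffContOnCl ℂ f (Metric.ball 0 ‖y‖) := by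
      have : DifferentiableOn ℂ f (Metric.closedBall 0 ‖y‖) := fun t ht =>
        (hdt t ht).differentiableAt.differentiableWithinAt
      exact this.diffContOnCl_ball subset_rfl
    have h4 : ∀ z ∈ Metric.sphere (0 : ℂ) ‖y‖, ‖f z‖ ≤ c * (2 * ‖y‖) ^ (n + 1) := by
      intro z hz
      have hz' := Metric.sphere_subset_closedBall hz
      have h5 := (hball _ (hmem' z hz')).2
      rw [norm_pow, norm_norm] at h5
      refine h5.trans (mul_le_mul_of_nonneg_left ?_ hc0)
      exact pow_le_pow_left₀ (norm_nonneg _) (hmem z hz') _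
    have h5 := Complex.norm_deriv_le_of_forall_mem_sphere_norm_le hyn h3 h4
    have h6 := (hdt 0 (Metric.mem_closedBall_self hyn.le)).deriv
    rw [zero_smul, add_zero] at h6
    rw [h6] at h5
    rw [norm_pow, norm_norm]
    calc ‖fderiv ℂ R y v‖ ≤ c * (2 * ‖y‖) ^ (n + 1) / ‖y‖ := h5
      _ = c * 2 ^ (n + 1) * ‖y‖ ^ n := by
        rw [mul_pow, pow_succ ‖y‖ n]
        field_simp

/-! ### Taylor polynomials -/

/-- Taylor polynomial of degree `< n` -/
noncomputable def hfT (ps : FormalMultilinearSeries ℂ (Fin 2 → ℂ) ℂ) (n : ℕ) : Po ℂ :=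
  ∑ k ∈ Finset.range n, ∑ σ : Fin k → Fin 2,
    C (ps k (fun i => Pi.single (σ i) 1)) * ∏ i, X (σ i)

lemma hfT_eval (ps : FormalMultilinearSeries ℂ (Fin 2 → ℂ) ℂ) (n : ℕ) (y : Fin 2 → ℂ) :
    eval y (hfT ps n) = ps.partialSum n y := by
  unfold hfT FormalMultilinearSeries.partialSum
  rw [map_sum]
  refine Finset.sum_congr rfl fun k _ => ?_
  rw [map_sum]
  have e : ∀ i : Fin k, y = ∑ j, y j • (Pi.single j (1 : ℂ) : Fin 2 → ℂ) := fun _ =>
    pi_eq_sum_univ' y
  have e2 : (fun _ : Fin k => y) = fun _ : Fin k => ∑ j, y j • (Pi.single j (1 : ℂ) : Fin 2 → ℂ) :=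
    funext e
  rw [e2, ContinuousMultilinearMap.map_sum]
  refine Finset.sum_congr rfl fun σ _ => ?_
  rw [ContinuousMultilinearMap.map_smul_univ]
  simp [mul_comm]

lemma hfT_deg (ps : FormalMultilinearSeries ℂ (Fin 2 → ℂ) ℂ) (n : ℕ) :
    (hfT ps (n + 1)).totalDegree ≤ n := by
  unfold hfT
  refine totalDegree_finsetSum_le fun k hk => totalDegree_finsetSum_le fun σ _ => ?_
  refine (totalDegree_mul _ _).trans ?_
  rw [totalDegree_C, zero_add]
  refine (totalDegree_finsetProd _ _).trans ?_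
  calc ∑ i : Fin k, (X (σ i) : Po ℂ).totalDegree ≤ ∑ i : Fin k, 1 :=
        Finset.sum_le_sum fun i _ => by rw [totalDegree_X]
    _ = k := by simp
    _ ≤ n := by
        have := Finset.mem_range.1 hk
        omega

lemma hf_sh_eval (p y : Fin 2 → ℂ) (P : Po ℂ) : eval y (sh (p 0) (p 1) P) = eval (p + y) P := by
  unfold sh
  induction P using MvPolynomial.induction_on with
  | C a => simp
  | add P Q hP hQ => rw [map_add, map_add, hP, hQ, map_add]
  | mul_X P i hP =>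
    rw [map_mul, map_mul, hP, map_mul, aeval_X, eval_X]
    congr 1
    fin_cases i <;> simp [add_comm]

/-! ### the quadratic part -/

lemma hf_lin {a : (Fin 2 → ℂ) → ℂ} {p : Fin 2 → ℂ} (ha : AnalyticAt ℂ a p) (ha0 : a p = 0) :
    (fun y => a (p + y) - fderiv ℂ a p y) =O[𝓝 0] fun y => ‖y‖ ^ 2 := by
  obtain ⟨qa, hqa⟩ := ha
  have h1 := hqa.isBigO_sub_partialSum_pow 2
  have h2 : ∀ y, qa.partialSum 2 y = fderiv ℂ a p y := by
    intro y
    rw [hqa.fderiv_eq]
    simp only [FormalMultilinearSeries.partialSum, Finset.sum_range_succ, Finset.sum_range_zero,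
      zero_add]
    rw [hqa.coeff_zero, ha0, zero_add, continuousMultilinearCurryFin1_apply]
    congr 1
  simpa only [h2] using h1

lemma hf_sq {a : (Fin 2 → ℂ) → ℂ} {p : Fin 2 → ℂ} (ha : AnalyticAt ℂ a p) (ha0 : a p = 0) :
    (fun y => a (p + y) ^ 2 - (fderiv ℂ a p y) ^ 2) =O[𝓝 0] fun y => ‖y‖ ^ 3 := by
  have h1 := hf_lin ha ha0
  have h2 : (fun y : Fin 2 → ℂ => fderiv ℂ a p y) =O[𝓝 0] fun y => ‖y‖ ^ 1 := by
    refine IsBigO.of_bound ‖fderiv ℂ a p‖ (Filter.Eventually.of_forall fun y => ?_)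
    rw [pow_one, norm_norm]
    exact (fderiv ℂ a p).le_opNorm y
  have h3 : (fun y : Fin 2 → ℂ => ‖y‖ ^ 2) =O[𝓝 0] fun y => ‖y‖ ^ 1 := by
    refine IsBigO.of_bound 1 ?_
    filter_upwards [Metric.ball_mem_nhds (0 : Fin 2 → ℂ) one_pos] with y hy
    rw [mem_ball_zero_iff] at hy
    rw [norm_pow, norm_pow, norm_norm, one_mul]
    nlinarith [norm_nonneg y]
  have h4 : (fun y => (a (p + y) - fderiv ℂ a p y) + 2 * fderiv ℂ a p y) =O[𝓝 0]
      fun y => ‖y‖ ^ 1 := (h1.trans h3).add (h2.const_mul_left 2)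
  have h5 := h1.mul h4
  refine (h5.congr_left fun y => ?_).congr_right fun y => ?_
  · ring
  · ring

/-- the quadratic part -/
noncomputable def hfQ (a1 a2 b1 b2 : ℂ) : Po ℂ :=
  monomial (Finsupp.single 0 2) (a1 ^ 2 + b1 ^ 2) + monomial (Finsupp.single 1 2) (a2 ^ 2 + b2 ^ 2)
    + monomial (Finsupp.single 0 1 + Finsupp.single 1 1) (2 * (a1 * a2 + b1 * b2))

lemma hfQ_eval (a1 a2 b1 b2 : ℂ) (y : Fin 2 → ℂ) :
    eval y (hfQ a1 a2 b1 b2) = (a1 * y 0 + a2 * y 1) ^ 2 + (b1 * y 0 + b2 * y 1) ^ 2 := by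
  unfold hfQ
  rw [map_add, map_add, eval_monomial, eval_monomial, eval_monomial,
    Finsupp.prod_fintype _ _ (fun _ => pow_zero _), Finsupp.prod_fintype _ _ (fun _ => pow_zero _),
    Finsupp.prod_fintype _ _ (fun _ => pow_zero _)]
  simp [Fin.prod_univ_two]
  ring

lemma hf_ne1 : (Finsupp.single 1 2 : Fin 2 →₀ ℕ) ≠ Finsupp.single 0 2 := fun h => by
  have := congrArg (fun f : Fin 2 →₀ ℕ => f 0) h
  simp at this

lemma hf_ne2 : (Finsupp.single 0 1 + Finsupp.single 1 1 : Fin 2 →₀ ℕ) ≠ Finsupp.single 0 2 :=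
  fun h => by
    have := congrArg (fun f : Fin 2 →₀ ℕ => f 0) h
    simp at this

lemma hf_ne3 : (Finsupp.single 0 1 + Finsupp.single 1 1 : Fin 2 →₀ ℕ) ≠ Finsupp.single 1 2 :=
  fun h => by
    have := congrArg (fun f : Fin 2 →₀ ℕ => f 1) h
    simp at this

lemma hfQ_dsc (a1 a2 b1 b2 : ℂ) : dsc (hfQ a1 a2 b1 b2) = 4 * (a1 * b2 - a2 * b1) ^ 2 := by
  unfold dsc hfQ
  simp only [coeff_add, coeff_monomial, if_true, if_neg hf_ne1, if_neg hf_ne2, if_neg hf_ne3,
    if_neg hf_ne1.symm, if_neg hf_ne2.symm, if_neg hf_ne3.symm]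
  ring

lemma hfQ_ord (a1 a2 b1 b2 : ℂ) : Ord 2 (hfQ a1 a2 b1 b2) := by
  intro m hm
  unfold hfQ
  rw [coeff_add, coeff_add, coeff_monomial, coeff_monomial, coeff_monomial, if_neg, if_neg,
    if_neg]
  · simp
  · rintro rfl
    simp at hm
  · rintro rfl
    simp at hm
  · rintro rfl
    simp at hm

theorem hf (A B : Po ℂ) (p : Fin 2 → ℂ) (h : HC A B p) (N : ℕ) (hN : 2 ≤ N) :
    ∃ H : Po ℂ, H.totalDegree ≤ N ∧ Ord 2 H ∧ dsc H = 1 ∧
      Ord N (XX (sh (p 0) (p 1) A) (sh (p 0) (p 1) B) H) := by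
  obtain ⟨a, b, ha, hb, ha0, hb0, hbij, hw⟩ := h
  set G : (Fin 2 → ℂ) → ℂ := fun r => a r ^ 2 + b r ^ 2 with hGdef
  have hG : AnalyticAt ℂ G p := (ha.pow 2).add (hb.pow 2)
  obtain ⟨ps, hps⟩ := id hG
  set T : Po ℂ := hfT ps (N + 1) with hT
  set R : (Fin 2 → ℂ) → ℂ := fun y => G (p + y) - eval y T with hR
  have hRO : R =O[𝓝 0] fun y => ‖y‖ ^ (N + 1) := by
    have := hps.isBigO_sub_partialSum_pow (N + 1)
    simpa only [← hfT_eval] using this
  have htr : Filter.Tendsto (fun y : Fin 2 → ℂ => p + y) (𝓝 0) (𝓝 p) := by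
    have : Filter.Tendsto (fun y : Fin 2 → ℂ => p + y) (𝓝 0) (𝓝 (p + 0)) := by
      apply Continuous.tendsto; fun_prop
    rwa [add_zero] at this
  have hRd : ∀ᶠ y in 𝓝 (0 : Fin 2 → ℂ), DifferentiableAt ℂ R y ∧
      ∀ u, fderiv ℂ G (p + y) u = (eval y (pderiv 0 T) * u 0 + eval y (pderiv 1 T) * u 1) +
        fderiv ℂ R y u := by
    filter_upwards [htr.eventually hG.eventually_analyticAt] with y hy
    obtain ⟨D, hD, hD'⟩ := hf_pd T y
    have h1 : HasFDerivAt G (fderiv ℂ G (p + y)) (p + y) := hy.differentiableAt.hasFDerivAt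
    have h2 : HasFDerivAt (fun y : Fin 2 → ℂ => p + y) (ContinuousLinearMap.id ℂ (Fin 2 → ℂ)) y :=
      (hasFDerivAt_id y).const_add p
    have h3 : HasFDerivAt (fun y => G (p + y)) (fderiv ℂ G (p + y)) y := by
      have := h1.comp y h2
      rwa [ContinuousLinearMap.comp_id] at this
    have h4 : HasFDerivAt R (fderiv ℂ G (p + y) - D) y := h3.sub hD
    refine ⟨h4.differentiableAt, fun u => ?_⟩
    rw [h4.fderiv, sub_apply, hD' u]
    ring
  have hn0 : ‖(Pi.single 0 1 : Fin 2 → ℂ)‖ ≤ 1 := by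
    rw [pi_norm_le_iff_of_nonneg zero_le_one]
    intro i
    fin_cases i <;> simp
  have hn1 : ‖(Pi.single 1 1 : Fin 2 → ℂ)‖ ≤ 1 := by
    rw [pi_norm_le_iff_of_nonneg zero_le_one]
    intro i
    fin_cases i <;> simp
  have hR0 := hf_cauchy (by omega : 1 ≤ N) (hRd.mono fun y hy => hy.1) hRO hn0
  have hR1 := hf_cauchy (by omega : 1 ≤ N) (hRd.mono fun y hy => hy.1) hRO hn1
  have hpc : ∀ P : Po ℂ, (fun y : Fin 2 → ℂ => eval (p + y) P) =O[𝓝 0] fun _ => (1 : ℝ) := by
    intro P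
    have hc : Continuous fun y : Fin 2 → ℂ => eval (p + y) P := by
      refine continuous_iff_continuousAt.2 fun y => ?_
      obtain ⟨D, hD, _⟩ := hf_pd P (p + y)
      have : ContinuousAt (fun y : Fin 2 → ℂ => p + y) y := by fun_prop
      exact ContinuousAt.comp (f := fun y : Fin 2 → ℂ => p + y) hD.continuousAt this
    exact (hc.tendsto 0).isBigO_one ℝ
  have hXX : Ord N (XX (sh (p 0) (p 1) A) (sh (p 0) (p 1) B) T) := by
    refine hf_ord ?_
    have h1 : (fun y : Fin 2 → ℂ => eval (p + y) B * fderiv ℂ R y (Pi.single 0 1) -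
        eval (p + y) A * fderiv ℂ R y (Pi.single 1 1)) =O[𝓝 0] fun y => ‖y‖ ^ N := by
      have h2 := ((hpc B).mul hR0).sub ((hpc A).mul hR1)
      simpa only [one_mul] using h2
    refine h1.congr' ?_ Filter.EventuallyEq.rfl
    filter_upwards [htr.eventually hw, hRd] with y hy hy2
    have e0 := hy2.2 (Pi.single 0 1)
    have e1 := hy2.2 (Pi.single 1 1)
    rw [e0, e1] at hy
    simp at hy
    unfold XX
    rw [map_sub, map_mul, map_mul, hf_sh_eval, hf_sh_eval]
    linear_combination (-1) * hy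
  -- the quadratic part
  set a1 := fderiv ℂ a p ![1, 0] with ha1
  set a2 := fderiv ℂ a p ![0, 1] with ha2
  set b1 := fderiv ℂ b p ![1, 0] with hb1
  set b2 := fderiv ℂ b p ![0, 1] with hb2
  have hT3 : Ord 3 (T - hfQ a1 a2 b1 b2) := by
    refine hf_ord ?_
    have h1 := (hf_sq ha ha0).add (hf_sq hb hb0)
    have h2 : R =O[𝓝 0] fun y => ‖y‖ ^ 3 := by
      refine hRO.trans ?_
      refine IsBigO.of_bound 1 ?_
      filter_upwards [Metric.ball_mem_nhds (0 : Fin 2 → ℂ) one_pos] with y hy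
      rw [mem_ball_zero_iff] at hy
      rw [norm_pow, norm_pow, norm_norm, one_mul]
      exact pow_le_pow_of_le_one (norm_nonneg _) hy.le (by omega)
    refine (h1.sub h2).congr_left fun y => ?_
    rw [map_sub, hfQ_eval, clm_apply_fin2 (fderiv ℂ a p) y, clm_apply_fin2 (fderiv ℂ b p) y]
    simp only [hR, hGdef]
    ring
  have hdet : a1 * b2 - a2 * b1 ≠ 0 := by
    obtain ⟨v1, hv1⟩ := hbij.2 (1, 0)
    obtain ⟨v2, hv2⟩ := hbij.2 (0, 1)
    simp only [Prod.mk.injEq] at hv1 hv2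
    obtain ⟨e1, e2⟩ := hv1
    obtain ⟨e3, e4⟩ := hv2
    rw [clm_apply_fin2] at e1 e2 e3 e4
    intro h0
    have : (1 : ℂ) = 0 := by
      calc (1 : ℂ) = 1 * 1 - 0 * 0 := by ring
        _ = (a1 * v1 0 + a2 * v1 1) * (b1 * v2 0 + b2 * v2 1) -
            (a1 * v2 0 + a2 * v2 1) * (b1 * v1 0 + b2 * v1 1) := by rw [e1, e2, e3, e4]
        _ = (a1 * b2 - a2 * b1) * (v1 0 * v2 1 - v1 1 * v2 0) := by ring
        _ = 0 := by rw [h0, zero_mul]
    exact one_ne_zero this
  have hTQ : T = (T - hfQ a1 a2 b1 b2) + hfQ a1 a2 b1 b2 := by ring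
  have hT2 : Ord 2 T := by
    rw [hTQ]
    exact (hT3.mono (by norm_num)).add (hfQ_ord _ _ _ _)
  have hdsc : dsc T = 4 * (a1 * b2 - a2 * b1) ^ 2 := by
    rw [← hfQ_dsc]
    have h1 : ∀ m : Fin 2 →₀ ℕ, m 0 + m 1 < 3 → coeff m T = coeff m (hfQ a1 a2 b1 b2) := by
      intro m hm
      have := hT3 m hm
      rw [coeff_sub] at this
      linear_combination this
    unfold dsc
    rw [h1 _ (by simp), h1 _ (by simp), h1 _ (by simp)]
  set c : ℂ := 1 / (2 * (a1 * b2 - a2 * b1)) with hc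
  refine ⟨C c * T, ?_, hT2.mul_left _, ?_, ?_⟩
  · refine (totalDegree_mul _ _).trans ?_
    rw [totalDegree_C, zero_add]
    exact hfT_deg ps N
  · have h1 : dsc (C c * T) = c ^ 2 * dsc T := by
      unfold dsc
      simp only [coeff_C_mul]
      ring
    rw [h1, hdsc, hc]
    field_simp
    norm_num
  · rw [XX_C_mul]
    exact hXX.mul_left _

end Pool.Agent.CF
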