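import Pool.Agent.Lib_helper78.CFF.Base

/-! author of this file: helper56 -/

open MvPolynomial IsLocalRing

namespace Pool.Agent.CF

section
variable {R : Type*} [CommRing R]

lemma nfh_coeff_poly (r : Polynomial R) (m : Fin 2 →₀ ℕ) :
    coeff m (Polynomial.aeval (X 1 : Po R) r) = if m 0 = 0 then r.coeff (m 1) else 0 := by
  classical
  induction r using Polynomial.induction_on' with
  | add p q hp hq =>
    rw [map_add, coeff_add, hp, hq, Polynomial.coeff_add]
    split_ifs <;> simp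
  | monomial n a =>
    rw [Polynomial.aeval_monomial, Polynomial.coeff_monomial]
    have h1 : (algebraMap R (Po R)) a * X 1 ^ n = monomial (Finsupp.single 1 n) a := by
      rw [X_pow_eq_monomial]
      change C a * _ = _
      rw [C_mul_monomial, mul_one]
    rw [h1, coeff_monomial]
    by_cases h : Finsupp.single 1 n = m
    · subst h
      simp
    · rw [if_neg h]
      split_ifs with h2 h3
      · exfalso
        apply h
        ext i
        fin_cases i
        · simp [h2]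
        · simp [h3]
      · rfl
      · rfl

lemma nfh_fil_poly (κ : R) (n : ℕ) (r : Polynomial R) :
    Fil κ n (Polynomial.aeval (X 1 : Po R) r) ↔ ∀ j, κ ^ (n - j) ∣ r.coeff j := by
  constructor
  · intro h j
    have := h (Finsupp.single 1 j)
    rw [nfh_coeff_poly] at this
    simpa using this
  · intro h m
    rw [nfh_coeff_poly]
    split_ifs with h0
    · rw [h0, mul_zero, zero_add]; exact h _
    · exact dvd_zero _

lemma nfh_fil_ind {κ : R} {n : ℕ} {P : Po R → Prop} (h0 : P 0)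
    (hadd : ∀ p q, P p → P q → P (p + q))
    (hmon : ∀ (m : Fin 2 →₀ ℕ) (c : R), κ ^ (n - (2 * m 0 + m 1)) ∣ c → P (monomial m c))
    (p : Po R) (hp : Fil κ n p) : P p := by
  rw [p.as_sum]
  exact Finset.sum_induction _ P hadd h0 fun m _ => hmon m _ (hp m)

lemma nfh_eval_dvd (κ : R) (n : ℕ) (p : Po R) (hp : Fil κ n p) :
    κ ^ n ∣ eval ![κ ^ 2, 0] p := by
  refine nfh_fil_ind (P := fun p => κ ^ n ∣ eval ![κ ^ 2, 0] p) (by simp)
    (fun p q hp hq => by simp only [map_add]; exact dvd_add hp hq) ?_ p hp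
  intro m c hc
  simp only [eval_monomial]
  rw [Finsupp.prod_fintype _ _ (by intro i; simp), Fin.prod_univ_two]
  simp only [Matrix.cons_val_zero, Matrix.cons_val_one]
  by_cases h1 : m 1 = 0
  · rw [h1, pow_zero, mul_one, ← pow_mul]
    rw [h1, add_zero] at hc
    have : κ ^ (n - 2 * m 0) * κ ^ (2 * m 0) ∣ c * κ ^ (2 * m 0) := mul_dvd_mul_right hc _
    refine dvd_trans ?_ this
    rw [← pow_add]
    exact pow_dvd_pow _ (by omega)
  · rw [zero_pow h1, mul_zero, mul_zero]
    exact dvd_zero _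

/-- restriction to `W = 0` -/
noncomputable def nfhR (p : Po R) : Po R := aeval ![X 0, 0] p

lemma nfh_coeff_R (p : Po R) (m : Fin 2 →₀ ℕ) :
    coeff m (nfhR p) = if m 1 = 0 then coeff m p else 0 := by
  classical
  induction p using MvPolynomial.induction_on' with
  | monomial u a =>
    have h1 : nfhR (monomial u a) = if u 1 = 0 then monomial u a else 0 := by
      unfold nfhR
      rw [aeval_monomial, Finsupp.prod_fintype _ _ (by intro i; simp), Fin.prod_univ_two]
      simp only [Matrix.cons_val_zero, Matrix.cons_val_one]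
      split_ifs with h
      · rw [h, pow_zero, mul_one, monomial_eq, Finsupp.prod_fintype _ _ (by intro i; simp),
          Fin.prod_univ_two, h, pow_zero, mul_one]
        rfl
      · rw [zero_pow h, mul_zero, mul_zero]
    rw [h1]
    by_cases h2 : u 1 = 0
    · rw [if_pos h2]
      by_cases h3 : u = m
      · rw [← h3, if_pos h2]
      · rw [coeff_monomial, if_neg h3]
        split_ifs <;> rfl
    · rw [if_neg h2, coeff_zero]
      by_cases h3 : u = m
      · rw [← h3, if_neg h2]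
      · rw [coeff_monomial, if_neg h3]
        split_ifs <;> rfl
  | add p q hp hq =>
    have : nfhR (p + q) = nfhR p + nfhR q := by unfold nfhR; rw [map_add]
    rw [this, coeff_add, hp, hq, coeff_add]
    split_ifs <;> simp

lemma nfh_div (p : Po R) (h : nfhR p = 0) {κ : R} {n : ℕ} (hp : Fil κ (n + 1) p) :
    ∃ q : Po R, p = X 1 * q ∧ Fil κ n q := by
  classical
  have h1 : ∀ m : Fin 2 →₀ ℕ, m 1 = 0 → coeff m p = 0 := by
    intro m hm
    have := nfh_coeff_R p m
    rw [if_pos hm, h, coeff_zero] at this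
    exact this.symm
  refine ⟨p.divMonomial (Finsupp.single 1 1), ?_, ?_⟩
  · have h2 := divMonomial_add_modMonomial_single p (1 : Fin 2)
    have h3 : p.modMonomial (Finsupp.single 1 1) = 0 := by
      ext m
      rw [coeff_zero]
      by_cases hm : Finsupp.single 1 1 ≤ m
      · exact coeff_modMonomial_of_le _ hm
      · rw [coeff_modMonomial_of_not_le _ hm]
        apply h1
        by_contra h4
        apply hm
        intro i
        fin_cases i
        · simp
        · simp; omega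
    rw [h3, add_zero] at h2
    exact h2.symm
  · intro m
    rw [coeff_divMonomial]
    refine (pow_dvd_pow κ ?_).trans (hp _)
    simp
    omega

end

section
variable {V : Type*} [CommRing V] [IsDomain V] [Algebra ℚ V]

noncomputable def nfhL (κ e f2 : V) (K : Po V) : Po V :=
  C e * X 1 * X 0 * pderiv 0 K - (X 0 - C (κ ^ 2) - C f2 * X 1 ^ 2) * pderiv 1 K
    - C (2 * f2) * X 1 * K

lemma nfh_L_add (κ e f2 : V) (K K' : Po V) : nfhL κ e f2 (K + K') = nfhL κ e f2 K +
    nfhL κ e f2 K' := by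
  unfold nfhL; simp only [map_add]; ring

lemma nfh_stepA_mon (κ e f2 : V) (n : ℕ) (i : ℕ) : ∀ (j : ℕ) (c : V),
    κ ^ (n + 1 - (2 * i + j)) ∣ c →
    ∃ (K : Po V) (r : Polynomial V), Fil κ n K ∧ Fil κ (n + 1) (Polynomial.aeval (X 1 : Po V) r) ∧
      C c * X 0 ^ i * X 1 ^ j = nfhL κ e f2 K + Polynomial.aeval (X 1 : Po V) r := by
  induction i with
  | zero =>
    intro j c hc
    refine ⟨0, Polynomial.monomial j c, Fil.zero, ?_, ?_⟩
    · rw [nfh_fil_poly]
      intro k
      rw [Polynomial.coeff_monomial]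
      split_ifs with h
      · rw [← h]; simpa using hc
      · exact dvd_zero _
    · rw [Polynomial.aeval_monomial]
      unfold nfhL
      simp
  | succ i ih =>
    intro j c hc
    set t : V := algebraMap ℚ V (1 / ((j : ℚ) + 1)) with ht
    have ht1 : t * ((j : V) + 1) = 1 := by
      have h1 : ((j : V) + 1) = algebraMap ℚ V ((j : ℚ) + 1) := by simp
      rw [h1, ht, ← map_mul, one_div, inv_mul_cancel₀ (by positivity), map_one]
    have hc1 : κ ^ (n + 1 - (2 * i + (j + 2))) ∣ c * t * (e * i + f2 * (j + 1) - 2 * f2) := by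
      rw [mul_assoc]
      refine dvd_mul_of_dvd_left ?_ _
      have : 2 * i + (j + 2) = 2 * (i + 1) + j := by ring
      rw [this]; exact hc
    have hc2 : κ ^ (n + 1 - (2 * i + j)) ∣ κ ^ 2 * c := by
      refine (pow_dvd_pow κ ?_).trans (by rw [pow_add]; exact mul_dvd_mul_left (κ ^ 2) hc)
      omega
    obtain ⟨K1, r1, hK1, hr1, e1⟩ := ih (j + 2) _ hc1
    obtain ⟨K2, r2, hK2, hr2, e2⟩ := ih j _ hc2
    have hK0 : Fil κ n (C (-(c * t)) * X 0 ^ i * X 1 ^ (j + 1) : Po V) := by
      have h1 : (C (-(c * t)) * X 0 ^ i * X 1 ^ (j + 1) : Po V) =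
          monomial (Finsupp.single 0 i + Finsupp.single 1 (j + 1)) (-(c * t)) := by
        rw [monomial_eq, Finsupp.prod_fintype _ _ (by intro i; simp), Fin.prod_univ_two]
        simp [mul_assoc]
      rw [h1]
      apply fil_monomial
      rw [dvd_neg]
      refine dvd_mul_of_dvd_left ((pow_dvd_pow κ ?_).trans hc) _
      simp
      omega
    refine ⟨C (-(c * t)) * X 0 ^ i * X 1 ^ (j + 1) + (K1 + K2), r1 + r2,
      hK0.add (hK1.add hK2), ?_, ?_⟩
    · rw [map_add]; exact hr1.add hr2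
    · rw [nfh_L_add, nfh_L_add, map_add]
      have h3 : nfhL κ e f2 (C (-(c * t)) * X 0 ^ i * X 1 ^ (j + 1)) =
          C c * X 0 ^ (i + 1) * X 1 ^ j -
            C (c * t * (e * i + f2 * (j + 1) - 2 * f2)) * X 0 ^ i * X 1 ^ (j + 2) -
            C (κ ^ 2 * c) * X 0 ^ i * X 1 ^ j := by
        have h4 : (C t * ((j : Po V) + 1) : Po V) = 1 := by
          have := congrArg (C : V →+* Po V) ht1
          simpa using this
        unfold nfhL
        have hz : X 0 * pderiv 0 (C (-(c * t)) * X 0 ^ i * X 1 ^ (j + 1) : Po V) =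
            (i : Po V) * (C (-(c * t)) * X 0 ^ i * X 1 ^ (j + 1)) := by
          rcases Nat.eq_zero_or_pos i with hi | hi
          · subst hi
            simp [Derivation.leibniz, Derivation.leibniz_pow, pderiv_X]
          · obtain ⟨i', rfl⟩ : ∃ i', i = i' + 1 := ⟨i - 1, by omega⟩
            simp [Derivation.leibniz, Derivation.leibniz_pow, pderiv_X]
            ring
        have hw : pderiv 1 (C (-(c * t)) * X 0 ^ i * X 1 ^ (j + 1) : Po V) =
            ((j : Po V) + 1) * (C (-(c * t)) * X 0 ^ i * X 1 ^ j) := by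
          simp [Derivation.leibniz, Derivation.leibniz_pow, pderiv_X]
          ring
        have hz' : C e * X 1 * X 0 * pderiv 0 (C (-(c * t)) * X 0 ^ i * X 1 ^ (j + 1) : Po V) =
            C e * X 1 * ((i : Po V) * (C (-(c * t)) * X 0 ^ i * X 1 ^ (j + 1))) := by
          rw [← hz]; ring
        rw [hz', hw]
        simp only [map_neg, map_mul, map_sub, map_add, map_natCast, map_one, map_pow, map_ofNat]
        linear_combination (C c * X 0 ^ i * X 1 ^ j * (X 0 - C κ ^ 2 )) * h4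
      rw [h3]
      linear_combination e1 + e2

lemma nfh_stepA (κ e f2 : V) (n : ℕ) (G : Po V) (hG : Fil κ (n + 1) G) :
    ∃ (K : Po V) (r : Polynomial V), Fil κ n K ∧ Fil κ (n + 1) (Polynomial.aeval (X 1 : Po V) r) ∧
      G = nfhL κ e f2 K + Polynomial.aeval (X 1 : Po V) r := by
  refine nfh_fil_ind (P := fun G => ∃ (K : Po V) (r : Polynomial V), Fil κ n K ∧
    Fil κ (n + 1) (Polynomial.aeval (X 1 : Po V) r) ∧
      G = nfhL κ e f2 K + Polynomial.aeval (X 1 : Po V) r) ?_ ?_ ?_ G hG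
  · refine ⟨0, 0, Fil.zero, ?_, ?_⟩
    · rw [map_zero]; exact Fil.zero
    · unfold nfhL; simp
  · rintro p q ⟨K, r, h1, h2, h3⟩ ⟨K', r', h1', h2', h3'⟩
    refine ⟨K + K', r + r', h1.add h1', ?_, ?_⟩
    · rw [map_add]; exact h2.add h2'
    · rw [nfh_L_add, map_add, h3, h3']; ring
  · intro m c hc
    obtain ⟨K, r, h1, h2, h3⟩ := nfh_stepA_mon κ e f2 n (m 0) (m 1) c hc
    refine ⟨K, r, h1, h2, ?_⟩
    rw [← h3, monomial_eq, Finsupp.prod_fintype _ _ (by intro i; simp), Fin.prod_univ_two]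
    ring

lemma nfh_sigma (κ : V) (n : ℕ) (K : Po V) (hK : Fil κ (n + 2) K) :
    ∃ σ : Po V, Fil κ n σ ∧ (X 0 - C (κ ^ 2)) * σ = nfhR K - C (eval ![κ ^ 2, 0] K) := by
  refine nfh_fil_ind (P := fun K => ∃ σ : Po V, Fil κ n σ ∧
    (X 0 - C (κ ^ 2)) * σ = nfhR K - C (eval ![κ ^ 2, 0] K)) ?_ ?_ ?_ K hK
  · exact ⟨0, Fil.zero, by simp [nfhR]⟩
  · rintro p q ⟨s, h1, h2⟩ ⟨s', h1', h2'⟩
    refine ⟨s + s', h1.add h1', ?_⟩
    have : nfhR (p + q) = nfhR p + nfhR q := by unfold nfhR; rw [map_add]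
    rw [this, mul_add, h2, h2', map_add, map_add]
    ring
  · intro m c hc
    by_cases h1 : m 1 = 0
    · refine ⟨∑ a ∈ Finset.range (m 0), C c * ((X 0) ^ a * C (κ ^ 2) ^ (m 0 - 1 - a)), ?_, ?_⟩
      · apply Fil.sum
        intro a ha
        have ha' := Finset.mem_range.1 ha
        have h2 : (C c * ((X 0) ^ a * C (κ ^ 2) ^ (m 0 - 1 - a)) : Po V) =
            monomial (Finsupp.single 0 a) (c * (κ ^ 2) ^ (m 0 - 1 - a)) := by
          rw [monomial_eq, Finsupp.prod_fintype _ _ (by intro i; simp), Fin.prod_univ_two]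
          simp
          ring
        rw [h2]
        apply fil_monomial
        rw [h1, add_zero] at hc
        have h3 := mul_dvd_mul_right hc ((κ ^ 2) ^ (m 0 - 1 - a))
        refine dvd_trans ?_ h3
        rw [← pow_mul, ← pow_add]
        apply pow_dvd_pow
        simp
        omega
      · rw [← Finset.mul_sum]
        have h2 := (Commute.all (X 0 : Po V) (C (κ ^ 2))).geom_sum₂_mul (m 0)
        have h3 : nfhR (monomial m c) = C c * X 0 ^ (m 0) := by
          unfold nfhR
          rw [aeval_monomial, Finsupp.prod_fintype _ _ (by intro i; simp), Fin.prod_univ_two, h1]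
          simp
        have h4 : C (eval ![κ ^ 2, 0] (monomial m c)) = (C c * C (κ ^ 2) ^ (m 0) : Po V) := by
          rw [eval_monomial, Finsupp.prod_fintype _ _ (by intro i; simp), Fin.prod_univ_two, h1]
          simp
        rw [h3, h4]
        linear_combination C c * h2
    · refine ⟨0, Fil.zero, ?_⟩
      have h3 : nfhR (monomial m c) = 0 := by
        unfold nfhR
        rw [aeval_monomial, Finsupp.prod_fintype _ _ (by intro i; simp), Fin.prod_univ_two]
        simp [h1]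
      have h4 : eval ![κ ^ 2, 0] (monomial m c) = 0 := by
        rw [eval_monomial, Finsupp.prod_fintype _ _ (by intro i; simp), Fin.prod_univ_two]
        simp [h1]
      rw [h3, h4]
      simp

end

/-- homological equation -/
theorem nf_hom {V : Type*} [CommRing V] [IsDomain V] [Algebra ℚ V] (κ e f2 : V)
    (he : IsUnit e) (hκ : κ ≠ 0) (r : ℕ) (hr : 1 ≤ r) (Ξ₁ Ξ₂ : Po V)
    (h1 : Fil κ (r + 2) Ξ₁) (h2 : Fil κ (r + 1) Ξ₂) :
    ∃ (σ ρ ν : Po V) (α : Polynomial V), Fil κ r σ ∧ Fil κ (r + 1) ρ ∧ Fil κ r ν ∧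
      Fil κ (r + 2) (Polynomial.aeval (X 1 : Po V) α) ∧
      Ξ₁ = ν * (X 0 - C (κ ^ 2) - C f2 * X 1 ^ 2) + X 0 * σ - C (2 * f2) * X 1 * ρ
        - Polynomial.aeval (X 1 : Po V) α
        + (X 0 - C (κ ^ 2) - C f2 * X 1 ^ 2) * (σ + X 0 * pderiv 0 σ)
        + C e * X 0 * X 1 * pderiv 0 ρ ∧
      Ξ₂ = ν * (C e * X 1) + (X 0 - C (κ ^ 2) - C f2 * X 1 ^ 2) * pderiv 1 σ
        + C e * X 1 * σ + C e * ρ + C e * X 1 * pderiv 1 ρ := by
  have fB : Fil κ 2 (X 0 - C (κ ^ 2) - C f2 * X 1 ^ 2 : Po V) := by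
    refine (fil_X0.sub (fil_C dvd_rfl)).sub ?_
    have := (fil_X1 (κ := κ) (R := V)).mul (fil_X1 (κ := κ) (R := V))
    rw [← pow_two] at this
    exact this.mul_left _
  obtain ⟨e', hee'⟩ := he.exists_right_inv
  have hG : Fil κ (r + 2 + 1) (C e * X 1 * Ξ₁ - (X 0 - C (κ ^ 2) - C f2 * X 1 ^ 2) * Ξ₂) := by
    refine Fil.sub ?_ ?_
    · have := ((fil_X1 (κ := κ) (R := V)).mul_left (C e)).mul h1
      rwa [show 1 + (r + 2) = r + 2 + 1 by ring] at this
    · have := fB.mul h2
      rwa [show 2 + (r + 1) = r + 2 + 1 by ring] at this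
  obtain ⟨K, rr, hK, hrr, hKG⟩ := nfh_stepA κ e f2 (r + 2) _ hG
  -- constant term of `rr`
  have hr0 : rr.coeff 0 = 0 := by
    have := congrArg (eval ![κ ^ 2, 0]) hKG
    unfold nfhL at this
    simp at this
    have h3 : eval ![κ ^ 2, 0] (Polynomial.aeval (X 1 : Po V) rr) = rr.coeff 0 := by
      rw [Polynomial.aeval_def, Polynomial.hom_eval₂, eval_X]
      simp only [Matrix.cons_val_one, Matrix.cons_val_zero]
      have : (eval ![κ ^ 2, 0]).comp (algebraMap V (Po V)) = RingHom.id V := by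
        ext x; simp
      rw [this, Polynomial.coeff_zero_eq_eval_zero]
      rfl
    rw [h3] at this
    exact this.symm
  set k0 := eval ![κ ^ 2, 0] K with hk0
  have hk0d : κ ^ (r + 2) ∣ k0 := nfh_eval_dvd κ _ K hK
  have hrr2 : Polynomial.aeval (X 1 : Po V) rr = X 1 * Polynomial.aeval (X 1 : Po V) rr.divX := by
    conv_lhs => rw [← Polynomial.divX_mul_X_add rr, hr0]
    simp [mul_comm]
  have hC : (C e * C e' : Po V) = 1 := by rw [← C_mul, hee', C_1]
  set K' : Po V := K - C k0 with hK'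
  have fK' : Fil κ (r + 2) K' := hK.sub (fil_C hk0d)
  have hα0 : Fil κ (r + 2) (Polynomial.aeval (X 1 : Po V) rr.divX) := by
    rw [nfh_fil_poly] at hrr ⊢
    intro j
    rw [Polynomial.coeff_divX]
    have := hrr (j + 1)
    rwa [show r + 2 + 1 - (j + 1) = r + 2 - j by omega] at this
  set al : Po V := C e' * (C (2 * f2 * k0) - Polynomial.aeval (X 1 : Po V) rr.divX) with hal
  have hI : C e * X 1 * (Ξ₁ - X 0 * pderiv 0 K' + C (2 * f2 * e') * K' + al) =
      (X 0 - C (κ ^ 2) - C f2 * X 1 ^ 2) * (Ξ₂ - pderiv 1 K') := by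
    have e1 : pderiv 0 K' = pderiv 0 K := by simp [hK']
    have e2 : pderiv 1 K' = pderiv 1 K := by simp [hK']
    rw [e1, e2, hK', hal]
    rw [hrr2] at hKG
    unfold nfhL at hKG
    simp only [map_mul, map_ofNat] at hKG ⊢
    linear_combination hKG + (2 * C f2 * X 1 * (K - C k0) + X 1 * (2 * C f2 * C k0 -
      Polynomial.aeval (X 1 : Po V) rr.divX)) * hC
  have hX0 : (X 0 - C (κ ^ 2) : Po V) ≠ 0 := by
    intro h
    have := congrArg (coeff (Finsupp.single 0 1)) h
    rw [coeff_sub, coeff_C, if_neg (by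
      intro h; have := DFunLike.congr_fun h 0; simp at this), coeff_X', if_pos rfl] at this
    simp at this
  have hRmul : ∀ p q : Po V, nfhR (p * q) = nfhR p * nfhR q := by
    intro p q; unfold nfhR; rw [map_mul]
  have hRB : nfhR (X 0 - C (κ ^ 2) - C f2 * X 1 ^ 2 : Po V) = X 0 - C (κ ^ 2) := by
    unfold nfhR; simp
  have hR1 : nfhR (Ξ₂ - pderiv 1 K') = 0 := by
    have h3 := congrArg nfhR hI
    rw [hRmul, hRmul _ (Ξ₂ - pderiv 1 K'), hRB, hRmul] at h3
    have h4 : nfhR (X 1 : Po V) = 0 := by unfold nfhR; simp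
    rw [h4, mul_zero, zero_mul] at h3
    exact (mul_eq_zero.1 h3.symm).resolve_left hX0
  obtain ⟨q1, hq1, fq1⟩ := nfh_div _ hR1 (κ := κ) (n := r) (h2.sub fK'.pderiv1)
  obtain ⟨σ, fσ, hσ⟩ := nfh_sigma κ r K' fK'
  have hev : eval ![κ ^ 2, 0] K' = 0 := by
    rw [hK', map_sub, eval_C, ← hk0, sub_self]
  rw [hev, C_0, sub_zero] at hσ
  have hRR : nfhR (nfhR K') = nfhR K' := by
    ext m
    rw [nfh_coeff_R, nfh_coeff_R]
    split_ifs <;> rfl
  have hR2 : nfhR (K' - (X 0 - C (κ ^ 2) - C f2 * X 1 ^ 2) * σ) = 0 := by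
    have h3 : nfhR (K' - (X 0 - C (κ ^ 2) - C f2 * X 1 ^ 2) * σ) =
        nfhR K' - nfhR ((X 0 - C (κ ^ 2) - C f2 * X 1 ^ 2) * σ) := by
      unfold nfhR; rw [map_sub]
    rw [h3, hRmul, hRB]
    have h4 := congrArg nfhR hσ
    rw [hRR, hRmul] at h4
    have h5 : nfhR (X 0 - C (κ ^ 2) : Po V) = X 0 - C (κ ^ 2) := by unfold nfhR; simp
    rw [h5] at h4
    rw [h4, sub_self]
  obtain ⟨q2, hq2, fq2⟩ := nfh_div _ hR2 (κ := κ) (n := r + 1) (by
    have := fB.mul fσ
    rw [show 2 + r = r + 2 by ring] at this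
    exact fK'.sub this)
  have hX1 : (X 1 : Po V) ≠ 0 := X_ne_zero _
  have hJ : Ξ₁ = X 0 * pderiv 0 K' - C (2 * f2 * e') * K' - al +
      (X 0 - C (κ ^ 2) - C f2 * X 1 ^ 2) * (C e' * q1) := by
    rw [hq1] at hI
    have h3 : X 1 * (C e * (Ξ₁ - X 0 * pderiv 0 K' + C (2 * f2 * e') * K' + al)) =
        X 1 * ((X 0 - C (κ ^ 2) - C f2 * X 1 ^ 2) * q1) := by
      linear_combination hI
    have h4 := mul_left_cancel₀ hX1 h3
    linear_combination (C e') * h4 - (Ξ₁ - X 0 * pderiv 0 K' + C (2 * f2 * e') * K' + al) * hC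
  have hKK : K' = (X 0 - C (κ ^ 2) - C f2 * X 1 ^ 2) * σ + C e * X 1 * (C e' * q2) := by
    linear_combination hq2 - X 1 * q2 * hC
  have hd0 : pderiv 0 K' = σ + (X 0 - C (κ ^ 2) - C f2 * X 1 ^ 2) * pderiv 0 σ
      + C e * X 1 * pderiv 0 (C e' * q2) := by
    rw [hKK]
    simp [Derivation.leibniz, Derivation.leibniz_pow, pderiv_X]
    ring
  have hd1 : pderiv 1 K' = - (C (2 * f2) * X 1) * σ
      + (X 0 - C (κ ^ 2) - C f2 * X 1 ^ 2) * pderiv 1 σ
      + C e * (C e' * q2) + C e * X 1 * pderiv 1 (C e' * q2) := by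
    rw [show (C (2 * f2) : Po V) = 2 * C f2 by simp only [map_mul, map_ofNat], hKK]
    simp [Derivation.leibniz, Derivation.leibniz_pow, pderiv_X]
    ring
  refine ⟨σ, C e' * q2, C e' * q1 - σ - C (2 * f2 * e') * σ,
    Polynomial.C e' * (Polynomial.C (2 * f2 * k0) - rr.divX), fσ, fq2.mul_left _,
    ((fq1.mul_left _).sub fσ).sub (fσ.mul_left _), ?_, ?_, ?_⟩
  · have h3 : Polynomial.aeval (X 1 : Po V)
        (Polynomial.C e' * (Polynomial.C (2 * f2 * k0) - rr.divX)) = al := by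
      rw [hal]; simp
    rw [h3, hal]
    refine Fil.mul_left _ (Fil.sub (fil_C ?_) hα0)
    exact dvd_mul_of_dvd_right hk0d _
  · have h3 : Polynomial.aeval (X 1 : Po V)
        (Polynomial.C e' * (Polynomial.C (2 * f2 * k0) - rr.divX)) = al := by
      rw [hal]; simp
    rw [h3]
    rw [hJ, hd0]
    have h5 : C (2 * f2 * e') * K' = C (2 * f2 * e') *
      ((X 0 - C (κ ^ 2) - C f2 * X 1 ^ 2) * σ + C e * X 1 * (C e' * q2)) := by rw [← hKK]
    rw [h5]
    simp only [map_mul, map_ofNat]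
    linear_combination (-2 * C f2 * C e' * X 1 * q2) * hC
  · have h3 : Ξ₂ = X 1 * q1 + pderiv 1 K' := by linear_combination hq1
    rw [h3, hd1]
    simp only [map_mul, map_ofNat]
    linear_combination (-X 1 * q1 + 2 * C f2 * X 1 * σ) * hC

end Pool.Agent.CF
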