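import Pool.Agent.Lib_helper78.CFF.CEN
import Pool.Agent.Lib_helper78.CFF.NFH

/-! author of this file: helper56 -/

open MvPolynomial IsLocalRing

namespace Pool.Agent.CF

theorem tm2 {V : Type*} [CommRing V] [IsDomain V] [IsLocalRing V] [Algebra ℚ V] (κ e f2 : V)
    (hκ0 : κ ≠ 0) (hκm : κ ∈ maximalIdeal V) (hf2 : f2 ∈ maximalIdeal V)
    (a b s q μ : Po V) (α : Polynomial V) (hs : Fil κ 1 s) (hq : Fil κ 2 q) (hμ : Fil κ 1 μ)
    (hα : Fil κ 3 (Polynomial.aeval (X 1 : Po V) α - C (κ ^ 2) - C f2 * X 1 ^ 2))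
    (h1 : Fil κ 12 (a - nfA e s q μ α)) (h2 : Fil κ 11 (b - nfB e s q μ α)) :
    ∃ (A' B' z w m r1 r2 : Po V) (β : Polynomial V),
      cen κ a = C (κ ^ 2) * A' ∧ cen κ (X 0 * b) = C (κ ^ 3) * B' ∧
      (∀ k, β.coeff k * κ ^ 2 = α.coeff k * κ ^ k) ∧ β.map (residue V) = 1 ∧
      map (residue V) z = 1 + X 0 ∧ map (residue V) w = X 1 ∧ map (residue V) m = 1 ∧
      A' = m * ((z - Polynomial.aeval w β) * pderiv 0 z + C e * z * w * pderiv 0 w)
        + C (κ ^ 10) * r1 ∧
      B' = m * ((z - Polynomial.aeval w β) * pderiv 1 z + C e * z * w * pderiv 1 w)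
        + C (κ ^ 10) * r2 := by
  obtain ⟨s', hs'⟩ := cen_fil κ 1 s hs
  obtain ⟨q', hq'⟩ := cen_fil κ 2 q hq
  obtain ⟨μ', hμ'⟩ := cen_fil κ 1 μ hμ
  obtain ⟨r1, hr1⟩ := cen_fil κ 12 _ h1
  obtain ⟨r2, hr2⟩ := cen_fil κ 11 _ h2
  -- coefficients of `α`
  have hα' : ∀ j, κ ^ (3 - j) ∣ (α - Polynomial.C (κ ^ 2) - Polynomial.C f2 * Polynomial.X ^ 2).coeff j := by
    rw [← nfh_fil_poly]
    simpa using hα
  obtain ⟨t0, ht0⟩ := hα' 0
  obtain ⟨t1, ht1⟩ := hα' 1
  obtain ⟨t2, ht2⟩ := hα' 2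
  simp only [Polynomial.coeff_sub, Polynomial.coeff_C, Polynomial.coeff_C_mul_X_pow] at ht0 ht1 ht2
  norm_num at ht0 ht1 ht2
  have a0 : α.coeff 0 = κ ^ 2 * (1 + κ * t0) := by linear_combination ht0
  have a1 : α.coeff 1 = κ ^ 2 * t1 := by linear_combination ht1
  have a2 : α.coeff 2 = f2 + κ * t2 := by linear_combination ht2
  set γ : Polynomial V := α.divX.divX with hγ
  have hαγ : α = Polynomial.C (κ ^ 2 * (1 + κ * t0)) + Polynomial.C (κ ^ 2 * t1) * Polynomial.X +
      Polynomial.X ^ 2 * γ := by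
    have e1 := Polynomial.divX_mul_X_add α
    have e2 := Polynomial.divX_mul_X_add α.divX
    rw [Polynomial.coeff_divX, zero_add, a1, ← hγ] at e2
    rw [a0] at e1
    rw [← e1, ← e2]
    ring
  set β : Polynomial V := Polynomial.C (1 + κ * t0) + Polynomial.C (κ * t1) * Polynomial.X +
      Polynomial.X ^ 2 * γ.comp (Polynomial.C κ * Polynomial.X) with hβ
  have b0 : β.coeff 0 = 1 + κ * t0 := by
    rw [hβ]
    generalize 1 + κ * t0 = u0
    generalize κ * t1 = u1
    simp [Polynomial.coeff_X_pow_mul', Polynomial.coeff_C]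
  have b1 : β.coeff 1 = κ * t1 := by
    rw [hβ]
    generalize 1 + κ * t0 = u0
    generalize κ * t1 = u1
    simp [Polynomial.coeff_X_pow_mul', Polynomial.coeff_C]
  have b2 : ∀ k, β.coeff (k + 2) = γ.coeff k * κ ^ k := by
    intro k
    rw [hβ]
    generalize 1 + κ * t0 = u0
    generalize κ * t1 = u1
    simp [Polynomial.coeff_X_pow_mul', Polynomial.coeff_C, Polynomial.coeff_X,
        Polynomial.comp_C_mul_X_coeff]
  have a3 : ∀ k, α.coeff (k + 2) = γ.coeff k := by
    intro k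
    rw [hγ, Polynomial.coeff_divX, Polynomial.coeff_divX]
  have hCk : (C κ : Po V) ≠ 0 := by
    intro h
    exact hκ0 (C_injective _ _ (h.trans C_0.symm))
  set z : Po V := (1 + X 0) * (1 + C κ * s') with hz
  set w : Po V := X 1 + C κ * q' with hw
  set m : Po V := 1 + C κ * μ' with hm
  have c1 : cen κ (X 0 * (1 + s)) = C (κ ^ 2) * z := by
    have : cen κ (X 0 * (1 + s)) = C (κ ^ 2) * (1 + X 0) * (1 + cen κ s) := by
      unfold cen; simp
    rw [this, hs', hz]; simp only [pow_one]; ring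
  have c2 : cen κ (X 1 + q) = C κ * w := by
    have : cen κ (X 1 + q) = C κ * X 1 + cen κ q := by
      unfold cen; simp
    rw [this, hq', hw]; simp only [map_pow]; ring
  have c3 : cen κ (1 + μ) = m := by
    have : cen κ (1 + μ) = 1 + cen κ μ := by
      unfold cen; simp
    rw [this, hμ', hm, pow_one]
  have c4 : cen κ (Polynomial.aeval (X 1 + q) α) = C (κ ^ 2) * Polynomial.aeval w β := by
    have e1 : cen κ (Polynomial.aeval (X 1 + q) α) = Polynomial.aeval (cen κ (X 1 + q)) α := by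
      unfold cen
      rw [Polynomial.aeval_algHom_apply]
    rw [e1, c2, hαγ, hβ]
    simp only [map_add, map_mul, map_pow, Polynomial.aeval_C, Polynomial.aeval_X,
      Polynomial.aeval_comp, algebraMap_eq, map_one]
    ring
  have k2 : (C (κ ^ 2) : Po V) ≠ 0 := by rw [map_pow]; exact pow_ne_zero _ hCk
  have c5 : cen κ (pderiv 0 (X 0 * (1 + s))) = pderiv 0 z := by
    apply mul_left_cancel₀ k2
    rw [← cen_pderiv0, c1, pderiv_C_mul]
  have c6 : C κ * cen κ (pderiv 0 (X 1 + q)) = pderiv 0 w := by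
    apply mul_left_cancel₀ hCk
    have := cen_pderiv0 κ (X 1 + q)
    rw [c2, pderiv_C_mul] at this
    rw [this, map_pow]; ring
  have c7 : cen κ (pderiv 1 (X 0 * (1 + s))) = C κ * pderiv 1 z := by
    apply mul_left_cancel₀ hCk
    rw [← cen_pderiv1, c1, pderiv_C_mul, map_pow]; ring
  have c8 : cen κ (pderiv 1 (X 1 + q)) = pderiv 1 w := by
    apply mul_left_cancel₀ hCk
    rw [← cen_pderiv1, c2, pderiv_C_mul]
  have cmul : ∀ p q : Po V, cen κ (p * q) = cen κ p * cen κ q := by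
    intro p q; unfold cen; rw [map_mul]
  have cadd : ∀ p q : Po V, cen κ (p + q) = cen κ p + cen κ q := by
    intro p q; unfold cen; rw [map_add]
  have csub : ∀ p q : Po V, cen κ (p - q) = cen κ p - cen κ q := by
    intro p q; unfold cen; rw [map_sub]
  have cC : ∀ c : V, cen κ (C c) = C c := by
    intro p; unfold cen; simp
  have nA : cen κ (nfA e s q μ α) = C (κ ^ 2) *
      (m * ((z - Polynomial.aeval w β) * pderiv 0 z + C e * z * w * pderiv 0 w)) := by
    unfold nfA
    rw [cmul, c3, cadd, cmul, csub, c1, c4, c5, cmul, cmul, cmul, cC, c1, c2]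
    linear_combination (m * C e * C (κ ^ 2) * z * w) * c6
  have nB : cen κ (X 0 * nfB e s q μ α) = C (κ ^ 3) *
      (m * ((z - Polynomial.aeval w β) * pderiv 1 z + C e * z * w * pderiv 1 w)) := by
    have e1 : X 0 * nfB e s q μ α = (1 + μ) * ((X 0 * (1 + s) - Polynomial.aeval (X 1 + q) α) *
        pderiv 1 (X 0 * (1 + s)) + C e * (X 0 * (1 + s)) * (X 1 + q) * pderiv 1 (X 1 + q)) := by
      have : pderiv 1 (X 0 * (1 + s) : Po V) = X 0 * pderiv 1 s := by
        simp [Derivation.leibniz, pderiv_X]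
      rw [this]
      unfold nfB
      ring
    rw [e1, cmul, c3, cadd, cmul, csub, c1, c4, c7, cmul, cmul, cmul, cC, c1, c2, c8]
    simp only [map_pow]
    ring
  refine ⟨m * ((z - Polynomial.aeval w β) * pderiv 0 z + C e * z * w * pderiv 0 w)
        + C (κ ^ 10) * r1,
      m * ((z - Polynomial.aeval w β) * pderiv 1 z + C e * z * w * pderiv 1 w)
        + C (κ ^ 10) * ((1 + X 0) * r2), z, w, m, r1, (1 + X 0) * r2, β, ?_, ?_, ?_, ?_, ?_, ?_,
      ?_, rfl, rfl⟩
  · have : cen κ a = cen κ (nfA e s q μ α) + cen κ (a - nfA e s q μ α) := by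
      rw [← cadd]; congr 1; ring
    rw [this, nA, hr1]
    simp only [map_pow]
    ring
  · have : cen κ (X 0 * b) = cen κ (X 0 * nfB e s q μ α) + cen κ (X 0) *
        cen κ (b - nfB e s q μ α) := by
      rw [← cmul, ← cadd]; congr 1; ring
    rw [this, nB, hr2]
    have : cen κ (X 0) = C (κ ^ 2) * (1 + X 0) := by unfold cen; simp
    rw [this]
    simp only [map_pow]
    ring
  · intro k
    rcases k with _ | _ | k
    · rw [b0, a0]; ring
    · rw [b1, a1]; ring
    · rw [b2, a3]; ring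
  · have hk0 : residue V κ = 0 := (residue_eq_zero_iff _).2 hκm
    have hf0 : residue V f2 = 0 := (residue_eq_zero_iff _).2 hf2
    have hγ0 : residue V (γ.coeff 0) = 0 := by
      have := a3 0
      rw [← this, zero_add, a2, map_add, map_mul, hk0, hf0]; ring
    ext k
    rw [Polynomial.coeff_map]
    rcases k with _ | _ | k
    · rw [b0, map_add, map_mul, hk0]; simp
    · rw [zero_add, b1, map_mul, hk0, Polynomial.coeff_one]; simp
    · rw [b2, map_mul, map_pow, hk0, Polynomial.coeff_one, if_neg (by omega)]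
      rcases Nat.eq_zero_or_pos k with h | h
      · rw [h, hγ0, zero_mul]
      · rw [zero_pow (by omega), mul_zero]
  · have hk0 : residue V κ = 0 := (residue_eq_zero_iff _).2 hκm
    rw [hz]; simp [hk0]
  · have hk0 : residue V κ = 0 := (residue_eq_zero_iff _).2 hκm
    rw [hw]; simp [hk0]
  · have hk0 : residue V κ = 0 := (residue_eq_zero_iff _).2 hκm
    rw [hm]; simp [hk0]

end Pool.Agent.CF
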