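import Pool.Agent.Lib_helper78.CFF.Base

/-! author of this file: helper37 -/

/-!
# KER: first integrals over a field
-/

open MvPolynomial IsLocalRing

namespace Pool.Agent.CF

noncomputable def kerMo (a b : ℕ) : Fin 2 →₀ ℕ := Finsupp.single 0 a + Finsupp.single 1 b

lemma kerMo_zero (a b : ℕ) : kerMo a b 0 = a := by simp [kerMo]

lemma kerMo_one (a b : ℕ) : kerMo a b 1 = b := by simp [kerMo]

lemma kerMo_eq (m : Fin 2 →₀ ℕ) : m = kerMo (m 0) (m 1) := by
  ext i; fin_cases i <;> simp [kerMo]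

lemma kerMo_sl (a b : ℕ) : kerMo (a + 1) b = Finsupp.single 0 1 + kerMo a b := by
  ext i; fin_cases i <;> simp [kerMo, add_comm]

lemma kerMo_sr (a b : ℕ) : kerMo a (b + 1) = Finsupp.single 1 1 + kerMo a b := by
  ext i; fin_cases i <;> simp [kerMo, add_comm]

lemma ker_ext {m m' : Fin 2 →₀ ℕ} (h0 : m 0 = m' 0) (h1 : m 1 = m' 1) : m = m' := by
  ext i; fin_cases i
  · exact h0
  · exact h1

section
variable {R : Type*} [CommRing R] (h : Po R)

lemma ker_c1 (a b : ℕ) : coeff (kerMo (a + 1) b) (X 0 * pderiv 1 h) =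
    (b + 1) * coeff (kerMo a (b + 1)) h := by
  rw [kerMo_sl, coeff_X_mul, coeff_pderiv, kerMo_one, kerMo_sr, add_comm (kerMo a b), mul_comm]

lemma ker_c1' (b : ℕ) : coeff (kerMo 0 b) (X 0 * pderiv 1 h) = 0 := by
  rw [coeff_X_mul', if_neg]
  rw [Finsupp.mem_support_iff, kerMo_zero]; simp

lemma ker_c2 (a b : ℕ) : coeff (kerMo a (b + 1)) (X 1 * pderiv 0 h) =
    (a + 1) * coeff (kerMo (a + 1) b) h := by
  rw [kerMo_sr, coeff_X_mul, coeff_pderiv, kerMo_zero, kerMo_sl, add_comm (kerMo a b), mul_comm]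

lemma ker_c2' (a : ℕ) : coeff (kerMo a 0) (X 1 * pderiv 0 h) = 0 := by
  rw [coeff_X_mul', if_neg]
  rw [Finsupp.mem_support_iff, kerMo_one]; simp

lemma ker_c3 (a b : ℕ) : coeff (kerMo a b) (X 0 * pderiv 0 h) = a * coeff (kerMo a b) h := by
  cases a with
  | zero =>
    rw [coeff_X_mul', if_neg]
    · simp
    · rw [Finsupp.mem_support_iff, kerMo_zero]; simp
  | succ a =>
    rw [kerMo_sl, coeff_X_mul, coeff_pderiv, kerMo_zero, add_comm (kerMo a b), mul_comm]
    push_cast; ring

lemma ker_c4 (a b : ℕ) : coeff (kerMo a b) (X 1 * pderiv 1 h) = b * coeff (kerMo a b) h := by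
  cases b with
  | zero =>
    rw [coeff_X_mul', if_neg]
    · simp
    · rw [Finsupp.mem_support_iff, kerMo_one]; simp
  | succ b =>
    rw [kerMo_sr, coeff_X_mul, coeff_pderiv, kerMo_one, add_comm (kerMo a b), mul_comm]
    push_cast; ring

variable {h}

lemma ker_leadC {n : ℕ} (hn : 1 ≤ n) {A B : Po R} (hA : Ord 2 (A - X 1)) (hB : Ord 2 (B - X 0))
    (hh : Ord n h) : Ord (n + 1) (XX A B h - (X 1 * pderiv 1 h - X 0 * pderiv 0 h)) := by
  obtain ⟨n, rfl⟩ : ∃ n', n = n' + 1 := ⟨n - 1, by omega⟩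
  have h1 := (hA.mul (hh.pderiv 1)).sub (hB.mul (hh.pderiv 0))
  have h2 : XX A B h - (X 1 * pderiv 1 h - X 0 * pderiv 0 h) =
      (A - X 1) * pderiv 1 h - (B - X 0) * pderiv 0 h := by
    simp only [XX]; ring
  rw [h2]
  exact h1.mono (by omega)

lemma ker_leadT {n : ℕ} (hn : 1 ≤ n) {e : R} {A B : Po R} (hA : Ord 2 (A - X 0))
    (hB : Ord 2 (B - C e * X 1)) (hh : Ord n h) :
    Ord (n + 1) (XX A B h - (X 0 * pderiv 1 h - C e * (X 1 * pderiv 0 h))) := by
  obtain ⟨n, rfl⟩ : ∃ n', n = n' + 1 := ⟨n - 1, by omega⟩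
  have h1 := (hA.mul (hh.pderiv 1)).sub (hB.mul (hh.pderiv 0))
  have h2 : XX A B h - (X 0 * pderiv 1 h - C e * (X 1 * pderiv 0 h)) =
      (A - X 0) * pderiv 1 h - (B - C e * X 1) * pderiv 0 h := by
    simp only [XX]; ring
  rw [h2]
  exact h1.mono (by omega)

/-- the coefficients of `XX A B h` in the lowest degree, case C -/
lemma ker_coC {n : ℕ} (hn : 1 ≤ n) {A B : Po R} (hA : Ord 2 (A - X 1)) (hB : Ord 2 (B - X 0))
    (hh : Ord n h) (a b : ℕ) (hab : a + b = n) :
    coeff (kerMo a b) (XX A B h) = (b - a) * coeff (kerMo a b) h := by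
  have h1 := ker_leadC hn hA hB hh (kerMo a b) (by rw [kerMo_zero, kerMo_one]; omega)
  rw [coeff_sub, coeff_sub, ker_c3, ker_c4] at h1
  linear_combination h1

/-- the coefficients of `XX A B h` in the lowest degree, case T -/
lemma ker_coT {n : ℕ} (hn : 1 ≤ n) {e : R} {A B : Po R} (hA : Ord 2 (A - X 0))
    (hB : Ord 2 (B - C e * X 1)) (hh : Ord n h) (m : Fin 2 →₀ ℕ) (hm : m 0 + m 1 = n) :
    coeff m (XX A B h) = coeff m (X 0 * pderiv 1 h) - e * coeff m (X 1 * pderiv 0 h) := by
  have h1 := ker_leadT hn hA hB hh m (by omega)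
  rw [coeff_sub, coeff_sub, coeff_C_mul] at h1
  linear_combination h1

end

section
variable {k : Type*} [Field k] [CharZero k]

/-- in degree `n` the kernel is determined by the diagonal coefficient, case C -/
lemma ker_detC {n : ℕ} (hn : 1 ≤ n) {A B h : Po k} (hA : Ord 2 (A - X 1)) (hB : Ord 2 (B - X 0))
    (hh : Ord n h) (hX : Ord (n + 1) (XX A B h))
    (h0 : ∀ m, n = 2 * m → coeff (kerMo m m) h = 0) : Ord (n + 1) h := by
  intro m hm
  rcases Nat.lt_or_ge (m 0 + m 1) n with h1 | h1
  · exact hh m h1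
  · have h2 : m 0 + m 1 = n := by omega
    rw [kerMo_eq m]
    by_cases h3 : m 0 = m 1
    · rw [h3]
      exact h0 (m 1) (by omega)
    · have h4 := ker_coC hn hA hB hh (m 0) (m 1) h2
      rw [hX _ (by rw [kerMo_zero, kerMo_one]; omega)] at h4
      have h5 : ((m 1 : k) - m 0) ≠ 0 := by
        rw [sub_ne_zero]
        exact fun h => h3 (by exact_mod_cast h.symm)
      exact (mul_eq_zero.1 h4.symm).resolve_left h5

/-- the chain of coefficients, case T: steps of length two -/
lemma ker_stepT {n : ℕ} (hn : 1 ≤ n) {e : k} {A B h : Po k}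
    (hA : Ord 2 (A - X 0)) (hB : Ord 2 (B - C e * X 1)) (hh : Ord n h) (a b : ℕ)
    (hab : a + b + 2 = n) (hX : coeff (kerMo (a + 1) (b + 1)) (XX A B h) = 0) :
    ((b : k) + 2) * coeff (kerMo a (b + 2)) h = e * ((a + 2) * coeff (kerMo (a + 2) b) h) := by
  have h4 := ker_coT hn hA hB hh (kerMo (a + 1) (b + 1))
    (by rw [kerMo_zero, kerMo_one]; omega)
  rw [hX, ker_c1, ker_c2] at h4
  push_cast at h4
  linear_combination -h4

/-- in degree `n` the kernel is determined by the coefficient of `x^n`, `n` even, case T -/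
lemma ker_detT {n : ℕ} (hn : 1 ≤ n) {e : k} (he : e ≠ 0) {A B h : Po k}
    (hA : Ord 2 (A - X 0)) (hB : Ord 2 (B - C e * X 1)) (hh : Ord n h)
    (hX : Ord (n + 1) (XX A B h))
    (h0 : Even n → coeff (kerMo n 0) h = 0) : Ord (n + 1) h := by
  have hX' : ∀ a b, a + b = n → coeff (kerMo a b) (XX A B h) = 0 := fun a b hab =>
    hX _ (by rw [kerMo_zero, kerMo_one]; omega)
  -- start of the odd chain
  have s1 : ∀ a, a + 1 = n → coeff (kerMo a 1) h = 0 := by
    intro a ha
    have h4 := ker_coT hn hA hB hh (kerMo (a + 1) 0) (by rw [kerMo_zero, kerMo_one]; omega)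
    rw [hX' (a + 1) 0 (by omega), ker_c1, ker_c2'] at h4
    simpa using h4.symm
  -- start at the other end
  have s2 : ∀ b, b + 1 = n → coeff (kerMo 1 b) h = 0 := by
    intro b hb
    have h4 := ker_coT hn hA hB hh (kerMo 0 (b + 1)) (by rw [kerMo_zero, kerMo_one]; omega)
    rw [hX' 0 (b + 1) (by omega), ker_c1', ker_c2] at h4
    simp only [Nat.cast_zero, zero_add, one_mul, zero_sub] at h4
    have h5 : e * coeff (kerMo 1 b) h = 0 := by linear_combination h4
    exact (mul_eq_zero.1 h5).resolve_left he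
  have step := fun a b (hab : a + b + 2 = n) =>
    ker_stepT hn hA hB hh a b hab (hX' _ _ (by omega))
  have up : ∀ a b, a + b + 2 = n → coeff (kerMo (a + 2) b) h = 0 →
      coeff (kerMo a (b + 2)) h = 0 := by
    intro a b hab h1
    have h2 := step a b hab
    rw [h1, mul_zero, mul_zero] at h2
    have h3 : ((b : k) + 2) ≠ 0 := by exact_mod_cast (by omega : b + 2 ≠ 0)
    exact (mul_eq_zero.1 h2).resolve_left h3
  have down : ∀ a b, a + b + 2 = n → coeff (kerMo a (b + 2)) h = 0 →
      coeff (kerMo (a + 2) b) h = 0 := by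
    intro a b hab h1
    have h2 := step a b hab
    rw [h1, mul_zero] at h2
    have h3 : ((a : k) + 2) ≠ 0 := by exact_mod_cast (by omega : a + 2 ≠ 0)
    exact (mul_eq_zero.1 ((mul_eq_zero.1 h2.symm).resolve_left he)).resolve_left h3
  -- odd exponents of `y`
  have odd : ∀ i a, a + (2 * i + 1) = n → coeff (kerMo a (2 * i + 1)) h = 0 := by
    intro i
    induction i with
    | zero => intro a ha; exact s1 a ha
    | succ i ih =>
      intro a ha
      exact up a (2 * i + 1) (by omega) (ih (a + 2) (by omega))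
  -- the coefficient of `x^n`
  have hn0 : coeff (kerMo n 0) h = 0 := by
    rcases Nat.even_or_odd n with h1 | ⟨t, ht⟩
    · exact h0 h1
    · have key : ∀ i b, b + (2 * i + 1) = n → coeff (kerMo (2 * i + 1) b) h = 0 := by
        intro i
        induction i with
        | zero => intro b hb; exact s2 b hb
        | succ i ih =>
          intro b hb
          exact down (2 * i + 1) b (by omega) (ih (b + 2) (by omega))
      have := key t 0 (by omega)
      rwa [← ht] at this
  have even : ∀ i a, a + 2 * i = n → coeff (kerMo a (2 * i)) h = 0 := by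
    intro i
    induction i with
    | zero =>
      intro a ha
      have : a = n := by omega
      rw [this]; exact hn0
    | succ i ih =>
      intro a ha
      exact up a (2 * i) (by omega) (ih (a + 2) (by omega))
  intro m hm
  rcases Nat.lt_or_ge (m 0 + m 1) n with h1 | h1
  · exact hh m h1
  · rw [kerMo_eq m]
    rcases Nat.even_or_odd (m 1) with ⟨t, ht⟩ | ⟨t, ht⟩
    · have h2 : m 1 = 2 * t := by omega
      rw [h2]
      exact even t (m 0) (by omega)
    · rw [ht]
      exact odd t (m 0) (by omega)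

end

section
variable {k : Type*} [Field k] [CharZero k]

/-- the general induction -/
lemma ker_gen (N : ℕ) (A B S h : Po k) (hS2 : Ord 2 S) (hSX : Ord (N + 1) (XX A B S))
    (ℓ : ℕ → Fin 2 →₀ ℕ) (hℓ : ∀ m, ℓ m 0 + ℓ m 1 = 2 * m) (hℓS : ∀ m, coeff (ℓ m) (S ^ m) ≠ 0)
    (det : ∀ n, 1 ≤ n → ∀ g : Po k, Ord n g → Ord (n + 1) (XX A B g) →
      (∀ m, n = 2 * m → coeff (ℓ m) g = 0) → Ord (n + 1) g)
    (h0 : coeff 0 h = 0) (hh : Ord (N + 1) (XX A B h)) :
    ∃ c : ℕ → k, Ord (N + 1) (h - ∑ j ∈ Finset.Icc 1 (N / 2), C (c j) * S ^ j) := by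
  have key : ∀ n, n ≤ N →
      ∃ c : ℕ → k, Ord (n + 1) (h - ∑ j ∈ Finset.Icc 1 (n / 2), C (c j) * S ^ j) := by
    intro n
    induction n with
    | zero =>
      intro _
      refine ⟨0, ?_⟩
      simp only [Nat.zero_div, Finset.Icc_eq_empty_of_lt zero_lt_one, Finset.sum_empty, sub_zero]
      rw [zero_add, ord_one_iff]
      exact h0
    | succ n ih =>
      intro hn
      obtain ⟨c, hc⟩ := ih (by omega)
      set g := h - ∑ j ∈ Finset.Icc 1 (n / 2), C (c j) * S ^ j with hg
      have hgX : Ord (N + 1) (XX A B g) := by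
        rw [hg, XX_sub, XX_sum]
        refine hh.sub (Ord.sum _ _ fun j _ => ?_)
        rw [XX_C_mul]
        exact (ord_XX_pow A B S hSX).mul_left _
      have hgX' : Ord (n + 1 + 1) (XX A B g) := hgX.mono (by omega)
      rcases Nat.even_or_odd (n + 1) with ⟨m, hm⟩ | ⟨m, hm⟩
      · -- even degree
        set d : k := coeff (ℓ m) g / coeff (ℓ m) (S ^ m) with hd
        have hSm : Ord (n + 1) (S ^ m) := by
          have := hS2.pow m
          exact this.mono (by omega)
        have h2 : Ord (n + 1 + 1) (g - C d * S ^ m) := by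
          apply det (n + 1) (by omega)
          · exact hc.sub (hSm.mul_left _)
          · rw [XX_sub, XX_C_mul]
            refine hgX'.sub (Ord.mul_left _ ?_)
            exact (ord_XX_pow A B S hSX).mono (by omega)
          · intro m' hm'
            have : m' = m := by omega
            subst this
            rw [coeff_sub, coeff_C_mul, hd, div_mul_cancel₀ _ (hℓS m'), sub_self]
        refine ⟨Function.update c m d, ?_⟩
        have h3 : (n + 1) / 2 = n / 2 + 1 := by omega
        have h4 : n / 2 + 1 = m := by omega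
        rw [h3, Finset.sum_Icc_succ_top (by omega), h4]
        have h5 : ∑ j ∈ Finset.Icc 1 (n / 2), C (Function.update c m d j) * S ^ j =
            ∑ j ∈ Finset.Icc 1 (n / 2), C (c j) * S ^ j := by
          refine Finset.sum_congr rfl fun j hj => ?_
          rw [Function.update_of_ne]
          have := (Finset.mem_Icc.1 hj).2
          omega
        rw [h5, Function.update_self, ← sub_sub]
        exact h2
      · -- odd degree
        refine ⟨c, ?_⟩
        have h3 : (n + 1) / 2 = n / 2 := by omega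
        rw [h3]
        apply det (n + 1) (by omega) g hc hgX'
        intro m' hm'
        omega
  exact key N le_rfl

/-- coefficient of a product in the lowest degree -/
lemma ker_coeff_mul {R : Type*} [CommRing R] {a b : ℕ} {p q : Po R} (hp : Ord a p) (hq : Ord b q)
    (m u v : Fin 2 →₀ ℕ) (hm : m 0 + m 1 = a + b) (huv : u + v = m)
    (H : ∀ u' v' : Fin 2 →₀ ℕ, u' + v' = m → u' 0 + u' 1 = a → v' 0 + v' 1 = b → v' ≠ v →
      coeff v' q = 0) :
    coeff m (p * q) = coeff u p * coeff v q := by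
  classical
  rw [coeff_mul, Finset.sum_eq_single (u, v)]
  · rintro ⟨u', v'⟩ h1 h2
    have h3 : u' + v' = m := Finset.HasAntidiagonal.mem_antidiagonal.1 h1
    have e0 : m 0 = u' 0 + v' 0 := by rw [← h3]; rfl
    have e1 : m 1 = u' 1 + v' 1 := by rw [← h3]; rfl
    change coeff u' p * coeff v' q = 0
    rcases Nat.lt_or_ge (u' 0 + u' 1) a with h4 | h4
    · rw [hp u' h4, zero_mul]
    · rcases Nat.lt_or_ge (v' 0 + v' 1) b with h5 | h5
      · rw [hq v' h5, mul_zero]
      · rw [H u' v' h3 (by omega) (by omega), mul_zero]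
        intro h6
        apply h2
        rw [h6] at h3
        have : u' = u := by
          have h7 : u' + v = u + v := by rw [h3, huv]
          exact add_right_cancel h7
        rw [this, h6]
  · intro h1
    exact absurd (Finset.HasAntidiagonal.mem_antidiagonal.2 huv) h1

theorem ker_C (N : ℕ) (A B S h : Po k)
    (hA : Ord 2 (A - X 1)) (hB : Ord 2 (B - X 0)) (hS : FI (N + 1) A B S)
    (h0 : coeff 0 h = 0) (hh : Ord (N + 1) (XX A B h)) :
    ∃ c : ℕ → k, Ord (N + 1) (h - ∑ j ∈ Finset.Icc 1 (N / 2), C (c j) * S ^ j) := by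
  obtain ⟨hS2, ⟨m2, hm2, hm2'⟩, hSX⟩ := hS
  rcases Nat.lt_or_ge N 2 with hN | hN
  · refine ⟨0, ?_⟩
    have hN2 : N / 2 = 0 := by omega
    rw [hN2, Finset.Icc_eq_empty_of_lt zero_lt_one, Finset.sum_empty, sub_zero]
    rcases Nat.lt_or_ge N 1 with hN' | hN'
    · have : N = 0 := by omega
      subst this
      rw [zero_add, ord_one_iff]; exact h0
    · have : N = 1 := by omega
      subst this
      exact ker_detC le_rfl hA hB (ord_one_iff.2 h0) hh fun m hm => by omega
  have hS3 : Ord 3 (XX A B S) := hSX.mono (by omega)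
  -- only the mixed quadratic coefficient of `S` is nonzero
  have hne : ∀ v : Fin 2 →₀ ℕ, v 0 + v 1 = 2 → v ≠ kerMo 1 1 → coeff v S = 0 := by
    intro v hv hv'
    have h1 := ker_coC (by omega) hA hB hS2 (v 0) (v 1) hv
    rw [hS3 _ (by rw [kerMo_zero, kerMo_one]; omega), ← kerMo_eq v] at h1
    have h2 : v 0 ≠ v 1 := by
      intro h
      apply hv'
      apply ker_ext
      · rw [kerMo_zero]; omega
      · rw [kerMo_one]; omega
    have h3 : ((v 1 : k) - v 0) ≠ 0 := by
      rw [sub_ne_zero]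
      exact fun h => h2 (by exact_mod_cast h.symm)
    exact (mul_eq_zero.1 h1.symm).resolve_left h3
  have h11 : coeff (kerMo 1 1) S ≠ 0 := by
    have : m2 = kerMo 1 1 := by
      by_contra h
      exact hm2' (hne m2 hm2 h)
    rwa [← this]
  refine ker_gen N A B S h hS2 hSX (fun m => kerMo m m)
    (fun m => by rw [kerMo_zero, kerMo_one]; omega) ?_ ?_ h0 hh
  · intro m
    induction m with
    | zero =>
      have : kerMo 0 0 = 0 := by simp [kerMo]
      simp [this]
    | succ m ih =>
      rw [pow_succ, ker_coeff_mul (hS2.pow m) hS2 (kerMo (m + 1) (m + 1)) (kerMo m m) (kerMo 1 1)]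
      · exact mul_ne_zero ih h11
      · rw [kerMo_zero, kerMo_one]; omega
      · apply ker_ext <;> simp [kerMo]
      · intro u' v' _ _ hv hv'
        exact hne v' hv hv'
  · intro n hn g hg hgX hg0
    exact ker_detC hn hA hB hg hgX hg0

theorem ker_T (N : ℕ) (e : k) (he : e ≠ 0) (A B S h : Po k)
    (hA : Ord 2 (A - X 0)) (hB : Ord 2 (B - C e * X 1)) (hS : FI (N + 1) A B S)
    (h0 : coeff 0 h = 0) (hh : Ord (N + 1) (XX A B h)) :
    ∃ c : ℕ → k, Ord (N + 1) (h - ∑ j ∈ Finset.Icc 1 (N / 2), C (c j) * S ^ j) := by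
  obtain ⟨hS2, ⟨m2, hm2, hm2'⟩, hSX⟩ := hS
  rcases Nat.lt_or_ge N 2 with hN | hN
  · refine ⟨0, ?_⟩
    have hN2 : N / 2 = 0 := by omega
    rw [hN2, Finset.Icc_eq_empty_of_lt zero_lt_one, Finset.sum_empty, sub_zero]
    rcases Nat.lt_or_ge N 1 with hN' | hN'
    · have : N = 0 := by omega
      subst this
      rw [zero_add, ord_one_iff]; exact h0
    · have : N = 1 := by omega
      subst this
      exact ker_detT le_rfl he hA hB (ord_one_iff.2 h0) hh fun h => absurd h (by decide)
  have hS3 : Ord 3 (XX A B S) := hSX.mono (by omega)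
  have h20 : coeff (kerMo 2 0) S ≠ 0 := by
    intro h1
    have := ker_detT (by omega) he hA hB hS2 hS3 fun _ => h1
    exact hm2' (this m2 (by omega))
  refine ker_gen N A B S h hS2 hSX (fun m => kerMo (2 * m) 0)
    (fun m => by rw [kerMo_zero, kerMo_one]; omega) ?_ ?_ h0 hh
  · intro m
    induction m with
    | zero =>
      have : kerMo 0 0 = 0 := by simp [kerMo]
      simp [this]
    | succ m ih =>
      rw [pow_succ, ker_coeff_mul (hS2.pow m) hS2 (kerMo (2 * (m + 1)) 0) (kerMo (2 * m) 0)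
        (kerMo 2 0)]
      · exact mul_ne_zero ih h20
      · rw [kerMo_zero, kerMo_one]; omega
      · apply ker_ext <;> simp [kerMo]; omega
      · intro u' v' huv _ hv hv'
        exfalso
        apply hv'
        have e1 : u' 1 + v' 1 = 0 := by
          have := congrArg (fun m : Fin 2 →₀ ℕ => m 1) huv
          simpa [kerMo_one] using this
        apply ker_ext
        · rw [kerMo_zero]; omega
        · rw [kerMo_one]; omega
  · intro n hn g hg hgX hg0
    exact ker_detT hn he hA hB hg hgX fun ⟨m, hm⟩ => by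
      have := hg0 m (by omega)
      have h2 : n = 2 * m := by omega
      rwa [← h2] at this

theorem obs_T (k0 : ℕ) (hk : Odd k0) (e β : k) (he : e ≠ 0)
    (hβ : β ≠ 0) (A B S h : Po k) (hA : Ord 2 (A - X 0)) (hB : Ord 2 (B - C e * X 1))
    (hS : FI (k0 + 2) A B S) (h0 : coeff 0 h = 0)
    (hh : Ord (k0 + 2) (XX A B h - C β * X 1 ^ (k0 + 1))) : False := by
  have hX1 : Ord (k0 + 1) (C β * X 1 ^ (k0 + 1) : Po k) := by
    have := ((ord_X (R := k) 1).pow (k0 + 1)).mul_left (C β)
    rwa [one_mul] at this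
  have hXh : Ord (k0 + 1) (XX A B h) := by
    have := (hh.mono (show k0 + 1 ≤ k0 + 2 by omega)).add hX1
    rwa [sub_add_cancel] at this
  have hS' : FI (k0 + 1) A B S := ⟨hS.1, hS.2.1, hS.2.2.mono (by omega)⟩
  obtain ⟨c, hc⟩ := ker_T k0 e he A B S h hA hB hS' h0 hXh
  set g := h - ∑ j ∈ Finset.Icc 1 (k0 / 2), C (c j) * S ^ j with hg
  have hgX : Ord (k0 + 2) (XX A B g - C β * X 1 ^ (k0 + 1)) := by
    have h1 : XX A B g - C β * X 1 ^ (k0 + 1) = (XX A B h - C β * X 1 ^ (k0 + 1)) -
        ∑ j ∈ Finset.Icc 1 (k0 / 2), C (c j) * XX A B (S ^ j) := by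
      rw [hg, XX_sub, XX_sum]
      simp only [XX_C_mul]
      ring
    rw [h1]
    refine hh.sub (Ord.sum _ _ fun j _ => ?_)
    exact (ord_XX_pow A B S hS.2.2).mul_left _
  have hX' : ∀ a b, (a + 1) + b = k0 + 1 → coeff (kerMo (a + 1) b) (XX A B g) = 0 := by
    intro a b hab
    have h1 := hgX (kerMo (a + 1) b) (by rw [kerMo_zero, kerMo_one]; omega)
    rw [coeff_sub, coeff_C_mul, coeff_X_pow, if_neg, mul_zero, sub_zero] at h1
    · exact h1
    · intro h2
      have := congrArg (fun m : Fin 2 →₀ ℕ => m 0) h2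
      simp [kerMo_zero] at this
  have odd : ∀ i a, a + (2 * i + 1) = k0 + 1 → coeff (kerMo a (2 * i + 1)) g = 0 := by
    intro i
    induction i with
    | zero =>
      intro a ha
      have h4 := ker_coT (by omega) hA hB hc (kerMo (a + 1) 0)
        (by rw [kerMo_zero, kerMo_one]; omega)
      rw [hX' a 0 (by omega), ker_c1, ker_c2'] at h4
      simpa using h4.symm
    | succ i ih =>
      intro a ha
      have h2 := ker_stepT (by omega) hA hB hc a (2 * i + 1) (by omega)
        (hX' a (2 * i + 1 + 1) (by omega))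
      rw [ih (a + 2) (by omega), mul_zero, mul_zero] at h2
      have h3 : (((2 * i + 1 : ℕ) : k) + 2) ≠ 0 := by
        exact_mod_cast (by omega : 2 * i + 1 + 2 ≠ 0)
      exact (mul_eq_zero.1 h2).resolve_left h3
  obtain ⟨t, ht⟩ := hk
  have h1 : coeff (kerMo 1 k0) g = 0 := by
    have := odd t 1 (by omega)
    rwa [← ht] at this
  have h4 := ker_coT (by omega) hA hB hc (kerMo 0 (k0 + 1))
    (by rw [kerMo_zero, kerMo_one]; omega)
  rw [ker_c1', ker_c2] at h4
  simp only [zero_add, h1, mul_zero, sub_zero] at h4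
  have h5 := hgX (kerMo 0 (k0 + 1)) (by rw [kerMo_zero, kerMo_one]; omega)
  rw [coeff_sub, h4, coeff_C_mul, coeff_X_pow, if_pos (by apply ker_ext <;> simp [kerMo])] at h5
  apply hβ
  linear_combination -h5

end

end Pool.Agent.CF
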