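import Pool.Agent.Lib_helper78.CFF.LA

/-! author of this file: helper47 -/

/-!
# Block LM of the E(3) project: comparison of first integrals
-/

open MvPolynomial IsLocalRing

namespace Pool.Agent.CF

/-- exponents of degree `≤ n` -/
noncomputable def lmT (n : ℕ) : Finset (Fin 2 →₀ ℕ) :=
  (Finset.range (n + 1)).biUnion fun k => Finset.finsuppAntidiag Finset.univ k

lemma lm_mem (n : ℕ) (m : Fin 2 →₀ ℕ) : m ∈ lmT n ↔ m 0 + m 1 ≤ n := by
  simp only [lmT, Finset.mem_biUnion, Finset.mem_range, Finset.mem_finsuppAntidiag,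
    Fin.sum_univ_two]
  constructor
  · rintro ⟨k, hk, h1, -⟩
    omega
  · intro h
    exact ⟨m 0 + m 1, by omega, rfl, by simp⟩

lemma lm_zero (m : Fin 2 →₀ ℕ) : m = 0 ↔ m 0 + m 1 = 0 := by
  constructor
  · rintro rfl; simp
  · intro h
    ext i
    fin_cases i
    · simpa using (by omega : m 0 = 0)
    · simpa using (by omega : m 1 = 0)

/-- the polynomial with given coefficients -/
noncomputable def lmP {R : Type*} [CommRing R] (s : Finset (Fin 2 →₀ ℕ)) (x : s → R) : Po R :=
  ∑ m : s, monomial m.1 (x m)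

/-- the vector of coefficients -/
noncomputable def lmV {R : Type*} [CommRing R] (s : Finset (Fin 2 →₀ ℕ)) (p : Po R) : s → R :=
  fun m => coeff m.1 p

/-- the matrix of `XX A B` -/
noncomputable def lmM {R : Type*} [CommRing R] (s' s : Finset (Fin 2 →₀ ℕ)) (A B : Po R) :
    Matrix s' s R := Matrix.of fun m' m => coeff m'.1 (XX A B (monomial m.1 1))

section
variable {R : Type*} [CommRing R] (s' s : Finset (Fin 2 →₀ ℕ))

lemma lmP_coeff (x : s → R) (m : Fin 2 →₀ ℕ) :
    coeff m (lmP s x) = if h : m ∈ s then x ⟨m, h⟩ else 0 := by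
  classical
  rw [lmP, coeff_sum]
  simp only [coeff_monomial]
  split_ifs with h
  · rw [Finset.sum_eq_single (⟨m, h⟩ : s)]
    · simp
    · intro b _ hb
      rw [if_neg]
      intro hbm
      exact hb (Subtype.ext hbm)
    · intro hh
      exact absurd (Finset.mem_univ _) hh
  · refine Finset.sum_eq_zero fun b _ => ?_
    rw [if_neg]
    intro hb
    exact h (hb ▸ b.2)

lemma lmP_coeff_mem (x : s → R) (m : s) : coeff m.1 (lmP s x) = x m := by
  rw [lmP_coeff, dif_pos m.2]

lemma lmP_sub (x y : s → R) : lmP s (x - y) = lmP s x - lmP s y := by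
  ext m
  rw [coeff_sub, lmP_coeff, lmP_coeff, lmP_coeff]
  split_ifs <;> simp

lemma lmP_map {S : Type*} [CommRing S] (f : R →+* S) (x : s → R) :
    map f (lmP s x) = lmP s (fun m => f (x m)) := by
  ext m
  rw [coeff_map, lmP_coeff, lmP_coeff]
  split_ifs <;> simp

lemma lmM_mulVec (A B : Po R) (x : s → R) (m' : s') :
    (lmM s' s A B).mulVec x m' = coeff m'.1 (XX A B (lmP s x)) := by
  have h : XX A B (lmP s x) = ∑ m : s, C (x m) * XX A B (monomial m.1 1) := by
    rw [lmP, XX_sum]
    refine Finset.sum_congr rfl fun m _ => ?_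
    rw [← XX_C_mul]
    congr 1
    rw [C_mul_monomial, mul_one]
  rw [h, coeff_sum]
  simp only [Matrix.mulVec, dotProduct, lmM, Matrix.of_apply, coeff_C_mul]
  exact Finset.sum_congr rfl fun m _ => mul_comm _ _

lemma lmM_map {S : Type*} [CommRing S] (f : R →+* S) (A B : Po R) :
    (lmM s' s A B).map f = lmM s' s (map f A) (map f B) := by
  ext m' m
  simp only [lmM, Matrix.map_apply, Matrix.of_apply]
  rw [← coeff_map, map_XX, map_monomial, map_one]

end

section
variable {R : Type*} [CommRing R] {N : ℕ}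

/-- truncation of a polynomial without constant term -/
lemma lm_trunc {p : Po R} (hp : coeff 0 p = 0) :
    Ord (N + 2) (lmP ((lmT (N + 1)).erase 0) (lmV _ p) - p) := by
  intro m hm
  rw [coeff_sub, lmP_coeff]
  by_cases h0 : m = 0
  · subst h0
    rw [dif_neg (by simp), hp, sub_zero]
  · rw [dif_pos (by
      rw [Finset.mem_erase, lm_mem]
      exact ⟨h0, by omega⟩)]
    simp [lmV]

lemma lmP_coeff0 (x : ((lmT (N + 1)).erase 0) → R) :
    coeff 0 (lmP ((lmT (N + 1)).erase 0) x) = 0 := by
  rw [lmP_coeff, dif_neg (by simp)]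

lemma lm_ord_iff (A B p : Po R) (hA : Ord 1 A) (hB : Ord 1 B) (hp : coeff 0 p = 0) :
    (lmM (lmT (N + 1)) ((lmT (N + 1)).erase 0) A B).mulVec (lmV _ p) = 0 ↔
      Ord (N + 2) (XX A B p) := by
  have h1 : Ord (N + 2) (XX A B (lmP ((lmT (N + 1)).erase 0) (lmV _ p)) - XX A B p) := by
    rw [← XX_sub]
    exact ord_XX' _ _ _ hA hB (lm_trunc hp)
  constructor
  · intro h m hm
    have h2 := congrFun h (⟨m, (lm_mem _ _).2 (by omega)⟩ : lmT (N + 1))
    rw [lmM_mulVec] at h2
    have h3 := h1 m hm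
    rw [coeff_sub] at h3
    have h4 : coeff m (XX A B (lmP ((lmT (N + 1)).erase 0) (lmV _ p))) = 0 := h2
    rw [h4, zero_sub, neg_eq_zero] at h3
    exact h3
  · intro h
    ext m
    rw [lmM_mulVec]
    have hm : m.1 0 + m.1 1 < N + 2 := by
      have := (lm_mem _ _).1 m.2
      omega
    have h3 := h1 m.1 hm
    rw [coeff_sub, h m.1 hm, sub_zero] at h3
    exact h3

lemma lm_P_ord (A B : Po R) (x : ((lmT (N + 1)).erase 0) → R)
    (h : (lmM (lmT (N + 1)) ((lmT (N + 1)).erase 0) A B).mulVec x = 0) :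
    Ord (N + 2) (XX A B (lmP _ x)) := by
  intro m hm
  have h2 := congrFun h (⟨m, (lm_mem _ _).2 (by omega)⟩ : lmT (N + 1))
  rw [lmM_mulVec] at h2
  exact h2

end

section field
variable {k : Type*} [Field k]

lemma lm_pow {S q : Po k} (hS : Ord 2 S) (hq : Ord 2 q) (h : Ord 3 (S - q)) (j : ℕ) :
    Ord (2 * j + 1) (S ^ j - q ^ j) := by
  induction j with
  | zero => simpa using Ord.zero
  | succ j ih =>
    have h1 : S ^ (j + 1) - q ^ (j + 1) = S ^ j * (S - q) + (S ^ j - q ^ j) * q := by ring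
    rw [h1]
    have h2 : Ord (2 * j + 3) (S ^ j * (S - q)) := (hS.pow j).mul h
    have h3 : Ord (2 * j + 1 + 2) ((S ^ j - q ^ j) * q) := ih.mul hq
    exact (h2.mono (by omega)).add (h3.mono (by omega))

/-- powers of a polynomial with nonzero quadratic part are independent modulo high order -/
lemma lm_indep {S : Po k} (hS : Ord 2 S) (hS2 : ∃ m : Fin 2 →₀ ℕ, m 0 + m 1 = 2 ∧ coeff m S ≠ 0)
    (d M : ℕ) (hM : 2 * d + 1 ≤ M) (c : Fin d → k)
    (h : Ord M (∑ j : Fin d, C (c j) * S ^ ((j : ℕ) + 1))) : c = 0 := by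
  classical
  set q := homogeneousComponent 2 S with hq
  have hqh : q.IsHomogeneous 2 := homogeneousComponent_isHomogeneous 2 S
  have hqc : ∀ m : Fin 2 →₀ ℕ, coeff m q = if m 0 + m 1 = 2 then coeff m S else 0 := by
    intro m
    rw [hq, coeff_homogeneousComponent, deg2]
  have hq0 : q ≠ 0 := by
    obtain ⟨m, hm, hne⟩ := hS2
    intro h0
    have := hqc m
    rw [h0, if_pos hm, coeff_zero] at this
    exact hne this.symm
  have hqO : Ord 2 q := by
    intro m hm
    rw [hqc, if_neg (by omega)]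
  have hSq : Ord 3 (S - q) := by
    intro m hm
    rw [coeff_sub, hqc]
    by_cases h2 : m 0 + m 1 = 2
    · rw [if_pos h2, sub_self]
    · rw [if_neg h2, hS m (by omega), sub_zero]
  have key : ∀ n : ℕ, ∀ j : Fin d, (j : ℕ) = n → c j = 0 := by
    intro n
    induction n using Nat.strong_induction_on with
    | _ n ih =>
      intro j hj
      have h1 : Ord (2 * n + 3) (∑ i : Fin d, C (c i) * S ^ ((i : ℕ) + 1)) :=
        h.mono (by have := j.2; omega)
      have h2 : ∑ i : Fin d, C (c i) * S ^ ((i : ℕ) + 1) =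
          C (c j) * S ^ ((j : ℕ) + 1) +
            ∑ i ∈ Finset.univ.erase j, C (c i) * S ^ ((i : ℕ) + 1) :=
        (Finset.add_sum_erase _ _ (Finset.mem_univ j)).symm
      have h3 : Ord (2 * n + 3) (∑ i ∈ Finset.univ.erase j, C (c i) * S ^ ((i : ℕ) + 1)) := by
        refine Ord.sum _ _ fun i hi => ?_
        have hij : i ≠ j := (Finset.mem_erase.1 hi).1
        rcases lt_or_gt_of_ne (fun h => hij (Fin.ext h) : (i : ℕ) ≠ (j : ℕ)) with hlt | hgt
        · rw [ih i (by omega) i rfl, C_0, zero_mul]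
          exact Ord.zero
        · have := (hS.pow ((i : ℕ) + 1)).mul_left (C (c i))
          exact this.mono (by omega)
      have h4 : Ord (2 * n + 3) (C (c j) * S ^ ((j : ℕ) + 1)) := by
        have := h1.sub h3
        rw [h2] at this
        simpa using this
      have h5 : Ord (2 * n + 3) (C (c j) * q ^ (n + 1)) := by
        have h6 := (lm_pow hS hqO hSq (n + 1)).mul_left (C (c j))
        have h7 := h4.sub (h6.mono (show 2 * n + 3 ≤ 2 * (n + 1) + 1 by omega))
        rw [hj] at h7
        convert h7 using 1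
        ring
      by_contra hc
      have h8 : q ^ (n + 1) ≠ 0 := pow_ne_zero _ hq0
      have h9 : (q ^ (n + 1)).IsHomogeneous (2 * (n + 1)) := hqh.pow _
      apply h8
      ext m
      rw [coeff_zero]
      by_cases hm : m 0 + m 1 = 2 * (n + 1)
      · have := h5 m (by omega)
        rw [coeff_C_mul] at this
        exact (mul_eq_zero.1 this).resolve_left hc
      · refine h9.coeff_eq_zero ?_
        rw [deg2]
        exact hm
  exact funext fun j => key j j rfl

end field

theorem lemM {R : Type*} [CommRing R] [IsLocalRing R] {K : Type*} [Field K] (φ : R →+* K)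
    (hφ : Function.Injective φ) (N : ℕ) (A B A' B' S : Po R) (J : Ideal R)
    (hJ : J ≤ maximalIdeal R) (hA0 : coeff 0 A = 0) (hB0 : coeff 0 B = 0)
    (hA : CI J (A - A')) (hB : CI J (B - B')) (hS0 : coeff 0 S = 0)
    (hS : Ord (N + 2) (XX A' B' S))
    (hSk : FI (N + 2) (map (residue R) A) (map (residue R) B) (map (residue R) S))
    (hker : ∀ h : Po (ResidueField R), coeff 0 h = 0 →
      Ord (N + 2) (XX (map (residue R) A) (map (residue R) B) h) →
      ∃ c : ℕ → ResidueField R,
        Ord (N + 2) (h - ∑ j ∈ Finset.Icc 1 ((N + 1) / 2), C (c j) * (map (residue R) S) ^ j))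
    (hK : ∃ H : Po K, FI (N + 2) (map φ A) (map φ B) H)
    (ub : Po (ResidueField R)) (hub0 : coeff 0 ub = 0)
    (hub : Ord (N + 2) (XX (map (residue R) A) (map (residue R) B) ub)) :
    ∃ u h : Po R, CI J h ∧ coeff 0 h = 0 ∧
      Ord (N + 2) (map (residue R) u - ub) ∧
      ∀ m : Fin 2 →₀ ℕ, m 0 + m 1 ≤ N → coeff m (XX (A - A') (B - B') u + XX A B h) ∈ J ^ 2 := by
  classical
  set s := (lmT (N + 1)).erase 0 with hs
  set s' := lmT (N + 1) with hs'
  set d := (N + 1) / 2 with hd
  have hA1 : Ord 1 A := ord_one_iff.2 hA0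
  have hB1 : Ord 1 B := ord_one_iff.2 hB0
  have hpow0 : ∀ j : ℕ, coeff 0 (S ^ (j + 1)) = 0 := by
    intro j
    have : Ord 1 (S ^ (j + 1)) := ((ord_one_iff.2 hS0).pow (j + 1)).mono (by omega)
    exact ord_one_iff.1 this
  -- hypotheses of `la`
  have hw : LinearIndependent (ResidueField R) fun j : Fin d => fun i =>
      residue R ((fun (j : Fin d) => lmV s (S ^ ((j : ℕ) + 1))) j i) := by
    rw [Fintype.linearIndependent_iff]
    intro c hc j
    have hc' : c = 0 := by
      refine lm_indep hSk.1 hSk.2.1 d (N + 2) (by omega) c ?_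
      intro m hm
      rw [coeff_sum]
      by_cases h0 : m = 0
      · subst h0
        refine Finset.sum_eq_zero fun j _ => ?_
        rw [coeff_C_mul, ← map_pow, coeff_map, hpow0, map_zero, mul_zero]
      · have hms : m ∈ s := by
          rw [hs, Finset.mem_erase, lm_mem]
          exact ⟨h0, by omega⟩
        have h1 := congrFun hc ⟨m, hms⟩
        rw [Finset.sum_apply] at h1
        rw [← show (0 : ResidueField R) = (0 : s → ResidueField R) ⟨m, hms⟩ from rfl] at h1
        rw [← h1]
        refine Finset.sum_congr rfl fun j _ => ?_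
        rw [coeff_C_mul, ← map_pow, coeff_map]
        rfl
    rw [hc']; rfl
  have hMres : (lmM s' s A B).map (residue R) =
      lmM s' s (map (residue R) A) (map (residue R) B) := lmM_map _ _ _ _ _
  have hMφ : (lmM s' s A B).map φ = lmM s' s (map φ A) (map φ B) := lmM_map _ _ _ _ _
  have hspan : ∀ x : s → ResidueField R, ((lmM s' s A B).map (residue R)).mulVec x = 0 →
      x ∈ Submodule.span (ResidueField R) (Set.range fun j : Fin d => fun i =>
        residue R ((fun (j : Fin d) => lmV s (S ^ ((j : ℕ) + 1))) j i)) := by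
    intro x hx
    rw [hMres] at hx
    have h1 := lm_P_ord _ _ x hx
    obtain ⟨c, hc⟩ := hker (lmP s x) (lmP_coeff0 x) h1
    rw [Submodule.mem_span_range_iff_exists_fun]
    refine ⟨fun j => c ((j : ℕ) + 1), ?_⟩
    ext m
    have hm1 : m.1 0 + m.1 1 < N + 2 := by
      have h2 : m.1 ∈ (lmT (N + 1)).erase 0 := m.2
      rw [Finset.mem_erase, lm_mem] at h2
      omega
    have h2 := hc m.1 hm1
    rw [coeff_sub, lmP_coeff_mem, coeff_sum, sub_eq_zero] at h2
    rw [h2, Finset.sum_apply]
    have h3 : ∑ j ∈ Finset.Icc 1 d, coeff m.1 (C (c j) * (map (residue R) S) ^ j) =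
        ∑ j ∈ Finset.range d, coeff m.1 (C (c (j + 1)) * (map (residue R) S) ^ (j + 1)) := by
      have h4 : Finset.Icc 1 d = Finset.Ico 1 (d + 1) := by
        ext j
        simp only [Finset.mem_Icc, Finset.mem_Ico]
        omega
      rw [h4, Finset.sum_Ico_eq_sum_range, Nat.add_sub_cancel]
      exact Finset.sum_congr rfl fun j _ => by rw [add_comm 1 j]
    rw [h3, Finset.sum_range]
    refine Finset.sum_congr rfl fun j _ => ?_
    rw [coeff_C_mul, ← map_pow, coeff_map]
    rfl
  have hK' : ∃ y : Fin d → s → K, LinearIndependent K y ∧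
      ∀ j, ((lmM s' s A B).map φ).mulVec (y j) = 0 := by
    obtain ⟨H, hH2, hHq, hHX⟩ := hK
    have hH0 : ∀ j : ℕ, coeff 0 (H ^ (j + 1)) = 0 := by
      intro j
      have : Ord 1 (H ^ (j + 1)) := (hH2.pow (j + 1)).mono (by omega)
      exact ord_one_iff.1 this
    refine ⟨fun j => lmV s (H ^ ((j : ℕ) + 1)), ?_, ?_⟩
    · rw [Fintype.linearIndependent_iff]
      intro c hc j
      have hc' : c = 0 := by
        refine lm_indep hH2 hHq d (N + 2) (by omega) c ?_
        intro m hm
        rw [coeff_sum]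
        by_cases h0 : m = 0
        · subst h0
          refine Finset.sum_eq_zero fun j _ => ?_
          rw [coeff_C_mul, hH0, mul_zero]
        · have hms : m ∈ s := by
            rw [hs, Finset.mem_erase, lm_mem]
            exact ⟨h0, by omega⟩
          have h1 := congrFun hc ⟨m, hms⟩
          rw [Finset.sum_apply] at h1
          rw [← show (0 : K) = (0 : s → K) ⟨m, hms⟩ from rfl] at h1
          rw [← h1]
          refine Finset.sum_congr rfl fun j _ => ?_
          rw [coeff_C_mul]
          rfl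
      rw [hc']; rfl
    · intro j
      rw [hMφ]
      refine (lm_ord_iff _ _ _ (hA1.map φ) (hB1.map φ) (hH0 _)).2 ?_
      exact ord_XX_pow _ _ _ hHX
  have hwJ : ∀ (j : Fin d) i, (lmM s' s A B).mulVec
      ((fun (j : Fin d) => lmV s (S ^ ((j : ℕ) + 1))) j) i ∈ J := by
    intro j i
    rw [lmM_mulVec]
    have h1 : Ord (N + 2) (XX A B (lmP s (lmV s (S ^ ((j : ℕ) + 1)))) -
        XX A B (S ^ ((j : ℕ) + 1))) := by
      rw [← XX_sub]
      exact ord_XX' _ _ _ hA1 hB1 (lm_trunc (hpow0 _))
    have hi : i.1 0 + i.1 1 < N + 2 := by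
      have := (lm_mem _ _).1 i.2
      omega
    have h2 := h1 i.1 hi
    rw [coeff_sub, sub_eq_zero] at h2
    change coeff i.1 (XX A B (lmP s (lmV s (S ^ ((j : ℕ) + 1))))) ∈ J
    rw [h2]
    have h3 : XX A B (S ^ ((j : ℕ) + 1)) = XX A' B' (S ^ ((j : ℕ) + 1)) +
        XX (A - A') (B - B') (S ^ ((j : ℕ) + 1)) := by
      rw [XX_sub_left]; ring
    rw [h3, coeff_add, ord_XX_pow A' B' S hS i.1 hi, zero_add]
    exact ci_XX_left _ hA hB i.1
  obtain ⟨la1, la2⟩ := la (lmM s' s A B) d (fun j : Fin d => lmV s (S ^ ((j : ℕ) + 1)))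
    hw hspan φ hK' hφ J hJ hwJ
  -- the lift of `ub`
  obtain ⟨x, hx, hxr⟩ := la1 (lmV s ub) (by
    rw [hMres]
    exact (lm_ord_iff _ _ _ (hA1.map _) (hB1.map _) hub0).2 hub)
  obtain ⟨c, hc⟩ := la2 x hx
  set u := lmP s x with hu
  set h := lmP s (fun i => x i - ∑ j, c j * lmV s (S ^ ((j : ℕ) + 1)) i) with hh
  have hCI : CI J h := by
    intro m
    rw [hh, lmP_coeff]
    split_ifs with hm
    · exact hc ⟨m, hm⟩
    · exact J.zero_mem
  refine ⟨u, h, hCI, lmP_coeff0 _, ?_, ?_⟩
  · rw [hu, lmP_map]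
    have h1 : (fun m => residue R (x m)) = lmV s ub := funext hxr
    rw [h1]
    exact lm_trunc hub0
  · intro m hm
    set P : Po R := ∑ j : Fin d, C (c j) * S ^ ((j : ℕ) + 1) with hP
    have htail : Ord (N + 2) ((u - h) - P) := by
      intro m' hm'
      rw [coeff_sub, coeff_sub, hu, hh, lmP_coeff, lmP_coeff, hP, coeff_sum]
      by_cases h0 : m' = 0
      · subst h0
        rw [dif_neg (by simp [hs]), dif_neg (by simp [hs]), sub_zero, zero_sub, neg_eq_zero]
        refine Finset.sum_eq_zero fun j _ => ?_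
        rw [coeff_C_mul, hpow0, mul_zero]
      · have hms : m' ∈ s := by
          rw [hs, Finset.mem_erase, lm_mem]
          exact ⟨h0, by omega⟩
        rw [dif_pos hms, dif_pos hms]
        simp only [coeff_C_mul, lmV]
        ring
    have e1 : Ord (N + 2) (XX A B u) := lm_P_ord _ _ x hx
    have e2 : Ord (N + 2) (XX A' B' P) := by
      rw [hP, XX_sum]
      refine Ord.sum _ _ fun j _ => ?_
      rw [XX_C_mul]
      exact (ord_XX_pow A' B' S hS).mul_left _
    have e3 : Ord (N + 1) (XX A' B' ((u - h) - P)) := ord_XX _ _ _ htail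
    have e4 : XX (A - A') (B - B') u + XX A B h =
        XX A B u - XX A' B' P - XX A' B' ((u - h) - P) + XX (A - A') (B - B') h := by
      simp only [XX_sub_left, XX_sub]
      ring
    rw [e4, coeff_add, coeff_sub, coeff_sub, e1 m (by omega), e2 m (by omega), e3 m (by omega),
      sub_zero, sub_zero, zero_add, pow_two]
    exact ci_XX hA hB hCI m

end Pool.Agent.CF
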