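import Pool.Agent.Lib_helper78.CFF.TE
import Pool.Agent.Lib_helper78.CFF.NFH
import Pool.Agent.Lib_helper78.CFF.LM
import Pool.Agent.Lib_helper78.CFF.KER

/-! author of this file: helper56 -/

open MvPolynomial IsLocalRing

namespace Pool.Agent.CF

lemma tm3_min {V : Type*} [CommRing V] [IsDomain V] [ValuationRing V] (s : Finset ℕ)
    (f : ℕ → V) (hs : s.Nonempty) : ∃ i ∈ s, ∀ j ∈ s, f i ∣ f j := by
  classical
  induction hs using Finset.Nonempty.cons_induction with
  | singleton a => exact ⟨a, by simp, by simp⟩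
  | cons a s ha hs ih =>
    obtain ⟨i, hi, hij⟩ := ih
    rcases ValuationRing.dvd_total (f i) (f a) with h | h
    · refine ⟨i, by simp [hi], ?_⟩
      intro j hj
      rw [Finset.mem_cons] at hj
      rcases hj with rfl | hj
      · exact h
      · exact hij j hj
    · refine ⟨a, by simp, ?_⟩
      intro j hj
      rw [Finset.mem_cons] at hj
      rcases hj with rfl | hj
      · exact dvd_rfl
      · exact h.trans (hij j hj)

theorem tm3 {V : Type} [CommRing V] [IsDomain V] [ValuationRing V] [Algebra ℚ V]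
    {K : Type} [Field K] (φ : V →+* K) (hφ : Function.Injective φ) (κ e : V)
    (hκm : κ ∈ maximalIdeal V) (he : IsUnit e) (A' B' z w m r1 r2 : Po V) (β : Polynomial V)
    (hβ : β.map (residue V) = 1)
    (hβ12 : ∀ k, 12 ≤ k → κ ^ 10 ∣ β.coeff k)
    (hz : map (residue V) z = 1 + X 0) (hw : map (residue V) w = X 1)
    (hm : map (residue V) m = 1)
    (hA : A' = m * ((z - Polynomial.aeval w β) * pderiv 0 z + C e * z * w * pderiv 0 w)
        + C (κ ^ 10) * r1)
    (hB : B' = m * ((z - Polynomial.aeval w β) * pderiv 1 z + C e * z * w * pderiv 1 w)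
        + C (κ ^ 10) * r2)
    (hA0 : coeff 0 A' = 0) (hB0 : coeff 0 B' = 0)
    (hK : ∃ H : Po K, FI 14 (map φ A') (map φ B') H)
    (k : ℕ) (hk : Odd k) : κ ^ 10 ∣ β.coeff k := by
  classical
  by_contra hcon
  set s : Finset ℕ := β.support.filter (fun j => Odd j) with hs
  have hks : k ∈ s := by
    rw [hs, Finset.mem_filter, Polynomial.mem_support_iff]
    exact ⟨fun h => hcon (by rw [h]; exact dvd_zero _), hk⟩
  obtain ⟨k1, hk1, hmin⟩ := tm3_min s β.coeff ⟨k, hks⟩
  set ε : V := β.coeff k1 with hε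
  have hodd1 : Odd k1 := (Finset.mem_filter.1 hk1).2
  have hε0 : ε ≠ 0 := Polynomial.mem_support_iff.1 (Finset.mem_filter.1 hk1).1
  have hdiv : ∀ j, Odd j → ε ∣ β.coeff j := by
    intro j hj
    by_cases h : β.coeff j = 0
    · rw [h]; exact dvd_zero _
    · exact hmin j (Finset.mem_filter.2 ⟨Polynomial.mem_support_iff.2 h, hj⟩)
  have hnd : ¬ κ ^ 10 ∣ ε := fun h => hcon (h.trans (hdiv k hk))
  obtain ⟨δ, hδ⟩ : ε ∣ κ ^ 10 := (ValuationRing.dvd_total ε (κ ^ 10)).resolve_right hnd
  have hδm : δ ∈ maximalIdeal V := by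
    rw [mem_maximalIdeal]
    intro hu
    obtain ⟨v, hv⟩ := hu.exists_right_inv
    apply hnd
    exact ⟨v, by rw [hδ, mul_assoc, hv, mul_one]⟩
  set kk := residue V with hkk
  have hcoeffβ : ∀ j, j ≠ 0 → kk (β.coeff j) = 0 := by
    intro j hj
    have := congrArg (fun p => Polynomial.coeff p j) hβ
    simp only [Polynomial.coeff_map, Polynomial.coeff_one, if_neg hj] at this
    exact this
  have hk10 : k1 ≠ 0 := by rintro rfl; exact absurd hodd1 (by decide)
  have hkε : kk ε = 0 := hcoeffβ k1 hk10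
  have hkκ : kk κ = 0 := (residue_eq_zero_iff _).2 hκm
  have hkδ : kk δ = 0 := (residue_eq_zero_iff _).2 hδm
  -- even and odd parts
  set g : Polynomial V := Polynomial.contract 2 β with hg
  have hgk : g.map kk = 1 := by
    ext j
    rw [Polynomial.coeff_map, hg, Polynomial.coeff_contract two_ne_zero, Polynomial.coeff_one]
    have := congrArg (fun p => Polynomial.coeff p (j * 2)) hβ
    simp only [Polynomial.coeff_map, Polynomial.coeff_one] at this
    rw [this]
    congr 1
    simp
  have hexp : ∀ j, (Polynomial.expand V 2 g).coeff j = if 2 ∣ j then β.coeff j else 0 := by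
    intro j
    rw [Polynomial.coeff_expand two_pos]
    split_ifs with h
    · rw [hg, Polynomial.coeff_contract two_ne_zero, Nat.div_mul_cancel h]
    · rfl
  obtain ⟨b, hb⟩ : Polynomial.C ε ∣ β - Polynomial.expand V 2 g := by
    rw [Polynomial.C_dvd_iff_dvd_coeff]
    intro j
    rw [Polynomial.coeff_sub, hexp]
    split_ifs with h
    · rw [sub_self]; exact dvd_zero _
    · rw [sub_zero]
      exact hdiv j (Nat.not_even_iff_odd.1 (fun h' => h (even_iff_two_dvd.1 h')))
  have hbe : ∀ j, 2 ∣ j → b.coeff j = 0 := by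
    intro j hj
    have := congrArg (fun p => Polynomial.coeff p j) hb
    simp only [Polynomial.coeff_sub, hexp, if_pos hj, sub_self, Polynomial.coeff_C_mul] at this
    exact (mul_eq_zero.1 this.symm).resolve_left hε0
  have hbo : ∀ j, ¬ 2 ∣ j → ε * b.coeff j = β.coeff j := by
    intro j hj
    have := congrArg (fun p => Polynomial.coeff p j) hb
    simp only [Polynomial.coeff_sub, hexp, if_neg hj, sub_zero, Polynomial.coeff_C_mul] at this
    exact this.symm
  have hbk1 : b.coeff k1 = 1 := by
    have h1 := hbo k1 (fun h => (Nat.not_even_iff_odd.2 hodd1) (even_iff_two_dvd.2 h))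
    rw [← hε] at h1
    exact mul_left_cancel₀ hε0 (by rw [h1, mul_one])
  have hb12 : ∀ j, 12 ≤ j → kk (b.coeff j) = 0 := by
    intro j hj
    by_cases h2 : 2 ∣ j
    · rw [hbe j h2, map_zero]
    · obtain ⟨c, hc⟩ := hβ12 j hj
      have h1 := hbo j h2
      rw [hc, hδ, mul_assoc] at h1
      rw [mul_left_cancel₀ hε0 h1, map_mul, hkδ, zero_mul]
  have haev : Polynomial.aeval w β = Polynomial.aeval (w ^ 2) g + C ε * Polynomial.aeval w b := by
    have h1 : β = Polynomial.expand V 2 g + Polynomial.C ε * b := by rw [← hb]; ring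
    conv_lhs => rw [h1]
    rw [map_add, Polynomial.expand_aeval, map_mul, Polynomial.aeval_C]
    rfl
  obtain ⟨S, hS0, hS, hS3⟩ := even_ref e he z w m g hz hw hgk 14
  set EA : Po V := m * ((z - Polynomial.aeval (w ^ 2) g) * pderiv 0 z + C e * z * w * pderiv 0 w)
    with hEA
  set EB : Po V := m * ((z - Polynomial.aeval (w ^ 2) g) * pderiv 1 z + C e * z * w * pderiv 1 w)
    with hEB
  set ηA : Po V := -(m * Polynomial.aeval w b * pderiv 0 z) + C δ * r1 with hηA
  set ηB : Po V := -(m * Polynomial.aeval w b * pderiv 1 z) + C δ * r2 with hηB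
  have dA : A' - EA = C ε * ηA := by
    rw [hA, hEA, haev, hδ, hηA, map_mul]; ring
  have dB : B' - EB = C ε * ηB := by
    rw [hB, hEB, haev, hδ, hηB, map_mul]; ring
  set J : Ideal V := Ideal.span {ε} with hJ
  have hεJ : ε ∈ J := Ideal.mem_span_singleton_self ε
  have hJm : J ≤ maximalIdeal V := by
    rw [hJ, Ideal.span_le, Set.singleton_subset_iff]
    exact (residue_eq_zero_iff _).1 hkε
  have ciA : CI J (A' - EA) := by rw [dA]; exact (ci_C hεJ).mul_right _
  have ciB : CI J (B' - EB) := by rw [dB]; exact (ci_C hεJ).mul_right _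
  have hβw : map kk (Polynomial.aeval w β) = 1 := by
    have h3 : map kk (Polynomial.aeval w β) =
        Polynomial.aeval (map kk w) (β.map kk) := by
      rw [Polynomial.aeval_def, Polynomial.hom_eval₂, Polynomial.aeval_def,
        Polynomial.eval₂_map]
      congr 1
      ext x
      simp
    rw [h3, hβ, map_one]
  have rA : map kk A' = X 0 := by
    rw [hA]
    simp only [map_add, map_mul, map_sub, hz, hw, hm, hβw, map_C, map_pow, hkκ,
      ← pderiv_map]
    simp [pderiv_X]
  have rB : map kk B' = C (kk e) * (1 + X 0) * X 1 := by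
    rw [hB]
    simp only [map_add, map_mul, map_sub, hz, hw, hm, hβw, map_C, map_pow, hkκ,
      ← pderiv_map]
    simp [pderiv_X]
  have rEA : map kk EA = map kk A' := by
    have h1 : map kk (C ε * ηA) = 0 := by rw [map_mul, map_C, hkε, C_0, zero_mul]
    have this : map kk A' - map kk EA = 0 := by rw [← map_sub, dA, h1]
    exact (sub_eq_zero.1 this).symm
  have rEB : map kk EB = map kk B' := by
    have h1 : map kk (C ε * ηB) = 0 := by rw [map_mul, map_C, hkε, C_0, zero_mul]
    have this : map kk B' - map kk EB = 0 := by rw [← map_sub, dB, h1]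
    exact (sub_eq_zero.1 this).symm
  have hke : kk e ≠ 0 := by
    intro h0
    rw [hkk, residue_eq_zero_iff] at h0
    exact (mem_maximalIdeal _).1 h0 he
  have oSk : Ord 14 (XX (map kk A') (map kk B') (map kk S)) := by
    have := hS.map kk
    rwa [map_XX, rEA, rEB] at this
  have fiS : FI 14 (map kk A') (map kk B') (map kk S) := by
    refine ⟨?_, ⟨Finsupp.single 1 2, by simp, ?_⟩, oSk⟩
    · have h1 : map kk S = (map kk S - (X 1 ^ 2 + C (kk e)⁻¹ * X 0 ^ 2)) +
          (X 1 ^ 2 + C (kk e)⁻¹ * X 0 ^ 2) := by ring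
      rw [h1]
      refine (hS3.mono (by omega)).add (Ord.add ?_ ?_)
      · have := (ord_X (R := ResidueField V) 1).pow 2
        simpa using this
      · have := (ord_X (R := ResidueField V) 0).pow 2
        rw [one_mul] at this
        exact this.mul_left _
    · have h1 := hS3 (Finsupp.single 1 2) (by simp)
      rw [coeff_sub, sub_eq_zero] at h1
      rw [h1, coeff_add, coeff_C_mul, coeff_X_pow, coeff_X_pow, if_pos rfl, if_neg (by
        intro h; have := DFunLike.congr_fun h 0; simp at this)]
      simp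
  haveI : CharZero (ResidueField V) := algebraRat.charZero _
  have oA2 : Ord 2 (map kk A' - X 0) := by rw [rA, sub_self]; exact Ord.zero
  have oB2 : Ord 2 (map kk B' - C (kk e) * X 1) := by
    have : map kk B' - C (kk e) * X 1 = C (kk e) * (X 0 * X 1) := by rw [rB]; ring
    rw [this]
    exact ((ord_X 0).mul (ord_X 1)).mul_left _
  obtain ⟨u, h, hJh, hh0, hu, hcoef⟩ := lemM φ hφ 12 A' B' EA EB S J hJm hA0 hB0 ciA ciB hS0 hS
    fiS (fun h h0 hh => ker_T 13 (kk e) hke _ _ _ h oA2 oB2 fiS h0 hh) hK (map kk S)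
    (by rw [coeff_map, hS0, map_zero]) oSk
  obtain ⟨h', hh'⟩ : C ε ∣ h := by
    rw [C_dvd_iff_dvd_coeff]
    intro i
    exact Ideal.mem_span_singleton.1 (hJh i)
  have hh'0 : coeff 0 h' = 0 := by
    rw [hh', coeff_C_mul] at hh0
    exact (mul_eq_zero.1 hh0).resolve_left hε0
  have hres : Ord 13 (XX (map kk ηA) (map kk ηB) (map kk u) +
      XX (map kk A') (map kk B') (map kk h')) := by
    intro i hi
    have h1 := hcoef i (by omega)
    rw [dA, dB, hh', XX_mul_left, XX_C_mul, ← mul_add, coeff_C_mul, hJ, Ideal.span_singleton_pow,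
      Ideal.mem_span_singleton, pow_two] at h1
    have h2 := (mul_dvd_mul_iff_left hε0).1 h1
    rw [← map_XX, ← map_XX, ← map_add, coeff_map]
    obtain ⟨c, hc⟩ := h2
    rw [hc, map_mul, hkε, zero_mul]
  -- residues of `η`
  have rηA : map kk ηA = - Polynomial.aeval (X 1 : Po (ResidueField V)) (b.map kk) := by
    have h3 : map kk (Polynomial.aeval w b) =
        Polynomial.aeval (map kk w) (b.map kk) := by
      rw [Polynomial.aeval_def, Polynomial.hom_eval₂, Polynomial.aeval_def,
        Polynomial.eval₂_map]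
      congr 1
      ext x
      simp
    rw [hηA]
    simp only [map_add, map_neg, map_mul, h3, hw, hm, map_C, hkδ, ← pderiv_map, hz]
    simp [pderiv_X]
  have rηB : map kk ηB = 0 := by
    rw [hηB]
    simp only [map_add, map_neg, map_mul, hw, hm, map_C, hkδ, ← pderiv_map, hz]
    simp [pderiv_X]
  set bb : Polynomial (ResidueField V) := b.map kk with hbb
  have hex : ∃ j, bb.coeff j ≠ 0 := ⟨k1, by rw [hbb, Polynomial.coeff_map, hbk1, map_one]; exact one_ne_zero⟩
  set k0 := Nat.find hex with hk0
  have hk0n : bb.coeff k0 ≠ 0 := Nat.find_spec hex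
  have hk0lt : ∀ j < k0, bb.coeff j = 0 := fun j hj => by
    by_contra h
    exact Nat.find_min hex hj h
  have hk0odd : Odd k0 := by
    rw [← Nat.not_even_iff_odd]
    intro h
    apply hk0n
    rw [hbb, Polynomial.coeff_map, hbe k0 (even_iff_two_dvd.1 h), map_zero]
  have hk011 : k0 < 12 := by
    by_contra h
    apply hk0n
    rw [hbb, Polynomial.coeff_map]
    exact hb12 k0 (by omega)
  have hbdec : Ord (k0 + 1) (Polynomial.aeval (X 1 : Po (ResidueField V)) bb -
      C (bb.coeff k0) * X 1 ^ k0) := by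
    intro i hi
    rw [coeff_sub, nfh_coeff_poly, coeff_C_mul, coeff_X_pow]
    by_cases h0 : i 0 = 0
    · rw [if_pos h0]
      by_cases h1 : i 1 = k0
      · have : Finsupp.single 1 k0 = i := by
          ext j; fin_cases j <;> simp [h0, h1]
        rw [if_pos this, h1, mul_one, sub_self]
      · rw [hk0lt (i 1) (by omega), if_neg (by rintro rfl; simp at h1)]
        ring
    · rw [if_neg h0, if_neg (by rintro rfl; simp at h0)]
      ring
  have hud : Ord 2 (pderiv 1 (map kk u) - 2 * X 1) := by
    have h1 : Ord 3 (map kk u - (X 1 ^ 2 + C (kk e)⁻¹ * X 0 ^ 2)) := by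
      have := (hu.mono (show 3 ≤ 12 + 2 by omega)).add hS3
      convert this using 1
      ring
    have h2 := h1.pderiv 1
    have h3 : pderiv 1 (map kk u - (X 1 ^ 2 + C (kk e)⁻¹ * X 0 ^ 2)) =
        pderiv 1 (map kk u) - 2 * X 1 := by
      simp [Derivation.leibniz, Derivation.leibniz_pow, pderiv_X]
    rwa [h3] at h2
  refine obs_T k0 hk0odd (kk e) (2 * bb.coeff k0) hke (mul_ne_zero two_ne_zero hk0n)
    (map kk A') (map kk B') (map kk S) (map kk h') oA2 oB2
    ⟨fiS.1, fiS.2.1, fiS.2.2.mono (by omega)⟩ (by rw [coeff_map, hh'0, map_zero]) ?_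
  have e1 : XX (map kk A') (map kk B') (map kk h') - C (2 * bb.coeff k0) * X 1 ^ (k0 + 1) =
      (XX (map kk ηA) (map kk ηB) (map kk u) + XX (map kk A') (map kk B') (map kk h')) +
      ((Polynomial.aeval (X 1 : Po (ResidueField V)) bb - C (bb.coeff k0) * X 1 ^ k0) *
        pderiv 1 (map kk u) +
        C (bb.coeff k0) * X 1 ^ k0 * (pderiv 1 (map kk u) - 2 * X 1)) := by
    have : XX (map kk ηA) (map kk ηB) (map kk u) =
        - (Polynomial.aeval (X 1 : Po (ResidueField V)) bb * pderiv 1 (map kk u)) := by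
      rw [rηA, rηB]; unfold XX; ring
    rw [this, map_mul, map_ofNat]
    ring
  rw [e1]
  refine (hres.mono (by omega)).add (Ord.add ?_ ?_)
  · have h1 : Ord 1 (pderiv 1 (map kk u)) := by
      have h2 : pderiv 1 (map kk u) = (pderiv 1 (map kk u) - 2 * X 1) + 2 * X 1 := by ring
      rw [h2]
      exact (hud.mono (by omega)).add ((ord_X 1).mul_left _)
    exact hbdec.mul h1
  · have h1 := (ord_X (R := ResidueField V) 1).pow k0
    rw [one_mul] at h1
    exact (h1.mul_left (C (bb.coeff k0))).mul hud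

end Pool.Agent.CF
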