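import Pool.Agent.Lib_helper78.CFF.Base

/-! author of this file: helper6 -/

/-!
# CF block RES3: the numerical certificate at infinity
-/

open MvPolynomial IsLocalRing

namespace Pool.Agent.CF

theorem res3_A {k : Type*} [Field k] : ∃ Q : Polynomial k,
    (3 * (2 + Polynomial.X) ^ 2 + 8) ^ 2 *
      ((2 + Polynomial.X) * ((2 + Polynomial.X) ^ 2 + 6)) ^ 7 =
    (512000000000 + 3840000000000 * Polynomial.X + 13992960000000 * Polynomial.X ^ 2 + 33011200000000 * Polynomial.X ^ 3 + 56664883200000 * Polynomial.X ^ 4 + 75393454080000 * Polynomial.X ^ 5 + 80863319040000 * Polynomial.X ^ 6 + 71774409830400 * Polynomial.X ^ 7 + 53699440665600 * Polynomial.X ^ 8 + 34313690521088 * Polynomial.X ^ 9 : Polynomial k) + Polynomial.X ^ 10 * Q := by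
  refine ⟨18904519885056 + 9039504160128 * Polynomial.X + 3767881710208 * Polynomial.X ^ 2 + 1372354068288 * Polynomial.X ^ 3 + 437028027456 * Polynomial.X ^ 4 + 121536429024 * Polynomial.X ^ 5 + 29424377376 * Polynomial.X ^ 6 + 6168918096 * Polynomial.X ^ 7 + 1111061936 * Polynomial.X ^ 8 + 169934856 * Polynomial.X ^ 9 + 21710136 * Polynomial.X ^ 10 + 2261596 * Polynomial.X ^ 11 + 185196 * Polynomial.X ^ 12 + 11226 * Polynomial.X ^ 13 + 450 * Polynomial.X ^ 14 + 9 * Polynomial.X ^ 15, ?_⟩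
  ring

theorem res3_B0 {k : Type*} [Field k] : ∃ Q : Polynomial k,
    ((3 * (2 + Polynomial.X) ^ 2 + 8) ^ 3 -
      20 * ((2 + Polynomial.X) * ((2 + Polynomial.X) ^ 2 + 6)) ^ 2) ^ 0 *
      ((2 + Polynomial.X) * ((2 + Polynomial.X) ^ 2 + 6)) ^ (10 - 2 * 0) =
    (10240000000000 + 92160000000000 * Polynomial.X + 403968000000000 * Polynomial.X ^ 2 + 1149747200000000 * Polynomial.X ^ 3 + 2389616640000000 * Polynomial.X ^ 4 + 3866639155200000 * Polynomial.X ^ 5 + 5070365798400000 * Polynomial.X ^ 6 + 5537099243520000 * Polynomial.X ^ 7 + 5134875406848000 * Polynomial.X ^ 8 + 4102433526681600 * Polynomial.X ^ 9 : Polynomial k) + Polynomial.X ^ 10 * Q := by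
  refine ⟨2854540576871424 + 1744217598689280 * Polynomial.X + 941781757900800 * Polynomial.X ^ 2 + 451440071470080 * Polynomial.X ^ 3 + 192742481767680 * Polynomial.X ^ 4 + 73450319855616 * Polynomial.X ^ 5 + 25008380536320 * Polynomial.X ^ 6 + 7607306488320 * Polynomial.X ^ 7 + 2065098092160 * Polynomial.X ^ 8 + 499143997440 * Polynomial.X ^ 9 + 107037084672 * Polynomial.X ^ 10 + 20260394880 * Polynomial.X ^ 11 + 3361422240 * Polynomial.X ^ 12 + 484220160 * Polynomial.X ^ 13 + 59789520 * Polynomial.X ^ 14 + 6216912 * Polynomial.X ^ 15 + 530820 * Polynomial.X ^ 16 + 35840 * Polynomial.X ^ 17 + 1800 * Polynomial.X ^ 18 + 60 * Polynomial.X ^ 19 + 1 * Polynomial.X ^ 20, ?_⟩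
  norm_num
  ring

theorem res3_B1 {k : Type*} [Field k] : ∃ Q : Polynomial k,
    ((3 * (2 + Polynomial.X) ^ 2 + 8) ^ 3 -
      20 * ((2 + Polynomial.X) * ((2 + Polynomial.X) ^ 2 + 6)) ^ 2) ^ 1 *
      ((2 + Polynomial.X) * ((2 + Polynomial.X) ^ 2 + 6)) ^ (10 - 2 * 1) =
    (24576000000000 * Polynomial.X ^ 2 + 200704000000000 * Polynomial.X ^ 3 + 797552640000000 * Polynomial.X ^ 4 + 2055671808000000 * Polynomial.X ^ 5 + 3864321843200000 * Polynomial.X ^ 6 + 5646966128640000 * Polynomial.X ^ 7 + 6675212759040000 * Polynomial.X ^ 8 + 6556979218841600 * Polynomial.X ^ 9 : Polynomial k) + Polynomial.X ^ 10 * Q := by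
  refine ⟨5455333001502720 + 3898323656859648 * Polynomial.X + 2417515162164224 * Polynomial.X ^ 2 + 1311081812296704 * Polynomial.X ^ 3 + 625299449337600 * Polynomial.X ^ 4 + 263286616162304 * Polynomial.X ^ 5 + 98105754267648 * Polynomial.X ^ 6 + 32384848978944 * Polynomial.X ^ 7 + 9468088895744 * Polynomial.X ^ 8 + 2447758771200 * Polynomial.X ^ 9 + 557886451584 * Polynomial.X ^ 10 + 111572743040 * Polynomial.X ^ 11 + 19448906400 * Polynomial.X ^ 12 + 2927708160 * Polynomial.X ^ 13 + 375764480 * Polynomial.X ^ 14 + 40397760 * Polynomial.X ^ 15 + 3546864 * Polynomial.X ^ 16 + 244832 * Polynomial.X ^ 17 + 12492 * Polynomial.X ^ 18 + 420 * Polynomial.X ^ 19 + 7 * Polynomial.X ^ 20, ?_⟩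
  norm_num
  ring

theorem res3_B2 {k : Type*} [Field k] : ∃ Q : Polynomial k,
    ((3 * (2 + Polynomial.X) ^ 2 + 8) ^ 3 -
      20 * ((2 + Polynomial.X) * ((2 + Polynomial.X) ^ 2 + 6)) ^ 2) ^ 2 *
      ((2 + Polynomial.X) * ((2 + Polynomial.X) ^ 2 + 6)) ^ (10 - 2 * 2) =
    (58982400000000 * Polynomial.X ^ 4 + 432537600000000 * Polynomial.X ^ 5 + 1542356992000000 * Polynomial.X ^ 6 + 3563923046400000 * Polynomial.X ^ 7 + 5998460313600000 * Polynomial.X ^ 8 + 7834964074496000 * Polynomial.X ^ 9 : Polynomial k) + Polynomial.X ^ 10 * Q := by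
  refine ⟨8260375947264000 + 7217373184327680 * Polynomial.X + 5323664876609536 * Polynomial.X ^ 2 + 3359484628770816 * Polynomial.X ^ 3 + 1831237414533120 * Polynomial.X ^ 4 + 868166957129728 * Polynomial.X ^ 5 + 359637536021760 * Polynomial.X ^ 6 + 130536911344896 * Polynomial.X ^ 7 + 41560256058176 * Polynomial.X ^ 8 + 11600138280960 * Polynomial.X ^ 9 + 2832197520768 * Polynomial.X ^ 10 + 602410050880 * Polynomial.X ^ 11 + 110932458480 * Polynomial.X ^ 12 + 17527998720 * Polynomial.X ^ 13 + 2346684880 * Polynomial.X ^ 14 + 261546480 * Polynomial.X ^ 15 + 23657580 * Polynomial.X ^ 16 + 1671488 * Polynomial.X ^ 17 + 86688 * Polynomial.X ^ 18 + 2940 * Polynomial.X ^ 19 + 49 * Polynomial.X ^ 20, ?_⟩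
  norm_num
  ring

theorem res3_B3 {k : Type*} [Field k] : ∃ Q : Polynomial k,
    ((3 * (2 + Polynomial.X) ^ 2 + 8) ^ 3 -
      20 * ((2 + Polynomial.X) * ((2 + Polynomial.X) ^ 2 + 6)) ^ 2) ^ 3 *
      ((2 + Polynomial.X) * ((2 + Polynomial.X) ^ 2 + 6)) ^ (10 - 2 * 3) =
    (141557760000000 * Polynomial.X ^ 6 + 920125440000000 * Polynomial.X ^ 7 + 2907714355200000 * Polynomial.X ^ 8 + 5950422384640000 * Polynomial.X ^ 9 : Polynomial k) + Polynomial.X ^ 10 * Q := by
  refine ⟨8858406518784000 + 10214056103116800 * Polynomial.X + 9480638979031040 * Polynomial.X ^ 2 + 7267470379794432 * Polynomial.X ^ 3 + 4682750509559808 * Polynomial.X ^ 4 + 2567804446113792 * Polynomial.X ^ 5 + 1208617329088512 * Polynomial.X ^ 6 + 491060170635264 * Polynomial.X ^ 7 + 172783987530240 * Polynomial.X ^ 8 + 52706696108544 * Polynomial.X ^ 9 + 13925011760064 * Polynomial.X ^ 10 + 3176396072256 * Polynomial.X ^ 11 + 622125403632 * Polynomial.X ^ 12 + 103741922304 * Polynomial.X ^ 13 + 14549549568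 * Polynomial.X ^ 14 + 1686406176 * Polynomial.X ^ 15 + 157491432 * Polynomial.X ^ 16 + 11404064 * Polynomial.X ^ 17 + 601524 * Polynomial.X ^ 18 + 20580 * Polynomial.X ^ 19 + 343 * Polynomial.X ^ 20, ?_⟩
  norm_num
  ring

theorem res3_B4 {k : Type*} [Field k] : ∃ Q : Polynomial k,
    ((3 * (2 + Polynomial.X) ^ 2 + 8) ^ 3 -
      20 * ((2 + Polynomial.X) * ((2 + Polynomial.X) ^ 2 + 6)) ^ 2) ^ 4 *
      ((2 + Polynomial.X) * ((2 + Polynomial.X) ^ 2 + 6)) ^ (10 - 2 * 4) =
    (339738624000000 * Polynomial.X ^ 8 + 1925185536000000 * Polynomial.X ^ 9 : Polynomial k) + Polynomial.X ^ 10 * Q := by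
  refine ⟨5308982231040000 + 9479450001408000 * Polynomial.X + 12297549748633600 * Polynomial.X ^ 2 + 12326789909053440 * Polynomial.X ^ 3 + 9911603167494144 * Polynomial.X ^ 4 + 6550849902215168 * Polynomial.X ^ 5 + 3617688246718464 * Polynomial.X ^ 6 + 1687777161744384 * Polynomial.X ^ 7 + 669871472927744 * Polynomial.X ^ 8 + 227048373891072 * Polynomial.X ^ 9 + 65787766602240 * Polynomial.X ^ 10 + 16269116559872 * Polynomial.X ^ 11 + 3418629340032 * Polynomial.X ^ 12 + 605745192192 * Polynomial.X ^ 13 + 89456262224 * Polynomial.X ^ 14 + 10823628816 * Polynomial.X ^ 15 + 1046230164 * Polynomial.X ^ 16 + 77753984 * Polynomial.X ^ 17 + 4173624 * Polynomial.X ^ 18 + 144060 * Polynomial.X ^ 19 + 2401 * Polynomial.X ^ 20, ?_⟩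
  norm_num
  ring

theorem res3_lin {k : Type*} [Field k] [CharZero k] (f0 f1 f2 f3 f4 r0 r1 r2 r3 r4 : k)
    (h0 : f0 * 512000000000 - r0 * 10240000000000 = 0)
    (h1 : f0 * 3840000000000 + f1 * 512000000000 - r0 * 92160000000000 = 0)
    (h2 : f0 * 13992960000000 + f1 * 3840000000000 + f2 * 512000000000 - r0 * 403968000000000 - r1 * 24576000000000 = 0)
    (h3 : f0 * 33011200000000 + f1 * 13992960000000 + f2 * 3840000000000 + f3 * 512000000000 - r0 * 1149747200000000 - r1 * 200704000000000 = 0)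
    (h4 : f0 * 56664883200000 + f1 * 33011200000000 + f2 * 13992960000000 + f3 * 3840000000000 + f4 * 512000000000 - r0 * 2389616640000000 - r1 * 797552640000000 - r2 * 58982400000000 = 0)
    (h5 : f0 * 75393454080000 + f1 * 56664883200000 + f2 * 33011200000000 + f3 * 13992960000000 + f4 * 3840000000000 - r0 * 3866639155200000 - r1 * 2055671808000000 - r2 * 432537600000000 = 0)
    (h6 : f0 * 80863319040000 + f1 * 75393454080000 + f2 * 56664883200000 + f3 * 33011200000000 + f4 * 13992960000000 - r0 * 5070365798400000 - r1 * 3864321843200000 - r2 * 1542356992000000 - r3 * 141557760000000 = 0)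
    (h7 : f0 * 71774409830400 + f1 * 80863319040000 + f2 * 75393454080000 + f3 * 56664883200000 + f4 * 33011200000000 - r0 * 5537099243520000 - r1 * 5646966128640000 - r2 * 3563923046400000 - r3 * 920125440000000 = 0)
    (h8 : f0 * 53699440665600 + f1 * 71774409830400 + f2 * 80863319040000 + f3 * 75393454080000 + f4 * 56664883200000 - r0 * 5134875406848000 - r1 * 6675212759040000 - r2 * 5998460313600000 - r3 * 2907714355200000 - r4 * 339738624000000 = 0)
    (h9 : f0 * 34313690521088 + f1 * 53699440665600 + f2 * 71774409830400 + f3 * 80863319040000 + f4 * 75393454080000 - r0 * 4102433526681600 - r1 * 6556979218841600 - r2 * 7834964074496000 - r3 * 5950422384640000 - r4 * 1925185536000000 = 0)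
    : f0 = 0 ∧ f1 = 0 ∧ f2 = 0 ∧ f3 = 0 ∧ f4 = 0 := by
  refine ⟨?_, ?_, ?_, ?_, ?_⟩
  · linear_combination (15839719242167/41489280000000000000) * h0 + (398383425142723/37340352000000000000) * h1 + (-9621188440433/414892800000000000) * h2 + (461376086099/13829760000000000) * h3 + (-1391131811057/37340352000000000) * h4 + (41307803863/1244678400000000) * h5 + (-962999581/41489280000000) * h6 + (90472301/7468070400000) * h7 + (-21947/5186160000) * h8 + (1291/1728720000) * h9
  · linear_combination (15839233039667/27659520000000000000) * h0 + (398383473762973/24893568000000000000) * h1 + (-9621188440433/276595200000000000) * h2 + (461376086099/9219840000000000) * h3 + (-1391131811057/24893568000000000) * h4 + (41307803863/829785600000000) * h5 + (-962999581/27659520000000) * h6 + (90472301/4978713600000) * h7 + (-21947/3457440000) * h8 + (1291/1152480000) * h9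
  · linear_combination (397368301826761/1382976000000000000000) * h0 + (7912887685927109/1244678400000000000000) * h1 + (-192093650674039/13829760000000000000) * h2 + (9226141729267/460992000000000000) * h3 + (-27838090868881/1244678400000000000) * h4 + (826919658479/41489280000000000) * h5 + (-19281693173/1382976000000000) * h6 + (1811677933/248935680000000) * h7 + (-439501/172872000000) * h8 + (25853/57624000000) * h9
  · linear_combination (24199403376683/307328000000000000000) * h0 + (301756422961177/276595200000000000000) * h1 + (-22302867584651/9219840000000000000) * h2 + (1075931471053/307328000000000000) * h3 + (-1084280986043/276595200000000000) * h4 + (32241415037/9219840000000000) * h5 + (-752214719/307328000000000) * h6 + (70697999/55319040000000) * h7 + (-17153/38416000000) * h8 + (3027/38416000000) * h9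
  · linear_combination (8058528899/548800000000000000) * h0 + (-270137540429/7902720000000000000) * h1 + (2398665817/43904000000000000) * h2 + (-611760141/8780800000000000) * h3 + (144514009/1975680000000000) * h4 + (-16576199/263424000000000) * h5 + (189379/4390400000000) * h6 + (-11/493920000) * h7 + (17/2195200000) * h8 + (-3/2195200000) * h9

theorem res3 {k : Type*} [Field k] [CharZero k] (F : Polynomial k) (hF : F.natDegree ≤ 4)
    (ρ : Fin 5 → k)
    (h : Polynomial.X ^ 10 ∣
      F * (3 * (2 + Polynomial.X) ^ 2 + 8) ^ 2 *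
          ((2 + Polynomial.X) * ((2 + Polynomial.X) ^ 2 + 6)) ^ 7 -
        ∑ j : Fin 5, Polynomial.C (ρ j) *
          ((3 * (2 + Polynomial.X) ^ 2 + 8) ^ 3 -
            20 * ((2 + Polynomial.X) * ((2 + Polynomial.X) ^ 2 + 6)) ^ 2) ^ (j : ℕ) *
          ((2 + Polynomial.X) * ((2 + Polynomial.X) ^ 2 + 6)) ^ (10 - 2 * (j : ℕ))) :
    F = 0 := by
  obtain ⟨QA, hA⟩ := res3_A (k := k)
  obtain ⟨Q0, hB0⟩ := res3_B0 (k := k)
  obtain ⟨Q1, hB1⟩ := res3_B1 (k := k)
  obtain ⟨Q2, hB2⟩ := res3_B2 (k := k)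
  obtain ⟨Q3, hB3⟩ := res3_B3 (k := k)
  obtain ⟨Q4, hB4⟩ := res3_B4 (k := k)
  rw [Fin.sum_univ_five] at h
  simp only [Fin.isValue, Fin.val_zero, Fin.val_one, Fin.val_two] at h
  change Polynomial.X ^ 10 ∣
      F * (3 * (2 + Polynomial.X) ^ 2 + 8) ^ 2 *
          ((2 + Polynomial.X) * ((2 + Polynomial.X) ^ 2 + 6)) ^ 7 -
        (Polynomial.C (ρ 0) *
          ((3 * (2 + Polynomial.X) ^ 2 + 8) ^ 3 -
            20 * ((2 + Polynomial.X) * ((2 + Polynomial.X) ^ 2 + 6)) ^ 2) ^ 0 *
          ((2 + Polynomial.X) * ((2 + Polynomial.X) ^ 2 + 6)) ^ (10 - 2 * 0) +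
        Polynomial.C (ρ 1) *
          ((3 * (2 + Polynomial.X) ^ 2 + 8) ^ 3 -
            20 * ((2 + Polynomial.X) * ((2 + Polynomial.X) ^ 2 + 6)) ^ 2) ^ 1 *
          ((2 + Polynomial.X) * ((2 + Polynomial.X) ^ 2 + 6)) ^ (10 - 2 * 1) +
        Polynomial.C (ρ 2) *
          ((3 * (2 + Polynomial.X) ^ 2 + 8) ^ 3 -
            20 * ((2 + Polynomial.X) * ((2 + Polynomial.X) ^ 2 + 6)) ^ 2) ^ 2 *
          ((2 + Polynomial.X) * ((2 + Polynomial.X) ^ 2 + 6)) ^ (10 - 2 * 2) +
        Polynomial.C (ρ 3) *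
          ((3 * (2 + Polynomial.X) ^ 2 + 8) ^ 3 -
            20 * ((2 + Polynomial.X) * ((2 + Polynomial.X) ^ 2 + 6)) ^ 2) ^ 3 *
          ((2 + Polynomial.X) * ((2 + Polynomial.X) ^ 2 + 6)) ^ (10 - 2 * 3) +
        Polynomial.C (ρ 4) *
          ((3 * (2 + Polynomial.X) ^ 2 + 8) ^ 3 -
            20 * ((2 + Polynomial.X) * ((2 + Polynomial.X) ^ 2 + 6)) ^ 2) ^ 4 *
          ((2 + Polynomial.X) * ((2 + Polynomial.X) ^ 2 + 6)) ^ (10 - 2 * 4)) at h
  rw [mul_assoc F, hA, mul_assoc (Polynomial.C (ρ 0)), hB0, mul_assoc (Polynomial.C (ρ 1)), hB1,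
    mul_assoc (Polynomial.C (ρ 2)), hB2, mul_assoc (Polynomial.C (ρ 3)), hB3,
    mul_assoc (Polynomial.C (ρ 4)), hB4] at h
  have hFs : F = Polynomial.C (F.coeff 0) + Polynomial.C (F.coeff 1) * Polynomial.X +
      Polynomial.C (F.coeff 2) * Polynomial.X ^ 2 + Polynomial.C (F.coeff 3) * Polynomial.X ^ 3 +
      Polynomial.C (F.coeff 4) * Polynomial.X ^ 4 := by
    conv_lhs => rw [Polynomial.as_sum_range' F 5 (by omega)]
    simp only [Finset.sum_range_succ, Finset.sum_range_zero, zero_add,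
      ← Polynomial.C_mul_X_pow_eq_monomial, pow_zero, mul_one, pow_one]
  set f0 := F.coeff 0
  set f1 := F.coeff 1
  set f2 := F.coeff 2
  set f3 := F.coeff 3
  set f4 := F.coeff 4
  have key : Polynomial.X ^ 10 ∣ (Polynomial.C (f0 * 512000000000 - ρ 0 * 10240000000000) * Polynomial.X ^ 0 + Polynomial.C (f0 * 3840000000000 + f1 * 512000000000 - ρ 0 * 92160000000000) * Polynomial.X ^ 1 + Polynomial.C (f0 * 13992960000000 + f1 * 3840000000000 + f2 * 512000000000 - ρ 0 * 403968000000000 - ρ 1 * 24576000000000) * Polynomial.X ^ 2 + Polynomial.C (f0 * 33011200000000 + f1 * 13992960000000 + f2 * 3840000000000 + f3 * 512000000000 - ρ 0 * 1149747200000000 - ρ 1 * 200704000000000) * Polynomial.X ^ 3 + Polynomial.C (f0 * 56664883200000 + f1 * 33011200000000 + f2 * 13992960000000 + f3 * 3840000000000 + f4 * 512000000000 - ρ 0 * 2389616640000000 - ρ 1 * 797552640000000 - ρ 2 * 58982400000000) * Polynomial.X ^ 4 + Polynomial.C (f0 * 75393454080000 + f1 * 56664883200000 + f2 * 33011200000000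 + f3 * 13992960000000 + f4 * 3840000000000 - ρ 0 * 3866639155200000 - ρ 1 * 2055671808000000 - ρ 2 * 432537600000000) * Polynomial.X ^ 5 + Polynomial.C (f0 * 80863319040000 + f1 * 75393454080000 + f2 * 56664883200000 + f3 * 33011200000000 + f4 * 13992960000000 - ρ 0 * 5070365798400000 - ρ 1 * 3864321843200000 - ρ 2 * 1542356992000000 - ρ 3 * 141557760000000) * Polynomial.X ^ 6 + Polynomial.C (f0 * 71774409830400 + f1 * 80863319040000 + f2 * 75393454080000 + f3 * 56664883200000 + f4 * 33011200000000 - ρ 0 * 5537099243520000 - ρ 1 * 5646966128640000 - ρ 2 * 3563923046400000 - ρ 3 * 920125440000000) * Polynomial.X ^ 7 + Polynomial.C (f0 * 53699440665600 + f1 * 71774409830400 + f2 * 80863319040000 + f3 * 75393454080000 + f4 * 56664883200000 - ρ 0 * 5134875406848000 - ρ 1 * 6675212759040000 - ρ 2 * 5998460313600000 - ρ 3 * 2907714355200000 - ρ 4 * 339738624000000) * Polynomial.X ^ 8 + Polynomial.C (f0 * 34313690521088 + f1 * 53699440665600 + f2 * 71774409830400 + f3 * 80863319040000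 + f4 * 75393454080000 - ρ 0 * 4102433526681600 - ρ 1 * 6556979218841600 - ρ 2 * 7834964074496000 - ρ 3 * 5950422384640000 - ρ 4 * 1925185536000000) * Polynomial.X ^ 9 : Polynomial k) := by
    obtain ⟨w, hw⟩ := h
    refine ⟨w - F * QA + Polynomial.C (ρ 0) * Q0 + Polynomial.C (ρ 1) * Q1 +
      Polynomial.C (ρ 2) * Q2 + Polynomial.C (ρ 3) * Q3 + Polynomial.C (ρ 4) * Q4
      - ((Polynomial.C f1 * 34313690521088 + Polynomial.C f2 * 53699440665600 + Polynomial.C f3 * 71774409830400 + Polynomial.C f4 * 80863319040000) * Polynomial.X ^ 0 + (Polynomial.C f2 * 34313690521088 + Polynomial.C f3 * 53699440665600 + Polynomial.C f4 * 71774409830400) * Polynomial.X ^ 1 + (Polynomial.C f3 * 34313690521088 + Polynomial.C f4 * 53699440665600) * Polynomial.X ^ 2 + (Polynomial.C f4 * 34313690521088) * Polynomial.X ^ 3), ?_⟩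
    simp only [map_add, map_sub, map_mul, map_ofNat]
    linear_combination hw - (512000000000 + 3840000000000 * Polynomial.X + 13992960000000 * Polynomial.X ^ 2 + 33011200000000 * Polynomial.X ^ 3 + 56664883200000 * Polynomial.X ^ 4 + 75393454080000 * Polynomial.X ^ 5 + 80863319040000 * Polynomial.X ^ 6 + 71774409830400 * Polynomial.X ^ 7 + 53699440665600 * Polynomial.X ^ 8 + 34313690521088 * Polynomial.X ^ 9) * hFs
  rw [Polynomial.X_pow_dvd_iff] at key
  have e0 := key 0 (by norm_num)
  have e1 := key 1 (by norm_num)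
  have e2 := key 2 (by norm_num)
  have e3 := key 3 (by norm_num)
  have e4 := key 4 (by norm_num)
  have e5 := key 5 (by norm_num)
  have e6 := key 6 (by norm_num)
  have e7 := key 7 (by norm_num)
  have e8 := key 8 (by norm_num)
  have e9 := key 9 (by norm_num)
  simp only [Polynomial.coeff_add, Polynomial.coeff_C_mul, Polynomial.coeff_X_pow] at e0 e1 e2 e3 e4 e5 e6 e7 e8 e9
  norm_num at e0 e1 e2 e3 e4 e5 e6 e7 e8 e9
  obtain ⟨z0, z1, z2, z3, z4⟩ := res3_lin f0 f1 f2 f3 f4 (ρ 0) (ρ 1) (ρ 2) (ρ 3) (ρ 4)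
    (by linear_combination e0)
    (by linear_combination e1)
    (by linear_combination e2)
    (by linear_combination e3)
    (by linear_combination e4)
    (by linear_combination e5)
    (by linear_combination e6)
    (by linear_combination e7)
    (by linear_combination e8)
    (by linear_combination e9)
  rw [hFs, z0, z1, z2, z3, z4]
  simp

end Pool.Agent.CF
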