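import Pool.Agent.Lib_helper78.CFF.RES1
import Pool.Agent.Lib_helper78.CFF.RES3

/-! author of this file: helper6 -/

/-!
# CF block TR: contradiction from the small odd coefficients
-/

open MvPolynomial IsLocalRing

namespace Pool.Agent.CF

section
variable {V : Type*} [CommRing V]

/-- one-variable filtration with an extra ideal -/
def trF (γ κ : V) (n : ℕ) (p : Polynomial V) : Prop :=
  ∀ i, p.coeff i ∈ Ideal.span {γ, κ ^ (n - i)}

variable {γ κ : V} {n l : ℕ} {p p' : Polynomial V}

theorem tr_span_mono (γ κ : V) {a b : ℕ} (h : b ≤ a) :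
    Ideal.span {γ, κ ^ a} ≤ Ideal.span {γ, κ ^ b} := by
  rw [Ideal.span_le]
  rintro x hx
  rcases hx with rfl | hx
  · exact Ideal.subset_span (by simp)
  · rw [Set.mem_singleton_iff] at hx
    subst hx
    obtain ⟨c, hc⟩ := pow_dvd_pow κ h
    rw [hc]
    exact Ideal.mul_mem_right _ _ (Ideal.subset_span (by simp))

theorem trF.mono (h : trF γ κ n p) (hl : l ≤ n) : trF γ κ l p := fun i =>
  tr_span_mono γ κ (Nat.sub_le_sub_right hl i) (h i)

theorem trF_zero (γ κ : V) (p : Polynomial V) : trF γ κ 0 p := fun i => by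
  rw [Nat.zero_sub, pow_zero]
  have : (Ideal.span {γ, (1 : V)}) = ⊤ :=
    Ideal.eq_top_of_isUnit_mem _ (Ideal.subset_span (by simp)) isUnit_one
  rw [this]
  trivial

theorem trF.add (h : trF γ κ n p) (h' : trF γ κ n p') : trF γ κ n (p + p') := fun i => by
  rw [Polynomial.coeff_add]; exact Ideal.add_mem _ (h i) (h' i)

theorem trF.sub (h : trF γ κ n p) (h' : trF γ κ n p') : trF γ κ n (p - p') := fun i => by
  rw [Polynomial.coeff_sub]; exact Ideal.sub_mem _ (h i) (h' i)

theorem trF.sum {ι : Type*} (s : Finset ι) (f : ι → Polynomial V)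
    (h : ∀ i ∈ s, trF γ κ n (f i)) : trF γ κ n (∑ i ∈ s, f i) := fun i => by
  rw [Polynomial.finsetSum_coeff]
  exact Ideal.sum_mem _ fun j hj => h j hj i

theorem tr_iff : trF 0 κ n p ↔ ∀ i, κ ^ (n - i) ∣ p.coeff i := by
  refine forall_congr' fun i => ?_
  have : (Ideal.span {(0 : V), κ ^ (n - i)}) = Ideal.span {κ ^ (n - i)} := by
    rw [Ideal.span_insert]
    simp
  rw [this, Ideal.mem_span_singleton]

theorem trF.of_zero (γ : V) (h : trF 0 κ n p) : trF γ κ n p := fun i => by
  obtain ⟨c, hc⟩ := tr_iff.1 h i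
  rw [hc]
  exact Ideal.mul_mem_right _ _ (Ideal.subset_span (by simp))

theorem trF.mul (h : trF 0 κ l p) (h' : trF γ κ n p') : trF γ κ (l + n) (p * p') := fun i => by
  rw [Polynomial.coeff_mul]
  refine Ideal.sum_mem _ fun x hx => ?_
  have hx' : x.1 + x.2 = i := Finset.HasAntidiagonal.mem_antidiagonal.1 hx
  obtain ⟨c, hc⟩ := tr_iff.1 h x.1
  obtain ⟨a, b, hab⟩ := Ideal.mem_span_pair.1 (h' x.2)
  rw [hc, ← hab]
  have e1 : κ ^ (l - x.1) * c * (a * γ + b * κ ^ (n - x.2)) =
      (κ ^ (l - x.1) * c * a) * γ + (c * b) * (κ ^ (l - x.1 + (n - x.2))) := by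
    rw [pow_add]; ring
  rw [e1]
  refine Ideal.add_mem _ (Ideal.mul_mem_left _ _ (Ideal.subset_span (by simp)))
    (Ideal.mul_mem_left _ _ ?_)
  exact tr_span_mono γ κ (show l + n - i ≤ l - x.1 + (n - x.2) by omega)
    (Ideal.subset_span (by simp))

theorem trF_C_mul (γ κ : V) (n : ℕ) (p : Polynomial V) : trF γ κ n (Polynomial.C γ * p) :=
  fun i => by
  rw [Polynomial.coeff_C_mul]
  exact Ideal.mul_mem_right _ _ (Ideal.subset_span (by simp))

theorem trF_Xpow (κ : V) (k : ℕ) : trF 0 κ k (Polynomial.X ^ k : Polynomial V) := by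
  rw [tr_iff]
  intro i
  rw [Polynomial.coeff_X_pow]
  split_ifs with h
  · rw [h, Nat.sub_self, pow_zero]
  · exact dvd_zero _

theorem trF_C (h : trF γ κ n p) (k : ℕ) : trF γ κ (n - k) (Polynomial.C (p.coeff k)) := by
  intro i
  rw [Polynomial.coeff_C]
  split_ifs with h0
  · subst h0; exact h k
  · exact Ideal.zero_mem _

theorem tr_unit {m' : Polynomial V} (hm : trF 0 κ 1 m') (h : trF γ κ n ((1 + m') * p)) :
    trF γ κ n p := by
  have key : ∀ l ≤ n, trF γ κ l p := by
    intro l
    induction l with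
    | zero => intro _; exact trF_zero _ _ _
    | succ l ih =>
      intro hl
      have e : p = (1 + m') * p - m' * p := by ring
      rw [e]
      refine (h.mono hl).sub ?_
      have := hm.mul (ih (by omega))
      rwa [add_comm] at this
  exact key n le_rfl

theorem tr_pow_sub {q : Polynomial V} (hq : trF 0 κ 2 q) (k : ℕ) :
    trF 0 κ (k + 1) ((Polynomial.X + q) ^ k - Polynomial.X ^ k) := by
  have hw : trF 0 κ 1 (Polynomial.X + q) := by
    have := (trF_Xpow κ 1).add (hq.mono (by omega))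
    rwa [pow_one] at this
  induction k with
  | zero => simp only [pow_zero, sub_self]; rw [tr_iff]; intro i; simp
  | succ k ih =>
    have e : (Polynomial.X + q) ^ (k + 1) - Polynomial.X ^ (k + 1) =
        (Polynomial.X + q) * ((Polynomial.X + q) ^ k - Polynomial.X ^ k) +
        q * Polynomial.X ^ k := by ring
    rw [e]
    exact ((hw.mul ih).mono (by omega)).add ((hq.mul (trF_Xpow κ k)).mono (by omega))

theorem tr_comp_sub {q : Polynomial V} (hq : trF 0 κ 2 q) (h : trF γ κ l p) :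
    trF γ κ (l + 1) (p.comp (Polynomial.X + q) - p) := by
  have e : p.comp (Polynomial.X + q) - p =
      ∑ k ∈ Finset.range (p.natDegree + 1),
        ((Polynomial.X + q) ^ k - Polynomial.X ^ k) * Polynomial.C (p.coeff k) := by
    rw [Polynomial.comp, Polynomial.eval₂_eq_sum_range]
    conv_lhs => rw [Polynomial.as_sum_range_C_mul_X_pow p]
    simp only [sub_mul, Finset.sum_sub_distrib]
    rw [← Polynomial.as_sum_range_C_mul_X_pow p]
    congr 1
    · exact Finset.sum_congr rfl fun k _ => mul_comm _ _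
    · conv_lhs => rw [Polynomial.as_sum_range_C_mul_X_pow p]
      exact Finset.sum_congr rfl fun k _ => mul_comm _ _
  rw [e]
  refine trF.sum _ _ fun k _ => ?_
  exact ((tr_pow_sub hq k).mul (trF_C h k)).mono (by omega)

theorem tr_comp_inv {q : Polynomial V} (hq : trF 0 κ 2 q)
    (h : trF γ κ n (p.comp (Polynomial.X + q))) : trF γ κ n p := by
  have key : ∀ l ≤ n, trF γ κ l p := by
    intro l
    induction l with
    | zero => intro _; exact trF_zero _ _ _
    | succ l ih =>
      intro hl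
      have e : p = p.comp (Polynomial.X + q) - (p.comp (Polynomial.X + q) - p) := by ring
      rw [e]
      exact (h.mono hl).sub (tr_comp_sub hq (ih (by omega)))
  exact key n le_rfl

theorem tr_comp {q : Polynomial V} (hq : trF 0 κ 2 q) (h : trF γ κ n p) :
    trF γ κ n (p.comp (Polynomial.X + q)) := by
  have := ((tr_comp_sub hq h).mono (show n ≤ n + 1 by omega)).add h
  rwa [sub_add_cancel] at this

theorem tr_r0 {κ : V} {n : ℕ} {P : Po V} (h : Fil κ n P) : trF 0 κ n (r0 P) := by
  rw [tr_iff]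
  intro i
  rw [res2_r0_coeff]
  have := h (Finsupp.single 1 i)
  simpa using this

theorem tr_r0_aeval (u : Po V) (Γ : Polynomial V) :
    r0 (Polynomial.aeval u Γ) = Γ.comp (r0 u) := by
  change (MvPolynomial.aeval ![0, Polynomial.X] : Po V →ₐ[V] Polynomial V)
    (Polynomial.aeval u Γ) = _
  rw [← Polynomial.aeval_algHom_apply]
  rfl

theorem tr_map_r0 {S : Type*} [CommRing S] (φ : V →+* S) (P : Po V) :
    (r0 P).map φ = r0 (map φ P) := by
  ext i
  rw [Polynomial.coeff_map, res2_r0_coeff, res2_r0_coeff, coeff_map]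

theorem tr_map_aeval {S : Type*} [CommRing S] (φ : V →+* S) (w : Po V) (Γ : Polynomial V) :
    map φ (Polynomial.aeval w Γ) = Polynomial.aeval (map φ w) (Γ.map φ) := by
  induction Γ using Polynomial.induction_on' with
  | add p q hp hq => rw [map_add, map_add, hp, hq, Polynomial.map_add, map_add]
  | monomial n a =>
    rw [Polynomial.aeval_monomial, MvPolynomial.algebraMap_eq, Polynomial.map_monomial,
      Polynomial.aeval_monomial, MvPolynomial.algebraMap_eq, map_mul, map_pow, map_C]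

theorem tr_map_nfA {S : Type*} [CommRing S] (φ : V →+* S) (e : V) (s q μ : Po V)
    (α : Polynomial V) :
    map φ (nfA e s q μ α) = nfA (φ e) (map φ s) (map φ q) (map φ μ) (α.map φ) := by
  simp only [nfA, map_mul, map_add, map_sub, map_one, map_X, map_C, tr_map_aeval, ← pderiv_map]

theorem tr_map_nfB {S : Type*} [CommRing S] (φ : V →+* S) (e : V) (s q μ : Po V)
    (α : Polynomial V) :
    map φ (nfB e s q μ α) = nfB (φ e) (map φ s) (map φ q) (map φ μ) (α.map φ) := by
  simp only [nfB, map_mul, map_add, map_sub, map_one, map_X, map_C, tr_map_aeval, ← pderiv_map]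

end

section
variable {V : Type} [CommRing V]

theorem tr_wt [IsLocalRing V] {κ : V} (hκ : κ ∈ maximalIdeal V) {n : ℕ} {P : Po V}
    (h : Fil κ n P) : Wt n (map (residue V) P) := by
  intro m hm
  obtain ⟨c, hc⟩ := h m
  rw [coeff_map, hc, map_mul, map_pow]
  have : residue V κ = 0 := (residue_eq_zero_iff κ).2 hκ
  rw [this, zero_pow (by omega), zero_mul]

theorem tr_min [IsDomain V] [ValuationRing V] (g : ℕ → V) (n : ℕ) :
    ∃ i0 ≤ n, ∀ i ≤ n, g i0 ∣ g i := by
  induction n with
  | zero => exact ⟨0, le_rfl, fun i hi => by rw [Nat.le_zero.1 hi]⟩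
  | succ n ih =>
    obtain ⟨i0, h0, h⟩ := ih
    rcases ValuationRing.dvd_total (g i0) (g (n + 1)) with h1 | h1
    · refine ⟨i0, by omega, fun i hi => ?_⟩
      rcases Nat.lt_or_ge i (n + 1) with h2 | h2
      · exact h i (by omega)
      · rw [show i = n + 1 by omega]; exact h1
    · refine ⟨n + 1, le_rfl, fun i hi => ?_⟩
      rcases Nat.lt_or_ge i (n + 1) with h2 | h2
      · exact h1.trans (h i (by omega))
      · rw [show i = n + 1 by omega]

theorem thmTR [IsDomain V] [ValuationRing V] [Algebra ℚ V]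
    (κ f2 : V) (hκ0 : κ ≠ 0) (hκm : κ ∈ maximalIdeal V)
    (a b c f s q μ : Po V) (α : Polynomial V) (ha : a = X 0 * c - f)
    (hf : ∀ m : Fin 2 →₀ ℕ, m 0 ≠ 0 → coeff m f = 0) (hf4 : f.totalDegree ≤ 4)
    (hfm : CI (maximalIdeal V) f) (hf0 : ∃ v : V, IsUnit v ∧ coeff 0 f = κ ^ 2 * v)
    (hc : map (residue V) c = C (-1 / 10) * c0T _)
    (hb : map (residue V) b = C (-1 / 10) * P0T _) (e : V)
    (he : residue V e = -4 / 5)
    (hs : Fil κ 1 s) (hq : Fil κ 2 q) (hμ : Fil κ 1 μ)
    (hα : Fil κ 3 (Polynomial.aeval (X 1 : Po V) α - C (κ ^ 2) - C f2 * X 1 ^ 2))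
    (h1 : Fil κ 12 (a - nfA e s q μ α)) (h2 : Fil κ 11 (b - nfB e s q μ α))
    (hodd : ∀ k : ℕ, Odd k → k ≤ 11 → κ ^ (12 - k) ∣ α.coeff k) : False := by
  have hcz : CharZero (ResidueField V) := algebraRat.charZero _
  -- restriction to Z = 0
  set w0 : Polynomial V := Polynomial.X + r0 q with hw0
  have hq0 : trF 0 κ 2 (r0 q) := tr_r0 hq
  have hs0 : trF 0 κ 1 (r0 s) := tr_r0 hs
  have hμ0 : trF 0 κ 1 (r0 μ) := tr_r0 hμ
  set m0 : Polynomial V := (1 + r0 μ) * (1 + r0 s) with hm0
  have hm0' : m0 = 1 + (r0 μ + r0 s + r0 μ * r0 s) := by rw [hm0]; ring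
  have hm1 : trF 0 κ 1 (r0 μ + r0 s + r0 μ * r0 s) :=
    (hμ0.add hs0).add ((hμ0.mul hs0).mono (by omega))
  have hX00 : pderiv 0 (X 0 : Po V) = 1 := pderiv_X_self 0
  have hfa : trF 0 κ 12 (m0 * α.comp w0 - r0 f) := by
    have h := tr_r0 h1
    have e1 : r0 (a - nfA e s q μ α) = m0 * α.comp w0 - r0 f := by
      rw [ha]
      have e2 : pderiv 0 (X 0 * (1 + s)) = 1 + s + X 0 * pderiv 0 s := by
        simp only [map_add, Derivation.leibniz, smul_eq_mul, hX00, pderiv_one]
        ring
      simp only [nfA, e2, res2_r0_sub, res2_r0_mul, res2_r0_add, res2_r0_X0, res2_r0_X1,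
        res2_r0_one, res2_r0_C, tr_r0_aeval]
      rw [hm0, hw0]
      ring
    rwa [e1] at h
  -- the content of f
  obtain ⟨i0, hi0, hmin⟩ := tr_min (fun i => (r0 f).coeff i) 4
  set γ : V := (r0 f).coeff i0 with hγ
  have hf0c : ∀ i, 4 < i → (r0 f).coeff i = 0 := by
    intro i hi
    rw [res2_r0_coeff]
    apply coeff_eq_zero_of_totalDegree_lt
    refine lt_of_le_of_lt hf4 ?_
    rw [Finsupp.support_single _ (by omega)]
    simpa using hi
  have hdvd : Polynomial.C γ ∣ r0 f := by
    rw [Polynomial.C_dvd_iff_dvd_coeff]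
    intro i
    rcases Nat.lt_or_ge 4 i with h | h
    · rw [hf0c i h]; exact dvd_zero _
    · exact hmin i h
  obtain ⟨F, hF⟩ := hdvd
  obtain ⟨v, hv, hfv⟩ := hf0
  have hγκ : γ ∣ κ ^ 2 := by
    have h := hmin 0 (by omega)
    rw [res2_r0_coeff, Finsupp.single_zero, hfv] at h
    exact hv.dvd_mul_right.1 h
  have hγ0 : γ ≠ 0 := by
    intro h
    rw [h] at hγκ
    exact hκ0 (pow_eq_zero_iff (by norm_num) |>.1 (zero_dvd_iff.1 hγκ))
  have hγm : γ ∈ maximalIdeal V := by
    rw [hγ, res2_r0_coeff]; exact hfm _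
  obtain ⟨t, ht⟩ := hγκ
  have hF0 : F.coeff i0 = 1 := by
    have h : (r0 f).coeff i0 = γ * F.coeff i0 := by rw [hF, Polynomial.coeff_C_mul]
    rw [← hγ] at h
    exact mul_left_cancel₀ hγ0 (by rw [← h, mul_one])
  have hFd : F.natDegree ≤ 4 := by
    rw [Polynomial.natDegree_le_iff_coeff_eq_zero]
    intro i hi
    have h : (r0 f).coeff i = γ * F.coeff i := by rw [hF, Polynomial.coeff_C_mul]
    rw [hf0c i hi] at h
    exact (mul_eq_zero.1 h.symm).resolve_left hγ0
  -- α modulo γ
  have hα12 : trF γ κ 12 α := by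
    apply tr_comp_inv hq0
    apply tr_unit hm1
    rw [← hm0', ← hw0]
    have h := (hfa.of_zero γ).add (trF_C_mul γ κ 12 F)
    rw [← hF, sub_add_cancel] at h
    exact h
  choose y z hyz using fun i => Ideal.mem_span_pair.1 (hα12 i)
  set α' : Polynomial V := ∑ i ∈ Finset.range 12, Polynomial.C (y i) * Polynomial.X ^ i with hα'
  have hα'c : ∀ i < 12, α'.coeff i = y i := by
    intro i hi
    rw [hα', Polynomial.finsetSum_coeff]
    simp only [Polynomial.coeff_C_mul, Polynomial.coeff_X_pow, mul_ite, mul_one, mul_zero]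
    rw [Finset.sum_ite_eq, if_pos (Finset.mem_range.2 hi)]
  set α'' : Polynomial V := α - Polynomial.C γ * α' with hα''
  have hα''f : trF 0 κ 12 α'' := by
    rw [tr_iff]
    intro i
    rcases Nat.lt_or_ge i 12 with h | h
    · rw [hα'', Polynomial.coeff_sub, Polynomial.coeff_C_mul, hα'c i h, ← hyz i]
      exact ⟨z i, by ring⟩
    · rw [Nat.sub_eq_zero_of_le h, pow_zero]; exact one_dvd _
  have key : ∀ x : V, κ ^ 3 ∣ γ * x → residue V x = 0 := by
    intro x hx
    obtain ⟨d, hd⟩ := hx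
    have h : γ * x = γ * (t * κ * d) := by
      rw [hd, pow_succ, ht]; ring
    rw [mul_left_cancel₀ hγ0 h, residue_eq_zero_iff]
    exact Ideal.mul_mem_right _ _ (Ideal.mul_mem_left _ _ hκm)
  have hF12 : trF 0 κ 12 (Polynomial.C γ * (F - m0 * α'.comp w0)) := by
    have h3 := (trF_zero 0 κ m0).mul (tr_comp hq0 hα''f)
    rw [zero_add, ← hw0] at h3
    have e1 : Polynomial.C γ * (F - m0 * α'.comp w0) =
        m0 * α''.comp w0 - (m0 * α.comp w0 - r0 f) := by
      rw [hα'', hF, Polynomial.sub_comp, Polynomial.mul_comp, Polynomial.C_comp]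
      ring
    rw [e1]
    exact h3.sub hfa
  -- residues
  have hαres : ∀ i < 12, residue V (α.coeff i) = 0 := by
    intro i hi
    rw [← hyz i, residue_eq_zero_iff]
    refine Ideal.add_mem _ (Ideal.mul_mem_left _ _ hγm) (Ideal.mul_mem_left _ _ ?_)
    exact Ideal.pow_mem_of_mem _ hκm _ (by omega)
  have hαX : Polynomial.X ^ 12 ∣ α.map (residue V) := by
    rw [Polynomial.X_pow_dvd_iff]
    intro i hi
    rw [Polynomial.coeff_map, hαres i hi]
  obtain ⟨β, hβ⟩ := hαX
  have hsw := tr_wt hκm hs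
  have hqw := tr_wt hκm hq
  have hμw := tr_wt hκm hμ
  have h1w := tr_wt hκm h1
  have h2w := tr_wt hκm h2
  have hfz : map (residue V) f = 0 := by
    ext m
    rw [coeff_map, coeff_zero, residue_eq_zero_iff]
    exact hfm m
  set s' := map (residue V) s with hs'
  set q' := map (residue V) q with hq'
  set μ' := map (residue V) μ with hμ'
  have hw1 : Fil (0 : ResidueField V) 1 (X 1 + q') :=
    fil_X1.add ((res1_wt_iff.1 hqw).mono (by omega))
  have hαw : Fil (0 : ResidueField V) 12 (Polynomial.aeval (X 1 + q') (α.map (residue V))) := by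
    rw [hβ, map_mul, map_pow, Polynomial.aeval_X]
    exact (res1_pow hw1 12).mul_right _
  have k1 : Wt 12 (C (-1 / 10) * (X 0 * c0T (ResidueField V)) - nfA (-4 / 5) s' q' μ' 0) := by
    rw [map_sub, ha, map_sub, map_mul, map_X, hc, hfz, tr_map_nfA, he] at h1w
    have e1 : C (-1 / 10) * (X 0 * c0T (ResidueField V)) - nfA (-4 / 5) s' q' μ' 0 =
        (X 0 * (C (-1 / 10) * c0T (ResidueField V)) - 0 -
          nfA (-4 / 5) s' q' μ' (α.map (residue V))) -
        (1 + μ') * pderiv 0 (X 0 * (1 + s')) *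
          Polynomial.aeval (X 1 + q') (α.map (residue V)) := by
      simp only [nfA, map_zero]
      ring
    rw [e1, res1_wt_iff]
    exact (res1_wt_iff.1 h1w).sub (hαw.mul_left _)
  have k2 : Wt 11 (C (-1 / 10) * P0T (ResidueField V) - nfB (-4 / 5) s' q' μ' 0) := by
    rw [map_sub, hb, tr_map_nfB, he] at h2w
    have e1 : C (-1 / 10) * P0T (ResidueField V) - nfB (-4 / 5) s' q' μ' 0 =
        (C (-1 / 10) * P0T (ResidueField V) - nfB (-4 / 5) s' q' μ' (α.map (residue V))) -
        (1 + μ') * pderiv 1 s' * Polynomial.aeval (X 1 + q') (α.map (residue V)) := by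
      simp only [nfB, map_zero]
      ring
    rw [e1, res1_wt_iff]
    exact (res1_wt_iff.1 h2w).sub ((hαw.mono (by omega)).mul_left _)
  obtain ⟨Γ, hΓ⟩ := res1 s' q' μ' hsw hqw hμw k1 k2
  have k3 : Polynomial.X ^ 10 ∣ F.map (residue V) - (1 + r0 μ') * (1 + r0 s') *
      (α'.map (residue V)).comp (Polynomial.X + r0 q') := by
    have e1 : F.map (residue V) - (1 + r0 μ') * (1 + r0 s') *
        (α'.map (residue V)).comp (Polynomial.X + r0 q') =
        (F - m0 * α'.comp w0).map (residue V) := by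
      rw [Polynomial.map_sub, Polynomial.map_mul, Polynomial.map_comp, hm0, hw0,
        Polynomial.map_mul, Polynomial.map_add, Polynomial.map_add, Polynomial.map_add,
        Polynomial.map_one, Polynomial.map_X, tr_map_r0, tr_map_r0, tr_map_r0]
    rw [e1, Polynomial.X_pow_dvd_iff]
    intro i hi
    rw [Polynomial.coeff_map]
    apply key
    have := tr_iff.1 hF12 i
    rw [Polynomial.coeff_C_mul] at this
    exact (pow_dvd_pow κ (by omega)).trans this
  have k4 : ∀ j, Odd j → j ≤ 9 → (α'.map (residue V)).coeff j = 0 := by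
    intro j hj hj9
    rw [Polynomial.coeff_map]
    apply key
    have a1 := hodd j hj (by omega)
    have a2 := tr_iff.1 hα''f j
    have a3 : γ * α'.coeff j = α.coeff j - α''.coeff j := by
      rw [hα'', Polynomial.coeff_sub, Polynomial.coeff_C_mul]; ring
    rw [a3]
    exact (pow_dvd_pow κ (by omega)).trans (dvd_sub a1 a2)
  obtain ⟨ρ, hρ⟩ := res2 s' q' μ' (α'.map (residue V)) (F.map (residue V)) Γ hsw hqw hμw k2 hΓ
    k3 k4
  have hF' := res3 (F.map (residue V)) (Polynomial.natDegree_map_le.trans hFd) ρ hρ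
  have := congrArg (fun p => Polynomial.coeff p i0) hF'
  simp only [Polynomial.coeff_map, hF0, map_one, Polynomial.coeff_zero] at this
  exact one_ne_zero this

end

end Pool.Agent.CF
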