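import Pool.Agent.Lib_helper78.CFF.NFS
import Pool.Agent.Lib_helper78.CFF.TM2
import Pool.Agent.Lib_helper78.CFF.TM3
import Pool.Agent.Lib_helper78.CFF.TR

/-! author of this file: helper78 -/

open MvPolynomial IsLocalRing

namespace Pool.Agent.CF

lemma tht_eval_cen {R : Type*} [CommRing R] (κ : R) (p : Po R) :
    coeff 0 (cen κ p) = eval ![κ ^ 2, 0] p := by
  have h1 : coeff 0 (cen κ p) = eval 0 (cen κ p) := by
    rw [eval_zero]
    rfl
  rw [h1, cen]
  clear h1
  induction p using MvPolynomial.induction_on with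
  | C a => simp
  | add p q hp hq => simp only [map_add, hp, hq]
  | mul_X p i hp =>
    rw [map_mul, map_mul, map_mul, hp]
    congr 1
    fin_cases i <;> simp

theorem thmTM {V : Type} [CommRing V] [IsDomain V] [ValuationRing V] [Algebra ℚ V]
    {K : Type} [Field K] (φ : V →+* K) (hφ : Function.Injective φ) (κ e f2 : V) (hκ0 : κ ≠ 0)
    (hκm : κ ∈ maximalIdeal V) (hf2 : f2 ∈ maximalIdeal V) (he : IsUnit e)
    (a b s q μ : Po V) (α : Polynomial V) (hs : Fil κ 1 s) (hq : Fil κ 2 q) (hμ : Fil κ 1 μ)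
    (hα : Fil κ 3 (Polynomial.aeval (X 1 : Po V) α - C (κ ^ 2) - C f2 * X 1 ^ 2))
    (h1 : Fil κ 12 (a - nfA e s q μ α)) (h2 : Fil κ 11 (b - nfB e s q μ α))
    (ha0 : eval ![κ ^ 2, 0] a = 0) (hb0 : eval ![κ ^ 2, 0] b = 0)
    (hK : ∃ H : Po K, FI 14 (sh (φ (κ ^ 2)) 0 (map φ a)) (sh (φ (κ ^ 2)) 0 (map φ (X 0 * b))) H)
    (k : ℕ) (hk : Odd k) (hk11 : k ≤ 11) : κ ^ (12 - k) ∣ α.coeff k := by
  obtain ⟨A', B', z, w, m, r1, r2, β, hA', hB', hβα, hβ, hz, hw, hm, hA, hB⟩ :=
    tm2 κ e f2 hκ0 hκm hf2 a b s q μ α hs hq hμ hα h1 h2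
  have hφκ : φ κ ≠ 0 := fun h => hκ0 (hφ (by rw [h, map_zero]))
  have hK' := cen_FI φ κ hφκ 14 a (X 0 * b) A' B' hA' hB' hK
  have hA0 : coeff 0 A' = 0 := by
    have := tht_eval_cen κ a
    rw [ha0, hA', coeff_C_mul] at this
    exact (mul_eq_zero.1 this).resolve_left (pow_ne_zero 2 hκ0)
  have hB0 : coeff 0 B' = 0 := by
    have := tht_eval_cen κ (X 0 * b)
    rw [map_mul, hb0, mul_zero, hB', coeff_C_mul] at this
    exact (mul_eq_zero.1 this).resolve_left (pow_ne_zero 3 hκ0)
  have hβ12 : ∀ k, 12 ≤ k → κ ^ 10 ∣ β.coeff k := by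
    intro k hk
    have h := hβα k
    have h2 : β.coeff k * κ ^ 2 = α.coeff k * κ ^ (k - 2) * κ ^ 2 := by
      rw [h, mul_assoc, ← pow_add]
      congr 2
      omega
    have h3 := mul_right_cancel₀ (pow_ne_zero 2 hκ0) h2
    rw [h3]
    exact dvd_mul_of_dvd_right (pow_dvd_pow κ (by omega)) _
  have h := tm3 φ hφ κ e hκm he A' B' z w m r1 r2 β hβ hβ12 hz hw hm hA hB hA0 hB0 hK' k hk
  have h3 : κ ^ 12 ∣ α.coeff k * κ ^ k := by
    rw [← hβα k, show (12 : ℕ) = 10 + 2 from rfl, pow_add]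
    exact mul_dvd_mul h dvd_rfl
  have h4 : κ ^ (12 - k) * κ ^ k ∣ α.coeff k * κ ^ k := by
    rw [← pow_add, Nat.sub_add_cancel (by omega)]
    exact h3
  exact (mul_dvd_mul_iff_right (pow_ne_zero k hκ0)).1 h4


lemma tht_fin2 (m : Fin 2 →₀ ℕ) : m = Finsupp.single 0 (m 0) + Finsupp.single 1 (m 1) := by
  ext i; fin_cases i <;> simp

lemma tht_eval {R : Type*} [CommRing R] (t : R) (p : Po R) :
    ∃ v, eval ![t, 0] p = coeff 0 p + t * v := by
  induction p using MvPolynomial.induction_on with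
  | C a => exact ⟨0, by simp⟩
  | add p q hp hq =>
    obtain ⟨v, hv⟩ := hp
    obtain ⟨w, hw⟩ := hq
    exact ⟨v + w, by rw [map_add, coeff_add, hv, hw]; ring⟩
  | mul_X p i hp =>
    have h0 : coeff 0 (p * X i) = 0 := by
      rw [← ord_one_iff]
      exact (ord_X i).mul_left p
    rw [h0]
    fin_cases i
    · exact ⟨eval ![t, 0] p, by simp; ring⟩
    · exact ⟨0, by simp⟩

lemma tht_sh_C {R : Type*} [CommRing R] (c d v : R) (p : Po R) :
    sh c d (C v * p) = C v * sh c d p := by
  simp [sh, algebraMap_eq]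

lemma tht_FI {k : Type*} [Field k] (n : ℕ) (v : k) (A B H : Po k) (h : FI n A B H) :
    FI n (C v * A) (C v * B) H := by
  refine ⟨h.1, h.2.1, ?_⟩
  rw [XX_mul_left]
  exact h.2.2.mul_left _

theorem thmT {V : Type} [CommRing V] [IsDomain V] [ValuationRing V] [Algebra ℚ V]
    {K : Type} [Field K] (φ : V →+* K) (hφ : Function.Injective φ) (κ : V) (hκ0 : κ ≠ 0)
    (hκm : κ ∈ maximalIdeal V) (a b c f : Po V) (ha : a = X 0 * c - f)
    (hf : ∀ m : Fin 2 →₀ ℕ, m 0 ≠ 0 → coeff m f = 0) (hf4 : f.totalDegree ≤ 4)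
    (hfm : CI (maximalIdeal V) f) (hf1 : κ ^ 2 ∣ coeff (Finsupp.single 1 1) f)
    (hc : map (residue V) c = c0T _) (hb : map (residue V) b = P0T _)
    (ha0 : eval ![κ ^ 2, 0] a = 0) (hb0 : eval ![κ ^ 2, 0] b = 0)
    (hK : ∃ H : Po K, FI 14 (sh (φ (κ ^ 2)) 0 (map φ a)) (sh (φ (κ ^ 2)) 0 (map φ (X 0 * b))) H) :
    False := by
  have hchar : CharZero (ResidueField V) := by
    have : Algebra ℚ (ResidueField V) := inferInstance
    exact algebraRat.charZero (ResidueField V)
  -- the leading coefficient of c is a unit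
  have hc00 : residue V (coeff 0 c) = -10 := by
    rw [← coeff_map, hc]
    have h1 : coeff 0 (c0T (ResidueField V)) = eval 0 (c0T (ResidueField V)) := by
      rw [eval_zero]; rfl
    rw [h1]
    simp only [c0T, map_sub, map_add, map_mul, map_pow, eval_C, eval_X, map_neg, map_ofNat,
      map_one, Pi.zero_apply]
    norm_num
  have hc00u : IsUnit (coeff 0 c) := by
    rw [← residue_ne_zero_iff_isUnit, hc00]
    norm_num
  obtain ⟨v, hv⟩ := hc00u.exists_left_inv
  have hvres : residue V v = -1 / 10 := by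
    have := congrArg (residue V) hv
    rw [map_mul, hc00, map_one] at this
    linear_combination (-1 / 10) * this
  have hb01 : residue V (coeff (Finsupp.single 1 1) b) = 8 := by
    have h1 := congrArg (coeff 0) (congrArg (pderiv 1) hb)
    rw [coeff_pderiv, coeff_map] at h1
    have h2 : coeff 0 (pderiv 1 (P0T (ResidueField V))) =
        eval 0 (pderiv 1 (P0T (ResidueField V))) := by
      rw [eval_zero]; rfl
    rw [h2] at h1
    have hn2 : pderiv (1 : Fin 2) (2 : Po (ResidueField V)) = 0 := by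
      rw [show (2 : Po (ResidueField V)) = C 2 from (map_ofNat C 2).symm, pderiv_C]
    have hn8 : pderiv (1 : Fin 2) (8 : Po (ResidueField V)) = 0 := by
      rw [show (8 : Po (ResidueField V)) = C 8 from (map_ofNat C 8).symm, pderiv_C]
    have hcc : constantCoeff (2 : Po (ResidueField V)) = 2 := map_ofNat constantCoeff 2
    simp [P0T, Derivation.leibniz, Derivation.leibniz_pow, pderiv_X, hn2, hn8, hcc] at h1
    rw [h1]
    norm_num
  set e : V := v * coeff (Finsupp.single 1 1) b with he_def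
  have he_res : residue V e = -4 / 5 := by
    rw [he_def, map_mul, hvres, hb01]; norm_num
  have he : IsUnit e := by
    rw [← residue_ne_zero_iff_isUnit, he_res]; norm_num
  set f2 : V := v * coeff (Finsupp.single 1 2) f with hf2_def
  have hf2 : f2 ∈ maximalIdeal V := Ideal.mul_mem_left _ _ (hfm _)
  obtain ⟨t, ht⟩ := tht_eval (κ ^ 2) c
  have hfe : eval ![κ ^ 2, 0] f = coeff 0 f := by
    have : ∀ p : Po V, (∀ m : Fin 2 →₀ ℕ, m 0 ≠ 0 → coeff m p = 0) →
        eval ![κ ^ 2, 0] p = coeff 0 p := by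
      intro p hp
      rw [eval_eq']
      rw [Finset.sum_eq_single (0 : Fin 2 →₀ ℕ)]
      · simp
      · intro m _ hm
        rw [Fin.prod_univ_two]
        by_cases h0 : m 0 = 0
        · have h1 : m 1 ≠ 0 := by
            intro h1
            apply hm
            ext i; fin_cases i <;> simp [h0, h1]
          simp [h1]
        · rw [hp m h0, zero_mul]
      · intro h
        rw [notMem_support_iff.1 h, zero_mul]
    exact this f hf
  have hf00 : v * coeff 0 f = κ ^ 2 * (1 + κ ^ 2 * (v * t)) := by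
    have h1 : κ ^ 2 * (coeff 0 c + κ ^ 2 * t) - coeff 0 f = 0 := by
      have h2 := ha0
      rw [ha, map_sub, map_mul, eval_X, hfe, ht] at h2
      exact h2
    linear_combination (-v) * h1 + κ ^ 2 * hv
  obtain ⟨t', ht'⟩ := tht_eval (κ ^ 2) b
  have hb00 : v * coeff 0 b = κ ^ 2 * (-(v * t')) := by
    have h1 : coeff 0 b + κ ^ 2 * t' = 0 := by rw [← ht', hb0]
    linear_combination v * h1
  have hFa : Fil κ 3 (C v * a - (X 0 - C (κ ^ 2) - C f2 * X 1 ^ 2)) := by
    intro m
    by_cases hm : 3 ≤ 2 * m 0 + m 1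
    · rw [Nat.sub_eq_zero_of_le hm]; simp
    have hX0 : coeff m (X 0 * c) = if m 0 = 0 then 0 else coeff (m - Finsupp.single 0 1) c := by
      rw [coeff_X_mul']
      simp only [Finsupp.mem_support_iff, ne_eq, ite_not]
    have key : coeff m (C v * a - (X 0 - C (κ ^ 2) - C f2 * X 1 ^ 2)) =
        v * (coeff m (X 0 * c) - coeff m f) - (coeff m (X 0 : Po V)
          - coeff m (C (κ ^ 2) : Po V) - f2 * coeff m (X 1 ^ 2 : Po V)) := by
      rw [ha]
      simp only [coeff_sub, coeff_C_mul]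
    rw [key, hX0]
    have hm' := tht_fin2 m
    rcases Nat.lt_or_ge (m 0) 1 with h0 | h0
    · have h0' : m 0 = 0 := by omega
      rw [if_pos h0']
      rw [h0'] at hm' ⊢
      have h1 : m 1 = 0 ∨ m 1 = 1 ∨ m 1 = 2 := by omega
      rcases h1 with h1 | h1 | h1
      · rw [h1] at hm' ⊢
        have hm0 : m = 0 := by rw [hm']; simp
        subst hm0
        refine ⟨κ * -(v * t), ?_⟩
        have e1 : coeff 0 (X 0 : Po V) = 0 := by simp
        have e2 : coeff 0 (C (κ ^ 2) : Po V) = κ ^ 2 := coeff_zero_C _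
        have e3 : coeff 0 (X 1 ^ 2 : Po V) = 0 := by
          rw [coeff_X_pow, if_neg]; intro h; have := DFunLike.congr_fun h 1; simp at this
        rw [e1, e2, e3]
        simp only [Nat.sub_zero, Nat.mul_zero, Nat.add_zero]
        linear_combination (-1) * hf00
      · rw [h1] at hm' ⊢
        have hm0 : m = Finsupp.single 1 1 := by rw [hm']; simp
        subst hm0
        have e1 : coeff (Finsupp.single 1 1) (X 0 : Po V) = 0 := by
          rw [coeff_X, if_neg]; intro h; have := DFunLike.congr_fun h 0; simp at this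
        have e2 : coeff (Finsupp.single 1 1) (C (κ ^ 2) : Po V) = 0 := by
          rw [coeff_C, if_neg]; intro h; have := DFunLike.congr_fun h 1; simp at this
        have e3 : coeff (Finsupp.single 1 1) (X 1 ^ 2 : Po V) = 0 := by
          rw [coeff_X_pow, if_neg]; intro h; have := DFunLike.congr_fun h 1; simp at this
        rw [e1, e2, e3]
        obtain ⟨g, hg⟩ := hf1
        exact ⟨-(v * g), by rw [hg]; ring⟩
      · rw [h1] at hm' ⊢
        have hm0 : m = Finsupp.single 1 2 := by rw [hm']; simp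
        subst hm0
        have e1 : coeff (Finsupp.single 1 2) (X 0 : Po V) = 0 := by
          rw [coeff_X, if_neg]; intro h; have := DFunLike.congr_fun h 0; simp at this
        have e2 : coeff (Finsupp.single 1 2) (C (κ ^ 2) : Po V) = 0 := by
          rw [coeff_C, if_neg]; intro h; have := DFunLike.congr_fun h 1; simp at this
        have e3 : coeff (Finsupp.single 1 2) (X 1 ^ 2 : Po V) = 1 := by
          rw [coeff_X_pow, if_pos rfl]
        rw [e1, e2, e3, hf2_def]
        exact ⟨0, by ring⟩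
    · have h0' : m 0 = 1 := by omega
      have h1' : m 1 = 0 := by omega
      rw [if_neg (by omega)]
      rw [h0', h1'] at hm'
      have hm0 : m = Finsupp.single 0 1 := by rw [hm']; simp
      subst hm0
      have e1 : coeff (Finsupp.single 0 1) (X 0 : Po V) = 1 := by simp
      have e2 : coeff (Finsupp.single 0 1) (C (κ ^ 2) : Po V) = 0 := by
        rw [coeff_C, if_neg]; intro h; have := DFunLike.congr_fun h 0; simp at this
      have e3 : coeff (Finsupp.single 0 1) (X 1 ^ 2 : Po V) = 0 := by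
        rw [coeff_X_pow, if_neg]; intro h; have := DFunLike.congr_fun h 0; simp at this
      rw [e1, e2, e3, hf (Finsupp.single 0 1) (by simp), tsub_self]
      refine ⟨0, ?_⟩
      linear_combination hv
  have hFb : Fil κ 2 (C v * b - C e * X 1) := by
    intro m
    by_cases hm : 2 ≤ 2 * m 0 + m 1
    · rw [Nat.sub_eq_zero_of_le hm]; simp
    have h0' : m 0 = 0 := by omega
    have hm' := tht_fin2 m
    rw [h0'] at hm' ⊢
    rw [coeff_sub, coeff_C_mul, coeff_C_mul]
    have h1 : m 1 = 0 ∨ m 1 = 1 := by omega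
    rcases h1 with h1 | h1
    · rw [h1] at hm' ⊢
      have hm0 : m = 0 := by rw [hm']; simp
      subst hm0
      refine ⟨-(v * t'), ?_⟩
      simp
      linear_combination hb00
    · rw [h1] at hm' ⊢
      have hm0 : m = Finsupp.single 1 1 := by rw [hm']; simp
      subst hm0
      have e1 : coeff (Finsupp.single 1 1) (X 1 : Po V) = 1 := by simp
      rw [e1, he_def]
      exact ⟨0, by ring⟩
  obtain ⟨s, q, μ, α, hs, hq, hμ, hα, h1, h2⟩ :=
    nf κ e f2 he hκ0 (C v * a) (C v * b) hFa hFb 10 (by norm_num)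
  have hodd := thmTM φ hφ κ e f2 hκ0 hκm hf2 he (C v * a) (C v * b) s q μ α hs hq hμ hα h1 h2
    (by rw [map_mul, ha0, mul_zero]) (by rw [map_mul, hb0, mul_zero]) (by
      obtain ⟨H, hH⟩ := hK
      refine ⟨H, ?_⟩
      have e1 : sh (φ (κ ^ 2)) 0 (map φ (C v * a)) =
          C (φ v) * sh (φ (κ ^ 2)) 0 (map φ a) := by
        rw [map_mul, map_C, tht_sh_C]
      have e2 : sh (φ (κ ^ 2)) 0 (map φ (X 0 * (C v * b))) =
          C (φ v) * sh (φ (κ ^ 2)) 0 (map φ (X 0 * b)) := by
        rw [mul_left_comm, map_mul, map_C, tht_sh_C]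
      rw [e1, e2]
      exact tht_FI 14 _ _ _ _ hH)
  refine thmTR κ f2 hκ0 hκm (C v * a) (C v * b) (C v * c) (C v * f) s q μ α ?_ ?_ ?_ ?_ ?_ ?_ ?_ e
    he_res hs hq hμ hα h1 h2 hodd
  · rw [ha]; ring
  · intro m hm
    rw [coeff_C_mul, hf m hm, mul_zero]
  · refine (totalDegree_mul _ _).trans ?_
    rw [totalDegree_C, zero_add]
    exact hf4
  · exact hfm.mul_left _
  · refine ⟨1 + κ ^ 2 * (v * t), ?_, ?_⟩
    · rw [← residue_ne_zero_iff_isUnit, map_add, map_mul, map_pow,
        (residue_eq_zero_iff κ).2 hκm]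
      simp
    · rw [coeff_C_mul, hf00]
  · rw [map_mul, map_C, hvres, hc]
  · rw [map_mul, map_C, hvres, hb]

end Pool.Agent.CF
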