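import Pool.Agent.Lib_helper78.CFF.INF2
import Pool.Agent.Lib_helper78.CFF.THT

/-! author of this file: helper82 -/

open MvPolynomial IsLocalRing

set_option linter.unusedVariables false

namespace Pool.Agent.CF

/-- remainder modulo `X 0` -/
lemma inf1_rem {R : Type*} [CommRing R] (p : Po R) :
    ∃ c : Po R, p = X 0 * c + aeval ![0, X 1] p := by
  induction p using MvPolynomial.induction_on with
  | C a => exact ⟨0, by simp⟩
  | add p q hp hq =>
    obtain ⟨c, hc⟩ := hp
    obtain ⟨d, hd⟩ := hq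
    refine ⟨c + d, ?_⟩
    rw [map_add]
    linear_combination hc + hd
  | mul_X p i hp =>
    obtain ⟨c, hc⟩ := hp
    fin_cases i
    · refine ⟨p, ?_⟩
      simp
      ring
    · refine ⟨c * X 1, ?_⟩
      have : (aeval ![0, X 1] (p * X 1) : Po R) = aeval ![0, X 1] p * X 1 := by simp
      show p * X 1 = X 0 * (c * X 1) + aeval ![0, X 1] (p * X 1)
      rw [this]
      linear_combination X 1 * hc

/-- the substitution `y ↦ ε y` -/
noncomputable def inf1_tau {R : Type*} [CommRing R] (ε : R) : Po R →ₐ[R] Po R :=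
  aeval ![X 0, C ε * X 1]

lemma inf1_tau_X0 {R : Type*} [CommRing R] (ε : R) : inf1_tau ε (X 0) = X 0 := by
  simp [inf1_tau]

lemma inf1_tau_X1 {R : Type*} [CommRing R] (ε : R) : inf1_tau ε (X 1) = C ε * X 1 := by
  simp [inf1_tau]

lemma inf1_tau_tau {R : Type*} [CommRing R] (ε : R) (h : ε ^ 2 = 1) (p : Po R) :
    inf1_tau ε (inf1_tau ε p) = p := by
  have : (inf1_tau ε).comp (inf1_tau ε) = AlgHom.id R (Po R) := by
    apply MvPolynomial.algHom_ext
    intro i
    fin_cases i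
    · show inf1_tau ε (inf1_tau ε (X 0)) = X 0
      rw [inf1_tau_X0, inf1_tau_X0]
    · show inf1_tau ε (inf1_tau ε (X 1)) = X 1
      rw [inf1_tau_X1, map_mul, inf1_tau_X1, ← MvPolynomial.algebraMap_eq, AlgHom.commutes,
        ← mul_assoc, ← map_mul, ← pow_two, h, map_one, one_mul]
  exact congrArg (fun f : Po R →ₐ[R] Po R => f p) this

lemma inf1_tau_ord {R : Type*} [CommRing R] (ε : R) (n : ℕ) (p : Po R) (h : Ord n p) :
    Ord n (inf1_tau ε p) := by
  apply Ord.aeval _ h
  intro i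
  fin_cases i
  · exact ord_X 0
  · exact (ord_X 1).mul_left _

lemma inf1_tau_pd0 {R : Type*} [CommRing R] (ε : R) (p : Po R) :
    pderiv 0 (inf1_tau ε p) = inf1_tau ε (pderiv 0 p) := by
  induction p using MvPolynomial.induction_on with
  | C a =>
    have : inf1_tau ε (C a) = C a := by rw [← MvPolynomial.algebraMap_eq, AlgHom.commutes]
    rw [this]; simp
  | add p q hp hq => simp only [map_add, hp, hq]
  | mul_X p i hp =>
    fin_cases i
    · simp only [Fin.mk_zero, Fin.zero_eta, Fin.isValue, map_mul, inf1_tau_X0, Derivation.leibniz, hp,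
        smul_eq_mul, map_add, pderiv_X_self, map_one]
    · show pderiv 0 (inf1_tau ε (p * X 1)) = inf1_tau ε (pderiv 0 (p * X 1))
      have h01 : (pderiv 0 (X 1 : Po R)) = 0 := pderiv_X_of_ne (by decide)
      simp only [map_mul, inf1_tau_X1, Derivation.leibniz, hp, smul_eq_mul, map_add, h01,
        pderiv_C, map_zero, mul_zero, add_zero, zero_add]

lemma inf1_tau_pd1 {R : Type*} [CommRing R] (ε : R) (p : Po R) :
    pderiv 1 (inf1_tau ε p) = C ε * inf1_tau ε (pderiv 1 p) := by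
  induction p using MvPolynomial.induction_on with
  | C a =>
    have : inf1_tau ε (C a) = C a := by rw [← MvPolynomial.algebraMap_eq, AlgHom.commutes]
    rw [this]; simp
  | add p q hp hq => simp only [map_add, hp, hq, mul_add]
  | mul_X p i hp =>
    fin_cases i
    · show pderiv 1 (inf1_tau ε (p * X 0)) = C ε * inf1_tau ε (pderiv 1 (p * X 0))
      have h01 : (pderiv 1 (X 0 : Po R)) = 0 := pderiv_X_of_ne (by decide)
      simp only [map_mul, inf1_tau_X0, Derivation.leibniz, hp, smul_eq_mul, map_add, h01,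
        mul_zero, zero_add]
      ring
    · show pderiv 1 (inf1_tau ε (p * X 1)) = C ε * inf1_tau ε (pderiv 1 (p * X 1))
      simp only [map_mul, inf1_tau_X1, Derivation.leibniz, hp, smul_eq_mul, map_add,
        pderiv_X_self, pderiv_C, map_one, mul_zero, add_zero, mul_one]
      ring

lemma inf1_tau_XX {R : Type*} [CommRing R] (ε : R) (h : ε ^ 2 = 1) (A B H : Po R) :
    XX (C ε * inf1_tau ε A) (inf1_tau ε B) (inf1_tau ε H) = inf1_tau ε (XX A B H) := by
  have h' : (C ε : Po R) ^ 2 = 1 := by rw [← map_pow, h, map_one]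
  simp only [XX, inf1_tau_pd0, inf1_tau_pd1, map_sub, map_mul]
  linear_combination (inf1_tau ε A * inf1_tau ε (pderiv 1 H)) * h'

lemma inf1_tau_FI {R : Type*} [CommRing R] (ε : R) (h : ε ^ 2 = 1) (n : ℕ) (A B H : Po R)
    (hH : FI n A B H) : FI n (C ε * inf1_tau ε A) (inf1_tau ε B) (inf1_tau ε H) := by
  obtain ⟨h1, ⟨m, hm, hc⟩, h3⟩ := hH
  refine ⟨inf1_tau_ord _ _ _ h1, ?_, ?_⟩
  · by_contra hcon
    push Not at hcon
    have h4 : Ord 3 (inf1_tau ε H) := by
      intro m' hm'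
      rcases Nat.lt_or_ge (m' 0 + m' 1) 2 with h5 | h5
      · exact inf1_tau_ord _ _ _ h1 m' h5
      · exact hcon m' (by omega)
    have h6 := inf1_tau_ord ε 3 _ h4
    rw [inf1_tau_tau ε h] at h6
    exact hc (h6 m (by omega))
  · rw [inf1_tau_XX ε h]
    exact inf1_tau_ord _ _ _ h3

/-- the substitution `(x, y) ↦ (x, w + ε y)` -/
noncomputable def inf1_th {R : Type*} [CommRing R] (w ε : R) : Po R →ₐ[R] Po R :=
  aeval ![X 0, C w + C ε * X 1]

lemma inf1_map_aeval {R S : Type*} [CommRing R] [CommRing S] (φ : R →+* S) (g : Fin 2 → Po R)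
    (p : Po R) : map φ (aeval g p) = aeval (fun i => map φ (g i)) (map φ p) := by
  induction p using MvPolynomial.induction_on with
  | C a =>
    rw [map_C, ← MvPolynomial.algebraMap_eq, AlgHom.commutes, MvPolynomial.algebraMap_eq, map_C,
      ← MvPolynomial.algebraMap_eq, AlgHom.commutes, MvPolynomial.algebraMap_eq]
  | add p q hp hq => simp only [map_add, hp, hq]
  | mul_X p i hp => simp only [map_mul, hp, map_X, aeval_X]

lemma inf1_map_th {R S : Type*} [CommRing R] [CommRing S] (φ : R →+* S) (w ε : R)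
    (p : Po R) : map φ (inf1_th w ε p) = inf1_th (φ w) (φ ε) (map φ p) := by
  unfold inf1_th
  rw [inf1_map_aeval]
  congr 1
  congr 1
  funext i
  fin_cases i <;> simp

lemma inf1_map_hat {R S : Type*} [CommRing R] [CommRing S] (φ : R →+* S) (p : Po R)
    (hp : p.totalDegree ≤ 3) : map φ (hat p) = hat (map φ p) := by
  rw [inf2_hat p hp, inf2_hat _ ((inf2_map_deg φ p).trans hp)]
  simp only [map_add, map_mul, map_pow, map_C, map_X, coeff_map]

lemma inf1_sh_th {R : Type*} [CommRing R] (z w ε : R) (p : Po R) :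
    sh z 0 (inf1_th w ε p) = inf1_tau ε (sh z w p) := by
  have : (aeval ![X 0 + C z, X 1 + C 0] : Po R →ₐ[R] Po R).comp (inf1_th w ε) =
      (inf1_tau ε).comp (aeval ![X 0 + C z, X 1 + C w]) := by
    apply MvPolynomial.algHom_ext
    intro i
    have hC : ∀ (f : Po R →ₐ[R] Po R) (a : R), f (C a) = C a := by
      intro f a
      rw [← MvPolynomial.algebraMap_eq, AlgHom.commutes]
    fin_cases i
    · simp only [inf1_th, inf1_tau, AlgHom.comp_apply, Fin.zero_eta, aeval_X, Matrix.cons_val_zero,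
        map_add, hC]
    · simp only [inf1_th, inf1_tau, AlgHom.comp_apply, Fin.mk_one, aeval_X, Matrix.cons_val_one,
        Matrix.cons_val_zero, map_add, map_mul, hC, map_zero, add_zero]
      ring
  exact congrArg (fun f : Po R →ₐ[R] Po R => f p) this

lemma inf1_pd0 {K : Type*} [Field K] (p : Po K) (hp : p.totalDegree ≤ 3) (u v : K) :
    eval ![u, v] (pderiv 0 p) = coeff (inf2_mm 1 0) p + coeff (inf2_mm 1 1) p * v
      + coeff (inf2_mm 1 2) p * v ^ 2 + 2 * coeff (inf2_mm 2 0) p * u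
      + 2 * coeff (inf2_mm 2 1) p * u * v + 3 * coeff (inf2_mm 3 0) p * u ^ 2 := by
  have h01 : (pderiv 0 (X 1 : Po K)) = 0 := pderiv_X_of_ne (by decide)
  conv_lhs => rw [inf2_expl p hp]
  simp only [map_add, Derivation.leibniz, Derivation.leibniz_pow, h01, pderiv_X_self, pderiv_C,
    smul_eq_mul, nsmul_eq_mul, mul_zero, add_zero, zero_add, map_mul, map_pow, eval_X, eval_C,
    Matrix.cons_val_zero, Matrix.cons_val_one, map_natCast, map_one, map_zero]
  push_cast
  ring

lemma inf1_pd1 {K : Type*} [Field K] (p : Po K) (hp : p.totalDegree ≤ 3) (u v : K) :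
    eval ![u, v] (pderiv 1 p) = coeff (inf2_mm 0 1) p + 2 * coeff (inf2_mm 0 2) p * v
      + 3 * coeff (inf2_mm 0 3) p * v ^ 2 + coeff (inf2_mm 1 1) p * u
      + 2 * coeff (inf2_mm 1 2) p * u * v + coeff (inf2_mm 2 1) p * u ^ 2 := by
  have h01 : (pderiv 1 (X 0 : Po K)) = 0 := pderiv_X_of_ne (by decide)
  conv_lhs => rw [inf2_expl p hp]
  simp only [map_add, Derivation.leibniz, Derivation.leibniz_pow, h01, pderiv_X_self, pderiv_C,
    smul_eq_mul, nsmul_eq_mul, mul_zero, add_zero, zero_add, map_mul, map_pow, eval_X, eval_C,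
    Matrix.cons_val_zero, Matrix.cons_val_one, map_natCast, map_one, map_zero]
  push_cast
  ring

/-- the polynomial `f` of the normal form data -/
noncomputable def inf1_d {R : Type*} [CommRing R] (w ε : R) (A B : Po R) (j : ℕ) : R :=
  match j with
  | 0 => ε * (coeff (inf2_mm 3 0) A + (coeff (inf2_mm 2 1) A + coeff (inf2_mm 3 0) B) * w
      + (coeff (inf2_mm 1 2) A + coeff (inf2_mm 2 1) B) * w ^ 2
      + (coeff (inf2_mm 0 3) A + coeff (inf2_mm 1 2) B) * w ^ 3 + coeff (inf2_mm 0 3) B * w ^ 4)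
  | 1 => ε ^ 2 * ((coeff (inf2_mm 2 1) A + coeff (inf2_mm 3 0) B)
      + 2 * (coeff (inf2_mm 1 2) A + coeff (inf2_mm 2 1) B) * w
      + 3 * (coeff (inf2_mm 0 3) A + coeff (inf2_mm 1 2) B) * w ^ 2
      + 4 * coeff (inf2_mm 0 3) B * w ^ 3)
  | 2 => ε ^ 3 * ((coeff (inf2_mm 1 2) A + coeff (inf2_mm 2 1) B)
      + 3 * (coeff (inf2_mm 0 3) A + coeff (inf2_mm 1 2) B) * w
      + 6 * coeff (inf2_mm 0 3) B * w ^ 2)
  | 3 => ε ^ 4 * ((coeff (inf2_mm 0 3) A + coeff (inf2_mm 1 2) B)
      + 4 * coeff (inf2_mm 0 3) B * w)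
  | 4 => ε ^ 5 * coeff (inf2_mm 0 3) B
  | _ => 0

lemma inf1_f {R : Type*} [CommRing R] (w ε : R) (A B : Po R) (hA : A.totalDegree ≤ 3)
    (hB : B.totalDegree ≤ 3) :
    -(aeval ![0, X 1] (C ε * inf1_th w ε (chA A B)) : Po R) =
      ∑ j ∈ Finset.range 5, monomial (inf2_mm 0 j) (inf1_d w ε A B j) := by
  have hC : ∀ (f : Po R →ₐ[R] Po R) (a : R), f (C a) = C a := by
    intro f a
    rw [← MvPolynomial.algebraMap_eq, AlgHom.commutes]
  simp only [chA, inf2_hat A hA, inf2_hat B hB, Finset.sum_range_succ, Finset.sum_range_zero,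
    inf2_monomial, inf1_d, inf1_th, map_add, map_mul, map_neg, map_pow, aeval_X, hC,
    Matrix.cons_val_zero, Matrix.cons_val_one, map_ofNat]
  ring

lemma inf1_f_coeff {R : Type*} [CommRing R] (d : ℕ → R) (m : Fin 2 →₀ ℕ) :
    coeff m (∑ j ∈ Finset.range 5, monomial (inf2_mm 0 j) (d j) : Po R) =
      if m 0 = 0 ∧ m 1 < 5 then d (m 1) else 0 := by
  rw [coeff_sum]
  have h : ∀ j, coeff m (monomial (inf2_mm 0 j) (d j) : Po R) =
      if m 0 = 0 ∧ j = m 1 then d j else 0 := by
    intro j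
    rw [coeff_monomial]
    conv_lhs => rw [← inf2_mm_eq m]
    simp only [inf2_mm_inj, eq_comm (a := 0)]
  simp only [h]
  by_cases h0 : m 0 = 0
  · simp only [h0, true_and]
    rw [Finset.sum_ite_eq']
    simp
  · simp [h0]

/-- the core: data at the point `(z, w)` of the chart at infinity -/
lemma inf1_core {V : Type} [CommRing V] [IsDomain V] [ValuationRing V] [Algebra ℚ V]
    {K : Type} [Field K] (φ : V →+* K) (hφ : Function.Injective φ) (κ w ε : V) (hκ0 : κ ≠ 0)
    (hκm : κ ∈ maximalIdeal V) (A B : Po V) (hA3 : A.totalDegree ≤ 3)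
    (hB3 : B.totalDegree ≤ 3) (hAk : map (residue V) A = A0 _) (hBk : map (residue V) B = B0 _)
    (hε : ε = 1 ∨ ε = -1) (hw : residue V w = 2 * residue V ε)
    (ha0 : eval ![κ ^ 2, 0] (inf1_th w ε (chA A B)) = 0)
    (hb0 : eval ![κ ^ 2, 0] (inf1_th w ε (hat B)) = 0)
    (hf1 : κ ^ 2 ∣ inf1_d w ε A B 1)
    (hK : ∃ H : Po K, FI 14
      (sh (φ (κ ^ 2)) (φ w) (chA (map φ A) (map φ B)))
      (sh (φ (κ ^ 2)) (φ w) (chB (map φ B))) H) : False := by
  have hε2 : ε ^ 2 = 1 := by rcases hε with rfl | rfl <;> norm_num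
  obtain ⟨c, hc⟩ := inf1_rem (C ε * inf1_th w ε (chA A B))
  have hA0d : (A0 (ResidueField V)).totalDegree ≤ 3 := by
    rw [← hAk]; exact (inf2_map_deg _ _).trans hA3
  have hB0d : (B0 (ResidueField V)).totalDegree ≤ 3 := by
    rw [← hBk]; exact (inf2_map_deg _ _).trans hB3
  have hmC : ∀ (f : Po (ResidueField V) →ₐ[ResidueField V] Po (ResidueField V))
      (a : ResidueField V), f (C a) = C a := by
    intro f a
    rw [← MvPolynomial.algebraMap_eq, AlgHom.commutes]
  have c2 : (C (2 : ResidueField V) : Po (ResidueField V)) = 2 := map_ofNat C 2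
  have c3 : (C (3 : ResidueField V) : Po (ResidueField V)) = 3 := map_ofNat C 3
  have c8 : (C (8 : ResidueField V) : Po (ResidueField V)) = 8 := map_ofNat C 8
  have b2 : ∀ g : Fin 2 → Po (ResidueField V), bind₁ g (2 : Po (ResidueField V)) = 2 :=
    fun g => map_ofNat _ 2
  have b3 : ∀ g : Fin 2 → Po (ResidueField V), bind₁ g (3 : Po (ResidueField V)) = 3 :=
    fun g => map_ofNat _ 3
  have b8 : ∀ g : Fin 2 → Po (ResidueField V), bind₁ g (8 : Po (ResidueField V)) = 8 :=
    fun g => map_ofNat _ 8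
  have hres_hatB : map (residue V) (inf1_th w ε (hat B)) = P0T _ := by
    rw [inf1_map_th, inf1_map_hat _ _ hB3, hBk, inf2_hat _ hB0d, inf2_B0, hw]
    simp only [coeff_add, coeff_monomial, inf2_mm_inj, P0T, inf1_th]
    rcases hε with rfl | rfl
    · simp [c2, c3, c8, b2, b3, b8]
      ring
    · simp [c2, c3, c8, b2, b3, b8]
      ring
  have hres_a : map (residue V) (C ε * inf1_th w ε (chA A B)) = X 0 * c0T _ := by
    rw [map_mul, map_C, inf1_map_th]
    have h1 : map (residue V) (chA A B) = chA (A0 _) (B0 _) := by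
      simp only [chA, map_neg, map_add, map_mul, map_X, inf1_map_hat _ _ hA3,
        inf1_map_hat _ _ hB3, hAk, hBk]
    rw [h1, chA, inf2_hat _ hA0d, inf2_hat _ hB0d, inf2_B0, inf2_A0, hw]
    simp only [coeff_add, coeff_monomial, inf2_mm_inj, c0T, inf1_th]
    rcases hε with rfl | rfl
    · simp [c2, c3, c8, b2, b3, b8]
      ring
    · simp [c2, c3, c8, b2, b3, b8]
      ring
  set f : Po V := -(aeval ![0, X 1] (C ε * inf1_th w ε (chA A B))) with hfdef
  have hff := inf1_f w ε A B hA3 hB3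
  rw [← hfdef] at hff
  have hfc : ∀ m, coeff m f = if m 0 = 0 ∧ m 1 < 5 then inf1_d w ε A B (m 1) else 0 := by
    intro m
    rw [hff]
    exact inf1_f_coeff _ m
  have hfk : map (residue V) f = 0 := by
    rw [hfdef, map_neg, inf1_map_aeval, hres_a]
    simp
  refine thmT φ hφ κ hκ0 hκm (C ε * inf1_th w ε (chA A B)) (inf1_th w ε (hat B)) c f ?_ ?_ ?_ ?_ ?_
    ?_ ?_ ?_ ?_ ?_
  · rw [hfdef]
    linear_combination hc
  · intro m hm
    rw [hfc, if_neg (fun h => hm h.1)]
  · rw [totalDegree]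
    apply Finset.sup_le
    intro m hm
    rw [mem_support_iff, hfc] at hm
    have h1 : (m.sum fun _ e => e) = m 0 + m 1 := by
      rw [← deg2]; rfl
    rw [h1]
    by_contra hlt
    apply hm
    rw [if_neg]
    omega
  · rw [← IsLocalRing.ker_residue, ci_ker_iff]
    exact hfk
  · rw [hfc]
    simpa using hf1
  · have h1 : map (residue V) (C ε * inf1_th w ε (chA A B)) = X 0 * map (residue V) c := by
      have h2 := congrArg (map (residue V)) hc
      rw [map_add, map_mul (map (residue V)) (X 0) c, map_X] at h2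
      have h3 : map (residue V) (aeval ![0, X 1] (C ε * inf1_th w ε (chA A B)) : Po V) = 0 := by
        have : (aeval ![0, X 1] (C ε * inf1_th w ε (chA A B)) : Po V) = -f := by
          rw [hfdef, neg_neg]
        rw [this, map_neg, hfk, neg_zero]
      rw [h3, add_zero] at h2
      exact h2
    rw [hres_a] at h1
    exact (mul_left_cancel₀ (X_ne_zero 0) h1).symm
  · exact hres_hatB
  · rw [map_mul, ha0, mul_zero]
  · exact hb0
  · obtain ⟨H, hH⟩ := hK
    refine ⟨inf1_tau (φ ε) H, ?_⟩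
    have hε2' : (φ ε) ^ 2 = 1 := by rw [← map_pow, hε2, map_one]
    have h1 := inf1_tau_FI (φ ε) hε2' 14 _ _ H hH
    have e1 : sh (φ (κ ^ 2)) 0 (map φ (C ε * inf1_th w ε (chA A B))) =
        C (φ ε) * inf1_tau (φ ε) (sh (φ (κ ^ 2)) (φ w) (chA (map φ A) (map φ B))) := by
      have h2 : map φ (chA A B) = chA (map φ A) (map φ B) := by
        simp only [chA, map_neg, map_add, map_mul, map_X, inf1_map_hat _ _ hA3,
          inf1_map_hat _ _ hB3]
      rw [map_mul, map_C, inf1_map_th, h2, ← inf1_sh_th]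
      unfold sh
      rw [map_mul, ← MvPolynomial.algebraMap_eq, AlgHom.commutes]
    have e2 : sh (φ (κ ^ 2)) 0 (map φ (X 0 * inf1_th w ε (hat B))) =
        inf1_tau (φ ε) (sh (φ (κ ^ 2)) (φ w) (chB (map φ B))) := by
      have h2 : X 0 * inf1_th w ε (hat B) = inf1_th w ε (chB B) := by
        rw [chB, map_mul]
        congr 1
        simp [inf1_th]
      have h3 : map φ (chB B) = chB (map φ B) := by
        simp only [chB, map_mul, map_X, inf1_map_hat _ _ hB3]
      rw [h2, inf1_map_th, h3, ← inf1_sh_th]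
    rw [e1, e2]
    exact h1

lemma inf1_eval_th {R : Type*} [CommRing R] (w ε z : R) (p : Po R) :
    eval ![z, 0] (inf1_th w ε p) = eval ![z, w] p := by
  induction p using MvPolynomial.induction_on with
  | C a =>
    rw [← MvPolynomial.algebraMap_eq, AlgHom.commutes, MvPolynomial.algebraMap_eq, eval_C, eval_C]
  | add p q hp hq => simp only [map_add, hp, hq]
  | mul_X p i hp =>
    simp only [map_mul, hp]
    fin_cases i <;> simp [inf1_th]

lemma inf1_eval_hat {R : Type*} [CommRing R] (p : Po R) (hp : p.totalDegree ≤ 3) (z w : R) :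
    eval ![z, w] (hat p) = coeff (inf2_mm 0 0) p * z ^ 3 + coeff (inf2_mm 0 1) p * z ^ 2 * w
      + coeff (inf2_mm 0 2) p * z * w ^ 2 + coeff (inf2_mm 0 3) p * w ^ 3
      + coeff (inf2_mm 1 0) p * z ^ 2 + coeff (inf2_mm 1 1) p * z * w
      + coeff (inf2_mm 1 2) p * w ^ 2 + coeff (inf2_mm 2 0) p * z
      + coeff (inf2_mm 2 1) p * w + coeff (inf2_mm 3 0) p := by
  rw [inf2_hat p hp]
  simp

theorem inf1 {K : Type} [Field K] [IsAlgClosed K] [Algebra ℚ K] (V : ValuationSubring K)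
    (hQ : ∀ r : ℚ, algebraMap ℚ K r ∈ V) (A B : Po V) (hA3 : A.totalDegree ≤ 3)
    (hB3 : B.totalDegree ≤ 3) (hA : CI (maximalIdeal V) (A - A0 V))
    (hB : CI (maximalIdeal V) (B - B0 V)) (p0 p1 : K) (hz : p0 ≠ 0)
    (hpA : eval ![p0, p1] (map (algebraMap V K) A) = 0)
    (hpB : eval ![p0, p1] (map (algebraMap V K) B) = 0)
    (hT : eval ![p0, p1] (pderiv 0 (map (algebraMap V K) B))
      - eval ![p0, p1] (pderiv 1 (map (algebraMap V K) A)) = 0)
    (hinf : p0⁻¹ ∈ V.nonunits) (hw : p1 * p0⁻¹ ∈ V)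
    (hK : ∃ H : Po K, FI 14
      (sh p0⁻¹ (p1 * p0⁻¹) (chA (map (algebraMap V K) A) (map (algebraMap V K) B)))
      (sh p0⁻¹ (p1 * p0⁻¹) (chB (map (algebraMap V K) B))) H) : False := by
  rw [ValuationSubring.mem_nonunits_iff_exists_mem_maximalIdeal] at hinf
  obtain ⟨hzV, hz1⟩ := hinf
  set z : V := ⟨p0⁻¹, hzV⟩ with hzdef
  set w : V := ⟨p1 * p0⁻¹, hw⟩ with hwdef
  have hz' : (z : K) = p0⁻¹ := rfl
  have hw' : (w : K) = p1 * p0⁻¹ := rfl
  obtain ⟨k, hk⟩ := IsAlgClosed.exists_pow_nat_eq p0⁻¹ (n := 2) (by norm_num)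
  have hk0 : k ≠ 0 := by
    rintro rfl
    rw [zero_pow (by norm_num)] at hk
    exact inv_ne_zero hz hk.symm
  have hkV : k ∈ V := by
    rcases V.mem_or_inv_mem k with h | h
    · exact h
    · have h1 : k = p0⁻¹ * k⁻¹ := by
        rw [← hk]; field_simp
      rw [h1]
      exact V.mul_mem _ _ hzV h
  set κ : V := ⟨k, hkV⟩ with hκdef
  have hκz : κ ^ 2 = z := Subtype.ext hk
  have hκ0 : κ ≠ 0 := by
    intro h
    exact hk0 (congrArg Subtype.val h)
  have hκm : κ ∈ maximalIdeal V := by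
    apply Ideal.IsPrime.mem_of_pow_mem inferInstance 2
    rw [hκz]; exact hz1
  let _ : Algebra ℚ V := ((algebraMap ℚ K).codRestrict V.toSubring hQ).toAlgebra
  -- the residues
  have hAk : map (residue V) A = A0 _ := by
    rw [← IsLocalRing.ker_residue, ci_ker_iff, map_sub, sub_eq_zero] at hA
    rw [hA]; simp [A0]
  have hBk : map (residue V) B = B0 _ := by
    rw [← IsLocalRing.ker_residue, ci_ker_iff, map_sub, sub_eq_zero] at hB
    rw [hB]; simp [B0]
  have hc : ∀ a : V, algebraMap V K a = (a : K) := fun a => rfl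
  have hAm : (map (algebraMap V K) A).totalDegree ≤ 3 := (inf2_map_deg _ _).trans hA3
  have hBm : (map (algebraMap V K) B).totalDegree ≤ 3 := (inf2_map_deg _ _).trans hB3
  rw [inf2_eval _ hAm] at hpA
  rw [inf2_eval _ hBm] at hpB
  rw [inf1_pd0 _ hBm, inf1_pd1 _ hAm] at hT
  simp only [coeff_map, hc] at hpA hpB hT
  have hAV : eval ![z, w] (hat A) = 0 := by
    rw [inf1_eval_hat _ hA3]
    apply Subtype.ext
    push_cast
    rw [hz', hw']
    field_simp
    linear_combination hpA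
  have hBV : eval ![z, w] (hat B) = 0 := by
    rw [inf1_eval_hat _ hB3]
    apply Subtype.ext
    push_cast
    rw [hz', hw']
    field_simp
    linear_combination hpB
  have hTV : coeff (inf2_mm 1 0) B * z ^ 2 + 2 * coeff (inf2_mm 2 0) B * z
      + coeff (inf2_mm 1 1) B * w * z + 3 * coeff (inf2_mm 3 0) B
      + 2 * coeff (inf2_mm 2 1) B * w + coeff (inf2_mm 1 2) B * w ^ 2
      - (coeff (inf2_mm 0 1) A * z ^ 2 + coeff (inf2_mm 1 1) A * z
        + 2 * coeff (inf2_mm 0 2) A * w * z + coeff (inf2_mm 2 1) A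
        + 2 * coeff (inf2_mm 1 2) A * w + 3 * coeff (inf2_mm 0 3) A * w ^ 2) = 0 := by
    apply Subtype.ext
    push_cast
    have c2 : ((2 : V) : K) = 2 := rfl
    have c3 : ((3 : V) : K) = 3 := rfl
    rw [hz', hw', c2, c3]
    field_simp
    linear_combination hT
  have hzr : residue V z = 0 := (residue_eq_zero_iff _).2 hz1
  -- the residue of `w`
  have h2 : (2 : ResidueField V) ≠ 0 := by
    intro h
    apply inf2_two V hQ
    rw [← residue_eq_zero_iff]
    rw [map_ofNat]; exact h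
  have hwr : (residue V w - 2) * (residue V w + 2) = 0 := by
    have h3 := congrArg (residue V) hBV
    rw [inf1_eval_hat _ hB3] at h3
    simp only [map_add, map_mul, map_pow, ← coeff_map, hBk, hzr, map_zero] at h3
    rw [inf2_B0] at h3
    simp only [coeff_add, coeff_monomial, inf2_mm_inj] at h3
    norm_num at h3
    have h4 : (2 : ResidueField V) * ((residue V w - 2) * (residue V w + 2)) = 0 := by
      linear_combination h3
    exact (mul_eq_zero.1 h4).resolve_left h2
  obtain ⟨ε, hε, hwε⟩ : ∃ ε : V, (ε = 1 ∨ ε = -1) ∧ residue V w = 2 * residue V ε := by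
    rcases mul_eq_zero.1 hwr with h | h
    · exact ⟨1, Or.inl rfl, by rw [map_one]; linear_combination h⟩
    · exact ⟨-1, Or.inr rfl, by rw [map_neg, map_one]; linear_combination h⟩
  refine inf1_core (algebraMap V K) (IsFractionRing.injective V K) κ w ε hκ0 hκm A B hA3 hB3
    hAk hBk hε hwε ?_ ?_ ?_ ?_
  · rw [inf1_eval_th, hκz, chA, map_neg, map_add, map_mul, hAV, hBV]
    simp
  · rw [inf1_eval_th, hκz, hBV]
  · rw [hκz]
    rw [inf1_eval_hat _ hB3] at hBV
    simp only [inf1_d]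
    refine Dvd.intro (ε ^ 2 * (-4 * (coeff (inf2_mm 0 0) B * z ^ 2 + coeff (inf2_mm 0 1) B * z * w
      + coeff (inf2_mm 0 2) B * w ^ 2 + coeff (inf2_mm 1 0) B * z + coeff (inf2_mm 1 1) B * w
      + coeff (inf2_mm 2 0) B) + (coeff (inf2_mm 1 0) B * z + 2 * coeff (inf2_mm 2 0) B
      + coeff (inf2_mm 1 1) B * w) - (coeff (inf2_mm 0 1) A * z + coeff (inf2_mm 1 1) A
        + 2 * coeff (inf2_mm 0 2) A * w))) ?_
    linear_combination ε ^ 2 * hTV - 4 * ε ^ 2 * hBV
  · have e1 : algebraMap V K (κ ^ 2) = p0⁻¹ := by rw [hκz]; rfl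
    have e2 : algebraMap V K w = p1 * p0⁻¹ := rfl
    rw [e1, e2]
    exact hK

end Pool.Agent.CF
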