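import Pool.Agent.Lib_helper78.CFF.Base

/-! author of this file: helper82 -/

open MvPolynomial IsLocalRing

set_option linter.unusedVariables false

namespace Pool.Agent.CF

/-- exponent `(i, j)` -/
noncomputable def inf2_mm (i j : ℕ) : Fin 2 →₀ ℕ := Finsupp.single 0 i + Finsupp.single 1 j

lemma inf2_mm0 (i j : ℕ) : inf2_mm i j 0 = i := by simp [inf2_mm]
lemma inf2_mm1 (i j : ℕ) : inf2_mm i j 1 = j := by simp [inf2_mm]
lemma inf2_mm_eq (m : Fin 2 →₀ ℕ) : inf2_mm (m 0) (m 1) = m := by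
  ext i; fin_cases i
  · exact inf2_mm0 _ _
  · exact inf2_mm1 _ _

lemma inf2_sum {R : Type*} [CommRing R] {M : Type*} [AddCommMonoid M] (p : Po R)
    (hp : p.totalDegree ≤ 3) (G : (Fin 2 →₀ ℕ) → R → M) (hG : ∀ m, G m 0 = 0) :
    ∑ m ∈ p.support, G m (coeff m p) =
      ∑ i ∈ Finset.range 4, ∑ j ∈ Finset.range 4,
        if i + j ≤ 3 then G (inf2_mm i j) (coeff (inf2_mm i j) p) else 0 := by
  classical
  rw [← Finset.sum_product', ← Finset.sum_filter]
  have hinj : Set.InjOn (fun x : ℕ × ℕ => inf2_mm x.1 x.2)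
      (((Finset.range 4 ×ˢ Finset.range 4).filter (fun x => x.1 + x.2 ≤ 3) : Finset (ℕ × ℕ)) :
        Set (ℕ × ℕ)) := by
    intro x _ y _ h
    have h0 := congrArg (fun m : Fin 2 →₀ ℕ => m 0) h
    have h1 := congrArg (fun m : Fin 2 →₀ ℕ => m 1) h
    simp only [inf2_mm0, inf2_mm1] at h0 h1
    exact Prod.ext h0 h1
  have := Finset.sum_image (f := fun m => G m (coeff m p)) hinj
  rw [← this]
  apply Finset.sum_subset
  · intro m hm
    rw [Finset.mem_image]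
    refine ⟨(m 0, m 1), ?_, inf2_mm_eq m⟩
    have h1 : m 0 + m 1 ≤ 3 := by
      rw [← deg2]
      exact (le_totalDegree hm).trans hp
    simp only [Finset.mem_filter, Finset.mem_product, Finset.mem_range]
    omega
  · intro m _ hm
    rw [notMem_support_iff.1 hm, hG]

lemma inf2_monomial {R : Type*} [CommRing R] (i j : ℕ) (c : R) :
    (monomial (inf2_mm i j) c : Po R) = C c * X 0 ^ i * X 1 ^ j := by
  rw [inf2_mm, ← mul_one c, ← one_mul (1 : R), ← mul_assoc]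
  rw [show c * 1 * 1 = (c * 1) * 1 from rfl, ← monomial_mul]
  rw [X_pow_eq_monomial, X_pow_eq_monomial, C_mul_monomial]
  simp

lemma inf2_expl {R : Type*} [CommRing R] (p : Po R) (hp : p.totalDegree ≤ 3) :
    p = C (coeff (inf2_mm 0 0) p) + C (coeff (inf2_mm 0 1) p) * X 1
      + C (coeff (inf2_mm 0 2) p) * X 1 ^ 2 + C (coeff (inf2_mm 0 3) p) * X 1 ^ 3
      + C (coeff (inf2_mm 1 0) p) * X 0 + C (coeff (inf2_mm 1 1) p) * X 0 * X 1
      + C (coeff (inf2_mm 1 2) p) * X 0 * X 1 ^ 2 + C (coeff (inf2_mm 2 0) p) * X 0 ^ 2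
      + C (coeff (inf2_mm 2 1) p) * X 0 ^ 2 * X 1 + C (coeff (inf2_mm 3 0) p) * X 0 ^ 3 := by
  conv_lhs => rw [← support_sum_monomial_coeff p]
  rw [inf2_sum p hp (fun m c => monomial m c) (fun m => monomial_zero)]
  simp only [Finset.sum_range_succ, Finset.sum_range_zero, inf2_monomial]
  norm_num
  ring

lemma inf2_hat {R : Type*} [CommRing R] (p : Po R) (hp : p.totalDegree ≤ 3) :
    hat p = C (coeff (inf2_mm 0 0) p) * X 0 ^ 3 + C (coeff (inf2_mm 0 1) p) * X 0 ^ 2 * X 1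
      + C (coeff (inf2_mm 0 2) p) * X 0 * X 1 ^ 2 + C (coeff (inf2_mm 0 3) p) * X 1 ^ 3
      + C (coeff (inf2_mm 1 0) p) * X 0 ^ 2 + C (coeff (inf2_mm 1 1) p) * X 0 * X 1
      + C (coeff (inf2_mm 1 2) p) * X 1 ^ 2 + C (coeff (inf2_mm 2 0) p) * X 0
      + C (coeff (inf2_mm 2 1) p) * X 1 + C (coeff (inf2_mm 3 0) p) := by
  unfold hat
  rw [inf2_sum p hp (fun m c => monomial (Finsupp.single 0 (3 - m 0 - m 1)
    + Finsupp.single 1 (m 1)) c) (fun m => monomial_zero)]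
  have h : ∀ i j (c : R), (monomial (Finsupp.single 0 (3 - inf2_mm i j 0 - inf2_mm i j 1)
    + Finsupp.single 1 (inf2_mm i j 1)) c : Po R) = C c * X 0 ^ (3 - i - j) * X 1 ^ j := by
    intro i j c
    rw [inf2_mm0, inf2_mm1]
    exact inf2_monomial _ _ _
  simp only [Finset.sum_range_succ, Finset.sum_range_zero, h]
  norm_num
  ring

lemma inf2_mm_inj (i j k l : ℕ) : inf2_mm i j = inf2_mm k l ↔ i = k ∧ j = l := by
  constructor
  · intro h
    have h0 := congrArg (fun m : Fin 2 →₀ ℕ => m 0) h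
    have h1 := congrArg (fun m : Fin 2 →₀ ℕ => m 1) h
    simp only [inf2_mm0, inf2_mm1] at h0 h1
    exact ⟨h0, h1⟩
  · rintro ⟨rfl, rfl⟩; rfl

lemma inf2_A0 (R : Type*) [CommRing R] : A0 R = monomial (inf2_mm 0 1) 1
    + monomial (inf2_mm 1 1) 3 + monomial (inf2_mm 2 1) 8 + monomial (inf2_mm 0 3) (-2) := by
  simp only [inf2_monomial, A0, map_neg, map_ofNat, map_one]
  ring

lemma inf2_B0 (R : Type*) [CommRing R] : B0 R = monomial (inf2_mm 1 0) 1
    + monomial (inf2_mm 2 0) (-2) + monomial (inf2_mm 0 2) 1 + monomial (inf2_mm 3 0) (-8)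
    + monomial (inf2_mm 1 2) 2 := by
  simp only [inf2_monomial, B0, map_neg, map_ofNat, map_one]
  ring

/-- evaluation of a polynomial of degree at most 3 -/
lemma inf2_eval {K : Type*} [Field K] (p : Po K) (hp : p.totalDegree ≤ 3) (u v : K) :
    eval ![u, v] p = coeff (inf2_mm 0 0) p + coeff (inf2_mm 0 1) p * v
      + coeff (inf2_mm 0 2) p * v ^ 2 + coeff (inf2_mm 0 3) p * v ^ 3
      + coeff (inf2_mm 1 0) p * u + coeff (inf2_mm 1 1) p * u * v
      + coeff (inf2_mm 1 2) p * u * v ^ 2 + coeff (inf2_mm 2 0) p * u ^ 2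
      + coeff (inf2_mm 2 1) p * u ^ 2 * v + coeff (inf2_mm 3 0) p * u ^ 3 := by
  conv_lhs => rw [inf2_expl p hp]
  simp

lemma inf2_map_deg {R S : Type*} [CommRing R] [CommRing S] (φ : R →+* S) (p : Po R) :
    (map φ p).totalDegree ≤ p.totalDegree :=
  Finset.sup_mono (support_map_subset φ p)

lemma inf2_two {K : Type*} [Field K] [Algebra ℚ K] (V : ValuationSubring K)
    (hQ : ∀ r : ℚ, algebraMap ℚ K r ∈ V) : (2 : V) ∉ maximalIdeal V := by
  intro h
  rw [mem_maximalIdeal, mem_nonunits_iff] at h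
  apply h
  refine IsUnit.of_mul_eq_one ⟨algebraMap ℚ K (1 / 2), hQ _⟩ ?_
  apply Subtype.ext
  have h2 : ((2 : V) : K) = 2 := rfl
  rw [MulMemClass.coe_mul, h2]
  have h3 : (2 : K) = algebraMap ℚ K 2 := by simp
  rw [h3, ← map_mul]
  norm_num

theorem inf2 {K : Type} [Field K] [Algebra ℚ K] (V : ValuationSubring K)
    (hQ : ∀ r : ℚ, algebraMap ℚ K r ∈ V) (A B : Po V) (hA3 : A.totalDegree ≤ 3)
    (hB3 : B.totalDegree ≤ 3) (hA : CI (maximalIdeal V) (A - A0 V))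
    (hB : CI (maximalIdeal V) (B - B0 V)) (p0 p1 : K) (hz : p1 ≠ 0)
    (hpA : eval ![p0, p1] (map (algebraMap V K) A) = 0)
    (hpB : eval ![p0, p1] (map (algebraMap V K) B) = 0)
    (hinf : p1⁻¹ ∈ V.nonunits) (hw : p0 * p1⁻¹ ∈ V.nonunits) : False := by
  rw [ValuationSubring.mem_nonunits_iff_exists_mem_maximalIdeal] at hinf hw
  obtain ⟨hzV, hz1⟩ := hinf
  obtain ⟨htV, ht1⟩ := hw
  set z : V := ⟨p1⁻¹, hzV⟩ with hzdef
  set t : V := ⟨p0 * p1⁻¹, htV⟩ with htdef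
  have hm : (map (algebraMap V K) A).totalDegree ≤ 3 := (inf2_map_deg _ _).trans hA3
  rw [inf2_eval _ hm] at hpA
  simp only [coeff_map] at hpA
  have hc : ∀ a : V, algebraMap V K a = (a : K) := fun a => rfl
  simp only [hc] at hpA
  have key : coeff (inf2_mm 0 3) A = -(z * (coeff (inf2_mm 0 0) A * z ^ 2
      + coeff (inf2_mm 0 1) A * z + coeff (inf2_mm 0 2) A)
      + t * (coeff (inf2_mm 1 0) A * z ^ 2 + coeff (inf2_mm 1 1) A * z
        + coeff (inf2_mm 1 2) A + coeff (inf2_mm 2 0) A * t * z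
        + coeff (inf2_mm 2 1) A * t + coeff (inf2_mm 3 0) A * t ^ 2)) := by
    apply Subtype.ext
    push_cast
    have hz' : (z : K) = p1⁻¹ := rfl
    have ht' : (t : K) = p0 * p1⁻¹ := rfl
    rw [hz', ht']
    field_simp
    linear_combination hpA
  have h1 : coeff (inf2_mm 0 3) A ∈ maximalIdeal V := by
    rw [key]
    exact Ideal.neg_mem_iff _ |>.2 (Ideal.add_mem _ (Ideal.mul_mem_right _ _ hz1)
      (Ideal.mul_mem_right _ _ ht1))
  have h2 := hA (inf2_mm 0 3)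
  rw [coeff_sub, inf2_A0] at h2
  have h3 : coeff (inf2_mm 0 3) (monomial (inf2_mm 0 1) 1
    + monomial (inf2_mm 1 1) 3 + monomial (inf2_mm 2 1) 8 + monomial (inf2_mm 0 3) (-2) : Po V)
      = -2 := by
    simp [coeff_monomial, inf2_mm_inj]
  rw [h3, sub_neg_eq_add] at h2
  exact inf2_two V hQ ((Ideal.add_mem_iff_right _ h1).1 h2)

end Pool.Agent.CF
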