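import Pool.Agent.Lib_helper78.CFF.Base

/-! author of this file: helper47 -/

/-!
# Block LA of the E(3) project: linear algebra over a local ring
-/

open MvPolynomial IsLocalRing

namespace Pool.Agent.CF

/-- a matrix over a local ring that is injective over the residue field has a left inverse -/
lemma la_lift {R : Type*} [CommRing R] [IsLocalRing R] {m n : Type*} [Fintype m] [Fintype n]
    [DecidableEq m] [DecidableEq n] (A : Matrix m n R)
    (hinj : ∀ x : n → ResidueField R, (A.map (residue R)).mulVec x = 0 → x = 0) :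
    ∃ B : Matrix n m R, B * A = 1 := by
  classical
  have h1 : Function.Injective ((A.map (residue R)).mulVecLin) := by
    rw [← LinearMap.ker_eq_bot, LinearMap.ker_eq_bot']
    intro x hx
    exact hinj x (by simpa using hx)
  obtain ⟨g, hg⟩ := LinearMap.exists_leftInverse_of_injective _ (LinearMap.ker_eq_bot.2 h1)
  set Bb : Matrix n m (ResidueField R) := LinearMap.toMatrix' g with hBb
  have hB1 : Bb * A.map (residue R) = 1 := by
    have := congrArg LinearMap.toMatrix' hg
    rw [LinearMap.toMatrix'_comp, LinearMap.toMatrix'_id] at this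
    rw [← this, hBb]
    congr 1
    rw [← Matrix.toLin'_apply', LinearMap.toMatrix'_toLin']
  have hs : ∀ i j, ∃ b : R, residue R b = Bb i j := fun i j => residue_surjective _
  choose b hb using hs
  set B0 : Matrix n m R := Matrix.of b with hB0
  have hB0m : B0.map (residue R) = Bb := by
    ext i j
    simp [hB0, hb]
  have h2 : (B0 * A).map (residue R) = 1 := by
    rw [Matrix.map_mul, hB0m, hB1]
  have h3 : IsUnit (B0 * A).det := by
    rw [← isUnit_map_iff (residue R), RingHom.map_det]
    have : (residue R).mapMatrix (B0 * A) = 1 := h2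
    rw [this, Matrix.det_one]
    exact isUnit_one
  refine ⟨(B0 * A)⁻¹ * B0, ?_⟩
  rw [Matrix.mul_assoc, Matrix.nonsing_inv_mul _ h3]

lemma la_map_mulVec {R S : Type*} [CommRing R] [CommRing S] (f : R →+* S) {m n : Type*}
    [Fintype n] (A : Matrix m n R) (v : n → R) (i : m) :
    f (A.mulVec v i) = (A.map f).mulVec (fun j => f (v j)) i := by
  simp [Matrix.mulVec, dotProduct, map_sum]

lemma la_rows {R S : Type*} [CommRing R] [CommRing S] (f : R →+* S) {m m' n : Type*}
    (M : Matrix m n R) (L : Matrix m' n R) :
    (Matrix.fromRows M L).map f = Matrix.fromRows (M.map f) (L.map f) := by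
  ext i j
  rcases i with i | i <;> simp

theorem la {R : Type*} [CommRing R] [IsLocalRing R] {ι ι' : Type} [Fintype ι] [Fintype ι']
    [DecidableEq ι] [DecidableEq ι'] (M : Matrix ι' ι R) (d : ℕ) (w : Fin d → ι → R)
    (hw : LinearIndependent (ResidueField R) fun j => fun i => residue R (w j i))
    (hspan : ∀ x : ι → ResidueField R, (M.map (residue R)).mulVec x = 0 →
      x ∈ Submodule.span (ResidueField R) (Set.range fun j => fun i => residue R (w j i)))
    {K : Type*} [Field K] (φ : R →+* K)
    (hK : ∃ y : Fin d → ι → K, LinearIndependent K y ∧ ∀ j, (M.map φ).mulVec (y j) = 0)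
    (hφ : Function.Injective φ) (J : Ideal R) (hJ : J ≤ maximalIdeal R)
    (hwJ : ∀ j i, M.mulVec (w j) i ∈ J) :
    (∀ x : ι → ResidueField R, (M.map (residue R)).mulVec x = 0 →
      ∃ u : ι → R, M.mulVec u = 0 ∧ ∀ i, residue R (u i) = x i) ∧
    (∀ u : ι → R, M.mulVec u = 0 → ∃ c : Fin d → R, ∀ i, u i - ∑ j, c j * w j i ∈ J) := by
  classical
  -- the matrix with columns `w j`
  set W : Matrix ι (Fin d) R := Matrix.of fun i j => w j i with hW
  have hWv : ∀ c : Fin d → R, W.mulVec c = fun i => ∑ j, c j * w j i := by
    intro c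
    ext i
    simp [hW, Matrix.mulVec, dotProduct, mul_comm]
  have hWv' : ∀ c : Fin d → ResidueField R,
      (W.map (residue R)).mulVec c = ∑ j, c j • (fun i => residue R (w j i)) := by
    intro c
    ext i
    simp [hW, Matrix.mulVec, dotProduct, mul_comm, Finset.sum_apply]
  obtain ⟨L, hL⟩ := la_lift W (by
    intro c hc
    rw [hWv'] at hc
    exact funext fun j => (Fintype.linearIndependent_iff.1 hw) c hc j)
  set N : Matrix (ι' ⊕ Fin d) ι R := Matrix.fromRows M L with hN
  have hNr : N.map (residue R) = Matrix.fromRows (M.map (residue R)) (L.map (residue R)) :=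
    la_rows _ M L
  have hNm : N.map φ = Matrix.fromRows (M.map φ) (L.map φ) := la_rows _ M L
  obtain ⟨Q, hQ⟩ := la_lift N (by
    intro x hx
    have hx' : ∀ i, (N.map (residue R)).mulVec x i = 0 := fun i => by rw [hx]; rfl
    have e1 : (M.map (residue R)).mulVec x = 0 := by
      ext i
      have := hx' (Sum.inl i)
      simpa [Matrix.mulVec, dotProduct, hN] using this
    have e2 : (L.map (residue R)).mulVec x = 0 := by
      ext i
      have := hx' (Sum.inr i)
      simpa [Matrix.mulVec, dotProduct, hN] using this
    obtain ⟨c, hc⟩ := (Submodule.mem_span_range_iff_exists_fun _).1 (hspan x e1)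
    rw [← hWv'] at hc
    have e3 : (L.map (residue R)).mulVec ((W.map (residue R)).mulVec c) = c := by
      rw [Matrix.mulVec_mulVec, ← Matrix.map_mul, hL]
      simp
    rw [← hc] at e2
    rw [e3] at e2
    rw [← hc, e2, Matrix.mulVec_zero])
  -- solutions with prescribed `L`-part
  have hU : ∀ c : Fin d → R, M.mulVec (Q.mulVec (Sum.elim 0 c)) = 0 ∧
      L.mulVec (Q.mulVec (Sum.elim 0 c)) = c := by
    obtain ⟨y, hy, hMy⟩ := hK
    set Y : Matrix ι (Fin d) K := Matrix.of fun i j => y j i with hY
    have hYv : ∀ c : Fin d → K, Y.mulVec c = ∑ j, c j • y j := by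
      intro c
      ext i
      simp [hY, Matrix.mulVec, dotProduct, mul_comm, Finset.sum_apply]
    have hMY : ∀ c, (M.map φ).mulVec (Y.mulVec c) = 0 := by
      intro c
      rw [hYv, Matrix.mulVec_sum]
      refine Finset.sum_eq_zero fun j _ => ?_
      rw [Matrix.mulVec_smul, hMy, smul_zero]
    have hNY : ∀ c, (N.map φ).mulVec (Y.mulVec c) =
        Sum.elim (0 : ι' → K) ((L.map φ).mulVec (Y.mulVec c)) := by
      intro c
      rw [hNm, Matrix.fromRows_mulVec, hMY]
    have hQK : ∀ v : ι → K, (Q.map φ).mulVec ((N.map φ).mulVec v) = v := by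
      intro v
      rw [Matrix.mulVec_mulVec, ← Matrix.map_mul, hQ]
      simp
    have hinj : Function.Injective ((L.map φ * Y).mulVecLin) := by
      rw [← LinearMap.ker_eq_bot, LinearMap.ker_eq_bot']
      intro c hc
      have hc' : (L.map φ).mulVec (Y.mulVec c) = 0 := by
        rw [Matrix.mulVec_mulVec]
        simpa using hc
      have h1 := hNY c
      rw [hc'] at h1
      have h2 := hQK (Y.mulVec c)
      rw [h1] at h2
      have h3 : Sum.elim (0 : ι' → K) (0 : Fin d → K) = 0 := by
        ext i; rcases i with i | i <;> rfl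
      rw [h3, Matrix.mulVec_zero, hYv] at h2
      exact funext fun j => (Fintype.linearIndependent_iff.1 hy) c h2.symm j
    have hsurj := LinearMap.surjective_of_injective hinj
    intro c
    obtain ⟨b, hb⟩ := hsurj fun j => φ (c j)
    have hb' : (L.map φ).mulVec (Y.mulVec b) = fun j => φ (c j) := by
      rw [Matrix.mulVec_mulVec]
      simpa using hb
    set v := Y.mulVec b with hv
    have hvQ : v = fun i => φ (Q.mulVec (Sum.elim 0 c) i) := by
      rw [← hQK v, hNY, hb']
      ext i
      rw [la_map_mulVec]
      congr 1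
      ext k
      rcases k with k | k <;> simp
    constructor
    · ext i
      apply hφ
      rw [la_map_mulVec, ← hvQ, hMY]
      simp
    · ext i
      apply hφ
      rw [la_map_mulVec, ← hvQ, hb']
  constructor
  · intro x hx
    have hs : ∀ j, ∃ c : R, residue R c = (L.map (residue R)).mulVec x j :=
      fun j => residue_surjective _
    choose c hc using hs
    obtain ⟨h1, h2⟩ := hU c
    refine ⟨_, h1, ?_⟩
    set u := Q.mulVec (Sum.elim 0 c) with hu
    have h3 : (N.map (residue R)).mulVec ((fun i => residue R (u i)) - x) = 0 := by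
      rw [hNr, Matrix.fromRows_mulVec, Matrix.mulVec_sub, Matrix.mulVec_sub, hx]
      ext i
      rcases i with i | i
      · simp only [Sum.elim_inl, Pi.zero_apply, sub_zero]
        rw [← la_map_mulVec, h1]
        simp
      · simp only [Sum.elim_inr, Pi.sub_apply, Pi.zero_apply]
        rw [← la_map_mulVec, h2, hc, sub_self]
    have h4 : (Q.map (residue R)).mulVec ((N.map (residue R)).mulVec
        ((fun i => residue R (u i)) - x)) = (fun i => residue R (u i)) - x := by
      rw [Matrix.mulVec_mulVec, ← Matrix.map_mul, hQ]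
      simp
    rw [h3, Matrix.mulVec_zero] at h4
    intro i
    have := congrFun h4 i
    exact (sub_eq_zero.1 this.symm)
  · intro u hu
    refine ⟨L.mulVec u, fun i => ?_⟩
    set v : ι → R := u - W.mulVec (L.mulVec u) with hv
    have h1 : L.mulVec v = 0 := by
      rw [hv, Matrix.mulVec_sub, Matrix.mulVec_mulVec, Matrix.mulVec_mulVec, hL,
        Matrix.one_mul, sub_self]
    have h2 : ∀ k, M.mulVec v k ∈ J := by
      intro k
      rw [hv, Matrix.mulVec_sub, hu, hWv]
      simp only [Pi.sub_apply, Pi.zero_apply, zero_sub]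
      refine J.neg_mem ?_
      have : M.mulVec (fun i => ∑ j, L.mulVec u j * w j i) k =
          ∑ j, L.mulVec u j * M.mulVec (w j) k := by
        simp only [Matrix.mulVec, dotProduct, Finset.mul_sum]
        rw [Finset.sum_comm]
        refine Finset.sum_congr rfl fun j _ => Finset.sum_congr rfl fun i _ => ?_
        ring
      rw [this]
      exact J.sum_mem fun j _ => J.mul_mem_left _ (hwJ j k)
    have h3 : v = Q.mulVec (N.mulVec v) := by
      rw [Matrix.mulVec_mulVec, hQ, Matrix.one_mulVec]
    have h4 : ∀ k, N.mulVec v k ∈ J := by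
      intro k
      rw [hN, Matrix.fromRows_mulVec]
      rcases k with k | k
      · exact h2 k
      · simp [h1]
    have h5 : v i ∈ J := by
      rw [h3]
      simp only [Matrix.mulVec, dotProduct]
      refine J.sum_mem fun k _ => J.mul_mem_left _ ?_
      have := h4 k
      simpa only [Matrix.mulVec, dotProduct] using this
    have h6 : v i = u i - ∑ j, L.mulVec u j * w j i := by
      rw [hv, hWv]; rfl
    rw [← h6]
    exact h5

end Pool.Agent.CF
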