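import Pool.Agent.Lib_helper78.CFF.Base

/-! author of this file: helper47 -/

/-!
# Blocks OLOC and GP of the E(3) project
-/

open MvPolynomial IsLocalRing

namespace Pool.Agent.CF

theorem oloc {K : Type} [Field K] (V : ValuationSubring K) [Algebra ℚ K]
    (hQ : ∀ r : ℚ, algebraMap ℚ K r ∈ V) {ι : Type} [Finite ι] (c : ι → K) (r : ι → ℚ)
    (hc : ∀ i, c i - algebraMap ℚ K (r i) ∈ V.nonunits) :
    ∃ (O : Type) (_ : CommRing O) (_ : IsLocalRing O) (_ : IsNoetherianRing O)
      (_ : Algebra ℚ O) (φ : O →+* K), Function.Injective φ ∧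
      ∀ i, ∃ c' : O, φ c' = c i ∧ c' - algebraMap ℚ O (r i) ∈ maximalIdeal O := by
  classical
  -- `V` as a subalgebra
  let VA : Subalgebra ℚ K :=
    { V.toSubring with algebraMap_mem' := fun x => hQ x }
  have hcV : ∀ i, c i ∈ V := by
    intro i
    have h1 := V.nonunits_subset (hc i)
    have h2 : c i = (c i - algebraMap ℚ K (r i)) + algebraMap ℚ K (r i) := by ring
    rw [h2]
    exact V.add_mem _ _ h1 (hQ _)
  let A : Subalgebra ℚ K := Algebra.adjoin ℚ (Set.range c)
  have hAV : A ≤ VA := by
    refine Algebra.adjoin_le ?_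
    rintro _ ⟨i, rfl⟩
    exact hcV i
  have hfin : Algebra.FiniteType ℚ A := by
    refine (Subalgebra.fg_iff_finiteType A).1 ?_
    exact Subalgebra.fg_def.2 ⟨Set.range c, Set.finite_range c, rfl⟩
  have : IsNoetherianRing A := Algebra.FiniteType.isNoetherianRing ℚ A
  -- the prime
  let j : A →+* V := Subring.inclusion (S := A.toSubring) (T := V.toSubring) hAV
  let P : Ideal A := (maximalIdeal V).comap j
  have hP : P.IsPrime := Ideal.comap_isPrime j _
  have hPmem : ∀ a : A, a ∈ P ↔ (a : K) ∈ V.nonunits := by
    intro a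
    rw [Ideal.mem_comap, IsLocalRing.mem_maximalIdeal, mem_nonunits_iff]
    rw [ValuationSubring.mem_nonunits_iff_exists_mem_maximalIdeal]
    constructor
    · intro h
      exact ⟨hAV a.2, h⟩
    · rintro ⟨h1, h2⟩
      exact h2
  let O := Localization.AtPrime P
  have : IsLocalRing O := inferInstance
  have : IsNoetherianRing O := IsLocalization.isNoetherianRing P.primeCompl O inferInstance
  let φ : O →+* K := IsLocalization.lift (M := P.primeCompl) (S := O) (g := (algebraMap A K)) (by
    intro y
    have : ((y : A) : K) ≠ 0 := by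
      intro h
      apply y.2
      change (y : A) ∈ P
      rw [hPmem, h]
      exact (ValuationSubring.mem_nonunits_iff_exists_mem_maximalIdeal).2
        ⟨V.zero_mem, (maximalIdeal V).zero_mem⟩
    exact isUnit_iff_ne_zero.2 this)
  have hφ : Function.Injective φ := by
    rw [IsLocalization.lift_injective_iff]
    intro x y
    constructor
    · intro h
      congr 1
      have h1 := congrArg φ h
      simpa [φ] using h1
    · intro h
      congr 1
      exact Subtype.ext h
  refine ⟨O, inferInstance, inferInstance, inferInstance, inferInstance, φ, hφ, fun i => ?_⟩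
  let ai : A := ⟨c i, Algebra.subset_adjoin ⟨i, rfl⟩⟩
  refine ⟨algebraMap A O ai, ?_, ?_⟩
  · simp [φ, ai]
  · have h1 : algebraMap A O ai - algebraMap ℚ O (r i) = algebraMap A O (ai - algebraMap ℚ A (r i)) := by
      rw [map_sub, ← IsScalarTower.algebraMap_apply]
    rw [h1]
    rw [IsLocalization.AtPrime.to_map_mem_maximal_iff O P]
    rw [hPmem]
    exact hc i

end Pool.Agent.CF
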