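import Pool.Agent.Lib_helper78.CFF.LM
import Pool.Agent.Lib_helper78.CFF.KER
import Pool.Agent.Lib_helper78.CFF.FAM1
import Pool.Agent.Lib_helper78.CFF.FAM2
import Pool.Agent.Lib_helper78.CFF.Cert5

/-! author of this file: helper47 -/

/-!
# Block THC of the E(3) project: the local theorem at the center
-/

open MvPolynomial IsLocalRing

namespace Pool.Agent.CF

/-! ### degrees -/

section deg
variable {R : Type*} [CommRing R] {n k : ℕ} {p q : Po R}

lemma thc_deg_coeff (h : p.totalDegree ≤ n) (m : Fin 2 →₀ ℕ) (hm : n < m 0 + m 1) :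
    coeff m p = 0 := by
  apply coeff_eq_zero_of_totalDegree_lt
  refine lt_of_le_of_lt h ?_
  have e : ∑ i ∈ m.support, m i = m.degree := rfl
  rw [e, deg2]
  exact hm

lemma thc_deg_of_coeff (h : ∀ m : Fin 2 →₀ ℕ, n < m 0 + m 1 → coeff m p = 0) :
    p.totalDegree ≤ n := by
  rw [totalDegree, Finset.sup_le_iff]
  intro m hm
  by_contra hc
  push Not at hc
  have e : (m.sum fun _ e => e) = m 0 + m 1 := by
    have e1 : (m.sum fun _ e => e) = m.degree := rfl
    rw [e1, deg2]
  rw [e] at hc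
  exact (mem_support_iff.1 hm) (h m hc)

/-- total degree at most `n` -/
def thc_D (n : ℕ) (p : Po R) : Prop := p.totalDegree ≤ n

lemma thc_D.mono (h : thc_D n p) (hk : n ≤ k) : thc_D k p := le_trans h hk
lemma thc_D.mul (hp : thc_D n p) (hq : thc_D k q) : thc_D (n + k) (p * q) :=
  (totalDegree_mul p q).trans (add_le_add hp hq)
lemma thc_D.add (hp : thc_D n p) (hq : thc_D n q) : thc_D n (p + q) :=
  (totalDegree_add p q).trans (max_le hp hq)
lemma thc_D.sub (hp : thc_D n p) (hq : thc_D n q) : thc_D n (p - q) :=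
  (totalDegree_sub p q).trans (max_le hp hq)
lemma thc_D.neg (hp : thc_D n p) : thc_D n (-p) := by
  unfold thc_D; rw [totalDegree_neg]; exact hp
lemma thc_D_C (c : R) : thc_D 0 (C c : Po R) := by
  unfold thc_D; rw [totalDegree_C]
lemma thc_D_nat (c : ℕ) : thc_D 0 (c : Po R) := by
  have := thc_D_C (c : R)
  rwa [map_natCast] at this
lemma thc_D.pow (hp : thc_D n p) (k : ℕ) : thc_D (k * n) (p ^ k) :=
  (totalDegree_pow p k).trans (Nat.mul_le_mul_left k hp)

lemma thc_D_pderiv (i : Fin 2) (hp : thc_D 1 p) : thc_D 0 (pderiv i p) := by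
  apply thc_deg_of_coeff
  intro m hm
  rw [coeff_pderiv, thc_deg_coeff hp, zero_mul]
  fin_cases i <;> simp <;> omega

lemma thc_D_Ph (i : Fin 2) {L s a c : Po R} (hL : thc_D 1 L) (hs : thc_D 1 s) (ha : thc_D 1 a)
    (hc : thc_D 1 c) : thc_D 3 (Ph i L s a c) := by
  have n8 : thc_D 0 (8 : Po R) := by have := thc_D_nat (R := R) 8; exact_mod_cast this
  have n3 : thc_D 0 (3 : Po R) := by have := thc_D_nat (R := R) 3; exact_mod_cast this
  have n4 : thc_D 0 (4 : Po R) := by have := thc_D_nat (R := R) 4; exact_mod_cast this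
  have n6 : thc_D 0 (6 : Po R) := by have := thc_D_nat (R := R) 6; exact_mod_cast this
  have n12 : thc_D 0 (12 : Po R) := by have := thc_D_nat (R := R) 12; exact_mod_cast this
  have n2 : thc_D 0 (2 : Po R) := by have := thc_D_nat (R := R) 2; exact_mod_cast this
  have dL := thc_D_pderiv i hL
  have ds := thc_D_pderiv i hs
  have da := thc_D_pderiv i ha
  have dc := thc_D_pderiv i hc
  unfold Ph
  refine thc_D.add (thc_D.add ?_ ?_) ?_
  · exact (((n8.mul (hs.pow 2)).mul hc).sub ((n3.mul hs).mul (ha.pow 2))).mul dL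
  · refine (hL.mul (k := 2) ?_)
    refine thc_D.add (thc_D.sub (thc_D.add ?_ ?_) ?_) ?_
    · exact (n4.mul (hs.pow 2)).mul dc
    · exact ((n6.mul (ha.pow 2)).sub ((n12.mul hc).mul hs)).mul ds
    · exact ((n3.mul hs).mul ha).mul da
    · exact ((n2.mul ha).mul hc).mul dL
  · refine ((hL.pow 2).mul (k := 1) ?_)
    exact ((n4.mul ha).mul dc).sub ((n6.mul hc).mul da)

end deg

/-! ### maps -/

section maps
variable {R S : Type*} [CommRing R] [CommRing S]

lemma thc_map_A0 (φ : R →+* S) : map φ (A0 R) = A0 S := by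
  simp [A0]

lemma thc_map_B0 (φ : R →+* S) : map φ (B0 R) = B0 S := by
  simp [B0]

lemma thc_map_gF (φ : R →+* S) (L s a c : Po R) :
    map φ (gF L s a c) = gF (map φ L) (map φ s) (map φ a) (map φ c) := by
  simp [gF]

lemma thc_map_fF (φ : R →+* S) (L s a : Po R) :
    map φ (fF L s a) = fF (map φ L) (map φ s) (map φ a) := by
  simp [fF]

lemma thc_map_Lb (φ : R →+* S) : map φ (Lb R) = Lb S := by
  simp [Lb]

lemma thc_map_sb (φ : R →+* S) : map φ (sb R) = sb S := by
  simp [sb]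

variable [Algebra ℚ R] [Algebra ℚ S]

lemma thc_alg (φ : R →+* S) (q : ℚ) : φ (algebraMap ℚ R q) = algebraMap ℚ S q := by
  have : (φ.comp (algebraMap ℚ R)) = algebraMap ℚ S := Subsingleton.elim _ _
  rw [← this]; rfl

lemma thc_map_ab (φ : R →+* S) : map φ (ab R) = ab S := by
  rw [ab, ab, map_mul, map_C, thc_alg, map_sub, map_mul, map_one, map_X, map_ofNat]

lemma thc_map_cb (φ : R →+* S) : map φ (cb R) = cb S := by
  rw [cb, cb, map_neg, map_mul, map_C, thc_alg, map_X]

end maps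

lemma thc_gb (R : Type*) [CommRing R] [Algebra ℚ R] :
    gF (Lb R) (sb R) (ab R) (cb R) = -6 * (X 0 * X 1) - 12 * X 0 ^ 2 * X 1 - 2 * X 1 ^ 3 := by
  have h12 : (12 : Po R) * C (algebraMap ℚ R (1 / 12)) = 1 := by
    have : (12 : Po R) = C (algebraMap ℚ R 12) := by
      rw [map_ofNat (algebraMap ℚ R) 12, map_ofNat C 12]
    rw [this, ← C_mul, ← map_mul, show (12 : ℚ) * (1 / 12) = 1 by norm_num, map_one, C_1]
  have h32 : (32 : Po R) * C (algebraMap ℚ R (1 / 32)) = 1 := by
    have : (32 : Po R) = C (algebraMap ℚ R 32) := by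
      rw [map_ofNat (algebraMap ℚ R) 32, map_ofNat C 32]
    rw [this, ← C_mul, ← map_mul, show (32 : ℚ) * (1 / 32) = 1 by norm_num, map_one, C_1]
  rw [gF, Lb, sb, ab, cb]
  linear_combination (-(1 + 2 * X 0) * X 1 * (4 * X 0 - 1)) * h12 - ((1 + 2 * X 0) ^ 2 * X 1) * h32

/-! ### the first integral of the base -/

section base
variable (R : Type*) [CommRing R]

lemma thc_A0_ord : Ord 2 (A0 R - X 1) := by
  have h : A0 R - X 1 = 3 * (X 0 * X 1) + 8 * X 0 * (X 0 * X 1) - 2 * X 1 * (X 1 * X 1) := by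
    rw [A0]; ring
  rw [h]
  exact (((ord_X 0).mul (ord_X 1)).mul_left _ |>.add (((ord_X 0).mul (ord_X 1)).mul_left _)).sub
    (((ord_X 1).mul (ord_X 1)).mul_left _)

lemma thc_B0_ord : Ord 2 (B0 R - X 0) := by
  have h : B0 R - X 0 = (-2 : Po R) * (X 0 * X 0) + 1 * (X 1 * X 1) - 8 * X 0 * (X 0 * X 0)
      + 2 * X 0 * (X 1 * X 1) := by
    rw [B0]; ring
  rw [h]
  exact (((((ord_X 0).mul (ord_X 0)).mul_left _).add (((ord_X 1).mul (ord_X 1)).mul_left _)).sub
    (((ord_X 0).mul (ord_X 0)).mul_left _)).add (((ord_X 1).mul (ord_X 1)).mul_left _)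

lemma thc_gb_ord :
    Ord 2 (-6 * (X 0 * X 1) - 12 * X 0 ^ 2 * X 1 - 2 * X 1 ^ 3 : Po R) := by
  have h : (-6 * (X 0 * X 1) - 12 * X 0 ^ 2 * X 1 - 2 * X 1 ^ 3 : Po R) =
      -6 * (X 0 * X 1) - 12 * X 0 * (X 0 * X 1) - 2 * X 1 * (X 1 * X 1) := by ring
  rw [h]
  exact ((((ord_X 0).mul (ord_X 1)).mul_left _).sub (((ord_X 0).mul (ord_X 1)).mul_left _)).sub
    (((ord_X 1).mul (ord_X 1)).mul_left _)

end base

/-- the (1,1) coefficient of a product with a polynomial of order 2 -/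
lemma thc_coeff_mul {R : Type*} [CommRing R] (p q : Po R) (hp : Ord 2 p) (m : Fin 2 →₀ ℕ)
    (hm : m 0 + m 1 = 2) : coeff m (p * q) = coeff m p * coeff 0 q := by
  classical
  rw [coeff_mul, Finset.sum_eq_single (m, 0)]
  · rintro ⟨a, b⟩ hab hne
    have hab' : a + b = m := Finset.HasAntidiagonal.mem_antidiagonal.1 hab
    have h0 : m 0 = a 0 + b 0 := by rw [← hab']; rfl
    have h1 : m 1 = a 1 + b 1 := by rw [← hab']; rfl
    by_cases hb : b = 0
    · exfalso
      apply hne
      rw [hb, add_zero] at hab'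
      rw [hab', hb]
    · have hb' : 0 < b 0 + b 1 := by
        by_contra hc
        apply hb
        ext i
        fin_cases i
        · simpa using (by omega : b 0 = 0)
        · simpa using (by omega : b 1 = 0)
      rw [hp a (by omega), zero_mul]
  · intro h
    exact absurd (Finset.HasAntidiagonal.mem_antidiagonal.2 (by simp)) h

lemma thc_gb_coeff (R : Type*) [CommRing R] :
    coeff (Finsupp.single 0 1 + Finsupp.single 1 1)
      (-6 * (X 0 * X 1) - 12 * X 0 ^ 2 * X 1 - 2 * X 1 ^ 3 : Po R) = -6 := by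
  classical
  have e1 : (X 0 * X 1 : Po R) = monomial (Finsupp.single 0 1 + Finsupp.single 1 1) 1 := by
    rw [X, X, monomial_mul]; simp
  have e2 : (X 0 ^ 2 * X 1 : Po R) = monomial (Finsupp.single 0 2 + Finsupp.single 1 1) 1 := by
    rw [X_pow_eq_monomial, X, monomial_mul]; simp
  have e3 : (X 1 ^ 3 : Po R) = monomial (Finsupp.single 1 3) 1 := by
    rw [X_pow_eq_monomial]
  have f6 : (-6 : Po R) = C (-6) := by rw [map_neg, map_ofNat]
  have f12 : (12 : Po R) = C 12 := (map_ofNat C 12).symm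
  have f2 : (2 : Po R) = C 2 := (map_ofNat C 2).symm
  rw [mul_assoc (12 : Po R), e1, e2, e3, f6, f12, f2, coeff_sub, coeff_sub, coeff_C_mul,
    coeff_C_mul, coeff_C_mul, coeff_monomial, coeff_monomial, coeff_monomial, if_pos rfl,
    if_neg, if_neg]
  · ring
  · intro h
    have := congrArg (fun f : Fin 2 →₀ ℕ => f 1) h
    simp at this
  · intro h
    have := congrArg (fun f : Fin 2 →₀ ℕ => f 0) h
    simp at this

/-! ### the step -/

lemma thc_coeff_XX {R : Type*} [CommRing R] (I J : Ideal R) (a b w : Po R) (ha : CI J a)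
    (hb : CI J b) (n : ℕ) (hw : ∀ m : Fin 2 →₀ ℕ, m 0 + m 1 < n + 1 → coeff m w ∈ I)
    (m : Fin 2 →₀ ℕ) (hm : m 0 + m 1 < n) : coeff m (XX a b w) ∈ J * I := by
  classical
  have key : ∀ (p : Po R) (i : Fin 2), CI J p → coeff m (p * pderiv i w) ∈ J * I := by
    intro p i hp
    rw [coeff_mul]
    refine Ideal.sum_mem _ fun x hx => ?_
    have hx' : x.1 + x.2 = m := Finset.HasAntidiagonal.mem_antidiagonal.1 hx
    have h0 : m 0 = x.1 0 + x.2 0 := by rw [← hx']; rfl
    have h1 : m 1 = x.1 1 + x.2 1 := by rw [← hx']; rfl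
    refine Ideal.mul_mem_mul (hp _) ?_
    rw [coeff_pderiv]
    refine I.mul_mem_right _ (hw _ ?_)
    fin_cases i <;> simp <;> omega
  rw [XX, coeff_sub]
  exact (J * I).sub_mem (key a 1 ha) (key b 0 hb)

section main
variable {O : Type} [CommRing O] [IsLocalRing O]

lemma thc_res_eq {p q : Po O} (h : CI (maximalIdeal O) (p - q)) :
    map (residue O) p = map (residue O) q := by
  have h1 : map (residue O) (p - q) = 0 := by
    rw [← ci_ker_iff, ker_residue]
    exact h
  rw [map_sub] at h1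
  exact sub_eq_zero.1 h1

variable [Algebra ℚ O]

/-- the claim of the induction -/
def thc_cl (A B : Po O) (N : ℕ) : Prop :=
  ∃ L s a c : Po O, L.totalDegree ≤ 1 ∧ s.totalDegree ≤ 1 ∧ a.totalDegree ≤ 1 ∧
    c.totalDegree ≤ 1 ∧ CI (maximalIdeal O) (L - Lb O) ∧ CI (maximalIdeal O) (s - sb O) ∧
    CI (maximalIdeal O) (a - ab O) ∧ CI (maximalIdeal O) (c - cb O) ∧
    CI (maximalIdeal O ^ N) (A - Ph 0 L s a c) ∧ CI (maximalIdeal O ^ N) (B - Ph 1 L s a c)

lemma thc_base (A B : Po O) (hA : CI (maximalIdeal O) (A - A0 O))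
    (hB : CI (maximalIdeal O) (B - B0 O)) : thc_cl A B 1 := by
  have n8 : thc_D 0 (8 : Po O) := by have := thc_D_nat (R := O) 8; exact_mod_cast this
  have n4 : thc_D 0 (4 : Po O) := by have := thc_D_nat (R := O) 4; exact_mod_cast this
  have n1 : thc_D 0 (1 : Po O) := by have := thc_D_nat (R := O) 1; exact_mod_cast this
  have dX : ∀ i : Fin 2, thc_D 1 (X i : Po O) := by
    intro i
    unfold thc_D
    rw [totalDegree_X]
  refine ⟨Lb O, sb O, ab O, cb O, ?_, ?_, ?_, ?_, ?_, ?_, ?_, ?_, ?_, ?_⟩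
  · exact (n4.mono (Nat.zero_le 1)).add (n8.mul (dX 0))
  · exact (dX 1).neg
  · exact (thc_D_C _).mul ((n4.mul (dX 0)).sub (n1.mono (Nat.zero_le 1)))
  · exact ((thc_D_C _).mul (dX 1)).neg
  · rw [sub_self]; exact CI.zero
  · rw [sub_self]; exact CI.zero
  · rw [sub_self]; exact CI.zero
  · rw [sub_self]; exact CI.zero
  · rw [base_A, pow_one]; exact hA
  · rw [base_B, pow_one]; exact hB

lemma thc_step {K : Type} [Field K] (φ : O →+* K) (hφ : Function.Injective φ) (A B : Po O)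
    (hA3 : A.totalDegree ≤ 3) (hB3 : B.totalDegree ≤ 3) (hA0 : coeff 0 A = 0)
    (hB0 : coeff 0 B = 0) (hA : CI (maximalIdeal O) (A - A0 O))
    (hB : CI (maximalIdeal O) (B - B0 O))
    (hK : ∃ H : Po K, FI 22 (map φ A) (map φ B) H) (N : ℕ) (hN : 1 ≤ N)
    (h : thc_cl A B N) : thc_cl A B (N + 1) := by
  obtain ⟨L, s, a, c, dL, ds, da, dc, hL, hs, ha, hc, h0, h1⟩ := h
  have : CharZero (ResidueField O) := algebraRat.charZero _
  set 𝔪 := maximalIdeal O with hm
  have hJ : 𝔪 ^ N ≤ 𝔪 := Ideal.pow_le_self (by omega)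
  -- residues
  have rL : map (residue O) L = Lb (ResidueField O) := by
    rw [thc_res_eq hL, thc_map_Lb]
  have rs : map (residue O) s = sb (ResidueField O) := by
    rw [thc_res_eq hs, thc_map_sb]
  have ra : map (residue O) a = ab (ResidueField O) := by
    rw [thc_res_eq ha, thc_map_ab]
  have rc : map (residue O) c = cb (ResidueField O) := by
    rw [thc_res_eq hc, thc_map_cb]
  have rA : map (residue O) A = A0 (ResidueField O) := by
    rw [thc_res_eq hA, thc_map_A0]
  have rB : map (residue O) B = B0 (ResidueField O) := by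
    rw [thc_res_eq hB, thc_map_B0]
  -- units
  have uL : IsUnit (coeff 0 L) := by
    rw [← residue_ne_zero_iff_isUnit, ← coeff_map, rL, ← constantCoeff_eq]
    simp only [Lb, map_add, map_mul, map_ofNat, constantCoeff_X, mul_zero, add_zero]
    norm_num
  have uf : IsUnit (coeff 0 (fF L s a)) := by
    rw [← residue_ne_zero_iff_isUnit, ← coeff_map, thc_map_fF, rL, rs, ra, ← constantCoeff_eq]
    simp only [fF, Lb, sb, ab, map_add, map_mul, map_ofNat, map_pow, map_neg, map_sub,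
      constantCoeff_X, constantCoeff_C, map_one, mul_zero, add_zero, neg_zero, zero_sub]
    have h12 : algebraMap ℚ (ResidueField O) (1 / 12) ≠ 0 := by
      rw [Ne, map_eq_zero]
      norm_num
    have h4 : (4 : ResidueField O) ≠ 0 := by norm_num
    intro hh
    apply mul_ne_zero h4 h12
    linear_combination -hh
  obtain ⟨S, U, hS0, hU0, hSe, hSo⟩ := fam_fi 22 L s a c uL uf
  -- the residue of S
  have rA' : map (residue O) (Ph 0 L s a c) = A0 (ResidueField O) := by
    rw [← rA]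
    exact (thc_res_eq (h0.mono hJ)).symm
  have rB' : map (residue O) (Ph 1 L s a c) = B0 (ResidueField O) := by
    rw [← rB]
    exact (thc_res_eq (h1.mono hJ)).symm
  have rg : map (residue O) (gF L s a c) =
      -6 * (X 0 * X 1) - 12 * X 0 ^ 2 * X 1 - 2 * X 1 ^ 3 := by
    rw [thc_map_gF, rL, rs, ra, rc, thc_gb]
  have rg0 : residue O (coeff 0 (gF L s a c)) = 0 := by
    rw [← coeff_map, rg]
    exact thc_gb_ord _ 0 (by simp)
  have rS : map (residue O) S =
      (-6 * (X 0 * X 1) - 12 * X 0 ^ 2 * X 1 - 2 * X 1 ^ 3) * map (residue O) U := by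
    rw [hSe, map_sub, map_mul, rg, map_C, rg0, C_0, sub_zero]
  have hSk : FI 22 (map (residue O) A) (map (residue O) B) (map (residue O) S) := by
    refine ⟨?_, ⟨Finsupp.single 0 1 + Finsupp.single 1 1, by simp, ?_⟩, ?_⟩
    · rw [rS]
      exact (thc_gb_ord _).mul_right _
    · rw [rS, thc_coeff_mul _ _ (thc_gb_ord _) _ (by simp), thc_gb_coeff, coeff_map, hU0, map_one,
        mul_one]
      norm_num
    · rw [rA, rB, ← rA', ← rB', ← map_XX]
      exact hSo.map _
  obtain ⟨H0, hH0, hHo, hcert⟩ := cert_H0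
  -- the comparison
  have hubo : Ord 22 (XX (map (residue O) A) (map (residue O) B)
      (map (algebraMap ℚ (ResidueField O)) H0)) := by
    have := hHo.map (algebraMap ℚ (ResidueField O))
    rw [map_XX, thc_map_A0, thc_map_B0] at this
    rw [rA, rB]
    exact this
  obtain ⟨u, h, hhJ, -, hu, hcmp⟩ := lemM φ hφ 20 A B (Ph 0 L s a c) (Ph 1 L s a c) S (𝔪 ^ N) hJ
    hA0 hB0 h0 h1 hS0 hSo hSk
    (by
      intro h hh0 hho
      have k1 : Ord 2 (map (residue O) A - X 1) := by rw [rA]; exact thc_A0_ord _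
      have k2 : Ord 2 (map (residue O) B - X 0) := by rw [rB]; exact thc_B0_ord _
      exact ker_C 21 _ _ _ h k1 k2 hSk hh0 hho)
    hK (map (algebraMap ℚ (ResidueField O)) H0)
    (by rw [coeff_map, hH0, map_zero]) hubo
  -- the certificate
  have hpow : 𝔪 ^ N * 𝔪 = 𝔪 ^ (N + 1) := (pow_succ _ _).symm
  have hpow' : 𝔪 * 𝔪 ^ N = 𝔪 ^ (N + 1) := (pow_succ' _ _).symm
  have hJ2 : (𝔪 ^ N) ^ 2 ≤ 𝔪 ^ (N + 1) := by
    rw [← pow_mul]
    exact Ideal.pow_le_pow_right (by omega)
  obtain ⟨l, t, b', d, dl, dt, db, dd, hl, ht, hb, hd, e0, e1⟩ := hcert O (𝔪 ^ N) (𝔪 ^ (N + 1))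
    (A - Ph 0 L s a c) (B - Ph 1 L s a c) h
    (thc_D.sub hA3 (thc_D_Ph 0 dL ds da dc)) (thc_D.sub hB3 (thc_D_Ph 1 dL ds da dc)) h0 h1
    (by
      intro m hm20
      have e : XX (A - Ph 0 L s a c) (B - Ph 1 L s a c) (map (algebraMap ℚ O) H0) +
          XX (A0 O) (B0 O) h =
          (XX (A - Ph 0 L s a c) (B - Ph 1 L s a c) u + XX A B h) +
          XX (A - Ph 0 L s a c) (B - Ph 1 L s a c) (map (algebraMap ℚ O) H0 - u) -
          XX (A - A0 O) (B - B0 O) h := by
        rw [XX_sub, XX_sub_left A B (A0 O) (B0 O)]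
        ring
      rw [e, coeff_sub, coeff_add]
      refine Ideal.sub_mem _ (Ideal.add_mem _ (hJ2 (hcmp m hm20)) ?_) ?_
      · rw [← hpow]
        refine thc_coeff_XX 𝔪 (𝔪 ^ N) _ _ _ h0 h1 21 ?_ m (by omega)
        intro m' hm'
        rw [hm, ← ker_residue, RingHom.mem_ker, ← coeff_map, map_sub, map_map]
        have e2 : (residue O).comp (algebraMap ℚ O) = algebraMap ℚ (ResidueField O) :=
          Subsingleton.elim _ _
        rw [e2]
        have := hu m' hm'
        rw [coeff_sub] at this ⊢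
        rw [← neg_sub, this, neg_zero]
      · rw [← hpow']
        exact ci_XX hA hB hhJ m)
  have f0 := fam_exp (𝔪 ^ N) 𝔪 hJ 0 L s a c _ _ _ _ l t b' d hL hs ha hc hl ht hb hd
  have f1 := fam_exp (𝔪 ^ N) 𝔪 hJ 1 L s a c _ _ _ _ l t b' d hL hs ha hc hl ht hb hd
  rw [hpow'] at f0 f1
  refine ⟨L + l, s + t, a + b', c + d, thc_D.add dL dl, thc_D.add ds dt, thc_D.add da db,
    thc_D.add dc dd, ?_, ?_, ?_, ?_, ?_, ?_⟩
  · rw [show L + l - Lb O = (L - Lb O) + l by ring]
    exact hL.add (hl.mono hJ)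
  · rw [show s + t - sb O = (s - sb O) + t by ring]
    exact hs.add (ht.mono hJ)
  · rw [show a + b' - ab O = (a - ab O) + b' by ring]
    exact ha.add (hb.mono hJ)
  · rw [show c + d - cb O = (c - cb O) + d by ring]
    exact hc.add (hd.mono hJ)
  · have := e0.sub f0
    convert this using 1
    ring
  · have := e1.sub f1
    convert this using 1
    ring

end main

theorem thmC {O : Type} [CommRing O] [IsLocalRing O] [IsNoetherianRing O] [Algebra ℚ O]
    {K : Type} [Field K] (φ : O →+* K) (hφ : Function.Injective φ) (A B : Po O)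
    (hA3 : A.totalDegree ≤ 3) (hB3 : B.totalDegree ≤ 3) (hA0 : coeff 0 A = 0)
    (hB0 : coeff 0 B = 0) (hA : CI (maximalIdeal O) (A - A0 O))
    (hB : CI (maximalIdeal O) (B - B0 O))
    (hK : ∃ H : Po K, FI 22 (map φ A) (map φ B) H) :
    (X 0 * A + X 1 * B).totalDegree ≤ 3 := by
  have hcl : ∀ N : ℕ, 1 ≤ N → thc_cl A B N := by
    intro N hN
    induction N, hN using Nat.le_induction with
    | base => exact thc_base A B hA hB
    | succ N hN ih => exact thc_step φ hφ A B hA3 hB3 hA0 hB0 hA hB hK N hN ih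
  apply thc_deg_of_coeff
  intro m hm
  have hmem : coeff m (X 0 * A + X 1 * B) ∈ ⨅ i : ℕ, maximalIdeal O ^ i := by
    rw [Ideal.mem_iInf]
    intro i
    obtain ⟨L, s, a, c, dL, ds, da, dc, -, -, -, -, h0, h1⟩ := hcl (i + 1) (by omega)
    have h2 : CI (maximalIdeal O ^ (i + 1))
        ((X 0 * A + X 1 * B) - (X 0 * Ph 0 L s a c + X 1 * Ph 1 L s a c)) := by
      have := (h0.mul_left (X 0)).add (h1.mul_left (X 1))
      convert this using 1
      ring
    have h3 := h2 m
    rw [coeff_sub, thc_deg_coeff (fam_deg L s a c dL ds da dc) m hm, sub_zero] at h3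
    exact Ideal.pow_le_pow_right (Nat.le_succ i) h3
  rw [Ideal.iInf_pow_eq_bot_of_isLocalRing _ (maximalIdeal.isMaximal O).ne_top] at hmem
  exact (Submodule.mem_bot O).1 hmem

end Pool.Agent.CF
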