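import Pool.Agent.Lib_helper78.CFF.Base

/-! author of this file: helper37 -/

/-!
# TRC: the other singular points have nonzero trace
-/

open MvPolynomial IsLocalRing

namespace Pool.Agent.CF

theorem trc {k : Type*} [Field k] [CharZero k] (p q : k)
    (hA : eval ![p, q] (A0 k) = 0) (hB : eval ![p, q] (B0 k) = 0)
    (hT : eval ![p, q] (pderiv 0 (B0 k)) - eval ![p, q] (pderiv 1 (A0 k)) = 0) :
    p = 0 ∧ q = 0 := by
  have hA' : q + 3 * p * q + 8 * p ^ 2 * q - 2 * q ^ 3 = 0 := by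
    simpa [A0] using hA
  have hB' : p - 2 * p ^ 2 + q ^ 2 - 8 * p ^ 3 + 2 * p * q ^ 2 = 0 := by
    simpa [B0] using hB
  have n2 : ∀ i, pderiv i (2 : Po k) = 0 := fun i => by
    rw [show (2 : Po k) = C 2 from (map_ofNat C 2).symm, pderiv_C]
  have n3 : ∀ i, pderiv i (3 : Po k) = 0 := fun i => by
    rw [show (3 : Po k) = C 3 from (map_ofNat C 3).symm, pderiv_C]
  have n8 : ∀ i, pderiv i (8 : Po k) = 0 := fun i => by
    rw [show (8 : Po k) = C 8 from (map_ofNat C 8).symm, pderiv_C]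
  have e1 : eval ![p, q] (pderiv 0 (B0 k)) = 1 - 4 * p - 24 * p ^ 2 + 2 * q ^ 2 := by
    simp only [B0, map_add, map_sub, Derivation.leibniz, Derivation.leibniz_pow, smul_eq_mul,
      nsmul_eq_mul, n2, n8, pderiv_X_self, pderiv_X_of_ne (show (1 : Fin 2) ≠ 0 by decide)]
    simp
    ring
  have e2 : eval ![p, q] (pderiv 1 (A0 k)) = 1 + 3 * p + 8 * p ^ 2 - 6 * q ^ 2 := by
    simp only [A0, map_add, map_sub, Derivation.leibniz, Derivation.leibniz_pow, smul_eq_mul,
      nsmul_eq_mul, n2, n3, n8, pderiv_X_self, pderiv_X_of_ne (show (0 : Fin 2) ≠ 1 by decide)]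
    simp
    ring
  have hT' : -7 * p - 32 * p ^ 2 + 8 * q ^ 2 = 0 := by
    rw [e1, e2] at hT
    linear_combination hT
  constructor
  · linear_combination (-64 / 27 * q) * hA' + (664 / 405 + 256 / 81 * p) * hB' +
      (37 / 405 - 176 / 405 * p - 64 / 81 * p ^ 2 - 16 / 27 * q ^ 2) * hT'
  · linear_combination (1 - 10 / 3 * p) * hA' + (10 / 9 * q) * hB' +
      (1 / 9 * q - 10 / 9 * p * q) * hT'

end Pool.Agent.CF
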