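import Pool.Agent.Lib_helper78.CFF.Cert5
import Pool.Agent.Lib_helper78.CFF.TRC
import Pool.Agent.Lib_helper78.CFF.OLOC
import Pool.Agent.Lib_helper78.CFF.THC
import Pool.Agent.Lib_helper78.CFF.INF1
import Pool.Agent.Lib_helper78.CFF.INF2

/-! author of this file: helper78 -/

open MvPolynomial IsLocalRing

namespace Pool.Agent.CF

section shl
variable {R S : Type*} [CommRing R] [CommRing S]

lemma main_map_sh (φ : R →+* S) (c d : R) (p : Po R) :
    map φ (sh c d p) = sh (φ c) (φ d) (map φ p) := by
  rw [sh, sh]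
  induction p using MvPolynomial.induction_on with
  | C a => simp [algebraMap_eq]
  | add p q hp hq => simp only [map_add, hp, hq]
  | mul_X p i hp =>
    rw [map_mul, map_mul, hp, map_mul, map_mul]
    congr 1
    fin_cases i <;> simp

lemma main_sh_zero (p : Po R) : sh 0 0 p = p := by
  rw [sh]
  have : (![X 0 + C 0, X 1 + C 0] : Fin 2 → Po R) = X := by
    funext i; fin_cases i <;> simp
  rw [this, aeval_X_left_apply]

lemma main_sh_sh (c d : R) (p : Po R) : sh (-c) (-d) (sh c d p) = p := by
  rw [sh, sh]
  induction p using MvPolynomial.induction_on with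
  | C a => simp [algebraMap_eq]
  | add p q hp hq => simp only [map_add, hp, hq]
  | mul_X p i hp =>
    rw [map_mul, map_mul, hp]
    congr 1
    fin_cases i <;> simp [algebraMap_eq]

lemma main_aeval_deg (g : Fin 2 → Po R) (hg : ∀ i, (g i).totalDegree ≤ 1) (p : Po R) :
    (aeval g p).totalDegree ≤ p.totalDegree := by
  conv_lhs => rw [p.as_sum, map_sum]
  refine (totalDegree_finsetSum _ _).trans (Finset.sup_le fun m hm => ?_)
  rw [aeval_monomial, algebraMap_eq]
  refine (totalDegree_mul _ _).trans ?_
  rw [totalDegree_C, zero_add, Finsupp.prod]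
  refine (totalDegree_finsetProd _ _).trans ?_
  refine le_trans (Finset.sum_le_sum fun i _ => (totalDegree_pow _ _).trans
    (Nat.mul_le_mul_left (m i) (hg i))) ?_
  simp only [mul_one]
  exact le_totalDegree hm

lemma main_sh_deg (c d : R) (p : Po R) : (sh c d p).totalDegree ≤ p.totalDegree := by
  refine main_aeval_deg _ (fun i => ?_) p
  fin_cases i
  · refine (totalDegree_add _ _).trans (max_le ?_ ?_)
    · by_cases h : Nontrivial R
      · rw [totalDegree_X]
      · have : Subsingleton R := not_nontrivial_iff_subsingleton.1 h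
        rw [Subsingleton.elim (X 0 : Po R) 0]; simp
    · rw [totalDegree_C]; exact Nat.zero_le _
  · refine (totalDegree_add _ _).trans (max_le ?_ ?_)
    · by_cases h : Nontrivial R
      · rw [totalDegree_X]
      · have : Subsingleton R := not_nontrivial_iff_subsingleton.1 h
        rw [Subsingleton.elim (X 1 : Po R) 0]; simp
    · rw [totalDegree_C]; exact Nat.zero_le _

lemma main_sh_coeff0 (c d : R) (p : Po R) : coeff 0 (sh c d p) = eval ![c, d] p := by
  have h1 : coeff 0 (sh c d p) = eval 0 (sh c d p) := by rw [eval_zero]; rfl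
  rw [h1, sh]
  clear h1
  induction p using MvPolynomial.induction_on with
  | C a => simp
  | add p q hp hq => simp only [map_add, hp, hq]
  | mul_X p i hp =>
    rw [map_mul, map_mul, map_mul, hp]
    congr 1
    fin_cases i <;> simp

lemma main_map_A0 (φ : R →+* S) : map φ (A0 R) = A0 S := by
  simp [A0]
lemma main_map_B0 (φ : R →+* S) : map φ (B0 R) = B0 S := by
  simp [B0]

lemma main_eval_map (φ : R →+* S) (c d : R) (p : Po R) :
    eval ![φ c, φ d] (map φ p) = φ (eval ![c, d] p) := by
  have : (![φ c, φ d] : Fin 2 → S) = φ ∘ ![c, d] := by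
    funext i; fin_cases i <;> rfl
  rw [this]
  induction p using MvPolynomial.induction_on with
  | C a => simp
  | add p q hp hq => simp only [map_add, hp, hq]
  | mul_X p i hp => rw [map_mul, map_mul, map_mul, map_mul, hp, map_X, eval_X, eval_X]; rfl

end shl

lemma main_X_deg {R : Type*} [CommRing R] (i : Fin 2) : (X i : Po R).totalDegree ≤ 1 := by
  by_cases h : Nontrivial R
  · rw [totalDegree_X]
  · have : Subsingleton R := not_nontrivial_iff_subsingleton.1 h
    rw [Subsingleton.elim (X i : Po R) 0]; simp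

theorem main_core {K : Type} [Field K] [IsAlgClosed K] [Algebra ℚ K] (V : ValuationSubring K)
    (hQ : ∀ r : ℚ, algebraMap ℚ K r ∈ V) (A B : Po V) (hA3 : A.totalDegree ≤ 3)
    (hB3 : B.totalDegree ≤ 3) (hA : CI (maximalIdeal V) (A - A0 V))
    (hB : CI (maximalIdeal V) (B - B0 V)) (p0 p1 : K)
    (hpA : eval ![p0, p1] (map (algebraMap V K) A) = 0)
    (hpB : eval ![p0, p1] (map (algebraMap V K) B) = 0)
    (hT : eval ![p0, p1] (pderiv 0 (map (algebraMap V K) B))
      - eval ![p0, p1] (pderiv 1 (map (algebraMap V K) A)) = 0)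
    (hK1 : ∃ H : Po K, FI 22 (sh p0 p1 (map (algebraMap V K) A))
      (sh p0 p1 (map (algebraMap V K) B)) H)
    (hK2 : p0 ≠ 0 → ∃ H : Po K, FI 14
      (sh p0⁻¹ (p1 * p0⁻¹) (chA (map (algebraMap V K) A) (map (algebraMap V K) B)))
      (sh p0⁻¹ (p1 * p0⁻¹) (chB (map (algebraMap V K) B))) H) :
    (X 0 * map (algebraMap V K) A + X 1 * map (algebraMap V K) B).totalDegree ≤ 3 := by
  have hinj : Function.Injective (algebraMap V K) := Subtype.val_injective
  by_cases hV : p0 ∈ V ∧ p1 ∈ V
  · -- the center stays in the affine plane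
    obtain ⟨h0, h1⟩ := hV
    set q0 : V := ⟨p0, h0⟩ with hq0
    set q1 : V := ⟨p1, h1⟩ with hq1
    have e0 : algebraMap V K q0 = p0 := rfl
    have e1 : algebraMap V K q1 = p1 := rfl
    set k := ResidueField V with hk
    let _ : Algebra ℚ k := ((residue V).comp
      ((algebraMap ℚ K).codRestrict V.toSubring hQ : ℚ →+* V)).toAlgebra
    have _ : CharZero k := algebraRat.charZero k
    have hker : RingHom.ker (residue V) = maximalIdeal V := ker_residue
    have hAk : map (residue V) A = A0 k := by
      have := (ci_ker_iff (residue V) (p := A - A0 V)).1 (by rw [hker]; exact hA)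
      rw [map_sub, main_map_A0, sub_eq_zero] at this
      exact this
    have hBk : map (residue V) B = B0 k := by
      have := (ci_ker_iff (residue V) (p := B - B0 V)).1 (by rw [hker]; exact hB)
      rw [map_sub, main_map_B0, sub_eq_zero] at this
      exact this
    have hqA : eval ![q0, q1] A = 0 := by
      apply hinj
      rw [← main_eval_map, map_zero]
      exact hpA
    have hqB : eval ![q0, q1] B = 0 := by
      apply hinj
      rw [← main_eval_map, map_zero]
      exact hpB
    have hqT : eval ![q0, q1] (pderiv 0 B) - eval ![q0, q1] (pderiv 1 A) = 0 := by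
      apply hinj
      rw [map_sub, ← main_eval_map, ← main_eval_map, map_zero, ← pderiv_map, ← pderiv_map]
      exact hT
    have hres := trc (residue V q0) (residue V q1) (by rw [← hAk, main_eval_map, hqA, map_zero])
      (by rw [← hBk, main_eval_map, hqB, map_zero]) (by
        rw [← hAk, ← hBk, pderiv_map, pderiv_map, main_eval_map, main_eval_map, ← map_sub, hqT,
          map_zero])
    -- translated forms
    have hA' : CI (maximalIdeal V) (sh q0 q1 A - A0 V) := by
      rw [← hker, ci_ker_iff, map_sub, main_map_sh, hAk, hres.1, hres.2, main_sh_zero,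
        main_map_A0, sub_self]
    have hB' : CI (maximalIdeal V) (sh q0 q1 B - B0 V) := by
      rw [← hker, ci_ker_iff, map_sub, main_map_sh, hBk, hres.1, hres.2, main_sh_zero,
        main_map_B0, sub_self]
    have key : ∀ (P : Po V) (P0 : Po V) (P0q : Po ℚ),
        map (algebraMap V K) P0 = map (algebraMap ℚ K) P0q → CI (maximalIdeal V) (P - P0) →
        ∀ m, coeff m (map (algebraMap V K) P) - algebraMap ℚ K (coeff m P0q) ∈ V.nonunits := by
      intro P P0 P0q h1 h2 m
      rw [← coeff_map, ← h1, ← coeff_sub, ← map_sub, coeff_map]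
      exact V.coe_mem_nonunits_iff.2 (h2 m)
    set c : Fin 2 × Fin 10 → K := fun i => if i.1 = 0 then
      coeff (cmk (cU i.2) (cV i.2)) (map (algebraMap V K) (sh q0 q1 A)) else
      coeff (cmk (cU i.2) (cV i.2)) (map (algebraMap V K) (sh q0 q1 B)) with hc
    set r : Fin 2 × Fin 10 → ℚ := fun i => if i.1 = 0 then
      coeff (cmk (cU i.2) (cV i.2)) (A0 ℚ) else coeff (cmk (cU i.2) (cV i.2)) (B0 ℚ) with hr
    obtain ⟨O, iO1, iO2, iO3, iO4, φ, hφ, hO⟩ := oloc V hQ c r (by
      intro i
      simp only [hc, hr]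
      split_ifs
      · exact key _ _ _ (by rw [main_map_A0, main_map_A0]) hA' _
      · exact key _ _ _ (by rw [main_map_B0, main_map_B0]) hB' _)
    choose c' hc' using hO
    -- lifts
    have lift : ∀ (j : Fin 2) (P : Po K) (P0 : Po O) (P0q : Po ℚ), P.totalDegree ≤ 3 →
        P0.totalDegree ≤ 3 → P0 = map (algebraMap ℚ O) P0q →
        (∀ x : Fin 10, c (j, x) = coeff (cmk (cU x) (cV x)) P) →
        (∀ x : Fin 10, r (j, x) = coeff (cmk (cU x) (cV x)) P0q) →
        ∃ P' : Po O, map φ P' = P ∧ P'.totalDegree ≤ 3 ∧ CI (maximalIdeal O) (P' - P0) := by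
      intro j P P0 P0q hP hP0 hPq hcj hrj
      refine ⟨∑ x : Fin 10, C (c' (j, x)) * X 0 ^ cU x * X 1 ^ cV x, ?_, ?_, ?_⟩
      · conv_rhs => rw [dec10 P hP, Finset.sum_range]
        rw [map_sum]
        refine Finset.sum_congr rfl fun x _ => ?_
        rw [map_mul, map_mul, map_C, map_pow, map_pow, map_X, map_X, (hc' (j, x)).1, hcj]
      · refine (totalDegree_finsetSum _ _).trans (Finset.sup_le fun x _ => ?_)
        refine (totalDegree_mul _ _).trans ?_
        have h1 : (C (c' (j, x)) * X 0 ^ cU (x : ℕ) : Po O).totalDegree ≤ cU x := by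
          refine (totalDegree_mul _ _).trans ?_
          rw [totalDegree_C, zero_add]
          refine (totalDegree_pow _ _).trans ?_
          have := main_X_deg (R := O) 0
          nlinarith
        have h2 : (X 1 ^ cV (x : ℕ) : Po O).totalDegree ≤ cV x := by
          refine (totalDegree_pow _ _).trans ?_
          have := main_X_deg (R := O) 1
          nlinarith
        have := c10_deg x x.2
        omega
      · have h3 : P0 = ∑ x : Fin 10, C (algebraMap ℚ O (r (j, x))) * X 0 ^ cU x * X 1 ^ cV x := by
          conv_lhs => rw [dec10 P0 hP0, Finset.sum_range]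
          refine Finset.sum_congr rfl fun x _ => ?_
          rw [hPq, coeff_map, hrj]
        rw [h3, ← Finset.sum_sub_distrib]
        refine CI.sum _ _ fun x _ => ?_
        have : C (c' (j, x)) * X 0 ^ cU x * X 1 ^ cV x -
            C (algebraMap ℚ O (r (j, x))) * X 0 ^ cU x * X 1 ^ cV x =
            (C (c' (j, x) - algebraMap ℚ O (r (j, x))) * (X 0 ^ cU x * X 1 ^ cV x) : Po O) := by
          rw [map_sub]; ring
        rw [this]
        exact (ci_C (hc' (j, x)).2).mul_right _
    have hA0deg : ∀ (T : Type) [CommRing T], (A0 T).totalDegree ≤ 3 := by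
      intro T _
      have x0 := main_X_deg (R := T) 0
      have x1 := main_X_deg (R := T) 1
      have hn : ∀ n : ℕ, ((n : Po T)).totalDegree = 0 := by
        intro n
        rw [← map_natCast (C : T →+* Po T) n, totalDegree_C]
      have h3 : (3 : Po T).totalDegree = 0 := hn 3
      have h8 : (8 : Po T).totalDegree = 0 := hn 8
      have h2 : (2 : Po T).totalDegree = 0 := hn 2
      rw [A0]
      refine (totalDegree_sub _ _).trans (max_le ((totalDegree_add _ _).trans
        (max_le ((totalDegree_add _ _).trans (max_le (by omega) ?_)) ?_)) ?_)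
      · have a1 := totalDegree_mul (3 * X 0 : Po T) (X 1)
        have a2 := totalDegree_mul (3 : Po T) (X 0)
        omega
      · have a1 := totalDegree_mul (8 * X 0 ^ 2 : Po T) (X 1)
        have a2 := totalDegree_mul (8 : Po T) (X 0 ^ 2)
        have a3 := totalDegree_pow (X 0 : Po T) 2
        omega
      · have a2 := totalDegree_mul (2 : Po T) (X 1 ^ 3)
        have a3 := totalDegree_pow (X 1 : Po T) 3
        omega
    have hB0deg : ∀ (T : Type) [CommRing T], (B0 T).totalDegree ≤ 3 := by
      intro T _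
      have x0 := main_X_deg (R := T) 0
      have x1 := main_X_deg (R := T) 1
      have hn : ∀ n : ℕ, ((n : Po T)).totalDegree = 0 := by
        intro n
        rw [← map_natCast (C : T →+* Po T) n, totalDegree_C]
      have h8 : (8 : Po T).totalDegree = 0 := hn 8
      have h2 : (2 : Po T).totalDegree = 0 := hn 2
      rw [B0]
      refine (totalDegree_add _ _).trans (max_le ((totalDegree_sub _ _).trans
        (max_le ((totalDegree_add _ _).trans (max_le ((totalDegree_sub _ _).trans
          (max_le (by omega) ?_)) ?_)) ?_)) ?_)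
      · have a2 := totalDegree_mul (2 : Po T) (X 0 ^ 2)
        have a3 := totalDegree_pow (X 0 : Po T) 2
        omega
      · have a3 := totalDegree_pow (X 1 : Po T) 2
        omega
      · have a2 := totalDegree_mul (8 : Po T) (X 0 ^ 3)
        have a3 := totalDegree_pow (X 0 : Po T) 3
        omega
      · have a1 := totalDegree_mul (2 * X 0 : Po T) (X 1 ^ 2)
        have a2 := totalDegree_mul (2 : Po T) (X 0)
        have a3 := totalDegree_pow (X 1 : Po T) 2
        omega
    have hmapdeg : ∀ P : Po V, P.totalDegree ≤ 3 → (map (algebraMap V K) P).totalDegree ≤ 3 :=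
      fun P hP => (Finset.sup_mono (support_map_subset _ _)).trans hP
    obtain ⟨AO, hAO, hAO3, hAOm⟩ := lift 0 (map (algebraMap V K) (sh q0 q1 A)) (A0 O) (A0 ℚ)
      (hmapdeg _ ((main_sh_deg _ _ _).trans hA3)) (hA0deg O) (main_map_A0 _).symm
      (fun x => by simp [hc]) (fun x => by simp [hr])
    obtain ⟨BO, hBO, hBO3, hBOm⟩ := lift 1 (map (algebraMap V K) (sh q0 q1 B)) (B0 O) (B0 ℚ)
      (hmapdeg _ ((main_sh_deg _ _ _).trans hB3)) (hB0deg O) (main_map_B0 _).symm
      (fun x => by simp [hc]) (fun x => by simp [hr])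
    have hAOK : map φ AO = sh p0 p1 (map (algebraMap V K) A) := by
      rw [hAO, main_map_sh, e0, e1]
    have hBOK : map φ BO = sh p0 p1 (map (algebraMap V K) B) := by
      rw [hBO, main_map_sh, e0, e1]
    have hdeg := thmC φ hφ AO BO hAO3 hBO3
      (hφ (by rw [← coeff_map, hAOK, main_sh_coeff0, hpA, map_zero]))
      (hφ (by rw [← coeff_map, hBOK, main_sh_coeff0, hpB, map_zero])) hAOm hBOm (by
        rw [hAOK, hBOK]; exact hK1)
    set AK := map (algebraMap V K) A
    set BK := map (algebraMap V K) B
    have hF : (X 0 * sh p0 p1 AK + X 1 * sh p0 p1 BK).totalDegree ≤ 3 := by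
      have h1 : X 0 * sh p0 p1 AK + X 1 * sh p0 p1 BK = map φ (X 0 * AO + X 1 * BO) := by
        rw [map_add, map_mul, map_mul, map_X, map_X, hAOK, hBOK]
      rw [h1]
      exact (Finset.sup_mono (support_map_subset _ _)).trans hdeg
    have hF2 : X 0 * AK + X 1 * BK = sh (-p0) (-p1) (X 0 * sh p0 p1 AK + X 1 * sh p0 p1 BK)
        + C p0 * AK + C p1 * BK := by
      have h1 : sh (-p0) (-p1) (X 0 * sh p0 p1 AK + X 1 * sh p0 p1 BK) =
          (X 0 + C (-p0)) * sh (-p0) (-p1) (sh p0 p1 AK)
          + (X 1 + C (-p1)) * sh (-p0) (-p1) (sh p0 p1 BK) := by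
        conv_lhs => rw [sh, map_add, map_mul, map_mul, aeval_X, aeval_X]
        rfl
      rw [h1, main_sh_sh, main_sh_sh, map_neg, map_neg]
      ring
    rw [hF2]
    have hCmul : ∀ (t : K) (P : Po K), P.totalDegree ≤ 3 → (C t * P).totalDegree ≤ 3 := by
      intro t P hP
      refine (totalDegree_mul _ _).trans ?_
      rw [totalDegree_C, zero_add]
      exact hP
    exact (totalDegree_add _ _).trans (max_le ((totalDegree_add _ _).trans
      (max_le ((main_sh_deg _ _ _).trans hF) (hCmul _ _ (hmapdeg _ hA3)))) (hCmul _ _ (hmapdeg _ hB3)))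
  · exfalso
    by_cases hz : p0 ≠ 0 ∧ p1 * p0⁻¹ ∈ V
    · refine inf1 V hQ A B hA3 hB3 hA hB p0 p1 hz.1 hpA hpB hT ?_ hz.2 (hK2 hz.1)
      rw [V.inv_mem_nonunits_iff]
      right
      intro h0
      apply hV
      refine ⟨h0, ?_⟩
      have := V.mul_mem _ _ hz.2 h0
      rwa [mul_assoc, inv_mul_cancel₀ hz.1, mul_one] at this
    · have h1 : p0 * p1⁻¹ ∈ V.nonunits := by
        by_cases h0 : p0 = 0
        · rw [h0, zero_mul]; exact V.nonunits.zero_mem
        · have h2 : p1 * p0⁻¹ ∉ V := fun h => hz ⟨h0, h⟩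
          have h3 : p0 * p1⁻¹ = (p1 * p0⁻¹)⁻¹ := by rw [mul_inv, inv_inv, mul_comm]
          rw [h3, V.inv_mem_nonunits_iff]
          exact Or.inr h2
      have h1V : p0 * p1⁻¹ ∈ V := V.nonunits_subset h1
      have h2 : p1 ∉ V := by
        intro h
        apply hV
        refine ⟨?_, h⟩
        by_cases hp1 : p1 = 0
        · by_cases h0 : p0 = 0
          · rw [h0]; exact V.zero_mem
          · exfalso
            apply hz
            refine ⟨h0, ?_⟩
            rw [hp1, zero_mul]; exact V.zero_mem
        · have := V.mul_mem _ _ h1V h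
          rwa [mul_assoc, inv_mul_cancel₀ hp1, mul_one] at this
      have hp1 : p1 ≠ 0 := by
        rintro rfl
        exact h2 V.zero_mem
      refine inf2 V hQ A B hA3 hB3 hA hB p0 p1 hp1 hpA hpB ?_ h1
      rw [V.inv_mem_nonunits_iff]
      exact Or.inr h2

end Pool.Agent.CF
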