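import Pool.Agent.Lib_helper78.CFF.Base

open MvPolynomial IsLocalRing

namespace Pool.Agent.CF

lemma w0f_monomial (c : ℂ) (a b : ℕ) : (C c * X 0 ^ a * X 1 ^ b : Po ℂ) =
    monomial (Finsupp.single 0 a + Finsupp.single 1 b) c := by
  rw [C_mul_X_pow_eq_monomial, X_pow_eq_monomial, monomial_mul, mul_one]

lemma w0f_mon (c : ℂ) (a b n : ℕ) (h : a + b ≤ n) :
    (C c * X 0 ^ a * X 1 ^ b : Po ℂ).totalDegree ≤ n := by
  refine (totalDegree_mul _ _).trans ?_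
  refine (add_le_add_left (totalDegree_mul _ _) _).trans ?_
  rw [totalDegree_C, totalDegree_X_pow, totalDegree_X_pow]
  omega

lemma w0f_B0 : B0 ℂ = C 1 * X 0 ^ 1 * X 1 ^ 0 + C (-2) * X 0 ^ 2 * X 1 ^ 0 +
    C 1 * X 0 ^ 0 * X 1 ^ 2 + C (-8) * X 0 ^ 3 * X 1 ^ 0 + C 2 * X 0 ^ 1 * X 1 ^ 2 := by
  have h2 : (C 2 : Po ℂ) = 2 := map_ofNat C 2
  have h8 : (C 8 : Po ℂ) = 8 := map_ofNat C 8
  simp only [B0, C_neg, h2, h8, C_1]
  ring

lemma w0f_A0 : -A0 ℂ = C (-1) * X 0 ^ 0 * X 1 ^ 1 + C (-3) * X 0 ^ 1 * X 1 ^ 1 +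
    C (-8) * X 0 ^ 2 * X 1 ^ 1 + C 2 * X 0 ^ 0 * X 1 ^ 3 := by
  have h2 : (C 2 : Po ℂ) = 2 := map_ofNat C 2
  have h3 : (C 3 : Po ℂ) = 3 := map_ofNat C 3
  have h8 : (C 8 : Po ℂ) = 8 := map_ofNat C 8
  simp only [A0, C_neg, h2, h3, h8, C_1]
  ring

theorem om0_deg_B0 : (B0 ℂ).totalDegree ≤ 3 := by
  rw [w0f_B0]
  refine (totalDegree_add _ _).trans (max_le ?_ (w0f_mon _ _ _ _ (by omega)))
  refine (totalDegree_add _ _).trans (max_le ?_ (w0f_mon _ _ _ _ (by omega)))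
  refine (totalDegree_add _ _).trans (max_le ?_ (w0f_mon _ _ _ _ (by omega)))
  refine (totalDegree_add _ _).trans (max_le ?_ (w0f_mon _ _ _ _ (by omega)))
  exact w0f_mon _ _ _ _ (by omega)

theorem om0_deg_A0 : (-A0 ℂ).totalDegree ≤ 3 := by
  rw [w0f_A0]
  refine (totalDegree_add _ _).trans (max_le ?_ (w0f_mon _ _ _ _ (by omega)))
  refine (totalDegree_add _ _).trans (max_le ?_ (w0f_mon _ _ _ _ (by omega)))
  refine (totalDegree_add _ _).trans (max_le ?_ (w0f_mon _ _ _ _ (by omega)))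
  exact w0f_mon _ _ _ _ (by omega)

/-- the base foliation `ω₀`, stored as `(P, Q) = (B0, -A0)` -/
noncomputable def om0 : Forms 3 :=
  (⟨B0 ℂ, by
    rw [mem_restrictTotalDegree]
    exact om0_deg_B0⟩,
   ⟨-A0 ℂ, by
    rw [mem_restrictTotalDegree]
    exact om0_deg_A0⟩)

end Pool.Agent.CF
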