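import Pool.Agent.Lib_helper78.CFF.Main1
import Pool.Agent.Lib_helper78.CFF.Om0

/-! author of this file: helper78 -/

open MvPolynomial IsLocalRing Topology

namespace Pool.Agent.CF

lemma main_HC {P Q : Po ℂ} {p : Fin 2 → ℂ} (h : IsCenter P Q p) : HC (-Q) P p := by
  obtain ⟨a, b, ha, hb, ha0, hb0, hbij, hw⟩ := h.coords
  refine ⟨a, b, ha, hb, ha0, hb0, hbij, ?_⟩
  filter_upwards [hw] with q hq
  have := hq (Pi.single 0 1) (Pi.single 1 1)
  simp only [formAt] at this
  simp only [Pi.single_eq_same, map_neg] at this ⊢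
  have e1 : (Pi.single 0 1 : Fin 2 → ℂ) 1 = 0 := rfl
  have e2 : (Pi.single 1 1 : Fin 2 → ℂ) 0 = 0 := rfl
  rw [e1, e2] at this
  linear_combination this

lemma main_smul {P Q : Po ℂ} {p : Fin 2 → ℂ} (c : ℂ) (hc : c ≠ 0) (h : IsCenter P Q p) :
    IsCenter (c • P) (c • Q) p := by
  refine ⟨?_, ?_, ?_, ?_⟩
  · rw [smul_eval, h.zero_P, mul_zero]
  · rw [smul_eval, h.zero_Q, mul_zero]
  · have := h.reduced
    simp only [map_sub, map_mul, Derivation.map_smul, smul_eval] at this ⊢
    intro h0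
    apply this
    have h1 : c ^ 2 * (eval p (pderiv 0 P) * eval p (pderiv 1 Q) -
      eval p (pderiv 1 P) * eval p (pderiv 0 Q)) = 0 := by linear_combination h0
    exact (mul_eq_zero.1 h1).resolve_left (pow_ne_zero 2 hc)
  · obtain ⟨a, b, ha, hb, ha0, hb0, hbij, hw⟩ := h.coords
    refine ⟨a, b, ha, hb, ha0, hb0, hbij, ?_⟩
    filter_upwards [hw] with q hq
    intro u w
    have := hq u w
    simp only [formAt, smul_eval] at this ⊢
    linear_combination c * this

lemma main_hat_map {R S : Type*} [CommRing R] [CommRing S] (φ : R →+* S) (p : Po R) :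
    map φ (hat p) = hat (map φ p) := by
  rw [hat, hat, map_sum]
  have h1 : ∀ q : Po R, ∑ m ∈ p.support, map φ (monomial (Finsupp.single 0 (3 - m 0 - m 1) +
      Finsupp.single 1 (m 1)) (coeff m p)) = ∑ m ∈ p.support,
      (monomial (Finsupp.single 0 (3 - m 0 - m 1) + Finsupp.single 1 (m 1)) (coeff m (map φ p)) :
        Po S) := by
    intro q
    refine Finset.sum_congr rfl fun m _ => ?_
    rw [map_monomial, coeff_map]
  rw [h1 p]
  symm
  refine Finset.sum_subset (support_map_subset _ _) fun m _ hm => ?_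
  rw [notMem_support_iff.1 hm, monomial_zero]

lemma main_chA_map {R S : Type*} [CommRing R] [CommRing S] (φ : R →+* S) (A B : Po R) :
    map φ (chA A B) = chA (map φ A) (map φ B) := by
  rw [chA, chA, map_neg, map_add, map_mul, map_X, main_hat_map, main_hat_map]

lemma main_chB_map {R S : Type*} [CommRing R] [CommRing S] (φ : R →+* S) (B : Po R) :
    map φ (chB B) = chB (map φ B) := by
  rw [chB, chB, map_mul, map_X, main_hat_map]

lemma main_dsc_map {R S : Type*} [CommRing R] [CommRing S] (φ : R →+* S) (H : Po R) :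
    dsc (map φ H) = φ (dsc H) := by
  simp only [dsc, coeff_map, map_sub, map_mul, map_pow, map_ofNat]

lemma main_dsc_FI {k : Type*} [Field k] (n : ℕ) (A B H : Po k) (h1 : Ord 2 H) (h2 : dsc H ≠ 0)
    (h3 : Ord n (XX A B H)) : FI n A B H := by
  refine ⟨h1, ?_, h3⟩
  by_contra hcon
  push Not at hcon
  apply h2
  rw [dsc, hcon (Finsupp.single 0 2) (by simp), hcon (Finsupp.single 0 1 + Finsupp.single 1 1)
    (by simp)]
  ring

section fn
variable {D : Type}

/-- evaluation of functions at a point -/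
noncomputable abbrev evD (s : D) : (D → ℂ) →+* ℂ := Pi.evalRingHom (fun _ : D => ℂ) s

lemma main_ord_ev {n : ℕ} {p : Po (D → ℂ)} (h : ∀ s, Ord n (map (evD s) p)) : Ord n p := by
  intro m hm
  funext s
  have := h s m hm
  rw [coeff_map] at this
  exact this

lemma main_fun_ev {f : D → ℂ} (h : ∀ s, evD s f = 0) : f = 0 := by
  funext s
  exact h s

end fn

/-- lifting a polynomial whose coefficients are close to rational numbers -/
lemma main_lift {K : Type} [Field K] [Algebra ℚ K] (V : ValuationSubring K)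
    (hQ : ∀ r : ℚ, algebraMap ℚ K r ∈ V) (P : Po K) (P0 : Po V) (P0q : Po ℚ)
    (h0 : map (algebraMap V K) P0 = map (algebraMap ℚ K) P0q)
    (h : ∀ m, coeff m P - algebraMap ℚ K (coeff m P0q) ∈ V.nonunits) :
    ∃ P' : Po V, map (algebraMap V K) P' = P ∧ CI (maximalIdeal V) (P' - P0) := by
  have hV : ∀ m, coeff m P ∈ V := by
    intro m
    have := V.add_mem _ _ (V.nonunits_subset (h m)) (hQ (coeff m P0q))
    rwa [sub_add_cancel] at this
  have h1 : P ∈ Set.range (map (algebraMap V K) : Po V →+* Po K) := by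
    rw [mem_range_map_iff_coeffs_subset]
    intro x hx
    obtain ⟨m, hm, rfl⟩ := mem_coeffs_iff.1 hx
    exact ⟨⟨_, hV m⟩, rfl⟩
  obtain ⟨P', hP'⟩ := h1
  refine ⟨P', hP', fun m => ?_⟩
  rw [← V.coe_mem_nonunits_iff]
  have h2 := h m
  rw [← coeff_map (algebraMap ℚ K), ← h0, ← hP', coeff_map, coeff_map] at h2
  rw [coeff_sub]
  exact h2

end Pool.Agent.CF
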