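import Pool.Agent.Lib_helper78.CFF.Om0

/-! author of this file: helper37 -/

/-!
# W0F: the base foliation has degree 3
-/

open MvPolynomial IsLocalRing

namespace Pool.Agent.CF

lemma w0f_coeff : coeff (Finsupp.single 0 3) (B0 ℂ) = -8 := by
  rw [w0f_B0]
  simp only [w0f_monomial, coeff_add, coeff_monomial, Finsupp.ext_iff, Fin.forall_fin_two]
  simp

lemma w0f_B0_ne : B0 ℂ ≠ 0 := by
  intro h
  have := w0f_coeff
  rw [h, coeff_zero] at this
  norm_num at this

theorem om0_ne : om0 ≠ 0 := by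
  intro h
  have h1 : ((om0.1 : restrictTotalDegree (Fin 2) ℂ 3) : Po ℂ) = 0 := by rw [h]; rfl
  exact w0f_B0_ne h1

lemma w0f_degX (i j : Fin 2) (hij : i ≠ j) (p : Polynomial ℂ) :
    degreeOf i (Polynomial.aeval (X j : Po ℂ) p) = 0 := by
  rw [Polynomial.aeval_eq_sum_range]
  apply Nat.eq_zero_of_le_zero
  refine (degreeOf_sum_le _ _ _).trans ?_
  rw [Finset.sup_le_iff]
  intro n _
  rw [smul_eq_C_mul]
  refine (degreeOf_mul_le _ _ _).trans ?_
  rw [degreeOf_C, zero_add]
  refine (degreeOf_pow_le _ _ _).trans ?_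
  rw [degreeOf_X, if_neg hij, mul_zero]

lemma w0f_dvd (i j : Fin 2) (hij : i ≠ j) (p : Polynomial ℂ) (hp : p ≠ 0) (d : Po ℂ)
    (hd : d ∣ Polynomial.aeval (X j : Po ℂ) p) : degreeOf i d = 0 := by
  have hinj : Function.Injective (Polynomial.aeval (X j : Po ℂ) : Polynomial ℂ → Po ℂ) := by
    have h1 : ∀ q : Polynomial ℂ, aeval (fun _ => (Polynomial.X : Polynomial ℂ))
        (Polynomial.aeval (X j : Po ℂ) q) = q := by
      intro q
      have h2 : ((aeval (fun _ => (Polynomial.X : Polynomial ℂ))).comp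
          (Polynomial.aeval (X j : Po ℂ))) = AlgHom.id ℂ (Polynomial ℂ) := by
        ext
        simp
      exact congrArg (fun f : Polynomial ℂ →ₐ[ℂ] Polynomial ℂ => f q) h2
    intro p q hpq
    rw [← h1 p, ← h1 q, hpq]
  have hne : Polynomial.aeval (X j : Po ℂ) p ≠ 0 := by
    intro h
    apply hp
    apply hinj
    rw [h, map_zero]
  obtain ⟨c, hc⟩ := hd
  have hd0 : d ≠ 0 := by
    rintro rfl
    rw [zero_mul] at hc
    exact hne hc
  have hc0 : c ≠ 0 := by
    rintro rfl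
    rw [mul_zero] at hc
    exact hne hc
  have h1 := w0f_degX i j hij p
  rw [hc, degreeOf_mul_eq hd0 hc0] at h1
  omega

lemma w0f_unit (d : Po ℂ) (hd : d ≠ 0) (h0 : degreeOf 0 d = 0) (h1 : degreeOf 1 d = 0) :
    IsUnit d := by
  have h2 : d = C (coeff 0 d) := by
    ext m
    rw [coeff_C]
    split_ifs with hm
    · rw [← hm]
    · by_contra hne
      apply hm
      have hs : m ∈ d.support := mem_support_iff.2 hne
      have e0 := monomial_le_degreeOf 0 hs
      have e1 := monomial_le_degreeOf 1 hs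
      ext i
      fin_cases i
      · simp; omega
      · simp; omega
  rw [h2]
  have h3 : coeff 0 d ≠ 0 := by
    intro h
    rw [h, C_0] at h2
    exact hd h2
  exact (isUnit_iff_ne_zero.2 h3).map C

theorem w0f_relprime : IsRelPrime (B0 ℂ) (-A0 ℂ) := by
  intro d hB hA'
  have hA : d ∣ A0 ℂ := (dvd_neg).1 hA'
  have hd : d ≠ 0 := by
    rintro rfl
    exact w0f_B0_ne (zero_dvd_iff.1 hB)
  -- a combination in `x` only
  have hx : d ∣ Polynomial.aeval (X 0 : Po ℂ)
      (Polynomial.X * (1 - 4 * Polynomial.X) * (1 + 2 * Polynomial.X) *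
        (1 + 5 * Polynomial.X) : Polynomial ℂ) := by
    have h1 : Polynomial.aeval (X 0 : Po ℂ)
        (Polynomial.X * (1 - 4 * Polynomial.X) * (1 + 2 * Polynomial.X) *
        (1 + 5 * Polynomial.X) : Polynomial ℂ) =
        (1 + 5 * X 0 - 2 * X 1 ^ 2) * B0 ℂ - X 1 * (1 + 2 * X 0) * A0 ℂ := by
      simp only [map_mul, map_sub, map_add, map_one, Polynomial.aeval_X, map_ofNat, A0, B0]
      ring
    rw [h1]
    exact dvd_sub (hB.mul_left _) (hA.mul_left _)
  have hy : d ∣ Polynomial.aeval (X 1 : Po ℂ)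
      (10 * (Polynomial.X * (27 - 111 * Polynomial.X ^ 2 + 100 * Polynomial.X ^ 4)) :
        Polynomial ℂ) := by
    have h1 : Polynomial.aeval (X 1 : Po ℂ)
        (10 * (Polynomial.X * (27 - 111 * Polynomial.X ^ 2 + 100 * Polynomial.X ^ 4)) :
          Polynomial ℂ) =
        169 * ((1 + 2 * X 0) * A0 ℂ + 2 * X 1 * B0 ℂ) +
        (5 * A0 ℂ - 4 * ((1 + 2 * X 0) * A0 ℂ + 2 * X 1 * B0 ℂ)) *
          (91 + 10 * (1 - 10 * X 1 ^ 2) + 130 * X 0) := by
      simp only [map_mul, map_sub, map_add, map_pow, Polynomial.aeval_X, map_ofNat, A0, B0]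
      ring
    rw [h1]
    have hE : d ∣ ((1 + 2 * X 0) * A0 ℂ + 2 * X 1 * B0 ℂ) :=
      dvd_add (hA.mul_left _) (hB.mul_left _)
    exact dvd_add (hE.mul_left _) ((dvd_sub (hA.mul_left _) (hE.mul_left _)).mul_right _)
  have n1 : (Polynomial.X * (1 - 4 * Polynomial.X) * (1 + 2 * Polynomial.X) *
        (1 + 5 * Polynomial.X) : Polynomial ℂ) ≠ 0 := by
    intro h
    have := congrArg (Polynomial.eval 1) h
    simp at this
    norm_num at this
  have n2 : (10 * (Polynomial.X * (27 - 111 * Polynomial.X ^ 2 + 100 * Polynomial.X ^ 4)) :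
        Polynomial ℂ) ≠ 0 := by
    intro h
    have := congrArg (Polynomial.eval 1) h
    simp at this
    norm_num at this
  exact w0f_unit d hd (w0f_dvd 0 1 (by decide) _ n2 d hy) (w0f_dvd 1 0 (by decide) _ n1 d hx)

theorem w0_fol : cls om0 om0_ne ∈ Fol 3 := by
  refine ⟨om0, om0_ne, rfl, w0f_relprime, ?_⟩
  change max (B0 ℂ).totalDegree (-A0 ℂ).totalDegree = 3
  apply le_antisymm
  · exact max_le om0_deg_B0 om0_deg_A0
  · refine le_max_of_le_left ?_
    have h1 : Finsupp.single 0 3 ∈ (B0 ℂ).support := by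
      rw [mem_support_iff, w0f_coeff]; norm_num
    have h2 := le_totalDegree h1
    simpa using h2

end Pool.Agent.CF
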