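import Pool.Agent.Lib_helper78.CFF.Main2
import Pool.Agent.Lib_helper78.CFF.GP
import Pool.Agent.Lib_helper78.CFF.CL
import Pool.Agent.Lib_helper78.CFF.HF
import Pool.Agent.Lib_helper78.CFF.CH
import Pool.Agent.Lib_helper78.CFF.W0F

/-! author of this file: helper78 -/

open MvPolynomial IsLocalRing Topology

namespace Pool.Agent.CF

/-- the parameter set: forms with a center and nonzero coefficient `F_m` -/
def mainD (m : Fin 2 →₀ ℕ) : Type :=
  {s : Forms 3 × (Fin 2 → ℂ) // IsCenter (s.1.1 : Po ℂ) (s.1.2 : Po ℂ) s.2 ∧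
    coeff m (X 0 * (-(s.1.2 : Po ℂ)) + X 1 * (s.1.1 : Po ℂ)) ≠ 0}

theorem main (m : Fin 2 →₀ ℕ) (hm : m 0 + m 1 = 4) :
    cls om0 om0_ne ∉ closure {x : FolBar 3 | HasCenter x ∧
      ∃ (ω : Forms 3) (h : ω ≠ 0), cls ω h = x ∧
        coeff m (X 0 * (-(ω.2 : Po ℂ)) + X 1 * (ω.1 : Po ℂ)) ≠ 0} := by
  intro hmem
  -- data functions on D
  let D := mainD m
  let fA : D → Po ℂ := fun s => -(s.1.1.2 : Po ℂ)
  let fB : D → Po ℂ := fun s => (s.1.1.1 : Po ℂ)
  let P0 : D → ℂ := fun s => s.1.2 0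
  let P1 : D → ℂ := fun s => s.1.2 1
  let Z : D → ℂ := fun s => (s.1.2 0)⁻¹
  have hfA3 : ∀ s, (fA s).totalDegree ≤ 3 := fun s => by
    simp only [fA]
    rw [totalDegree_neg]
    exact (mem_restrictTotalDegree _ _ _).1 s.1.1.2.2
  have hfB3 : ∀ s, (fB s).totalDegree ≤ 3 := fun s =>
    (mem_restrictTotalDegree _ _ _).1 s.1.1.1.2
  have hp : ∀ s : D, s.1.2 = ![P0 s, P1 s] := fun s => by
    funext i; fin_cases i <;> rfl
  have hHC : ∀ s : D, HC (fA s) (fB s) s.1.2 := fun s => main_HC s.2.1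
  choose fH hfH22 hfH2 hfHd hfHX using fun s : D => hf (fA s) (fB s) s.1.2 (hHC s) 22 (by norm_num)
  have hch : ∀ s : D, ∃ H : Po ℂ, H.totalDegree ≤ 14 ∧ Ord 2 H ∧ dsc H * P0 s = P0 s ∧
      Ord 14 (XX (sh (Z s) (P1 s * Z s) (chA (fA s) (fB s))) (sh (Z s) (P1 s * Z s) (chB (fB s))) H) := by
    intro s
    by_cases h0 : s.1.2 0 = 0
    · refine ⟨0, by simp, Ord.zero, ?_, ?_⟩
      · simp [P0, h0]
      · rw [XX_zero]; exact Ord.zero
    · obtain ⟨H, h1, h2, h3, h4⟩ := hf _ _ _ (ch (fA s) (fB s) (hfA3 s) (hfB3 s) s.1.2 h0 (hHC s))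
        14 (by norm_num)
      exact ⟨H, h1, h2, by rw [h3, one_mul], h4⟩
  choose fC hfC14 hfC2 hfCd hfCX using hch
  -- the closure condition
  obtain ⟨K, iK1, iK2, iK3, φ, V, hG, hQ, hω⟩ := gp (D := D)
    (σ := Fin 2 × (Fin 2 →₀ ℕ)) (fun i s => cf s.1.1 i)
    (fun s => coeff m (X 0 * (-(s.1.1.2 : Po ℂ)) + X 1 * (s.1.1.1 : Po ℂ))) (fun s => s.2.2)
    (fun i => if i.1 = 0 then coeff i.2 (A0 ℚ) else coeff i.2 (B0 ℚ)) (by
      intro f hf
      have h1 := cl _ om0 om0_ne hmem (map (algebraMap ℚ ℂ) f) (by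
        rintro ω h ⟨⟨ω₁, h₁, e₁, p, hp⟩, ω₂, h₂, e₂, hc⟩
        obtain ⟨c₁, hc₁, rfl⟩ := (cls_eq_iff h h₁).1 e₁.symm
        obtain ⟨c₂, hc₂, e₃⟩ := (cls_eq_iff h₂ h).1 e₂
        have h3 := hf ⟨(c₁ • ω₁, p), main_smul c₁ hc₁ hp, by
          intro h0
          apply hc
          rw [← e₃]
          have e4 : X 0 * (-((c₂ • c₁ • ω₁).2 : Po ℂ)) + X 1 * ((c₂ • c₁ • ω₁).1 : Po ℂ) =
              c₂ • (X 0 * (-((c₁ • ω₁).2 : Po ℂ)) + X 1 * ((c₁ • ω₁).1 : Po ℂ)) := by
            simp only [Prod.smul_snd, Prod.smul_fst, Submodule.coe_smul, smul_eq_C_mul]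
            ring
          rw [e4, coeff_smul]
          exact (mul_eq_zero_of_right _ h0)⟩
        rw [eval_map]
        rw [aeval_def] at h3
        exact h3)
      have h2 : (cf om0 : Fin 2 × (Fin 2 →₀ ℕ) → ℂ) = fun i => algebraMap ℚ ℂ
          (if i.1 = 0 then coeff i.2 (A0 ℚ) else coeff i.2 (B0 ℚ)) := by
        funext i
        rw [cf]
        split_ifs
        · rw [← coeff_map, main_map_A0]
          simp [om0]
        · rw [← coeff_map, main_map_B0]
          simp [om0]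
      rw [h2, eval_map] at h1
      have h3 : eval₂ (algebraMap ℚ ℂ) (fun i : Fin 2 × (Fin 2 →₀ ℕ) => algebraMap ℚ ℂ
          (if i.1 = 0 then coeff i.2 (A0 ℚ) else coeff i.2 (B0 ℚ))) f = algebraMap ℚ ℂ
            (eval (fun i => if i.1 = 0 then coeff i.2 (A0 ℚ) else coeff i.2 (B0 ℚ)) f) := by
        rw [← eval₂_id, MvPolynomial.hom_eval₂]
        rfl
      rw [h3] at h1
      exact (map_eq_zero _).1 h1)
  obtain ⟨FA, hFA3, hFA⟩ := pf 3 fA hfA3
  obtain ⟨FB, hFB3, hFB⟩ := pf 3 fB hfB3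
  obtain ⟨FH, -, hFH⟩ := pf 22 fH hfH22
  obtain ⟨FC, -, hFC⟩ := pf 14 fC hfC14
  -- facts over the ring of functions
  have hX1 : Ord 22 (XX (sh P0 P1 FA) (sh P0 P1 FB) FH) := main_ord_ev fun s => by
    rw [map_XX, main_map_sh, main_map_sh, hFA, hFB, hFH]
    exact hfHX s
  have hO1 : Ord 2 FH := main_ord_ev fun s => by rw [hFH]; exact hfH2 s
  have hd1 : dsc FH = 1 := by
    funext s
    have : evD s (dsc FH) = 1 := by rw [← main_dsc_map, hFH, hfHd]
    exact this
  have hX2 : Ord 14 (XX (sh Z (P1 * Z) (chA FA FB)) (sh Z (P1 * Z) (chB FB)) FC) :=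
    main_ord_ev fun s => by
      rw [map_XX, main_map_sh, main_map_sh, main_chA_map, main_chB_map, hFA, hFB, hFC]
      exact hfCX s
  have hO2 : Ord 2 FC := main_ord_ev fun s => by rw [hFC]; exact hfC2 s
  have hd2 : dsc FC * P0 = P0 := by
    funext s
    have : evD s (dsc FC) * P0 s = P0 s := by rw [← main_dsc_map, hFC, hfCd]
    exact this
  have hZ : Z * P0 * P0 = P0 := by
    funext s
    change (s.1.2 0)⁻¹ * s.1.2 0 * s.1.2 0 = s.1.2 0
    by_cases h0 : s.1.2 0 = 0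
    · rw [h0]; simp
    · rw [inv_mul_cancel₀ h0, one_mul]
  have hzA : eval ![P0, P1] FA = 0 := main_fun_ev fun s => by
    rw [← main_eval_map, hFA]
    have := s.2.1.zero_Q
    rw [hp s] at this
    change eval ![P0 s, P1 s] (-(s.1.1.2 : Po ℂ)) = 0
    rw [map_neg, this, neg_zero]
  have hzB : eval ![P0, P1] FB = 0 := main_fun_ev fun s => by
    rw [← main_eval_map, hFB]
    have := s.2.1.zero_P
    rw [hp s] at this
    exact this
  have hT : eval ![P0, P1] (pderiv 0 FB) - eval ![P0, P1] (pderiv 1 FA) = 0 :=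
    main_fun_ev fun s => by
      rw [map_sub, ← main_eval_map, ← main_eval_map, ← pderiv_map, ← pderiv_map, hFB, hFA]
      have := trace_zero s.2.1
      rw [hp s] at this
      change eval ![P0 s, P1 s] (pderiv 0 (s.1.1.1 : Po ℂ)) -
        eval ![P0 s, P1 s] (pderiv 1 (-(s.1.1.2 : Po ℂ))) = 0
      rw [map_neg, map_neg, sub_neg_eq_add]
      exact this
  have hGF : (fun s : D => coeff m (X 0 * (-(s.1.1.2 : Po ℂ)) + X 1 * (s.1.1.1 : Po ℂ))) =
      coeff m (X 0 * FA + X 1 * FB) := by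
    funext s
    have : evD s (coeff m (X 0 * FA + X 1 * FB)) = coeff m (X 0 * fA s + X 1 * fB s) := by
      rw [← coeff_map, map_add, map_mul, map_mul, map_X, map_X, hFA, hFB]
    exact this.symm
  -- lifts to the valuation ring
  have hcA : ∀ m', coeff m' (map φ FA) - algebraMap ℚ K (coeff m' (A0 ℚ)) ∈ V.nonunits := by
    intro m'
    have h1 := hω (0, m')
    have h2 : (fun s : D => cf s.1.1 ((0 : Fin 2), m')) = coeff m' FA := by
      funext s
      have : evD s (coeff m' FA) = coeff m' (fA s) := by rw [← coeff_map, hFA]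
      exact this.symm
    rw [coeff_map, ← h2]
    exact h1
  have hcB : ∀ m', coeff m' (map φ FB) - algebraMap ℚ K (coeff m' (B0 ℚ)) ∈ V.nonunits := by
    intro m'
    have h1 := hω (1, m')
    have h2 : (fun s : D => cf s.1.1 ((1 : Fin 2), m')) = coeff m' FB := by
      funext s
      have : evD s (coeff m' FB) = coeff m' (fB s) := by rw [← coeff_map, hFB]
      exact this.symm
    rw [coeff_map, ← h2]
    exact h1
  obtain ⟨AV, hAV, hAVm⟩ := main_lift V hQ (map φ FA) (A0 V) (A0 ℚ)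
    (by rw [main_map_A0, main_map_A0]) hcA
  obtain ⟨BV, hBV, hBVm⟩ := main_lift V hQ (map φ FB) (B0 V) (B0 ℚ)
    (by rw [main_map_B0, main_map_B0]) hcB
  have hinj : Function.Injective (algebraMap V K) := Subtype.val_injective
  have hAV3 : AV.totalDegree ≤ 3 := by
    rw [totalDegree, ← support_map_of_injective AV hinj, hAV]
    exact (Finset.sup_mono (support_map_subset _ _)).trans hFA3
  have hBV3 : BV.totalDegree ≤ 3 := by
    rw [totalDegree, ← support_map_of_injective BV hinj, hBV]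
    exact (Finset.sup_mono (support_map_subset _ _)).trans hFB3
  have hfin := main_core V hQ AV BV hAV3 hBV3 hAVm hBVm (φ P0) (φ P1)
    (by rw [hAV, main_eval_map, hzA, map_zero]) (by rw [hBV, main_eval_map, hzB, map_zero])
    (by rw [hAV, hBV, pderiv_map, pderiv_map, main_eval_map, main_eval_map, ← map_sub, hT, map_zero])
    (by
      refine ⟨map φ FH, main_dsc_FI 22 _ _ _ (hO1.map φ) ?_ ?_⟩
      · rw [main_dsc_map, hd1, map_one]; exact one_ne_zero
      · rw [hAV, hBV, ← main_map_sh, ← main_map_sh, ← map_XX]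
        exact hX1.map φ)
    (by
      intro h0
      have hZ0 : (φ P0)⁻¹ = φ Z := by
        have h1 := congrArg φ hZ
        rw [map_mul, map_mul] at h1
        have h2 : φ Z * φ P0 = 1 := mul_right_cancel₀ h0 (by rw [one_mul]; exact h1)
        exact (eq_inv_of_mul_eq_one_left h2).symm
      refine ⟨map φ FC, main_dsc_FI 14 _ _ _ (hO2.map φ) ?_ ?_⟩
      · have h1 := congrArg φ hd2
        rw [map_mul] at h1
        have h2 : φ (dsc FC) = 1 := mul_right_cancel₀ h0 (by rw [one_mul]; exact h1)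
        rw [main_dsc_map, h2]; exact one_ne_zero
      · rw [hAV, hBV, hZ0, ← map_mul, ← main_chA_map, ← main_chB_map, ← main_map_sh,
          ← main_map_sh, ← map_XX]
        exact hX2.map φ)
  rw [hAV, hBV] at hfin
  apply hG
  rw [hGF, ← coeff_map, map_add, map_mul, map_mul, map_X, map_X]
  apply coeff_eq_zero_of_totalDegree_lt
  have : ∑ i ∈ m.support, m i = m 0 + m 1 := deg2 m
  rw [this]
  omega

end Pool.Agent.CF
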