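import Pool.Agent.Lib_helper78.CFF.NFH

/-! author of this file: helper56 -/

open MvPolynomial IsLocalRing

namespace Pool.Agent.CF

section
variable {R : Type*} [CommRing R]

lemma nfs_pow {κ : R} {w : Po R} (hw : Fil κ 1 w) (j : ℕ) : Fil κ j (w ^ j) := by
  induction j with
  | zero => exact fil_zero _ _
  | succ j ih => rw [pow_succ]; exact ih.mul hw

lemma nfs_comp {κ : R} {k : ℕ} (α : Polynomial R)
    (hα : Fil κ k (Polynomial.aeval (X 1 : Po R) α)) {w : Po R} (hw : Fil κ 1 w) :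
    Fil κ k (Polynomial.aeval w α) := by
  rw [nfh_fil_poly] at hα
  rw [Polynomial.aeval_eq_sum_range]
  refine Fil.sum _ _ fun j _ => ?_
  rw [smul_eq_C_mul]
  exact ((fil_C (hα j)).mul (nfs_pow hw j)).mono (by omega)

lemma nfs_comp_sub {κ : R} {k l : ℕ} (α : Polynomial R)
    (hα : Fil κ k (Polynomial.aeval (X 1 : Po R) α)) {w u : Po R} (hw : Fil κ 1 w)
    (hu : Fil κ 1 u) (hd : Fil κ (l + 1) (u - w)) :
    Fil κ (k + l) (Polynomial.aeval u α - Polynomial.aeval w α) := by
  rw [nfh_fil_poly] at hα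
  rw [Polynomial.aeval_eq_sum_range, Polynomial.aeval_eq_sum_range, ← Finset.sum_sub_distrib]
  refine Fil.sum _ _ fun j _ => ?_
  rw [smul_eq_C_mul, smul_eq_C_mul, ← mul_sub, ← (Commute.all u w).geom_sum₂_mul j]
  rcases Nat.eq_zero_or_pos j with hj | hj
  · subst hj
    simp only [Finset.range_zero, Finset.sum_empty, zero_mul, mul_zero]
    exact Fil.zero
  · have h1 : Fil κ (j - 1) (∑ i ∈ Finset.range j, u ^ i * w ^ (j - 1 - i)) := by
      refine Fil.sum _ _ fun i hi => ?_
      have := Finset.mem_range.1 hi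
      exact ((nfs_pow hu i).mul (nfs_pow hw (j - 1 - i))).mono (by omega)
    exact ((fil_C (hα j)).mul (h1.mul hd)).mono (by omega)

end

/-- one step of the normal form -/
theorem nf_step {V : Type*} [CommRing V] [IsDomain V] [Algebra ℚ V] (κ e f2 : V)
    (hκ : κ ≠ 0) (r : ℕ) (hr : 1 ≤ r) (s q μ : Po V) (α : Polynomial V)
    (hs : Fil κ 1 s) (hq : Fil κ 2 q) (hμ : Fil κ 1 μ)
    (hα : Fil κ 3 (Polynomial.aeval (X 1 : Po V) α - C (κ ^ 2) - C f2 * X 1 ^ 2))
    (σ ρ ν : Po V) (α' : Polynomial V) (hσ : Fil κ r σ) (hρ : Fil κ (r + 1) ρ)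
    (hν : Fil κ r ν) (hα' : Fil κ (r + 2) (Polynomial.aeval (X 1 : Po V) α')) :
    Fil κ (r + 3) (nfA e (s + σ + s * σ) (q + ρ) (μ + ν + μ * ν) (α + α') - nfA e s q μ α
      - (ν * (X 0 - C (κ ^ 2) - C f2 * X 1 ^ 2) + X 0 * σ - C (2 * f2) * X 1 * ρ
        - Polynomial.aeval (X 1 : Po V) α'
        + (X 0 - C (κ ^ 2) - C f2 * X 1 ^ 2) * (σ + X 0 * pderiv 0 σ)
        + C e * X 0 * X 1 * pderiv 0 ρ)) ∧
    Fil κ (r + 2) (nfB e (s + σ + s * σ) (q + ρ) (μ + ν + μ * ν) (α + α') - nfB e s q μ α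
      - (ν * (C e * X 1) + (X 0 - C (κ ^ 2) - C f2 * X 1 ^ 2) * pderiv 1 σ
        + C e * X 1 * σ + C e * ρ + C e * X 1 * pderiv 1 ρ)) := by
  have fZ : Fil κ 2 (X 0 : Po V) := fil_X0
  have fW : Fil κ 1 (X 1 : Po V) := fil_X1
  have fw : Fil κ 1 (X 1 + q) := fW.add (hq.mono (by omega))
  have fw' : Fil κ 1 (X 1 + q + ρ) := fw.add (hρ.mono (by omega))
  have fP : Fil κ 2 (X 0 - C (κ ^ 2) - C f2 * X 1 ^ 2 : Po V) := by
    refine (fZ.sub (fil_C dvd_rfl)).sub ?_
    exact (nfs_pow fW 2).mul_left _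
  -- the higher part of `α`
  set α1 : Polynomial V := α - Polynomial.C (κ ^ 2) - Polynomial.C f2 * Polynomial.X ^ 2 with hα1
  have hα1' : Fil κ 3 (Polynomial.aeval (X 1 : Po V) α1) := by
    rw [hα1]
    simpa using hα
  have eα : ∀ u : Po V, Polynomial.aeval u α = C (κ ^ 2) + C f2 * u ^ 2 +
      Polynomial.aeval u α1 := by
    intro u
    rw [hα1]
    simp
  set P : Po V := X 0 - C (κ ^ 2) - C f2 * X 1 ^ 2 with hP
  set N : Po V := X 0 * (1 + s) - Polynomial.aeval (X 1 + q) α with hN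
  set N' : Po V := X 0 * (1 + (s + σ + s * σ)) - Polynomial.aeval (X 1 + (q + ρ)) (α + α')
    with hN'
  set t : Po V := X 0 * σ - C (2 * f2) * X 1 * ρ - Polynomial.aeval (X 1 : Po V) α' with ht
  have fsσ : Fil κ (r + 1) (s * σ) := by
    have := hs.mul hσ
    rwa [add_comm] at this
  have ft : Fil κ (r + 2) t := by
    refine ((fZ.mul hσ).mono (by omega)).sub ?_ |>.sub hα'
    have := (fW.mul_left (C (2 * f2))).mul hρ
    exact this.mono (by omega)
  have fn1 : Fil κ 3 (N - P) := by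
    have : N - P = X 0 * s - C f2 * (X 1 * q + X 1 * q + q * q) -
        Polynomial.aeval (X 1 + q) α1 := by
      rw [hN, hP, eα]; ring
    rw [this]
    refine ((fZ.mul hs).mono (by omega)).sub (Fil.mul_left _ ?_) |>.sub (nfs_comp α1 hα1' fw)
    exact (((fW.mul hq).mono (by omega)).add ((fW.mul hq).mono (by omega))).add
      ((hq.mul hq).mono (by omega))
  have fd1 : Fil κ (r + 3) (N' - N - t) := by
    have e1 : N' - N - t = X 0 * (s * σ) - C f2 * ((q + q) * ρ + ρ * ρ) -
        (Polynomial.aeval (X 1 + q + ρ) α1 - Polynomial.aeval (X 1 + q) α1) -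
        (Polynomial.aeval (X 1 + q + ρ) α' - Polynomial.aeval (X 1 : Po V) α') := by
      rw [hN, hN', ht, map_add, ← add_assoc, eα, eα]
      simp only [map_mul, map_ofNat]
      ring
    rw [e1]
    refine ((((fZ.mul fsσ).mono (by omega)).sub (Fil.mul_left _ ?_)).sub ?_).sub ?_
    · exact (((hq.add hq).mul hρ).mono (by omega)).add ((hρ.mul hρ).mono (by omega))
    · have h1 : Fil κ (r + 1) (X 1 + q + ρ - (X 1 + q)) := by
        have : X 1 + q + ρ - (X 1 + q) = ρ := by ring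
        rw [this]; exact hρ
      exact (nfs_comp_sub α1 hα1' fw fw' h1).mono (by omega)
    · have h1 : Fil κ (1 + 1) (X 1 + q + ρ - X 1) := by
        have : X 1 + q + ρ - X 1 = q + ρ := by ring
        rw [this]; exact hq.add (hρ.mono (by omega))
      exact (nfs_comp_sub α' hα' fW fw' h1).mono (by omega)
  have fNN : Fil κ (r + 2) (N' - N) := by
    have : N' - N = (N' - N - t) + t := by ring
    rw [this]
    exact (fd1.mono (by omega)).add ft
  have fNP : Fil κ 3 (N' - P) := by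
    have : N' - P = (N' - N) + (N - P) := by ring
    rw [this]
    exact (fNN.mono (by omega)).add fn1
  have fN' : Fil κ 2 N' := by
    have : N' = (N' - P) + P := by ring
    rw [this]
    exact (fNP.mono (by omega)).add fP
  have g1 : Fil κ 0 (pderiv 0 s) := fil_zero _ _
  have g2 : Fil κ r (σ + X 0 * pderiv 0 σ) := by
    have := (fZ.mul hσ).mono (show r + 2 ≤ 2 + r by omega) |>.pderiv0
    simpa [Derivation.leibniz, pderiv_X, add_comm] using this
  have fa1 : Fil κ 1 (pderiv 0 (X 0 * (1 + s) : Po V) - 1) := by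
    have : pderiv 0 (X 0 * (1 + s) : Po V) - 1 = s + X 0 * pderiv 0 s := by
      simp [Derivation.leibniz, pderiv_X]; ring
    rw [this]
    exact hs.add ((fZ.mul g1).mono (by omega))
  have fa2 : Fil κ (r + 1) (pderiv 0 (X 0 * (s * σ) : Po V)) := by
    exact ((fZ.mul fsσ).mono (show r + 1 + 2 ≤ 2 + (r + 1) by omega)).pderiv0
  have fρZ : Fil κ (r - 1) (pderiv 0 ρ) := (hρ.mono (show r - 1 + 2 ≤ r + 1 by omega)).pderiv0
  have fρW : Fil κ r (pderiv 1 ρ) := hρ.pderiv1
  have fqW : Fil κ 1 (pderiv 1 q) := hq.pderiv1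
  have fσW : Fil κ (r - 1) (pderiv 1 σ) := (hσ.mono (show r - 1 + 1 ≤ r by omega)).pderiv1
  have fsσW : Fil κ r (pderiv 1 (s * σ)) := fsσ.pderiv1
  constructor
  · -- the `dZ` part
    set a1 : Po V := pderiv 0 (X 0 * (1 + s) : Po V) - 1 with ha1
    set a2 : Po V := pderiv 0 (X 0 * (s * σ) : Po V) with ha2
    set u : Po V := σ + X 0 * pderiv 0 σ with hu
    set T : Po V := ν * P + t + P * u + C e * X 0 * X 1 * pderiv 0 ρ with hT
    have fT : Fil κ (r + 2) T := by
      refine (((hν.mul fP).add ft).add ((fP.mul g2).mono (by omega))).add ?_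
      have := ((fZ.mul_left (C e)).mul fW).mul fρZ
      exact this.mono (by omega)
    set E' : Po V := ν * ((N' - P) + N' * (a1 + u + a2)) +
      ((N' - N - t) * (1 + a1) + t * a1 + (N' - P) * u + N' * a2) +
      C e * X 0 * ((1 + s) * ρ * (pderiv 0 q + pderiv 0 ρ) +
        (q + s * (X 1 + q)) * pderiv 0 ρ +
        (1 + s) * (ν + σ + ν * σ) * (X 1 + q + ρ) * (pderiv 0 q + pderiv 0 ρ)) with hE'
    have fE' : Fil κ (r + 3) E' := by
      refine ((?_ : Fil κ _ _).add ?_).add ?_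
      · have h1 : Fil κ 1 (a1 + u + a2) := (fa1.add (g2.mono hr)).add (fa2.mono (by omega))
        exact hν.mul (fNP.add ((fN'.mul h1).mono (by omega)))
      · refine (((fd1.mul_right _).add ((ft.mul fa1).mono (by omega))).add
          ((fNP.mul g2).mono (by omega))).add ((fN'.mul fa2).mono (by omega))
      · have h1 : Fil κ (r + 1) ((1 + s) * ρ * (pderiv 0 q + pderiv 0 ρ) +
            (q + s * (X 1 + q)) * pderiv 0 ρ +
            (1 + s) * (ν + σ + ν * σ) * (X 1 + q + ρ) * (pderiv 0 q + pderiv 0 ρ)) := by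
          refine (Fil.add ?_ ?_).add ?_
          · exact (hρ.mul_left _).mul_right _
          · exact ((hq.add ((hs.mul fw).mono (by omega))).mul fρZ).mono (by omega)
          · have h2 : Fil κ r (ν + σ + ν * σ) := (hν.add hσ).add (hν.mul_right _)
            exact (((h2.mul_left _).mul fw').mul_right _)
        exact ((fZ.mul_left (C e)).mul h1).mono (by omega)
    have e2 : pderiv 0 (X 0 * (1 + (s + σ + s * σ)) : Po V) = 1 + a1 + u + a2 := by
      rw [ha1, ha2, hu]
      simp [Derivation.leibniz, pderiv_X]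
      ring
    have e3 : pderiv 0 (X 1 + (q + ρ) : Po V) = pderiv 0 q + pderiv 0 ρ := by
      simp [pderiv_X]
    have e4 : pderiv 0 (X 0 * (1 + s) : Po V) = 1 + a1 := by rw [ha1]; ring
    have e5 : pderiv 0 (X 1 + q : Po V) = pderiv 0 q := by
      simp [pderiv_X]
    have key : nfA e (s + σ + s * σ) (q + ρ) (μ + ν + μ * ν) (α + α') - nfA e s q μ α - T =
        E' + μ * (E' + T) := by
      unfold nfA
      rw [← hN, ← hN', e2, e3, e4, e5, hE', hT]
      ring
    have goal1 : nfA e (s + σ + s * σ) (q + ρ) (μ + ν + μ * ν) (α + α') - nfA e s q μ α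
      - (ν * P + X 0 * σ - C (2 * f2) * X 1 * ρ
        - Polynomial.aeval (X 1 : Po V) α'
        + P * u
        + C e * X 0 * X 1 * pderiv 0 ρ) = E' + μ * (E' + T) := by
      rw [← key, hT, ht]; ring
    rw [goal1]
    exact fE'.add ((hμ.mul ((fE'.mono (by omega)).add fT)).mono (by omega))
  · -- the `dW` part
    set T : Po V := ν * (C e * X 1) + P * pderiv 1 σ
        + C e * X 1 * σ + C e * ρ + C e * X 1 * pderiv 1 ρ with hT
    have fT : Fil κ (r + 1) T := by
      refine ((((hν.mul (fW.mul_left _)).add ((fP.mul fσW).mono (by omega))).add ?_).add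
        (hρ.mul_left _)).add ?_
      · exact ((fW.mul_left (C e)).mul hσ).mono (by omega)
      · exact ((fW.mul_left (C e)).mul fρW).mono (by omega)
    set F' : Po V := ν * N' * (pderiv 1 s + pderiv 1 σ + pderiv 1 (s * σ)) +
      ((N' - N) * pderiv 1 s + (N' - P) * pderiv 1 σ + N' * pderiv 1 (s * σ)) +
      C e * (((q + s * (X 1 + q)) * pderiv 1 ρ +
        (s * (1 + pderiv 1 q + pderiv 1 ρ) + pderiv 1 q + pderiv 1 ρ) * ρ) +
        ((ν + σ) * (q + ρ + (X 1 + q + ρ) * (pderiv 1 q + pderiv 1 ρ) +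
          s * (X 1 + q + ρ) * (1 + pderiv 1 q + pderiv 1 ρ)) +
          ν * σ * (1 + s) * (X 1 + q + ρ) * (1 + pderiv 1 q + pderiv 1 ρ))) with hF'
    have fF' : Fil κ (r + 2) F' := by
      refine ((?_ : Fil κ _ _).add ?_).add (Fil.mul_left _ ?_)
      · exact (hν.mul fN').mul_right _
      · refine ((fNN.mul_right _).add ((fNP.mul fσW).mono (by omega))).add
          ((fN'.mul fsσW).mono (by omega))
      · refine (Fil.add ?_ ?_).add (Fil.add ?_ ?_)
        · exact ((hq.add ((hs.mul fw).mono (by omega))).mul fρW).mono (by omega)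
        · have h1 : Fil κ 1 (s * (1 + pderiv 1 q + pderiv 1 ρ) + pderiv 1 q + pderiv 1 ρ) :=
            ((hs.mul_right _).add fqW).add (fρW.mono hr)
          exact (h1.mul hρ).mono (by omega)
        · have h1 : Fil κ 2 (q + ρ + (X 1 + q + ρ) * (pderiv 1 q + pderiv 1 ρ) +
              s * (X 1 + q + ρ) * (1 + pderiv 1 q + pderiv 1 ρ)) := by
            refine ((hq.add (hρ.mono (by omega))).add ?_).add ?_
            · exact (fw'.mul (fqW.add (fρW.mono hr)))
            · exact ((hs.mul fw').mul_right _)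
          exact ((hν.add hσ).mul h1)
        · exact ((((hν.mul hσ).mul_right _).mul fw').mul_right _).mono (by omega)
    have e2 : pderiv 1 (s + σ + s * σ : Po V) = pderiv 1 s + pderiv 1 σ + pderiv 1 (s * σ) := by
      rw [map_add, map_add]
    have e3 : pderiv 1 (X 1 + (q + ρ) : Po V) = 1 + pderiv 1 q + pderiv 1 ρ := by
      simp [pderiv_X, add_assoc]
    have e5 : pderiv 1 (X 1 + q : Po V) = 1 + pderiv 1 q := by
      simp [pderiv_X]
    have key : nfB e (s + σ + s * σ) (q + ρ) (μ + ν + μ * ν) (α + α') - nfB e s q μ α - T =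
        F' + μ * (F' + T) := by
      unfold nfB
      rw [← hN, ← hN', e2, e3, e5, hF', hT]
      ring
    rw [key]
    exact fF'.add ((hμ.mul ((fF'.mono (by omega)).add fT)).mono (by omega))

theorem nf {V : Type*} [CommRing V] [IsDomain V] [Algebra ℚ V] (κ e f2 : V)
    (he : IsUnit e) (hκ : κ ≠ 0) (a b : Po V)
    (ha : Fil κ 3 (a - (X 0 - C (κ ^ 2) - C f2 * X 1 ^ 2)))
    (hb : Fil κ 2 (b - C e * X 1)) (r : ℕ) (hr : 1 ≤ r) :
    ∃ (s q μ : Po V) (α : Polynomial V), Fil κ 1 s ∧ Fil κ 2 q ∧ Fil κ 1 μ ∧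
      Fil κ 3 (Polynomial.aeval (X 1 : Po V) α - C (κ ^ 2) - C f2 * X 1 ^ 2) ∧
      Fil κ (r + 2) (a - nfA e s q μ α) ∧ Fil κ (r + 1) (b - nfB e s q μ α) := by
  induction r, hr using Nat.le_induction with
  | base =>
    refine ⟨0, 0, 0, Polynomial.C (κ ^ 2) + Polynomial.C f2 * Polynomial.X ^ 2, Fil.zero,
      Fil.zero, Fil.zero, ?_, ?_, ?_⟩
    · have : Polynomial.aeval (X 1 : Po V) (Polynomial.C (κ ^ 2) + Polynomial.C f2 *
        Polynomial.X ^ 2) - C (κ ^ 2) - C f2 * X 1 ^ 2 = 0 := by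
        simp
      rw [this]; exact Fil.zero
    · have : nfA e 0 0 0 (Polynomial.C (κ ^ 2) + Polynomial.C f2 * Polynomial.X ^ 2) =
          (X 0 - C (κ ^ 2) - C f2 * X 1 ^ 2 : Po V) := by
        unfold nfA
        simp [pderiv_X]
        ring
      rw [this]; exact ha
    · have : nfB e 0 0 0 (Polynomial.C (κ ^ 2) + Polynomial.C f2 * Polynomial.X ^ 2) =
          (C e * X 1 : Po V) := by
        unfold nfB
        simp [pderiv_X]
      rw [this]; exact hb
  | succ r hr ih =>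
    obtain ⟨s, q, μ, α, hs, hq, hμ, hα, h1, h2⟩ := ih
    obtain ⟨σ, ρ, ν, α', hσ, hρ, hν, hα', e1, e2⟩ := nf_hom κ e f2 he hκ r hr _ _ h1 h2
    obtain ⟨s1, s2⟩ := nf_step κ e f2 hκ r hr s q μ α hs hq hμ hα σ ρ ν α' hσ hρ hν hα'
    refine ⟨s + σ + s * σ, q + ρ, μ + ν + μ * ν, α + α', ?_, ?_, ?_, ?_, ?_, ?_⟩
    · exact (hs.add (hσ.mono hr)).add ((hs.mul (fil_zero κ σ)))
    · exact hq.add (hρ.mono (by omega))
    · exact (hμ.add (hν.mono hr)).add ((hμ.mul (fil_zero κ ν)))
    · rw [map_add]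
      have := hα.add (hα'.mono (show 3 ≤ r + 2 by omega))
      convert this using 1
      ring
    · rw [← e1] at s1
      have := s1.neg
      convert this using 1
      ring
    · rw [← e2] at s2
      have := s2.neg
      convert this using 1
      ring

end Pool.Agent.CF
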