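import Pool.Agent.Lib_helper78.CFF.RES2

/-! author of this file: helper6 -/

/-!
# CF block RES1: the rational first integral is a function of `z + e w²/2`
-/

open MvPolynomial IsLocalRing

namespace Pool.Agent.CF

section
variable {R : Type*} [CommRing R]

theorem res1_wt_iff {n : ℕ} {p : Po R} : Wt n p ↔ Fil (0 : R) n p := by
  constructor
  · intro h m
    by_cases hm : 2 * m 0 + m 1 < n
    · rw [h m hm]; exact dvd_zero _
    · rw [Nat.sub_eq_zero_of_le (not_lt.1 hm), pow_zero]; exact one_dvd _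
  · intro h m hm
    have h1 := h m
    rw [zero_pow (by omega)] at h1
    exact zero_dvd_iff.1 h1

theorem res1_pow {κ : R} {n : ℕ} {p : Po R} (h : Fil κ n p) (t : ℕ) : Fil κ (n * t) (p ^ t) := by
  induction t with
  | zero => rw [mul_zero]; exact fil_zero _ _
  | succ t ih => rw [pow_succ, Nat.mul_succ]; exact ih.mul h

theorem res1_cancel {n : ℕ} {p : Po R} (h : Wt (n + 2) (X 0 * p)) : Wt n p := by
  intro m hm
  have := h (Finsupp.single 0 1 + m) (by simp [Finsupp.single_apply]; omega)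
  rwa [coeff_X_mul] at this

/-- restriction to `W = 0` -/
noncomputable def res1_z (p : Po R) : Polynomial R := aeval ![Polynomial.X, 0] p

theorem res1_z_add (p q : Po R) : res1_z (p + q) = res1_z p + res1_z q := by simp [res1_z]
theorem res1_z_mul (p q : Po R) : res1_z (p * q) = res1_z p * res1_z q := by simp [res1_z]
theorem res1_z_pow (p : Po R) (n : ℕ) : res1_z (p ^ n) = res1_z p ^ n := by simp [res1_z]
theorem res1_z_one : res1_z (1 : Po R) = 1 := by simp [res1_z]
theorem res1_z_X0 : res1_z (X 0 : Po R) = Polynomial.X := by simp [res1_z]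
theorem res1_z_X1 : res1_z (X 1 : Po R) = 0 := by simp [res1_z]
theorem res1_z_C (c : R) : res1_z (C c : Po R) = Polynomial.C c := by
  simp only [res1_z]
  rw [aeval_C]; rfl

theorem res1_z_coeff (p : Po R) (i : ℕ) : (res1_z p).coeff i = coeff (Finsupp.single 0 i) p := by
  classical
  induction p using MvPolynomial.induction_on' with
  | monomial u a =>
    simp only [res1_z]
    rw [aeval_monomial, coeff_monomial, Finsupp.prod_fintype _ _ (by simp)]
    simp only [Fin.prod_univ_two, Matrix.cons_val_zero, Matrix.cons_val_one]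
    change (Polynomial.C a * (Polynomial.X ^ u 0 * 0 ^ u 1)).coeff i = _
    by_cases h0 : u 1 = 0
    · rw [h0, pow_zero, mul_one, Polynomial.coeff_C_mul_X_pow]
      by_cases h1 : i = u 0
      · rw [if_pos h1, if_pos]
        ext j
        fin_cases j
        · simp [h1]
        · simp [h0]
      · rw [if_neg h1, if_neg]
        intro h
        apply h1
        rw [h]; simp
    · rw [zero_pow h0, if_neg]
      · simp
      · intro h
        apply h0
        rw [h]; simp
  | add p q hp hq => rw [res1_z_add, Polynomial.coeff_add, hp, hq, coeff_add]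

theorem res1_XX_aeval (A B u : Po R) (hu : XX A B u = 0) (Γ : Polynomial R) :
    XX A B (Polynomial.aeval u Γ) = 0 := by
  induction Γ using Polynomial.induction_on' with
  | add p q hp hq => rw [map_add, XX_add, hp, hq, add_zero]
  | monomial n a =>
    rw [Polynomial.aeval_monomial, MvPolynomial.algebraMap_eq, XX_C_mul, XX_pow, hu]; ring

end

section
variable {k : Type*} [Field k]

theorem res1_inv (p : Po k) (c : k) (hc : c ≠ 0) (hp : Fil (0 : k) 1 (p - C c)) (n : ℕ) :
    ∃ v : Po k, Fil (0 : k) n (v * p - 1) := by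
  have h1 : ∃ v : Po k, Fil (0 : k) 1 (v * p - 1) := by
    refine ⟨C c⁻¹, ?_⟩
    have e : (C c⁻¹ * p - 1 : Po k) = C c⁻¹ * (p - C c) := by
      rw [mul_sub, ← C_mul, inv_mul_cancel₀ hc, C_1]
    rw [e]
    exact hp.mul_left _
  induction n with
  | zero => exact ⟨0, fil_zero _ _⟩
  | succ n ih =>
    rcases Nat.eq_zero_or_pos n with h | h
    · subst h; exact h1
    · obtain ⟨v, hv⟩ := ih
      refine ⟨v - v * (v * p - 1), ?_⟩
      have e : (v - v * (v * p - 1)) * p - 1 = -((v * p - 1) * (v * p - 1)) := by ring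
      rw [e]
      exact ((hv.mul hv).mono (by omega)).neg

variable [CharZero k]

/-- one step of the kernel computation -/
theorem res1_step (e : k) (uZ uW : Po k) (hZ : Fil (0 : k) 1 (uZ - 1))
    (hW : Fil (0 : k) 2 (uW - C e * X 1)) (n : ℕ) (hn : n < 12) (P : Po k) (hP : Wt n P)
    (hD : Wt 11 (XX uZ uW P)) (h0 : ∀ t, n = 2 * t → coeff (Finsupp.single 0 t) P = 0) :
    Wt (n + 1) P := by
  have hPf := res1_wt_iff.1 hP
  have h1 : Fil (0 : k) (n - 1) (pderiv 1 P) := by
    cases n with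
    | zero => exact fil_zero _ _
    | succ n => exact hPf.pderiv1
  have h2 : Fil (0 : k) (n - 2) (pderiv 0 P) := by
    rcases Nat.lt_or_ge n 2 with h | h
    · rw [Nat.sub_eq_zero_of_le h.le]; exact fil_zero _ _
    · obtain ⟨n', rfl⟩ := Nat.exists_eq_add_of_le h
      have : 2 + n' - 2 = n' := by omega
      rw [this]
      rw [add_comm] at hPf
      exact hPf.pderiv0
  have h3 : Fil (0 : k) n (pderiv 1 P - C e * X 1 * pderiv 0 P) := by
    have e1 : pderiv 1 P - C e * X 1 * pderiv 0 P = XX uZ uW P -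
        (uZ - 1) * pderiv 1 P + (uW - C e * X 1) * pderiv 0 P := by
      simp only [XX]; ring
    rw [e1]
    refine (Fil.sub ?_ ((hZ.mul h1).mono (by omega))).add ((hW.mul h2).mono (by omega))
    exact (res1_wt_iff.1 hD).mono (by omega)
  have h4 : ∀ i j : ℕ, 2 * i + j < n →
      coeff (Finsupp.single 0 i + Finsupp.single 1 j + Finsupp.single 1 1) P * ((j : k) + 1) =
        e * coeff (Finsupp.single 0 i + Finsupp.single 1 j) (X 1 * pderiv 0 P) := by
    intro i j hij
    have := (res1_wt_iff.2 h3) (Finsupp.single 0 i + Finsupp.single 1 j) (by simpa using hij)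
    rw [coeff_sub, coeff_pderiv, mul_assoc, coeff_C_mul] at this
    have hj : ((Finsupp.single 0 i + Finsupp.single 1 j : Fin 2 →₀ ℕ) 1 : k) = j := by simp
    rw [hj] at this
    linear_combination this
  have key : ∀ j i : ℕ, 2 * i + j = n →
      coeff (Finsupp.single 0 i + Finsupp.single 1 j) P = 0 := by
    intro j
    induction j using Nat.strong_induction_on with
    | _ j ih =>
      intro i hij
      match j, ih, hij with
      | 0, ih, hij => simpa using h0 i (by omega)
      | 1, ih, hij =>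
        have := h4 i 0 (by omega)
        have h5 : coeff (Finsupp.single 0 i + Finsupp.single 1 0) (X 1 * pderiv 0 P) = 0 := by
          rw [coeff_X_mul', if_neg]
          simp [Finsupp.single_apply]
        rw [h5, mul_zero] at this
        simpa using this
      | j + 2, ih, hij =>
        have := h4 i (j + 1) (by omega)
        have e1 : (Finsupp.single 0 i + Finsupp.single 1 (j + 1) : Fin 2 →₀ ℕ) =
            Finsupp.single 1 1 + (Finsupp.single 0 i + Finsupp.single 1 j) := by
          rw [Finsupp.single_add]; abel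
        have e2 : (Finsupp.single 0 i + Finsupp.single 1 j + Finsupp.single 0 1 : Fin 2 →₀ ℕ) =
            Finsupp.single 0 (i + 1) + Finsupp.single 1 j := by
          rw [Finsupp.single_add]; abel
        have e3 : (Finsupp.single 0 i + Finsupp.single 1 (j + 1) + Finsupp.single 1 1 :
            Fin 2 →₀ ℕ) = Finsupp.single 0 i + Finsupp.single 1 (j + 2) := by
          rw [add_assoc, ← Finsupp.single_add]
        rw [e3, e1, coeff_X_mul, coeff_pderiv, e2, ih j (by omega) (i + 1) (by omega), zero_mul,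
          mul_zero] at this
        rcases mul_eq_zero.1 this with h | h
        · exact h
        · exfalso
          have : ((j + 1 + 1 : ℕ) : k) = 0 := by
            push_cast
            push_cast at h
            exact h
          exact absurd this (by exact_mod_cast Nat.succ_ne_zero (j + 1))
  intro m hm
  rcases Nat.lt_or_ge (2 * m 0 + m 1) n with h | h
  · exact hP m h
  · have := key (m 1) (m 0) (by omega)
    have e1 : (Finsupp.single 0 (m 0) + Finsupp.single 1 (m 1) : Fin 2 →₀ ℕ) = m := by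
      ext i; fin_cases i <;> simp
    rwa [e1] at this

theorem res1_ker (e : k) (u uZ uW : Po k) (hu : Fil (0 : k) 2 u)
    (hz : ∃ g : Polynomial k, res1_z u = Polynomial.X * (1 + Polynomial.X * g))
    (hXu : XX uZ uW u = 0) (hZ : Fil (0 : k) 1 (uZ - 1))
    (hW : Fil (0 : k) 2 (uW - C e * X 1)) (P : Po k)
    (hD : Wt 11 (XX uZ uW P)) (n : ℕ) (hn : n ≤ 12) :
    ∃ Γ : Polynomial k, Wt n (P - Polynomial.aeval u Γ) := by
  induction n with
  | zero => exact ⟨0, fun m hm => absurd hm (Nat.not_lt_zero _)⟩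
  | succ n ih =>
    obtain ⟨Γ, hΓ⟩ := ih (by omega)
    have hY : ∀ Γ' : Polynomial k, Wt 11 (XX uZ uW (P - Polynomial.aeval u Γ')) := by
      intro Γ'
      rw [XX_sub, res1_XX_aeval _ _ _ hXu, sub_zero]
      exact hD
    by_cases ht : ∃ t, n = 2 * t
    · obtain ⟨t, rfl⟩ := ht
      set c := coeff (Finsupp.single 0 t) (P - Polynomial.aeval u Γ) with hc
      refine ⟨Γ + Polynomial.C c * Polynomial.X ^ t, ?_⟩
      refine res1_step e uZ uW hZ hW (2 * t) (by omega) _ ?_ (hY _) ?_
      · have e1 : P - Polynomial.aeval u (Γ + Polynomial.C c * Polynomial.X ^ t) =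
            (P - Polynomial.aeval u Γ) - C c * u ^ t := by
          rw [map_add, map_mul, map_pow, Polynomial.aeval_X, Polynomial.aeval_C,
            MvPolynomial.algebraMap_eq]
          ring
        rw [e1, res1_wt_iff]
        exact (res1_wt_iff.1 hΓ).sub ((res1_pow hu t).mul_left _)
      · intro t' ht'
        have : t' = t := by omega
        subst this
        have e1 : P - Polynomial.aeval u (Γ + Polynomial.C c * Polynomial.X ^ t') =
            (P - Polynomial.aeval u Γ) - C c * u ^ t' := by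
          rw [map_add, map_mul, map_pow, Polynomial.aeval_X, Polynomial.aeval_C,
            MvPolynomial.algebraMap_eq]
          ring
        obtain ⟨g, hg⟩ := hz
        have e2 : coeff (Finsupp.single 0 t') (u ^ t') = 1 := by
          rw [← res1_z_coeff, res1_z_pow, hg, mul_pow]
          have := Polynomial.coeff_X_pow_mul ((1 + Polynomial.X * g) ^ t') t' 0
          rw [zero_add] at this
          rw [this, Polynomial.coeff_zero_eq_eval_zero]
          simp
        rw [e1, coeff_sub, coeff_C_mul, e2, ← hc]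
        ring
    · refine ⟨Γ, ?_⟩
      refine res1_step e uZ uW hZ hW n (by omega) _ hΓ (hY _) ?_
      intro t ht'
      exact absurd ⟨t, ht'⟩ ht

theorem res1 (s q μ : Po k) (hs : Wt 1 s) (hq : Wt 2 q)
    (hμ : Wt 1 μ)
    (h1 : Wt 12 (C (-1 / 10) * (X 0 * c0T k) - nfA (-4 / 5) s q μ 0))
    (h2 : Wt 11 (C (-1 / 10) * P0T k - nfB (-4 / 5) s q μ 0)) :
    ∃ Γ : Polynomial k, Polynomial.X ^ 12 ∣
      (3 * (2 + Polynomial.X) ^ 2 + 8) ^ 3 -
        ((2 + Polynomial.X) * ((2 + Polynomial.X) ^ 2 + 6)) ^ 2 *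
          Γ.comp ((Polynomial.X + r0 q) ^ 2) := by
  have hsf := res1_wt_iff.1 hs
  have hqf := res1_wt_iff.1 hq
  have hCe : (C (-4 / 5 : k) : Po k) = C (-2 / 5) * 2 := by
    rw [show (2 : Po k) = C 2 from (map_ofNat _ 2).symm, ← C_mul]
    congr 1
    norm_num
  have hC10 : (C (-1 / 10 : k) : Po k) * 10 = -1 := by
    rw [show (10 : Po k) = C 10 from (map_ofNat _ 10).symm, ← C_mul]
    norm_num
  set u : Po k := X 0 * (1 + s) + C (-2 / 5) * (X 1 + q) ^ 2 with hu
  -- derivatives
  have h2d : ∀ i, pderiv i (2 : Po k) = 0 := fun i => by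
    rw [show (2 : Po k) = C 2 from (map_ofNat C 2).symm, pderiv_C]
  have h3d : ∀ i, pderiv i (3 : Po k) = 0 := fun i => by
    rw [show (3 : Po k) = C 3 from (map_ofNat C 3).symm, pderiv_C]
  have h6d : ∀ i, pderiv i (6 : Po k) = 0 := fun i => by
    rw [show (6 : Po k) = C 6 from (map_ofNat C 6).symm, pderiv_C]
  have h8d : ∀ i, pderiv i (8 : Po k) = 0 := fun i => by
    rw [show (8 : Po k) = C 8 from (map_ofNat C 8).symm, pderiv_C]
  have hX00 : pderiv 0 (X 0 : Po k) = 1 := pderiv_X_self 0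
  have hX11 : pderiv 1 (X 1 : Po k) = 1 := pderiv_X_self 1
  have hX01 : pderiv 0 (X 1 : Po k) = 0 := pderiv_X_of_ne (by decide)
  have hX10 : pderiv 1 (X 0 : Po k) = 0 := pderiv_X_of_ne (by decide)
  have h1d : ∀ i, pderiv i (1 : Po k) = 0 := fun i => pderiv_one
  have uZ : pderiv 0 u = 1 + s + X 0 * pderiv 0 s + C (-4 / 5) * (X 1 + q) * pderiv 0 q := by
    rw [hu, hCe]
    simp only [map_add, Derivation.leibniz, Derivation.leibniz_pow, smul_eq_mul, nsmul_eq_mul,
      pderiv_C, hX00, hX01, h1d]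
    push_cast
    ring
  have uW : pderiv 1 u = X 0 * pderiv 1 s + C (-4 / 5) * (X 1 + q) * (1 + pderiv 1 q) := by
    rw [hu, hCe]
    simp only [map_add, Derivation.leibniz, Derivation.leibniz_pow, smul_eq_mul, nsmul_eq_mul,
      pderiv_C, hX10, hX11, h1d]
    push_cast
    ring
  have hwq : Fil (0 : k) 1 (X 1 + q) := fil_X1.add (hqf.mono (by omega))
  have fZ : Fil (0 : k) 1 (pderiv 0 u - 1) := by
    have e1 : pderiv 0 u - 1 = s + X 0 * pderiv 0 s + C (-4 / 5) * ((X 1 + q) * pderiv 0 q) := by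
      rw [uZ]; ring
    rw [e1]
    exact (hsf.add ((fil_X0.mul_right _).mono (by omega))).add ((hwq.mul_right _).mul_left _)
  have fW : Fil (0 : k) 2 (pderiv 1 u - C (-4 / 5) * X 1) := by
    have e1 : pderiv 1 u - C (-4 / 5) * X 1 = X 0 * pderiv 1 s +
        C (-4 / 5) * (q + (X 1 + q) * pderiv 1 q) := by
      rw [uW]; ring
    rw [e1]
    have hq1 : Fil (0 : k) 1 (pderiv 1 q) := hqf.pderiv1
    exact (fil_X0.mul_right _).add ((hqf.add (hwq.mul hq1)).mul_left _)
  have fu : Fil (0 : k) 2 u := (fil_X0.mul_right _).add ((res1_pow hwq 2).mul_left _)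
  have fW1 : Fil (0 : k) 1 (pderiv 1 u) := by
    have := (fW.mono (show 1 ≤ 2 by omega)).add (fil_X1.mul_left (C (-4 / 5)))
    simpa using this
  -- the two hypotheses
  have g1 : Fil (0 : k) 10 (c0T k + 10 * ((1 + μ) * (1 + s) * pderiv 0 u)) := by
    have e1 : C (-1 / 10) * (X 0 * c0T k) - nfA (-4 / 5) s q μ 0 =
        X 0 * (C (-1 / 10) * c0T k - (1 + μ) * (1 + s) * pderiv 0 u) := by
      rw [uZ]
      simp only [nfA, map_zero, sub_zero, map_add, Derivation.leibniz, smul_eq_mul, hX00, hX01,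
        h1d]
      ring
    rw [e1] at h1
    have := (res1_wt_iff.1 (res1_cancel h1)).mul_left (-10)
    convert this using 1
    linear_combination (c0T k) * hC10
  have g2 : Fil (0 : k) 11 (P0T k + 10 * ((1 + μ) * (1 + s) * pderiv 1 u)) := by
    have e1 : C (-1 / 10) * P0T k - nfB (-4 / 5) s q μ 0 =
        C (-1 / 10) * P0T k - (1 + μ) * (1 + s) * pderiv 1 u := by
      rw [uW]
      simp only [nfB, map_zero, sub_zero, map_add, hX11]
      ring
    rw [e1] at h2
    have := (res1_wt_iff.1 h2).mul_left (-10)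
    convert this using 1
    linear_combination (P0T k) * hC10
  set δ0 := c0T k + 10 * ((1 + μ) * (1 + s) * pderiv 0 u) with hδ0
  set δ1 := P0T k + 10 * ((1 + μ) * (1 + s) * pderiv 1 u) with hδ1
  -- the first integral
  set F3 : Po k := 3 * (2 + X 1) ^ 2 + 8 + 2 * X 0 - X 0 ^ 2 with hF3
  set G1 : Po k := (2 + X 1) * ((2 + X 1) ^ 2 + 3 * X 0 + 6) with hG1
  have i0 : 3 * G1 * pderiv 0 F3 - 2 * F3 * pderiv 0 G1 = 6 * (X 0 + 2) * c0T k := by
    rw [hF3, hG1]
    simp only [map_add, map_sub, Derivation.leibniz, Derivation.leibniz_pow, smul_eq_mul,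
      nsmul_eq_mul, hX00, hX01, h2d, h3d, h6d, h8d, c0T]
    push_cast
    ring
  have i1 : 3 * G1 * pderiv 1 F3 - 2 * F3 * pderiv 1 G1 = 6 * (X 0 + 2) * P0T k := by
    rw [hF3, hG1]
    simp only [map_add, map_sub, Derivation.leibniz, Derivation.leibniz_pow, smul_eq_mul,
      nsmul_eq_mul, hX10, hX11, h2d, h3d, h6d, h8d, P0T]
    push_cast
    ring
  obtain ⟨v, hv⟩ := res1_inv (G1 ^ 2) 400 (by norm_num) (by
    have e1 : G1 ^ 2 - C 400 = X 1 * (X 1 ^ 5 + 12 * X 1 ^ 4 + 72 * X 1 ^ 3 + 256 * X 1 ^ 2 +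
        564 * X 1 + 720) + X 0 * (6 * (2 + X 1) ^ 2 * ((2 + X 1) ^ 2 + 6) +
        9 * (2 + X 1) ^ 2 * X 0) := by
      rw [hG1, show (C 400 : Po k) = 400 from map_ofNat C 400]
      ring
    rw [e1]
    exact (fil_X1.mul_right _).add ((fil_X0.mul_right _).mono (by omega))) 12
  set ε : Po k := v * G1 ^ 2 - 1 with hε
  have d0 : pderiv 0 ε = pderiv 0 v * G1 ^ 2 + 2 * v * G1 * pderiv 0 G1 := by
    rw [hε]
    simp only [map_sub, Derivation.leibniz, Derivation.leibniz_pow, smul_eq_mul, nsmul_eq_mul, h1d]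
    push_cast
    ring
  have d1 : pderiv 1 ε = pderiv 1 v * G1 ^ 2 + 2 * v * G1 * pderiv 1 G1 := by
    rw [hε]
    simp only [map_sub, Derivation.leibniz, Derivation.leibniz_pow, smul_eq_mul, nsmul_eq_mul, h1d]
    push_cast
    ring
  have hε0 : Fil (0 : k) 10 (pderiv 0 ε) := hv.pderiv0
  have hε1 : Fil (0 : k) 11 (pderiv 1 ε) := hv.pderiv1
  set P : Po k := F3 ^ 3 * v with hP
  have dP0 : pderiv 0 P = 3 * F3 ^ 2 * pderiv 0 F3 * v + F3 ^ 3 * pderiv 0 v := by
    rw [hP]
    simp only [Derivation.leibniz, Derivation.leibniz_pow, smul_eq_mul, nsmul_eq_mul]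
    push_cast
    ring
  have dP1 : pderiv 1 P = 3 * F3 ^ 2 * pderiv 1 F3 * v + F3 ^ 3 * pderiv 1 v := by
    rw [hP]
    simp only [Derivation.leibniz, Derivation.leibniz_pow, smul_eq_mul, nsmul_eq_mul]
    push_cast
    ring
  have hYG : G1 ^ 2 * XX (pderiv 0 u) (pderiv 1 u) P =
      F3 ^ 2 * v * G1 * (6 * (X 0 + 2)) * (pderiv 0 u * δ1 - pderiv 1 u * δ0) +
        F3 ^ 3 * (pderiv 0 u * pderiv 1 ε - pderiv 1 u * pderiv 0 ε) := by
    rw [d0, d1]
    simp only [XX, dP0, dP1, hδ0, hδ1]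
    linear_combination F3 ^ 2 * v * G1 * (pderiv 0 u * i1 - pderiv 1 u * i0)
  have hYG11 : Fil (0 : k) 11 (G1 ^ 2 * XX (pderiv 0 u) (pderiv 1 u) P) := by
    rw [hYG]
    exact (((g2.mul_left _).sub ((fW1.mul g1).mono (by omega))).mul_left _).add
      (((hε1.mul_left _).sub ((fW1.mul hε0).mono (by omega))).mul_left _)
  have hY : Wt 11 (XX (pderiv 0 u) (pderiv 1 u) P) := by
    rw [res1_wt_iff]
    have e1 : XX (pderiv 0 u) (pderiv 1 u) P = v * (G1 ^ 2 * XX (pderiv 0 u) (pderiv 1 u) P) -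
        ε * XX (pderiv 0 u) (pderiv 1 u) P := by
      rw [hε]; ring
    rw [e1]
    exact (hYG11.mul_left _).sub ((hv.mul_right _).mono (by omega))
  obtain ⟨Γ, hΓ⟩ := res1_ker (-4 / 5) u (pderiv 0 u) (pderiv 1 u) fu (by
    have hs0 : (res1_z s).coeff 0 = 0 := by
      rw [res1_z_coeff]; exact hs _ (by simp)
    have hq0 : (res1_z q).coeff 0 = 0 := by
      rw [res1_z_coeff]; exact hq _ (by simp)
    obtain ⟨s', hs'⟩ := Polynomial.X_dvd_iff.2 hs0
    obtain ⟨q', hq'⟩ := Polynomial.X_dvd_iff.2 hq0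
    refine ⟨s' + Polynomial.C (-2 / 5) * q' ^ 2, ?_⟩
    rw [hu]
    simp only [res1_z_add, res1_z_mul, res1_z_pow, res1_z_X0, res1_z_X1, res1_z_one, res1_z_C, hs',
      hq']
    ring) (by simp only [XX]; ring) fZ fW P hY 12 le_rfl
  -- restriction to Z = 0
  refine ⟨Γ.comp (Polynomial.C (-2 / 5) * Polynomial.X), ?_⟩
  obtain ⟨A, hA⟩ := res2_r0_wt hΓ
  obtain ⟨B, hB⟩ := res2_r0_wt (res1_wt_iff.2 hv)
  have eΓ : r0 (Polynomial.aeval u Γ) = Γ.comp (r0 u) := by
    change (MvPolynomial.aeval ![0, Polynomial.X] : Po k →ₐ[k] Polynomial k)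
      (Polynomial.aeval u Γ) = _
    rw [← Polynomial.aeval_algHom_apply]
    rfl
  have eu : r0 u = Polynomial.C (-2 / 5) * (Polynomial.X + r0 q) ^ 2 := by
    rw [hu]
    simp only [res2_r0_add, res2_r0_mul, res2_r0_pow, res2_r0_X0, res2_r0_X1, res2_r0_C]
    ring
  have ec : (Γ.comp (Polynomial.C (-2 / 5) * Polynomial.X)).comp ((Polynomial.X + r0 q) ^ 2) =
      Γ.comp (r0 u) := by
    rw [Polynomial.comp_assoc, eu]
    simp
  have er3 : r0 (3 : Po k) = 3 := by simp [r0]
  have er6 : r0 (6 : Po k) = 6 := by simp [r0]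
  have eF : r0 F3 = 3 * (2 + Polynomial.X) ^ 2 + 8 := by
    rw [hF3]
    simp only [res2_r0_add, res2_r0_sub, res2_r0_mul, res2_r0_pow, res2_r0_X0, res2_r0_X1,
      res2_r0_two, res2_r0_eight, er3]
    ring
  have eG : r0 G1 = (2 + Polynomial.X) * ((2 + Polynomial.X) ^ 2 + 6) := by
    rw [hG1]
    simp only [res2_r0_add, res2_r0_mul, res2_r0_pow, res2_r0_X0, res2_r0_X1,
      res2_r0_two, er6, er3]
    ring
  rw [res2_r0_sub, eΓ, hP, res2_r0_mul, res2_r0_pow, eF] at hA
  rw [hε, res2_r0_sub, res2_r0_mul, res2_r0_pow, eG, res2_r0_one] at hB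
  rw [ec]
  refine ⟨((2 + Polynomial.X) * ((2 + Polynomial.X) ^ 2 + 6)) ^ 2 * A -
    (3 * (2 + Polynomial.X) ^ 2 + 8) ^ 3 * B, ?_⟩
  linear_combination ((2 + Polynomial.X) * ((2 + Polynomial.X) ^ 2 + 6)) ^ 2 * hA -
    (3 * (2 + Polynomial.X) ^ 2 + 8) ^ 3 * hB

end

end Pool.Agent.CF
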