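import Pool.Agent.Lib_helper78.CFF.Base

/-! author of this file: helper6 -/

/-!
# CF block RES2: evenness at the base foliation, second part
-/

open MvPolynomial IsLocalRing

namespace Pool.Agent.CF

section r0
variable {R : Type*} [CommRing R]

theorem res2_r0_add (p q : Po R) : r0 (p + q) = r0 p + r0 q := by simp [r0]
theorem res2_r0_sub (p q : Po R) : r0 (p - q) = r0 p - r0 q := by simp [r0]
theorem res2_r0_mul (p q : Po R) : r0 (p * q) = r0 p * r0 q := by simp [r0]
theorem res2_r0_pow (p : Po R) (n : ℕ) : r0 (p ^ n) = r0 p ^ n := by simp [r0]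
theorem res2_r0_one : r0 (1 : Po R) = 1 := by simp [r0]
theorem res2_r0_zero : r0 (0 : Po R) = 0 := by simp [r0]
theorem res2_r0_two : r0 (2 : Po R) = 2 := by simp [r0]
theorem res2_r0_eight : r0 (8 : Po R) = 8 := by simp [r0]
theorem res2_r0_X0 : r0 (X 0 : Po R) = 0 := by simp [r0]
theorem res2_r0_X1 : r0 (X 1 : Po R) = Polynomial.X := by simp [r0]
theorem res2_r0_C (c : R) : r0 (C c : Po R) = Polynomial.C c := by
  simp only [r0]
  rw [aeval_C]; rfl

theorem res2_r0_coeff (p : Po R) (i : ℕ) : (r0 p).coeff i = coeff (Finsupp.single 1 i) p := by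
  classical
  induction p using MvPolynomial.induction_on' with
  | monomial u a =>
    simp only [r0]
    rw [aeval_monomial, coeff_monomial, Finsupp.prod_fintype _ _ (by simp)]
    simp only [Fin.prod_univ_two, Matrix.cons_val_zero, Matrix.cons_val_one]
    change (Polynomial.C a * (0 ^ u 0 * Polynomial.X ^ u 1)).coeff i = _
    by_cases h0 : u 0 = 0
    · rw [h0, pow_zero, one_mul, Polynomial.coeff_C_mul_X_pow]
      by_cases h1 : i = u 1
      · rw [if_pos h1, if_pos]
        ext j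
        fin_cases j
        · simp [h0]
        · simp [h1]
      · rw [if_neg h1, if_neg]
        intro h
        apply h1
        rw [h]; simp
    · rw [zero_pow h0, if_neg]
      · simp
      · intro h
        apply h0
        rw [h]; simp
  | add p q hp hq => rw [res2_r0_add, Polynomial.coeff_add, hp, hq, coeff_add]

theorem res2_r0_pderiv (p : Po R) : r0 (pderiv 1 p) = Polynomial.derivative (r0 p) := by
  ext i
  rw [res2_r0_coeff, coeff_pderiv, Polynomial.coeff_derivative, res2_r0_coeff,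
    ← Finsupp.single_add]
  simp

theorem res2_r0_wt {n : ℕ} {p : Po R} (h : Wt n p) : Polynomial.X ^ n ∣ r0 p := by
  rw [Polynomial.X_pow_dvd_iff]
  intro d hd
  rw [res2_r0_coeff]
  apply h
  simp [hd]

end r0

section
variable {k : Type*} [Field k]

theorem res2_tri (G g : Polynomial k) (hG : G = Polynomial.X * g) (hg : g.coeff 0 ≠ 0)
    (H : Polynomial k) (n : ℕ) : ∃ ρ : ℕ → k,
      Polynomial.X ^ n ∣ H - ∑ j ∈ Finset.range n, Polynomial.C (ρ j) * G ^ j := by
  induction n with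
  | zero => exact ⟨0, by simp⟩
  | succ n ih =>
    obtain ⟨ρ, E, hE⟩ := ih
    refine ⟨fun j => if j < n then ρ j else E.coeff 0 / g.coeff 0 ^ n, ?_⟩
    rw [Finset.sum_range_succ]
    have h1 : ∑ j ∈ Finset.range n, Polynomial.C (if j < n then ρ j else
        E.coeff 0 / g.coeff 0 ^ n) * G ^ j = ∑ j ∈ Finset.range n, Polynomial.C (ρ j) * G ^ j := by
      refine Finset.sum_congr rfl fun j hj => ?_
      rw [if_pos (Finset.mem_range.1 hj)]
    beta_reduce
    rw [h1, if_neg (lt_irrefl n)]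
    have h2 : Polynomial.X ∣ E - Polynomial.C (E.coeff 0 / g.coeff 0 ^ n) * g ^ n := by
      rw [Polynomial.X_dvd_iff]
      have hg' : (g ^ n).coeff 0 = g.coeff 0 ^ n := by
        rw [Polynomial.coeff_zero_eq_eval_zero, Polynomial.eval_pow,
          ← Polynomial.coeff_zero_eq_eval_zero]
      rw [Polynomial.coeff_sub, Polynomial.coeff_C_mul, hg']
      field_simp
      ring
    obtain ⟨E', hE'⟩ := h2
    refine ⟨E', ?_⟩
    rw [hG] at hE ⊢
    rw [mul_pow]
    linear_combination hE + Polynomial.X ^ n * hE'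

theorem res2 [CharZero k] (s q μ : Po k) (α F Γ : Polynomial k)
    (hs : Wt 1 s) (hq : Wt 2 q) (hμ : Wt 1 μ)
    (h2 : Wt 11 (C (-1 / 10) * P0T k - nfB (-4 / 5) s q μ 0))
    (hΓ : Polynomial.X ^ 12 ∣
      (3 * (2 + Polynomial.X) ^ 2 + 8) ^ 3 -
        ((2 + Polynomial.X) * ((2 + Polynomial.X) ^ 2 + 6)) ^ 2 *
          Γ.comp ((Polynomial.X + r0 q) ^ 2))
    (h3 : Polynomial.X ^ 10 ∣ F - (1 + r0 μ) * (1 + r0 s) * α.comp (Polynomial.X + r0 q))
    (hα : ∀ j, Odd j → j ≤ 9 → α.coeff j = 0) :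
    ∃ ρ : Fin 5 → k, Polynomial.X ^ 10 ∣
      F * (3 * (2 + Polynomial.X) ^ 2 + 8) ^ 2 *
          ((2 + Polynomial.X) * ((2 + Polynomial.X) ^ 2 + 6)) ^ 7 -
        ∑ j : Fin 5, Polynomial.C (ρ j) *
          ((3 * (2 + Polynomial.X) ^ 2 + 8) ^ 3 -
            20 * ((2 + Polynomial.X) * ((2 + Polynomial.X) ^ 2 + 6)) ^ 2) ^ (j : ℕ) *
          ((2 + Polynomial.X) * ((2 + Polynomial.X) ^ 2 + 6)) ^ (10 - 2 * (j : ℕ)) := by
  set x : Polynomial k := Polynomial.X with hx
  -- q0
  obtain ⟨q', hq'⟩ := res2_r0_wt hq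
  set w0 : Polynomial k := x + r0 q with hw0
  have hw0' : w0 = x * (1 + x * q') := by rw [hw0, hq']; ring
  set m0 : Polynomial k := (1 + r0 μ) * (1 + r0 s) with hm0
  set f3 : Polynomial k := 3 * (2 + x) ^ 2 + 8 with hf3
  set g1 : Polynomial k := (2 + x) * ((2 + x) ^ 2 + 6) with hg1
  have df3 : Polynomial.derivative f3 = 6 * (2 + x) := by
    have h2d : Polynomial.derivative (2 : Polynomial k) = 0 := Polynomial.derivative_ofNat 2
    have h3d : Polynomial.derivative (3 : Polynomial k) = 0 := Polynomial.derivative_ofNat 3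
    have h8d : Polynomial.derivative (8 : Polynomial k) = 0 := Polynomial.derivative_ofNat 8
    rw [hf3]
    simp only [Polynomial.derivative_add, Polynomial.derivative_mul, Polynomial.derivative_pow,
      h2d, h3d, h8d, hx, Polynomial.derivative_X, Nat.cast_ofNat, map_ofNat]
    ring
  have dg1 : Polynomial.derivative g1 = 3 * (2 + x) ^ 2 + 6 := by
    have h2d : Polynomial.derivative (2 : Polynomial k) = 0 := Polynomial.derivative_ofNat 2
    have h6d : Polynomial.derivative (6 : Polynomial k) = 0 := Polynomial.derivative_ofNat 6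
    rw [hg1]
    simp only [Polynomial.derivative_add, Polynomial.derivative_mul, Polynomial.derivative_pow,
      h2d, h6d, hx, Polynomial.derivative_X, Nat.cast_ofNat, map_ofNat]
    ring
  -- step 1
  obtain ⟨c, hc⟩ := res2_r0_wt h2
  have hC10 : (Polynomial.C (-1 / 10 : k)) * 10 = -1 := by
    rw [show (10 : Polynomial k) = Polynomial.C 10 from (map_ofNat _ 10).symm, ← Polynomial.C_mul]
    norm_num
  have hC5 : (Polynomial.C (-4 / 5 : k)) * 5 = -4 := by
    rw [show (5 : Polynomial k) = Polynomial.C 5 from (map_ofNat _ 5).symm, ← Polynomial.C_mul]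
    norm_num
    rw [map_ofNat]
  have h2' : (2 * x ^ 2 + 8 * x) - 8 * m0 * w0 * Polynomial.derivative w0 =
      x ^ 11 * (-10 * c) := by
    simp only [nfB, P0T, map_zero, sub_zero, res2_r0_sub, res2_r0_mul, res2_r0_add, res2_r0_pow,
      res2_r0_X0, res2_r0_X1, res2_r0_one, res2_r0_C, res2_r0_two, res2_r0_eight, res2_r0_pderiv,
      Polynomial.derivative_add] at hc
    have e1 : Polynomial.derivative w0 = Polynomial.derivative x +
        Polynomial.derivative (r0 q) := by rw [hw0, Polynomial.derivative_add]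
    rw [e1, hm0, hw0]
    rw [← hx] at hc
    linear_combination (-10) * hc + (2 * x ^ 2 + 8 * x) * hC10 - 2 * (1 + r0 μ) * (1 + r0 s) *
      (x + r0 q) * (Polynomial.derivative x + Polynomial.derivative (r0 q)) * hC5
  clear hc
  -- step 2
  obtain ⟨d, hd⟩ := hΓ
  set G : Polynomial k := Γ.comp (w0 ^ 2) with hG
  set H : Polynomial k := (Polynomial.derivative Γ).comp (w0 ^ 2) with hH
  have hdd : 3 * f3 ^ 2 * (6 * (2 + x)) - (2 * g1 * (3 * (2 + x) ^ 2 + 6) * G +
      g1 ^ 2 * (2 * w0 * Polynomial.derivative w0 * H)) =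
      12 * x ^ 11 * d + x ^ 12 * Polynomial.derivative d := by
    have h := congrArg Polynomial.derivative hd
    rw [Polynomial.derivative_sub, Polynomial.derivative_mul, Polynomial.derivative_mul,
      Polynomial.derivative_pow, Polynomial.derivative_pow, hG, Polynomial.derivative_comp,
      Polynomial.derivative_pow, df3, dg1, ← hG, ← hH, Polynomial.derivative_pow, hx,
      Polynomial.derivative_X] at h
    rw [← hx] at h
    simp only [map_ofNat, Nat.cast_ofNat] at h
    norm_num at h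
    linear_combination h
  have h12 : 12 * f3 ^ 2 * (2 * x ^ 2 + 8 * x) - 2 * g1 ^ 3 * H * w0 * Polynomial.derivative w0 =
      x ^ 11 * ((12 * d + x * Polynomial.derivative d) * g1 - 2 * (3 * (2 + x) ^ 2 + 6) * x * d) := by
    have e : f3 ^ 2 * (3 * g1 * (6 * (2 + x)) - 2 * (3 * (2 + x) ^ 2 + 6) * f3) =
        12 * f3 ^ 2 * (2 * x ^ 2 + 8 * x) := by
      rw [hg1, hf3]; ring
    rw [← e]
    linear_combination g1 * hdd - 2 * (3 * (2 + x) ^ 2 + 6) * hd
  set E1 : Polynomial k := (12 * d + x * Polynomial.derivative d) * g1 -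
    2 * (3 * (2 + x) ^ 2 + 6) * x * d with hE1
  -- step 3
  obtain ⟨f', hf'⟩ := h3
  set A : Polynomial k := α.comp w0 with hA
  have hxne : x ≠ 0 := Polynomial.X_ne_zero
  have hcop : IsCoprime (x ^ 10) (2 * x + 8) := by
    apply IsCoprime.pow_left
    refine ⟨Polynomial.C (-1 / 4), Polynomial.C (1 / 8), ?_⟩
    have e4 : (Polynomial.C (-1 / 4 : k)) + Polynomial.C (1 / 8) * 2 = 0 := by
      rw [show (2 : Polynomial k) = Polynomial.C 2 from (map_ofNat _ 2).symm, ← Polynomial.C_mul,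
        ← Polynomial.C_add]
      norm_num
    have e8 : (Polynomial.C (1 / 8 : k)) * 8 = 1 := by
      rw [show (8 : Polynomial k) = Polynomial.C 8 from (map_ofNat _ 8).symm, ← Polynomial.C_mul]
      norm_num
    linear_combination x * e4 + e8
  have h48 : x ^ 10 ∣ 48 * F * f3 ^ 2 - g1 ^ 3 * H * A := by
    have h : x * ((2 * x + 8) * (48 * F * f3 ^ 2 - g1 ^ 3 * H * A)) =
        x * (x ^ 10 * (4 * E1 * F + 8 * g1 ^ 3 * H * f' * (1 + x * q') * Polynomial.derivative w0
          + g1 ^ 3 * H * A * (10 * c))) := by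
      linear_combination 4 * F * h12 + 8 * g1 ^ 3 * H * w0 * Polynomial.derivative w0 * hf' +
        8 * g1 ^ 3 * H * x ^ 10 * f' * Polynomial.derivative w0 * hw0'
         - g1 ^ 3 * H * A * h2'
    have h' := mul_left_cancel₀ hxne h
    exact hcop.dvd_of_dvd_mul_left ⟨_, h'⟩
  -- step 4
  set A2 : Polynomial k := ∑ i ∈ Finset.range 5, Polynomial.C (α.coeff (2 * i)) * x ^ i with hA2
  have hA2c : x ^ 10 ∣ α - A2.comp (x ^ 2) := by
    rw [hx, Polynomial.X_pow_dvd_iff]
    intro j hj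
    rw [Polynomial.coeff_sub, ← Polynomial.expand_eq_comp_X_pow, Polynomial.coeff_expand (by norm_num)]
    have hA2co : ∀ n < 5, A2.coeff n = α.coeff (2 * n) := by
      intro n hn
      rw [hA2, Polynomial.finsetSum_coeff]
      simp only [Polynomial.coeff_C_mul, hx, Polynomial.coeff_X_pow, mul_ite, mul_one, mul_zero]
      rw [Finset.sum_ite_eq, if_pos (Finset.mem_range.2 hn)]
    split_ifs with h
    · rw [hA2co _ (by omega), Nat.mul_div_cancel' h, sub_self]
    · rw [hα j (Nat.odd_iff.2 (by omega)) (by omega), sub_zero]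
  have hAA : x ^ 10 ∣ A - A2.comp (w0 ^ 2) := by
    obtain ⟨e, he⟩ := hA2c
    refine ⟨(1 + x * q') ^ 10 * e.comp w0, ?_⟩
    have := congrArg (fun p : Polynomial k => p.comp w0) he
    simp only [Polynomial.sub_comp, Polynomial.mul_comp, Polynomial.pow_comp,
      Polynomial.comp_assoc, hx, Polynomial.X_comp] at this
    rw [hA, this, hw0']
    ring
  -- step 6
  have hw00 : w0.eval 0 = 0 := by rw [hw0', hx]; simp
  have hx0 : x.eval 0 = 0 := by rw [hx]; simp
  have hG0 : Γ.coeff 0 = 20 := by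
    have h := congrArg (Polynomial.eval 0) hd
    rw [hG] at h
    simp only [hf3, hg1, Polynomial.eval_sub, Polynomial.eval_mul, Polynomial.eval_pow,
      Polynomial.eval_add, Polynomial.eval_ofNat, hx0, Polynomial.eval_comp, hw00] at h
    norm_num at h
    rw [Polynomial.coeff_zero_eq_eval_zero]
    linear_combination (-1 / 400) * h
  have hG1 : Γ.coeff 1 ≠ 0 := by
    intro h0
    have hH0 : H.eval 0 = 0 := by
      rw [hH, Polynomial.eval_comp, Polynomial.eval_pow, hw00, zero_pow (by norm_num),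
        ← Polynomial.coeff_zero_eq_eval_zero, Polynomial.coeff_derivative, zero_add, h0, zero_mul]
    have h : x * (12 * f3 ^ 2 * (2 * x + 8) - 2 * g1 ^ 3 * H * (1 + x * q') *
        Polynomial.derivative w0) = x * (x ^ 10 * E1) := by
      linear_combination h12 + 2 * g1 ^ 3 * H * Polynomial.derivative w0 * hw0'
    have h' := congrArg (Polynomial.eval 0) (mul_left_cancel₀ hxne h)
    simp only [hf3, hg1, Polynomial.eval_sub, Polynomial.eval_mul, Polynomial.eval_pow,
      Polynomial.eval_add, Polynomial.eval_ofNat, hx0, hH0] at h'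
    norm_num at h'
  -- step 7
  obtain ⟨ρ', E5, hE5⟩ := res2_tri (Γ - 20) (Polynomial.divX Γ) (by
      have := Polynomial.X_mul_divX_add Γ
      rw [hG0] at this
      rw [show (20 : Polynomial k) = Polynomial.C 20 from (map_ofNat _ 20).symm]
      linear_combination -this) (by rw [Polynomial.coeff_divX]; exact hG1)
    (Polynomial.derivative Γ * A2) 5
  have h7 : x ^ 10 ∣ H * A2.comp (w0 ^ 2) -
      ∑ j ∈ Finset.range 5, Polynomial.C (ρ' j) * (G - 20) ^ j := by
    refine ⟨(1 + x * q') ^ 10 * E5.comp (w0 ^ 2), ?_⟩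
    have h := congrArg (fun p : Polynomial k => p.comp (w0 ^ 2)) hE5
    simp only [Polynomial.sub_comp, Polynomial.mul_comp, Polynomial.pow_comp,
      Polynomial.X_comp, Finset.sum_range_succ, Finset.sum_range_zero,
      Polynomial.add_comp, Polynomial.zero_comp, Polynomial.C_comp, Polynomial.ofNat_comp,
      Nat.cast_ofNat] at h
    simp only [Finset.sum_range_succ, Finset.sum_range_zero]
    rw [h, hw0']
    ring
  -- step 8
  have hgG : x ^ 10 ∣ g1 ^ 2 * (G - 20) - (f3 ^ 3 - 20 * g1 ^ 2) := by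
    refine ⟨-(x ^ 2 * d), ?_⟩
    linear_combination -hd
  have hpow : ∀ j : ℕ, x ^ 10 ∣ (g1 ^ 2 * (G - 20)) ^ j - (f3 ^ 3 - 20 * g1 ^ 2) ^ j := fun j =>
    hgG.trans (sub_dvd_pow_sub_pow _ _ j)
  obtain ⟨t, e48, hCd⟩ : ∃ t : Polynomial k, t * 48 = 1 ∧
      ∀ r : k, Polynomial.C (r / 48) = Polynomial.C r * t := by
    refine ⟨Polynomial.C (1 / 48), ?_, fun r => ?_⟩
    · rw [show (48 : Polynomial k) = Polynomial.C 48 from (map_ofNat _ 48).symm,
        ← Polynomial.C_mul]
      norm_num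
    · rw [← Polynomial.C_mul]
      congr 1
      ring
  refine ⟨fun j => ρ' j / 48, ?_⟩
  obtain ⟨a, ha⟩ := h48
  obtain ⟨b, hb⟩ := hAA
  obtain ⟨z, hz⟩ := h7
  obtain ⟨p1, hp1⟩ := hpow 1
  obtain ⟨p2, hp2⟩ := hpow 2
  obtain ⟨p3, hp3⟩ := hpow 3
  obtain ⟨p4, hp4⟩ := hpow 4
  simp only [Finset.sum_range_succ, Finset.sum_range_zero, zero_add] at hz
  rw [Fin.sum_univ_five]
  simp only [hCd]
  change x ^ 10 ∣ F * f3 ^ 2 * g1 ^ 7 -
    (Polynomial.C (ρ' 0) * t * (f3 ^ 3 - 20 * g1 ^ 2) ^ 0 * g1 ^ 10 +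
    Polynomial.C (ρ' 1) * t * (f3 ^ 3 - 20 * g1 ^ 2) ^ 1 * g1 ^ 8 +
    Polynomial.C (ρ' 2) * t * (f3 ^ 3 - 20 * g1 ^ 2) ^ 2 * g1 ^ 6 +
    Polynomial.C (ρ' 3) * t * (f3 ^ 3 - 20 * g1 ^ 2) ^ 3 * g1 ^ 4 +
    Polynomial.C (ρ' 4) * t * (f3 ^ 3 - 20 * g1 ^ 2) ^ 4 * g1 ^ 2)
  refine ⟨t * (a * g1 ^ 7 + g1 ^ 10 * H * b + g1 ^ 10 * z +
    Polynomial.C (ρ' 1) * g1 ^ 8 * p1 + Polynomial.C (ρ' 2) * g1 ^ 6 * p2 +
    Polynomial.C (ρ' 3) * g1 ^ 4 * p3 + Polynomial.C (ρ' 4) * g1 ^ 2 * p4), ?_⟩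
  clear_value f3 g1 G H A w0 m0 E1 A2
  linear_combination (-(F * f3 ^ 2 * g1 ^ 7)) * e48 + t * g1 ^ 7 * ha + t * g1 ^ 10 * H * hb
    + t * g1 ^ 10 * hz + t * Polynomial.C (ρ' 1) * g1 ^ 8 * hp1
    + t * Polynomial.C (ρ' 2) * g1 ^ 6 * hp2 + t * Polynomial.C (ρ' 3) * g1 ^ 4 * hp3
    + t * Polynomial.C (ρ' 4) * g1 ^ 2 * hp4

end

end Pool.Agent.CF
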