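import Pool.Agent.Lib_helper78.CFF.Base

/-! author of this file: helper56 -/

open MvPolynomial IsLocalRing

namespace Pool.Agent.CF

section
variable {R : Type*} [CommRing R]

lemma te_ord_mon (m : Fin 2 →₀ ℕ) (c : R) (n : ℕ) (h : n ≤ m 0 + m 1) :
    Ord n (monomial m c : Po R) := by
  classical
  intro m' hm'
  rw [coeff_monomial, if_neg]
  rintro rfl
  omega

lemma te_mon_eq (m : Fin 2 →₀ ℕ) (c : R) :
    (monomial m c : Po R) = C c * X 0 ^ (m 0) * X 1 ^ (m 1) := by
  rw [monomial_eq, Finsupp.prod_fintype _ _ (by intro i; simp), Fin.prod_univ_two, mul_assoc]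

lemma te_ord_xy (a b : ℕ) : Ord (a + b) (X 0 ^ a * X 1 ^ b : Po R) := by
  have h1 := (ord_X (R := R) 0).pow a
  have h2 := (ord_X (R := R) 1).pow b
  rw [one_mul] at h1 h2
  exact h1.mul h2

lemma te_ord1_sub (P : Po R) : Ord 1 (P - C (coeff 0 P)) := by
  rw [ord_one_iff]; simp

lemma te_mono [Algebra ℚ R] (P Q : Po R) (hQ : IsUnit (coeff 0 Q)) (b : ℕ) :
    ∀ (a : ℕ) (c : R), ∃ g g1 : Po R, g = X 0 * g1 ∧ Ord (a + b + 1) g ∧
      Ord (a + b + 1) (XX P Q g - C c * X 0 ^ a * X 1 ^ b) := by
  obtain ⟨Qi, hQi⟩ := hQ.exists_right_inv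
  induction b with
  | zero =>
    intro a c
    set t : R := algebraMap ℚ R (1 / ((a : ℚ) + 1)) with ht
    have ht1 : t * ((a : R) + 1) = 1 := by
      have h1 : ((a : R) + 1) = algebraMap ℚ R ((a : ℚ) + 1) := by simp
      rw [h1, ht, ← map_mul, one_div, inv_mul_cancel₀ (by positivity), map_one]
    have ht2 : (C t * ((a : Po R) + 1) : Po R) = 1 := by
      have := congrArg (C : R →+* Po R) ht1
      simpa using this
    have hQ2 : (C (coeff 0 Q) * C Qi : Po R) = 1 := by rw [← C_mul, hQi, C_1]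
    refine ⟨C (-(c * t * Qi)) * X 0 ^ (a + 1), C (-(c * t * Qi)) * X 0 ^ a, by ring, ?_, ?_⟩
    · have := (te_ord_xy (R := R) (a + 1) 0).mul_left (C (-(c * t * Qi)))
      simpa using this
    · have e1 : XX P Q (C (-(c * t * Qi)) * X 0 ^ (a + 1)) - C c * X 0 ^ a * X 1 ^ 0 =
          (Q - C (coeff 0 Q)) * (C (c * t * Qi) * ((a : Po R) + 1) * X 0 ^ a) := by
        unfold XX
        simp [Derivation.leibniz, Derivation.leibniz_pow, pderiv_X]
        linear_combination (C c * X 0 ^ a * C (coeff 0 Q) * C Qi) * ht2 +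
          (C c * X 0 ^ a) * hQ2
      rw [e1]
      have h1 := (te_ord_xy (R := R) a 0).mul_left (C (c * t * Qi) * ((a : Po R) + 1))
      have h2 := (te_ord1_sub Q).mul h1
      simp only [pow_zero, mul_one, add_zero] at h2
      rw [show a + 0 + 1 = 1 + a by ring]
      exact h2
  | succ b ih =>
    intro a c
    set t : R := algebraMap ℚ R (1 / ((a : ℚ) + 1)) with ht
    have ht1 : t * ((a : R) + 1) = 1 := by
      have h1 : ((a : R) + 1) = algebraMap ℚ R ((a : ℚ) + 1) := by simp
      rw [h1, ht, ← map_mul, one_div, inv_mul_cancel₀ (by positivity), map_one]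
    have ht2 : (C t * ((a : Po R) + 1) : Po R) = 1 := by
      have := congrArg (C : R →+* Po R) ht1
      simpa using this
    have hQ2 : (C (coeff 0 Q) * C Qi : Po R) = 1 := by rw [← C_mul, hQi, C_1]
    obtain ⟨g, g1, hg, h1, h2⟩ := ih (a + 1) (coeff 0 P * (c * t * Qi) * ((b : R) + 1))
    refine ⟨C (-(c * t * Qi)) * X 0 ^ (a + 1) * X 1 ^ (b + 1) + g,
      C (-(c * t * Qi)) * X 0 ^ a * X 1 ^ (b + 1) + g1, by rw [hg]; ring, ?_, ?_⟩
    · refine Ord.add ?_ (h1.mono (by omega))
      have := (te_ord_xy (R := R) (a + 1) (b + 1)).mul_left (C (-(c * t * Qi)))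
      rw [← mul_assoc] at this
      exact this.mono (by omega)
    · have e1 : XX P Q (C (-(c * t * Qi)) * X 0 ^ (a + 1) * X 1 ^ (b + 1) + g) -
          C c * X 0 ^ a * X 1 ^ (b + 1) =
          (Q - C (coeff 0 Q)) * (C (c * t * Qi) * ((a : Po R) + 1) * (X 0 ^ a * X 1 ^ (b + 1))) -
          (P - C (coeff 0 P)) * (C (c * t * Qi) * ((b : Po R) + 1) * (X 0 ^ (a + 1) * X 1 ^ b)) +
          (XX P Q g - C (coeff 0 P * (c * t * Qi) * ((b : R) + 1)) * X 0 ^ (a + 1) * X 1 ^ b) := by
        rw [XX_add]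
        unfold XX
        simp [Derivation.leibniz, Derivation.leibniz_pow, pderiv_X]
        linear_combination (C c * X 0 ^ a * X 1 ^ (b + 1) * C (coeff 0 Q) * C Qi) * ht2 +
          (C c * X 0 ^ a * X 1 ^ (b + 1)) * hQ2
      rw [e1]
      refine (Ord.sub ?_ ?_).add (h2.mono (by omega))
      · exact ((te_ord1_sub Q).mul ((te_ord_xy a (b + 1)).mul_left _)).mono (by omega)
      · exact ((te_ord1_sub P).mul ((te_ord_xy (a + 1) b).mul_left _)).mono (by omega)

lemma te_step [Algebra ℚ R] (P Q : Po R) (hQ : IsUnit (coeff 0 Q)) (n : ℕ) (p : Po R)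
    (hp : Ord n p) :
    ∃ g g1 : Po R, g = X 0 * g1 ∧ Ord (n + 1) (XX P Q g - p) := by
  rw [p.as_sum]
  refine Finset.sum_induction (fun m => monomial m (coeff m p))
    (fun p => ∃ g g1 : Po R, g = X 0 * g1 ∧ Ord (n + 1) (XX P Q g - p)) ?_ ?_ ?_
  · rintro p q ⟨g, g1, h1, h2⟩ ⟨g', g1', h1', h2'⟩
    refine ⟨g + g', g1 + g1', by rw [h1, h1']; ring, ?_⟩
    rw [XX_add]
    have := h2.add h2'
    convert this using 1
    ring
  · exact ⟨0, 0, by ring, by rw [XX_zero, sub_zero]; exact Ord.zero⟩
  · intro m hm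
    have hn : n ≤ m 0 + m 1 := by
      by_contra hcon
      exact (mem_support_iff.1 hm) (hp m (by omega))
    rcases Nat.eq_or_lt_of_le hn with h | h
    · obtain ⟨g, g1, h1, _, h3⟩ := te_mono P Q hQ (m 1) (m 0) (coeff m p)
      refine ⟨g, g1, h1, ?_⟩
      rw [te_mon_eq, h]
      exact h3
    · refine ⟨0, 0, by ring, ?_⟩
      rw [XX_zero, zero_sub]
      exact (te_ord_mon m _ _ h).neg

/-- nonsingular forms have first integrals `y + x (…)` -/
lemma te_nonsing [Algebra ℚ R] (P Q : Po R) (hQ : IsUnit (coeff 0 Q)) (n : ℕ) :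
    ∃ h1 : Po R, Ord n (XX P Q (X 1 + X 0 * h1)) := by
  induction n with
  | zero => exact ⟨0, ord_zero _⟩
  | succ n ih =>
    obtain ⟨h1, hh⟩ := ih
    obtain ⟨g, g1, hg, hg2⟩ := te_step P Q hQ n _ hh
    refine ⟨h1 - g1, ?_⟩
    have : X 1 + X 0 * (h1 - g1) = (X 1 + X 0 * h1) - g := by rw [hg]; ring
    rw [this, XX_sub]
    have := hg2.neg
    convert this using 1
    ring

lemma te_chain (f : Po R) (u v : Po R) (i : Fin 2) :
    pderiv i (aeval ![u, v] f) = aeval ![u, v] (pderiv 0 f) * pderiv i u +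
      aeval ![u, v] (pderiv 1 f) * pderiv i v := by
  induction f using MvPolynomial.induction_on with
  | C a =>
    have h1 : (aeval ![u, v]) (C a : Po R) = C a := by simp
    rw [h1, pderiv_C, pderiv_C, pderiv_C, map_zero]
    ring
  | add f g hf hg =>
    simp only [map_add] at hf hg ⊢
    rw [hf, hg]; ring
  | mul_X f j hf =>
    rw [map_mul, Derivation.leibniz, hf, aeval_X, Derivation.leibniz, Derivation.leibniz]
    simp only [smul_eq_mul, map_add, map_mul, aeval_X]
    fin_cases j
    · simp [pderiv_X]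
      ring
    · simp [pderiv_X]
      ring

lemma te_map_aeval {S : Type*} [CommRing S] (φ : R →+* S) (u v f : Po R) :
    map φ (aeval ![u, v] f) = aeval ![map φ u, map φ v] (map φ f) := by
  induction f using MvPolynomial.induction_on with
  | C a => simp
  | add f g hf hg => simp only [map_add, hf, hg]
  | mul_X f j hf =>
    rw [map_mul, map_mul, map_mul, hf, map_mul]
    congr 1
    fin_cases j <;> simp

lemma te_sub2 (p : Po R) (h00 : coeff 0 p = 0) (h10 : coeff (Finsupp.single 0 1) p = 0) :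
    Ord 2 (aeval ![X 0, X 1 ^ 2] p : Po R) := by
  classical
  rw [p.as_sum, map_sum]
  refine Ord.sum _ _ fun m hm => ?_
  have h2 : 2 ≤ m 0 + 2 * m 1 := by
    by_contra hcon
    have hm1 : m 1 = 0 := by omega
    have hm0 : m 0 = 0 ∨ m 0 = 1 := by omega
    apply mem_support_iff.1 hm
    rcases hm0 with h | h
    · have : m = 0 := by ext i; fin_cases i <;> simp [h, hm1]
      rw [this, h00]
    · have : m = Finsupp.single 0 1 := by ext i; fin_cases i <;> simp [h, hm1]
      rw [this, h10]
  rw [aeval_monomial, Finsupp.prod_fintype _ _ (by intro i; simp), Fin.prod_univ_two]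
  simp only [Matrix.cons_val_zero, Matrix.cons_val_one, ← pow_mul]
  exact ((te_ord_xy (m 0) (2 * m 1)).mul_left _).mono h2

end

theorem even_ref {V : Type*} [CommRing V] [IsLocalRing V] [Algebra ℚ V] (e : V)
    (he : IsUnit e) (z w m : Po V) (g : Polynomial V)
    (hz : map (residue V) z = 1 + X 0) (hw : map (residue V) w = X 1)
    (hg : g.map (residue V) = 1) (n : ℕ) :
    ∃ S : Po V, coeff 0 S = 0 ∧
      Ord n (XX (m * ((z - Polynomial.aeval (w ^ 2) g) * pderiv 0 z + C e * z * w * pderiv 0 w))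
        (m * ((z - Polynomial.aeval (w ^ 2) g) * pderiv 1 z + C e * z * w * pderiv 1 w)) S) ∧
      Ord 3 (map (residue V) S - (X 1 ^ 2 + C (residue V e)⁻¹ * X 0 ^ 2)) := by
  set z1 : V := coeff 0 z with hz1
  set w1 : V := coeff 0 w with hw1
  have rz1 : residue V z1 = 1 := by
    have := congrArg (coeff 0) hz
    rw [coeff_map] at this
    simpa using this
  have rw1 : residue V w1 = 0 := by
    have := congrArg (coeff 0) hw
    rw [coeff_map] at this
    simpa using this
  have uz1 : IsUnit z1 := by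
    by_contra hcon
    have h1 : z1 ∈ maximalIdeal V := (mem_maximalIdeal _).2 hcon
    rw [← residue_eq_zero_iff, rz1] at h1
    exact one_ne_zero h1
  set hf : V := algebraMap ℚ V (1 / 2) with hhf
  have h2 : hf * 2 = 1 := by
    have : (2 : V) = algebraMap ℚ V 2 := (map_ofNat (algebraMap ℚ V) 2).symm
    rw [this, hhf, ← map_mul]; norm_num
  have uhf : IsUnit hf := IsUnit.of_mul_eq_one _ h2
  set P : Po V := X 0 + C z1 - Polynomial.aeval (X 1 + C (w1 ^ 2)) g with hP
  set Q : Po V := C (e * hf) * (X 0 + C z1) with hQ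
  have uQ : IsUnit (coeff 0 Q) := by
    have : coeff 0 Q = e * hf * z1 := by
      rw [hQ, coeff_C_mul]; simp
    rw [this]
    exact (he.mul uhf).mul uz1
  obtain ⟨h1, hh⟩ := te_nonsing P Q uQ (max n 2)
  set h : Po V := X 1 + X 0 * h1 with hhdef
  set sb : Fin 2 → Po V := ![z - C z1, w ^ 2 - C (w1 ^ 2)] with hsb
  have osb : ∀ i, Ord 1 (sb i) := by
    intro i
    fin_cases i
    · exact te_ord1_sub z
    · have : (sb 1) = w ^ 2 - C (w1 ^ 2) := rfl
      show Ord 1 (sb 1)
      rw [this, ord_one_iff, coeff_sub]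
      have : coeff 0 (w ^ 2) = w1 ^ 2 := by
        have h3 : ∀ p : Po V, coeff 0 p = constantCoeff p := fun p => rfl
        rw [h3, map_pow]; rfl
      rw [this, coeff_C, if_pos rfl, sub_self]
  have oh : Ord 1 h := by
    rw [hhdef]
    exact (ord_X 1).add ((ord_X 0).mul_right _)
  set S : Po V := aeval sb h with hS
  have oS : Ord 1 S := Ord.aeval osb oh
  refine ⟨S, (ord_one_iff).1 oS, ?_, ?_⟩
  · have eP : aeval sb P = z - Polynomial.aeval (w ^ 2) g := by
      rw [hP, map_sub, map_add, aeval_X]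
      have h3 : aeval sb (C z1 : Po V) = C z1 := by simp
      have h4 : aeval sb (Polynomial.aeval (X 1 + C (w1 ^ 2) : Po V) g) =
          Polynomial.aeval (w ^ 2) g := by
        rw [← Polynomial.aeval_algHom_apply, map_add, aeval_X]
        congr 1
        congr 1
        rw [hsb]
        simp
      rw [h3, h4, hsb]
      simp
    have eQ : aeval sb Q = C (e * hf) * z := by
      rw [hQ, map_mul, map_add, aeval_X]
      have h3 : ∀ c : V, aeval sb (C c : Po V) = C c := by intro c; simp
      rw [h3, h3, hsb]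
      simp
    have key : XX (m * ((z - Polynomial.aeval (w ^ 2) g) * pderiv 0 z + C e * z * w * pderiv 0 w))
        (m * ((z - Polynomial.aeval (w ^ 2) g) * pderiv 1 z + C e * z * w * pderiv 1 w)) S =
        m * (aeval sb (XX P Q h)) * (pderiv 0 z * pderiv 1 (w ^ 2) - pderiv 1 z * pderiv 0 (w ^ 2))
        := by
      have e1 : aeval sb (XX P Q h) = aeval sb P * aeval sb (pderiv 1 h) -
          aeval sb Q * aeval sb (pderiv 0 h) := by
        unfold XX; rw [map_sub, map_mul, map_mul]
      have e2 : (C hf * 2 : Po V) = 1 := by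
        have := congrArg (C : V →+* Po V) h2
        rw [map_mul, map_ofNat, map_one] at this
        exact this
      rw [e1, eP, eQ]
      unfold XX
      rw [hS, hsb, te_chain, te_chain]
      simp only [map_sub, pderiv_C, sub_zero, Derivation.leibniz_pow, smul_eq_mul, nsmul_eq_mul,
        map_mul]
      set HX := (aeval ![z - C z1, w ^ 2 - C (w1 ^ 2)]) (pderiv 0 h)
      set HY := (aeval ![z - C z1, w ^ 2 - C (w1 ^ 2)]) (pderiv 1 h)
      push_cast
      simp only [pow_one, Nat.add_one_sub_one]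
      linear_combination (m * C e * z * w * HX * (pderiv 0 z * pderiv 1 w - pderiv 1 z * pderiv 0 w)) * e2
    rw [key]
    exact ((Ord.aeval osb (hh.mono (le_max_left _ _))).mul_left _).mul_right _
  · set k := residue V with hk
    set p : Po (ResidueField V) := map k h1 with hp
    have hkh : map k h = X 1 + X 0 * p := by rw [hhdef]; simp [hp]
    have hSk : map k S = X 1 ^ 2 + X 0 * aeval ![X 0, X 1 ^ 2] p := by
      rw [hS, hsb, te_map_aeval, hkh]
      have e1 : map k (z - C z1) = X 0 := by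
        rw [map_sub, hz, map_C, rz1, C_1]; ring
      have e2 : map k (w ^ 2 - C (w1 ^ 2)) = X 1 ^ 2 := by
        rw [map_sub, map_pow, hw, map_C, map_pow, rw1]; simp
      rw [e1, e2]
      simp
    have hPk : map k P = X 0 := by
      have h3 : map k (Polynomial.aeval (X 1 + C (w1 ^ 2) : Po V) g) =
          Polynomial.aeval (map k (X 1 + C (w1 ^ 2) : Po V)) (g.map k) := by
        rw [Polynomial.aeval_def, Polynomial.hom_eval₂, Polynomial.aeval_def,
          Polynomial.eval₂_map]
        congr 1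
        ext x
        simp
      rw [hP, map_sub, h3, hg, map_add, map_C, rz1, map_X, map_one, map_one]
      ring
    have hQk : map k Q = C (k e * k hf) * (X 0 + 1) := by
      rw [hQ]; simp [rz1]
    have h2k : k hf * 2 = 1 := by
      have := congrArg k h2
      rw [map_mul, map_ofNat, map_one] at this
      exact this
    have hke : k e ≠ 0 := by
      intro h0
      rw [hk, residue_eq_zero_iff] at h0
      exact (mem_maximalIdeal _).1 h0 he
    have hE := (hh.mono (le_max_right _ _)).map k
    rw [map_XX, hPk, hQk, hkh] at hE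
    have eE : XX (X 0) (C (k e * k hf) * (X 0 + 1)) (X 1 + X 0 * p) =
        X 0 * (1 + X 0 * pderiv 1 p) - C (k e * k hf) * (X 0 * (p + X 0 * pderiv 0 p) +
          (p + X 0 * pderiv 0 p)) := by
      unfold XX
      simp [Derivation.leibniz, pderiv_X]
      ring
    rw [eE] at hE
    have c0 := hE 0 (by simp)
    have c1 := hE (Finsupp.single 0 1) (by simp)
    have hx : ∀ f : Po (ResidueField V), coeff 0 (X 0 * f) = 0 := by
      intro f; simp [coeff_X_mul']
    have hx1 : ∀ f : Po (ResidueField V), coeff (Finsupp.single 0 1) (X 0 * f) = coeff 0 f := by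
      intro f; simp [coeff_X_mul']
    have hd : coeff 0 (pderiv 0 p) = coeff (Finsupp.single 0 1) p := by
      rw [coeff_pderiv]; simp
    simp only [coeff_sub, coeff_add, coeff_C_mul, hx, hx1, hd, coeff_zero_one, add_zero,
      zero_add] at c0 c1
    have hkf : k hf ≠ 0 := by
      intro h0; rw [h0, zero_mul] at h2k; exact zero_ne_one h2k
    have p00 : coeff 0 p = 0 := by
      have : k e * k hf * coeff 0 p = 0 := by linear_combination -c0
      exact (mul_eq_zero.1 this).resolve_left (mul_ne_zero hke hkf)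
    have p10 : coeff (Finsupp.single 0 1) p = (k e)⁻¹ := by
      rw [p00] at c1
      have : k e * coeff (Finsupp.single 0 1) p = 1 := by
        linear_combination -c1 - k e * coeff (Finsupp.single 0 1) p * h2k
      exact eq_inv_of_mul_eq_one_right this
    have final : map k S - (X 1 ^ 2 + C (k e)⁻¹ * X 0 ^ 2) =
        X 0 * aeval ![X 0, X 1 ^ 2] (p - C (k e)⁻¹ * X 0) := by
      rw [hSk]
      simp
      ring
    rw [final]
    have := (ord_X (R := ResidueField V) 0).mul (te_sub2 (p - C (k e)⁻¹ * X 0) (by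
      rw [coeff_sub, p00]; simp) (by
      rw [coeff_sub, p10, coeff_C_mul]; simp))
    exact this

end Pool.Agent.CF
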